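import Pool.Agent.N726.BG.Stm

/-!
# Leaf CHR: the number of matrix blocks of the group algebra is at most the number of conjugacy
classes (helper769)
-/

namespace Pool.Agent.N726.BG.Chr

variable {G : Type} [Group G]

/-- a central element has constant coefficients on conjugacy classes -/
lemma conj_coeff {z : MonoidAlgebra ℂ G} (hz : ∀ x : MonoidAlgebra ℂ G, x * z = z * x) (g h : G) :
    z.coeff (g * h * g⁻¹) = z.coeff h := by
  have h1 := hz (MonoidAlgebra.single g 1)
  have h2 : (MonoidAlgebra.single g (1 : ℂ) * z).coeff (g * h) = z.coeff h := by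
    rw [MonoidAlgebra.coeff_single_mul_eq_mul_coeff (m₂ := h), one_mul]
    intro m' _
    exact mul_right_inj g
  have h3 : (z * MonoidAlgebra.single g (1 : ℂ)).coeff (g * h) = z.coeff (g * h * g⁻¹) := by
    rw [MonoidAlgebra.coeff_mul_single_eq_coeff_mul (m₂ := g * h * g⁻¹), mul_one]
    intro m' _
    exact eq_mul_inv_iff_mul_eq.symm
  rw [← h2, ← h3, h1]

/-- the function on the classes -/
noncomputable def cl (z : MonoidAlgebra ℂ G) (c : ConjClasses G) : ℂ := z.coeff c.out

lemma cl_mk {z : MonoidAlgebra ℂ G} (hz : ∀ x : MonoidAlgebra ℂ G, x * z = z * x) (g : G) :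
    cl z (ConjClasses.mk g) = z.coeff g := by
  unfold cl
  have h1 : ConjClasses.mk (ConjClasses.mk g).out = ConjClasses.mk g := Quotient.out_eq _
  rw [ConjClasses.mk_eq_mk_iff_isConj, isConj_iff] at h1
  obtain ⟨c, hc⟩ := h1
  conv_rhs => rw [← hc]
  rw [conj_coeff hz]

end Pool.Agent.N726.BG.Chr

namespace Pool.Agent.N726.BG

theorem chr : S_CHR := by
  classical
  intro G _ _ n d ⟨f⟩
  have : Fintype (ConjClasses G) := Fintype.ofFinite _
  set S := Finset.univ.filter fun j => d j ≠ 0 with hS
  set e : Fin n → (∀ j, Matrix (Fin (d j)) (Fin (d j)) ℂ) := fun j => Pi.single j 1 with he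
  set z : Fin n → MonoidAlgebra ℂ G := fun j => f.symm (e j) with hz
  have hc : ∀ j x, x * z j = z j * x := by
    intro j x
    apply f.injective
    rw [map_mul, map_mul]
    simp only [hz, AlgEquiv.apply_symm_apply, he]
    funext i
    simp only [Pi.mul_apply]
    by_cases hi : i = j
    · subst hi
      rw [Pi.single_eq_same, mul_one, one_mul]
    · rw [Pi.single_eq_of_ne hi, mul_zero, zero_mul]
  have hli : LinearIndependent ℂ fun j : S => Chr.cl (z j) := by
    rw [Fintype.linearIndependent_iff]
    intro a ha j
    -- the combination vanishes in the group algebra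
    have h1 : ∑ i : S, a i • z i = 0 := by
      apply MonoidAlgebra.coeff_injective
      ext g
      have h2 := congrFun ha (ConjClasses.mk g)
      simp only [Finset.sum_apply, Pi.smul_apply, Pi.zero_apply, smul_eq_mul] at h2
      have h3 : ∀ i : S, a i * Chr.cl (z i) (ConjClasses.mk g) = a i * (z i).coeff g := fun i => by
        rw [Chr.cl_mk (hc i)]
      rw [Finset.sum_congr rfl fun i _ => h3 i] at h2
      rw [MonoidAlgebra.coeff_sum]
      simpa using h2
    have h2 : ∑ i : S, a i • e i = 0 := by
      have h3 := congrArg f h1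
      rw [map_sum, map_zero] at h3
      rw [← h3]
      refine Finset.sum_congr rfl fun i _ => ?_
      rw [map_smul]
      simp only [hz, AlgEquiv.apply_symm_apply]
    have h3 := congrFun h2 (j : Fin n)
    rw [Finset.sum_apply, Finset.sum_eq_single j] at h3
    · simp only [he, Pi.smul_apply, Pi.single_eq_same, Pi.zero_apply] at h3
      have hj : d (j : Fin n) ≠ 0 := (Finset.mem_filter.1 j.2).2
      have h4 := congrFun (congrFun h3 ⟨0, Nat.pos_of_ne_zero hj⟩) ⟨0, Nat.pos_of_ne_zero hj⟩
      simpa using h4
    · intro i _ hi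
      simp only [he, Pi.smul_apply]
      rw [Pi.single_eq_of_ne (fun h => hi (Subtype.ext h.symm)), smul_zero]
    · intro h
      exact absurd (Finset.mem_univ _) h
  have h5 := hli.fintype_card_le_finrank
  rw [Module.finrank_fintype_fun_eq_card, Fintype.card_coe] at h5
  rwa [Nat.card_eq_fintype_card]

end Pool.Agent.N726.BG
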