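import Pool.Agent.N726.BG.Stm

/-!
# Project SB, leaf PWR: power means
-/

set_option autoImplicit false

namespace Pool.Agent.N726.BG

open Finset

namespace Pwr

theorem sum_rpow_le {I : Type} [Fintype I] (t : I → ℝ) (ht : ∀ i, 0 ≤ t i) {q : ℝ} (hq : 1 ≤ q) :
    ∑ i, t i ^ q ≤ (∑ i, t i) ^ q := by
  have hT : 0 ≤ ∑ i, t i := Finset.sum_nonneg fun i _ => ht i
  have key : ∀ a : ℝ, 0 ≤ a → a ^ q = a * a ^ (q - 1) := by
    intro a ha
    rcases ha.eq_or_lt with h | h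
    · rw [← h, Real.zero_rpow (by linarith), zero_mul]
    · rw [Real.rpow_sub_one h.ne']
      field_simp
  calc ∑ i, t i ^ q = ∑ i, t i * t i ^ (q - 1) := Finset.sum_congr rfl fun i _ => key _ (ht i)
    _ ≤ ∑ i, t i * (∑ i, t i) ^ (q - 1) := by
        refine Finset.sum_le_sum fun i _ => mul_le_mul_of_nonneg_left ?_ (ht i)
        exact Real.rpow_le_rpow (ht i)
          (Finset.single_le_sum (f := t) (fun j _ => ht j) (Finset.mem_univ i)) (by linarith)
    _ = (∑ i, t i) ^ q := by rw [← Finset.sum_mul, ← key _ hT]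

end Pwr

open Pwr

theorem pwr : S_PWR := by
  intro n k X d I _ m Y ω hX hX1 hk hω hY hm hkY
  set q : ℝ := ω / 2 with hq
  have hq1 : 1 ≤ q := by rw [hq]; linarith
  have hω0 : ω ≠ 0 := by intro h; rw [h] at hω; norm_num at hω
  -- (1)
  set T := ∑ i, (m i : ℝ) ^ ((2 : ℝ) / 3) with hT
  have hT0 : 0 ≤ T := Finset.sum_nonneg fun i _ => Real.rpow_nonneg (Nat.cast_nonneg _) _
  have s1 : ∑ i, (m i : ℝ) ^ (ω / 3) ≤ T ^ q := by
    have h := sum_rpow_le (fun i => (m i : ℝ) ^ ((2 : ℝ) / 3))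
      (fun i => Real.rpow_nonneg (Nat.cast_nonneg _) _) hq1
    refine le_trans (le_of_eq ?_) h
    refine Finset.sum_congr rfl fun i _ => ?_
    rw [← Real.rpow_mul (Nat.cast_nonneg _)]
    congr 1
    rw [hq]
    ring
  -- (2)
  set S := Finset.univ.filter fun j => d j ≠ 0 with hS
  have e1 : (X : ℝ) = ∑ j ∈ S, (d j : ℝ) ^ (2 : ℝ) := by
    rw [← hX]
    push_cast
    rw [hS, Finset.sum_filter]
    refine Finset.sum_congr rfl fun j _ => ?_
    by_cases h : d j = 0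
    · simp [h]
    · rw [if_pos h, Real.rpow_two, sq]
  have s2 : (X : ℝ) ^ q ≤ (k : ℝ) ^ (q - 1) * ∑ j, (d j : ℝ) ^ ω := by
    have h := Real.rpow_sum_le_const_mul_sum_rpow_of_nonneg S (f := fun j => (d j : ℝ) ^ (2 : ℝ))
      (p := q) hq1 (fun j _ => Real.rpow_nonneg (Nat.cast_nonneg _) _)
    rw [e1]
    refine h.trans ?_
    refine mul_le_mul ?_ ?_ (Finset.sum_nonneg fun j _ => Real.rpow_nonneg
      (Real.rpow_nonneg (Nat.cast_nonneg _) _) _) (Real.rpow_nonneg (Nat.cast_nonneg _) _)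
    · exact Real.rpow_le_rpow (Nat.cast_nonneg _) (by exact_mod_cast hk) (by linarith)
    · have e2 : ∀ j, ((d j : ℝ) ^ (2 : ℝ)) ^ q = (d j : ℝ) ^ ω := by
        intro j
        rw [← Real.rpow_mul (Nat.cast_nonneg _)]
        congr 1
        rw [hq]
        ring
      simp only [e2]
      exact Finset.sum_le_sum_of_subset_of_nonneg (Finset.subset_univ _)
        fun j _ _ => Real.rpow_nonneg (Nat.cast_nonneg _) _
  -- (3)
  have s3 : (k : ℝ) ^ (q - 1) ≤ Y ^ q := by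
    have h := Real.rpow_le_rpow (Real.rpow_nonneg (Nat.cast_nonneg _) _) hkY
      (show 0 ≤ q by linarith)
    rw [← Real.rpow_mul (Nat.cast_nonneg _)] at h
    refine le_trans (le_of_eq ?_) h
    congr 1
    rw [hq]
    field_simp
  have hR : 0 ≤ ∑ j, (d j : ℝ) ^ ω := Finset.sum_nonneg fun j _ => Real.rpow_nonneg (Nat.cast_nonneg _) _
  have hYq : 0 < Y ^ q := Real.rpow_pos_of_pos hY _
  refine s1.trans ?_
  have h4 : T ^ q * Y ^ q ≤ (X : ℝ) ^ q := by
    rw [← Real.mul_rpow hT0 hY.le]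
    exact Real.rpow_le_rpow (mul_nonneg hT0 hY.le) hm (by linarith)
  have h5 : T ^ q * Y ^ q ≤ (∑ j, (d j : ℝ) ^ ω) * Y ^ q := by
    refine h4.trans (s2.trans ?_)
    rw [mul_comm]
    exact mul_le_mul_of_nonneg_left s3 hR
  exact le_of_mul_le_mul_right h5 hYq

end Pool.Agent.N726.BG
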