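import Mathlib

/-!
# Barriers for the group-theoretic approach to matrix multiplication: definitions

The simultaneous triple product property, isotropic spaces of functions on a group.
-/

namespace Pool.Agent.N726.BG

open Finset

/-- The simultaneous triple product property of Cohn, Kleinberg, Szegedy and Umans. -/
def STPP {G : Type*} [Group G] {I : Type*} (A B C : I → Finset G) : Prop :=
  ∀ i j k, ∀ a ∈ A i, ∀ a' ∈ A j, ∀ b ∈ B j, ∀ b' ∈ B k, ∀ c ∈ C k, ∀ c' ∈ C i,
    a * a'⁻¹ * (b * b'⁻¹) * (c * c'⁻¹) = 1 → i = j ∧ j = k ∧ a = a' ∧ b = b' ∧ c = c'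

/-- The space `J` of functions on the finite group `H` is invariant under right translations and
the trilinear form `∑ u(g) v(h) w((gh)⁻¹)` vanishes on it. -/
structure Iso {F H : Type*} [Field F] [Group H] [Fintype H] (J : Submodule F (H → F)) : Prop where
  inv : ∀ u ∈ J, ∀ g : H, (fun h => u (h * g)) ∈ J
  tri : ∀ u ∈ J, ∀ v ∈ J, ∀ w ∈ J, ∑ g : H, ∑ h : H, u g * v h * w (g * h)⁻¹ = 0

/-- There is such a space of codimension at most `ρ |H|`. -/
def Good (H : Type) [Group H] [Fintype H] (ρ : ℝ) : Prop :=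
  ∃ (F : Type) (_ : Field F) (J : Submodule F (H → F)), Iso J ∧
    (Fintype.card H : ℝ) - Module.finrank F J ≤ ρ * Fintype.card H

/-- The set of the `a⁻¹ b` with `a ∈ A l`, `b ∈ B l` for some `l`. -/
def XX {G : Type*} [Group G] [DecidableEq G] {L : Type*} [Fintype L] (A B : L → Finset G) :
    Finset G :=
  Finset.univ.biUnion fun l => ((A l) ×ˢ (B l)).image fun q => q.1⁻¹ * q.2

/-- Mixing: the number of solutions of `x y z = 1` in `X × Y × Z` is about `|X||Y||Z|/|H|`. -/
def Mixing (H : Type) [Group H] [Fintype H] [DecidableEq H] (D : ℕ) : Prop :=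
  ∀ X Y Z : Finset H,
    ((((X ×ˢ Y).filter fun q => (q.1 * q.2)⁻¹ ∈ Z).card : ℝ) -
      (X.card * Y.card * Z.card : ℝ) / Fintype.card H) ^ 2 * D ≤
    (Fintype.card H : ℝ) * (X.card * Y.card * Z.card)

/-- Every complex representation of dimension less than `D` is trivial. -/
def Quasirandom (H : Type) [Group H] (D : ℕ) : Prop :=
  ∀ n < D, ∀ ρ : H →* Matrix (Fin n) (Fin n) ℂ, ρ = 1

end Pool.Agent.N726.BG
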