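import Mathlib
import Pool.Agent.N726.BG.Defs

/-!
# Statements of the leaves of project SB (subgroup barriers)
-/

namespace Pool.Agent.N726.BG

open Finset

/-- leaf PIV1 -/
def S_PIV1 : Prop := ∀ (F : Type) [Field F] (H : Type) [Fintype H] [DecidableEq H]
  (J : Submodule F (H → F)) (Y : Finset H) (k : H → ℤ) (N : Finset H),
  (∀ y ∈ N, y ∈ Y ∧ ¬ ∃ v ∈ J, v y ≠ 0 ∧ (∀ h, h ∉ Y → v h = 0) ∧
    (∀ h ∈ Y, k h < k y → v h = 0)) →
  N.card + Module.finrank F J ≤ Fintype.card H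

/-- leaf PIV -/
def S_PIV : Prop := ∀ (G H F : Type) [Group G] [Fintype G] [DecidableEq G] [Group H] [Fintype H]
  [DecidableEq H] [Field F] (φ : H →* G), Function.Injective φ →
  ∀ (J : Submodule F (H → F)), Iso J → ∀ (X Y Z : Finset G) (kx ky kz : G → ℤ),
  (∀ x ∈ X, ∀ y ∈ Y, ∀ z ∈ Z, x * y * z = 1 → kx x + ky y + kz z ≤ 0) →
  Set.InjOn kx X →
  ∀ (T : Finset (G × G)), (∀ q ∈ T, q.1 ∈ X ∧ q.2 ∈ Y ∧ (q.1 * q.2)⁻¹ ∈ Z ∧
    kx q.1 + ky q.2 + kz (q.1 * q.2)⁻¹ = 0) →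
  (∀ q ∈ T, ∀ y ∈ Y, (q.1 * y)⁻¹ ∈ Z → kx q.1 + ky y + kz (q.1 * y)⁻¹ = 0 → y = q.2) →
  (∀ q ∈ T, ∀ q' ∈ T, q.2 = q'.2 → q = q') → (∀ q ∈ T, ∀ q' ∈ T, q.1 * q.2 = q'.1 * q'.2 → q = q') →
  T.card * Fintype.card H ≤ 3 * Fintype.card G * (Fintype.card H - Module.finrank F J)

/-- leaf BLO: blocks of equal size -/
def S_BLO : Prop := ∀ (G H F : Type) [Group G] [Fintype G] [Group H] [Fintype H]
  [Field F] (φ : H →* G), Function.Injective φ →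
  ∀ (J : Submodule F (H → F)), Iso J → ∀ (ι : Type) [Fintype ι] (m : ℕ) (a b c : ι → Fin m → G),
  (∀ i j k α α' β β' γ γ', a i α * (a j α')⁻¹ * (b j β * (b k β')⁻¹) * (c k γ * (c i γ')⁻¹) = 1 →
    i = j ∧ j = k ∧ α = α' ∧ β = β' ∧ γ = γ') →
  Fintype.card ι * m ^ 2 * Fintype.card H ≤
    9 * Fintype.card G * (Fintype.card H - Module.finrank F J)

/-- leaf POW -/
def S_POW : Prop := ∀ (G H : Type) [Group G] [Fintype G] [Group H] [Fintype H]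
  (φ : H →* G), Function.Injective φ → ∀ (ρ : ℝ), 0 < ρ →
  (∀ N : ℕ, 1 ≤ N → Good (Fin 3 × Fin N → H) (ρ ^ (3 * N))) →
  ∀ (I : Type) [Fintype I] (A B C : I → Finset G), STPP A B C →
  ∑ i, (((A i).card * (B i).card * (C i).card : ℕ) : ℝ) ^ ((2 : ℝ) / 3) ≤ ρ * Fintype.card G

/-- leaf ELA -/
def S_ELA : Prop := ∀ (p : ℕ) [Fact p.Prime] (κ : Type) [Fintype κ] [DecidableEq κ] (m : ℕ),
  (p - 1) * Fintype.card κ < 3 * m →
  ∃ J : Submodule (ZMod p) (Multiplicative (κ → ZMod p) → ZMod p), Iso J ∧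
    Fintype.card (Multiplicative (κ → ZMod p)) ≤ Module.finrank (ZMod p) J +
      (univ.filter fun e : κ → Fin p => ∑ i, (e i : ℕ) < m).card

/-- leaf ELB -/
def S_ELB : Prop := ∀ (p : ℕ), 2 ≤ p → ∀ (κ : Type) [Fintype κ] [DecidableEq κ],
  ((univ.filter fun e : κ → Fin p => 3 * ∑ i, (e i : ℕ) ≤ (p - 1) * Fintype.card κ).card : ℝ) ≤
    Real.exp (-(Fintype.card κ : ℝ) / 18) * (p : ℝ) ^ Fintype.card κ

/-- S_ELA and S_ELB together -/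
def S_ELEM : Prop := ∀ (p : ℕ) [Fact p.Prime] (κ : Type) [Fintype κ] [DecidableEq κ],
  Good (Multiplicative (κ → ZMod p)) (Real.exp (-(Fintype.card κ : ℝ) / 18))

/-- leaf CHR -/
def S_CHR : Prop := ∀ (G : Type) [Group G] [Finite G] (n : ℕ) (d : Fin n → ℕ),
  Nonempty (MonoidAlgebra ℂ G ≃ₐ[ℂ] ∀ j, Matrix (Fin (d j)) (Fin (d j)) ℂ) →
  (Finset.univ.filter fun j => d j ≠ 0).card ≤ Nat.card (ConjClasses G)

/-- leaf PWR -/
def S_PWR : Prop := ∀ (n k X : ℕ) (d : Fin n → ℕ) (I : Type) [Fintype I] (m : I → ℕ) (Y ω : ℝ),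
  ∑ j, d j * d j = X → 1 ≤ X → (Finset.univ.filter fun j => d j ≠ 0).card ≤ k → 2 ≤ ω → 0 < Y →
  (∑ i, (m i : ℝ) ^ ((2 : ℝ) / 3)) * Y ≤ X → (k : ℝ) ^ ((ω - 2) / ω) ≤ Y →
  ∑ i, (m i : ℝ) ^ (ω / 3) ≤ ∑ j, (d j : ℝ) ^ ω

/-- leaf PART -/
def S_PART : Prop := ∀ c : ℝ, 0 < c → ∃ n₀ : ℕ, ∀ n ≥ n₀,
  (Nat.card (ConjClasses (Equiv.Perm (Fin n))) : ℝ) ≤ Real.exp (c * n)

/-- leaf ALT -/
def S_ALT : Prop := ∀ (G : Type) [Group G] [Finite G] (K : Subgroup G),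
  Nat.card (ConjClasses K) ≤ K.index * Nat.card (ConjClasses G)

/-- leaf PRD -/
def S_PRD : Prop := ∀ (ι : Type) [Fintype ι] (G : ι → Type) [∀ i, Group (G i)] [∀ i, Finite (G i)],
  Nat.card (ConjClasses (∀ i, G i)) ≤ ∏ i, Nat.card (ConjClasses (G i))

/-- leaf EMB -/
def S_EMB : Prop := ∀ n : ℕ,
  (∃ φ : Multiplicative (Fin (n / 2) → ZMod 2) →* Equiv.Perm (Fin n), Function.Injective φ) ∧
  (∃ φ : Multiplicative (Fin (n / 2 - 1) → ZMod 2) →* alternatingGroup (Fin n),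
    Function.Injective φ)

/-- leaf MIX -/
def S_MIX : Prop := ∀ (H : Type) [Group H] [Fintype H] [DecidableEq H] (D : ℕ), Nontrivial H →
  Quasirandom H D → D ≤ Fintype.card H ∧ Mixing H D

/-- leaf BLK -/
def S_BLK : Prop := ∀ (H : Type) [Group H] [Fintype H] [DecidableEq H] (D : ℕ), 1 ≤ D →
  D ≤ Fintype.card H → Mixing H D → ∀ (L : Type) [Fintype L] (A B C : L → Finset H),
  STPP A B C → (XX A B).card * (XX B C).card * (XX C A).card * D ≤ 4 * Fintype.card H ^ 3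

/-- leaf AVG -/
def S_AVG : Prop := ∀ (G H : Type) [Group G] [Fintype G] [DecidableEq G] [Group H] [Fintype H]
  (φ : H →* G), Function.Injective φ → ∀ (κ : ℝ), 0 < κ → ∀ (I : Type) [Fintype I]
  (A B C : I → Finset G), STPP A B C →
  (∀ s t r : G, ((univ.filter fun h : H => s⁻¹ * φ h * t ∈ XX A B).card : ℝ) *
    (univ.filter fun h : H => t⁻¹ * φ h * r ∈ XX B C).card *
    (univ.filter fun h : H => r⁻¹ * φ h * s ∈ XX C A).card ≤ κ * (Fintype.card H : ℝ) ^ 3) →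
  ∑ i, (((A i).card * (B i).card * (C i).card : ℕ) : ℝ) ^ ((2 : ℝ) / 3) ≤
    κ ^ ((1 : ℝ) / 3) * Fintype.card G

/-- leaf TRA -/
def S_TRA : Prop := ∀ (G H : Type) [Group G] [Fintype G] [DecidableEq G] [Group H] [Fintype H]
  [DecidableEq H] (φ : H →* G), Function.Injective φ → ∀ (D : ℕ), 1 ≤ D →
  (∀ (L : Type) [Fintype L] (A B C : L → Finset H),
    STPP A B C → (XX A B).card * (XX B C).card * (XX C A).card * D ≤ 4 * Fintype.card H ^ 3) →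
  ∀ (I : Type) [Fintype I] (A B C : I → Finset G), STPP A B C →
  (∀ s t r : G, ((univ.filter fun h : H => s⁻¹ * φ h * t ∈ XX A B).card) *
    (univ.filter fun h : H => t⁻¹ * φ h * r ∈ XX B C).card *
    (univ.filter fun h : H => r⁻¹ * φ h * s ∈ XX C A).card * D ≤ 4 * (Fintype.card H) ^ 3)

/-- leaf SL2 -/
def S_SL2 : Prop := ∀ (K : Type) [Field K] [Fintype K] [DecidableEq K] (n : ℕ),
  2 * n + 1 < Fintype.card K →
  ∀ ρ : Matrix.SpecialLinearGroup (Fin 2) K →* Matrix (Fin n) (Fin n) ℂ, ρ = 1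

/-- leaf SLN -/
def S_SLN : Prop := ∀ (K : Type) [Field K] [Fintype K] [DecidableEq K] (d n : ℕ), 3 ≤ d →
  n + 1 < Fintype.card K ^ (d - 1) →
  ∀ ρ : Matrix.SpecialLinearGroup (Fin d) K →* Matrix (Fin n) (Fin n) ℂ, ρ = 1

end Pool.Agent.N726.BG
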