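import Mathlib
import Pool.Agent.N726.BG.Stm

/-!
# The pivot theorem

If `X, Y, Z` are the supports of a (combinatorially degenerate) multiplicative matching in `G` and
`H` is a group which embeds in `G`, then the size of the matching is at most
`3 |G| codim J / |H|` for every isotropic right ideal `J` of the group algebra of `H`.
-/

namespace Pool.Agent.N726.BG

open Finset

theorem piv1 : S_PIV1 := by
  intro F _ H _ _ J Y k N hN
  classical
  let R : J →ₗ[F] ({h // h ∉ N} → F) :=
    (LinearMap.funLeft F F (fun h : {h // h ∉ N} => (h : H))) ∘ₗ J.subtype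
  have hR : Function.Injective R := by
    rw [← LinearMap.ker_eq_bot, LinearMap.ker_eq_bot']
    intro v hv
    by_contra hne
    have hv0 : ∀ h, h ∉ N → (v : H → F) h = 0 := fun h hh => congrFun hv ⟨h, hh⟩
    have hsupp : (Finset.univ.filter fun h => (v : H → F) h ≠ 0).Nonempty := by
      by_contra hemp
      rw [Finset.not_nonempty_iff_eq_empty, Finset.filter_eq_empty_iff] at hemp
      apply hne
      apply Subtype.ext
      funext h
      have := hemp (Finset.mem_univ h)
      simpa using this
    obtain ⟨y, hy, hmin⟩ := Finset.exists_min_image _ k hsupp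
    rw [Finset.mem_filter] at hy
    have hyN : y ∈ N := by
      by_contra h
      exact hy.2 (hv0 y h)
    apply (hN y hyN).2
    refine ⟨v, v.2, hy.2, ?_, ?_⟩
    · intro h hh
      apply hv0
      intro hh'
      exact hh (hN h hh').1
    · intro h _ hlt
      by_contra h0
      have := hmin h (Finset.mem_filter.2 ⟨Finset.mem_univ _, h0⟩)
      omega
  have h1 := LinearMap.finrank_le_finrank_of_injective hR
  rw [Module.finrank_fintype_fun_eq_card] at h1
  have h2 : Fintype.card {h // h ∉ N} = Fintype.card H - N.card := by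
    rw [Fintype.card_subtype_compl]
    simp
  have h3 : N.card ≤ Fintype.card H := Finset.card_le_univ N
  omega

section Pv

variable {G H F : Type} [Group G] [Fintype G] [DecidableEq G] [Group H] [Fintype H]
  [DecidableEq H] [Field F] (φ : H →* G)

/-- `h` is a pivot of the slice `{h | s⁻¹ φ(h) t ∈ W}` -/
def Pv (J : Submodule F (H → F)) (W : Finset G) (k : G → ℤ) (s t : G) (h : H) : Prop :=
  ∃ u ∈ J, u h ≠ 0 ∧ (∀ h', s⁻¹ * φ h' * t ∉ W → u h' = 0) ∧
    (∀ h', s⁻¹ * φ h' * t ∈ W → k (s⁻¹ * φ h' * t) < k (s⁻¹ * φ h * t) → u h' = 0)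

omit [Fintype G] [DecidableEq G] [DecidableEq H] in
theorem Pv.shift {J : Submodule F (H → F)} (hJ : Iso J) {W : Finset G} {k : G → ℤ} {s t : G}
    {h : H} (hp : Pv φ J W k s t h) : Pv φ J W k s (φ h * t) 1 := by
  obtain ⟨u, hu, h0, h1, h2⟩ := hp
  have e : ∀ h' : H, s⁻¹ * φ h' * (φ h * t) = s⁻¹ * φ (h' * h) * t := by
    intro h'
    rw [map_mul]
    group
  refine ⟨fun h' => u (h' * h), hJ.inv u hu h, by simpa using h0, ?_, ?_⟩
  · intro h' hh'
    rw [e] at hh'
    exact h1 _ hh'
  · intro h' hh' hlt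
    rw [e] at hh' hlt
    rw [e, one_mul] at hlt
    exact h2 _ hh' hlt

open Classical in
theorem bad_le {J : Submodule F (H → F)} (hJ : Iso J) (W : Finset G) (k : G → ℤ) (s : G) :
    (W.filter fun x => ¬ Pv φ J W k s (s * x) 1).card * Fintype.card H ≤
      Fintype.card G * (Fintype.card H - Module.finrank F J) := by
  set B := W.filter fun x => ¬ Pv φ J W k s (s * x) 1 with hB
  -- the non-pivots of the slices
  let N : G → Finset H := fun t => Finset.univ.filter fun h => s⁻¹ * φ h * t ∈ B
  have hN : ∀ t, (N t).card ≤ Fintype.card H - Module.finrank F J := by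
    intro t
    have h1 := piv1 F H J (Finset.univ.filter fun h => s⁻¹ * φ h * t ∈ W)
      (fun h => k (s⁻¹ * φ h * t)) (N t) ?_
    · omega
    · intro y hy
      have hy' : s⁻¹ * φ y * t ∈ B := (Finset.mem_filter.1 hy).2
      rw [hB, Finset.mem_filter] at hy'
      refine ⟨Finset.mem_filter.2 ⟨Finset.mem_univ _, hy'.1⟩, ?_⟩
      rintro ⟨v, hv, h0, h1, h2⟩
      apply hy'.2
      have e : s * (s⁻¹ * φ y * t) = φ y * t := by group
      rw [e]
      refine Pv.shift φ hJ ⟨v, hv, h0, ?_, ?_⟩
      · intro h' hh'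
        refine h1 h' ?_
        rw [Finset.mem_filter]
        exact fun hc => hh' hc.2
      · intro h' hh' hlt
        exact h2 h' (Finset.mem_filter.2 ⟨Finset.mem_univ _, hh'⟩) hlt
  calc B.card * Fintype.card H = (B ×ˢ (Finset.univ : Finset H)).card := by
        rw [Finset.card_product, Finset.card_univ]
    _ ≤ (Finset.univ.sigma N).card := by
        refine Finset.card_le_card_of_injOn
          (fun q => (⟨(φ q.2)⁻¹ * s * q.1, q.2⟩ : (_ : G) × H)) ?_ ?_
        · intro q hq
          have hq' := Finset.mem_product.1 (Finset.mem_coe.1 hq)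
          refine Finset.mem_coe.2 (Finset.mem_sigma.2 ⟨Finset.mem_univ _, ?_⟩)
          refine Finset.mem_filter.2 ⟨Finset.mem_univ _, ?_⟩
          have e : s⁻¹ * φ q.2 * ((φ q.2)⁻¹ * s * q.1) = q.1 := by group
          change s⁻¹ * φ q.2 * ((φ q.2)⁻¹ * s * q.1) ∈ B
          rw [e]
          exact hq'.1
        · rintro ⟨x, h⟩ _ ⟨x', h'⟩ _ he
          simp only [Sigma.mk.injEq, heq_eq_eq] at he
          obtain ⟨he1, he2⟩ := he
          subst he2
          have := mul_left_cancel he1
          rw [this]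
    _ = ∑ t, (N t).card := Finset.card_sigma _ _
    _ ≤ ∑ _t : G, (Fintype.card H - Module.finrank F J) :=
        Finset.sum_le_sum fun t _ => hN t
    _ = _ := by rw [Finset.sum_const, Finset.card_univ, smul_eq_mul]

end Pv

theorem piv : S_PIV := by
  intro G H F _ _ _ _ _ _ _ φ hφ J hJ X Y Z kx ky kz hk hinj T hT huniq h2inj h3inj
  classical
  have h1inj : ∀ q ∈ T, ∀ q' ∈ T, q.1 = q'.1 → q = q' := by
    intro q hq q' hq' he
    obtain ⟨a1, a2, a3, a4⟩ := hT q hq
    obtain ⟨b1, b2, b3, b4⟩ := hT q' hq'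
    rw [← he] at b3 b4
    have := huniq q hq q'.2 b2 b3 b4
    exact Prod.ext he this.symm
  -- one of the three is not a pivot
  have key : ∀ q ∈ T, ∀ s : G, ¬ (Pv φ J X kx s (s * q.1) 1 ∧
      Pv φ J Y ky (s * q.1) (s * q.1 * q.2) 1 ∧ Pv φ J Z kz (s * q.1 * q.2) s 1) := by
    rintro ⟨x, y⟩ hq s ⟨⟨u, hu, u0, u1, u2⟩, ⟨v, hv, v0, v1, v2⟩, ⟨w, hw, w0, w1, w2⟩⟩
    obtain ⟨hx, hy, hz, hsum⟩ := hT _ hq
    simp only at hx hy hz hsum u0 u1 u2 v0 v1 v2 w0 w1 w2
    have ex : s⁻¹ * φ 1 * (s * x) = x := by rw [map_one]; group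
    have ey : (s * x)⁻¹ * φ 1 * (s * x * y) = y := by rw [map_one]; group
    have ez : (s * x * y)⁻¹ * φ 1 * s = (x * y)⁻¹ := by rw [map_one]; group
    rw [ex] at u2
    rw [ey] at v2
    rw [ez] at w2
    have htri := hJ.tri u hu v hv w hw
    have hterm : ∀ g h : H, u g * v h * w (g * h)⁻¹ ≠ 0 → g = 1 ∧ h = 1 := by
      intro g h hne
      have hug : u g ≠ 0 := fun h0 => hne (by rw [h0]; ring)
      have hvh : v h ≠ 0 := fun h0 => hne (by rw [h0]; ring)
      have hwgh : w (g * h)⁻¹ ≠ 0 := fun h0 => hne (by rw [h0]; ring)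
      have mx : s⁻¹ * φ g * (s * x) ∈ X := by
        by_contra hc; exact hug (u1 _ hc)
      have my : (s * x)⁻¹ * φ h * (s * x * y) ∈ Y := by
        by_contra hc; exact hvh (v1 _ hc)
      have mz : (s * x * y)⁻¹ * φ (g * h)⁻¹ * s ∈ Z := by
        by_contra hc; exact hwgh (w1 _ hc)
      have lx : kx x ≤ kx (s⁻¹ * φ g * (s * x)) := by
        by_contra hc; exact hug (u2 _ mx (not_le.1 hc))
      have ly : ky y ≤ ky ((s * x)⁻¹ * φ h * (s * x * y)) := by
        by_contra hc; exact hvh (v2 _ my (not_le.1 hc))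
      have lz : kz (x * y)⁻¹ ≤ kz ((s * x * y)⁻¹ * φ (g * h)⁻¹ * s) := by
        by_contra hc; exact hwgh (w2 _ mz (not_le.1 hc))
      have hprod : (s⁻¹ * φ g * (s * x)) * ((s * x)⁻¹ * φ h * (s * x * y)) *
          ((s * x * y)⁻¹ * φ (g * h)⁻¹ * s) = 1 := by
        rw [map_inv, map_mul]
        group
      have hle := hk _ mx _ my _ mz hprod
      have e1 : kx (s⁻¹ * φ g * (s * x)) = kx x := by omega
      have e2 : s⁻¹ * φ g * (s * x) = x := hinj mx hx e1
      have e3 : φ g = 1 := by
        have : s⁻¹ * φ g * s * x = 1 * x := by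
          rw [one_mul]
          conv_rhs => rw [← e2]
          group
        have h4 := mul_right_cancel this
        calc φ g = s * (s⁻¹ * φ g * s) * s⁻¹ := by group
          _ = 1 := by rw [h4]; group
      have e4 : g = 1 := hφ (by rw [e3, map_one])
      have e5 : ((s * x * y)⁻¹ * φ (g * h)⁻¹ * s) =
          (x * ((s * x)⁻¹ * φ h * (s * x * y)))⁻¹ := by
        rw [map_inv, map_mul, e3]
        group
      have e6 : (s * x)⁻¹ * φ h * (s * x * y) = y := by
        refine huniq _ hq _ my ?_ ?_
        · simp only; rw [← e5]; exact mz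
        · simp only; rw [← e5]; omega
      have e7 : φ h = 1 := by
        have : (s * x)⁻¹ * φ h * (s * x) * y = 1 * y := by
          rw [one_mul]
          conv_rhs => rw [← e6]
          group
        have h4 := mul_right_cancel this
        calc φ h = (s * x) * ((s * x)⁻¹ * φ h * (s * x)) * (s * x)⁻¹ := by group
          _ = 1 := by rw [h4]; group
      exact ⟨e4, hφ (by rw [e7, map_one])⟩
    have hsum1 : ∑ g : H, ∑ h : H, u g * v h * w (g * h)⁻¹ = u 1 * v 1 * w 1 := by
      rw [Finset.sum_eq_single 1]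
      · rw [Finset.sum_eq_single 1]
        · simp
        · intro h _ hh
          by_contra hne
          exact hh (hterm _ _ hne).2
        · intro h; exact absurd (Finset.mem_univ _) h
      · intro g _ hg
        refine Finset.sum_eq_zero fun h _ => ?_
        by_contra hne
        exact hg (hterm _ _ hne).1
      · intro h; exact absurd (Finset.mem_univ _) h
    rw [hsum1] at htri
    exact mul_ne_zero (mul_ne_zero u0 v0) w0 htri
  set c := Fintype.card H - Module.finrank F J with hc
  -- the three sets of bad pairs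
  let b1 : G → Finset G := fun s => X.filter fun x => ¬ Pv φ J X kx s (s * x) 1
  let b2 : G → Finset G := fun s => Y.filter fun x => ¬ Pv φ J Y ky s (s * x) 1
  let b3 : G → Finset G := fun s => Z.filter fun x => ¬ Pv φ J Z kz s (s * x) 1
  have hb1 : ∀ s, (b1 s).card * Fintype.card H ≤ Fintype.card G * c := bad_le φ hJ X kx
  have hb2 : ∀ s, (b2 s).card * Fintype.card H ≤ Fintype.card G * c := bad_le φ hJ Y ky
  have hb3 : ∀ s, (b3 s).card * Fintype.card H ≤ Fintype.card G * c := bad_le φ hJ Z kz
  have hcover : ((Finset.univ : Finset G) ×ˢ T).card ≤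
      (Finset.univ.sigma b1).card + (Finset.univ.sigma b2).card + (Finset.univ.sigma b3).card := by
    set S1 := ((Finset.univ : Finset G) ×ˢ T).filter fun r =>
      ¬ Pv φ J X kx r.1 (r.1 * r.2.1) 1 with hS1
    set S2 := ((Finset.univ : Finset G) ×ˢ T).filter fun r =>
      ¬ Pv φ J Y ky (r.1 * r.2.1) (r.1 * r.2.1 * r.2.2) 1 with hS2
    set S3 := ((Finset.univ : Finset G) ×ˢ T).filter fun r =>
      ¬ Pv φ J Z kz (r.1 * r.2.1 * r.2.2) r.1 1 with hS3
    have hsub : ((Finset.univ : Finset G) ×ˢ T) ⊆ (S1 ∪ S2) ∪ S3 := by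
      intro r hr
      have hr' := (Finset.mem_product.1 hr).2
      have := key r.2 hr' r.1
      rw [Finset.mem_union, Finset.mem_union, hS1, hS2, hS3, Finset.mem_filter, Finset.mem_filter,
        Finset.mem_filter]
      by_cases c1 : Pv φ J X kx r.1 (r.1 * r.2.1) 1
      · by_cases c2 : Pv φ J Y ky (r.1 * r.2.1) (r.1 * r.2.1 * r.2.2) 1
        · right
          exact ⟨hr, fun c3 => this ⟨c1, c2, c3⟩⟩
        · left; right
          exact ⟨hr, c2⟩
      · left; left
        exact ⟨hr, c1⟩
    have l1 : S1.card ≤ (Finset.univ.sigma b1).card := by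
      refine Finset.card_le_card_of_injOn (fun r => (⟨r.1, r.2.1⟩ : (_ : G) × G)) ?_ ?_
      · intro r hr
        have hr := Finset.mem_filter.1 (Finset.mem_coe.1 hr)
        have hrT := (Finset.mem_product.1 hr.1).2
        exact Finset.mem_coe.2 (Finset.mem_sigma.2 ⟨Finset.mem_univ _,
          Finset.mem_filter.2 ⟨(hT _ hrT).1, hr.2⟩⟩)
      · intro r hr r' hr' he
        have hr := Finset.mem_filter.1 (Finset.mem_coe.1 hr)
        have hr' := Finset.mem_filter.1 (Finset.mem_coe.1 hr')
        simp only [Sigma.mk.injEq, heq_eq_eq] at he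
        exact Prod.ext he.1 (h1inj _ (Finset.mem_product.1 hr.1).2 _
          (Finset.mem_product.1 hr'.1).2 he.2)
    have l2 : S2.card ≤ (Finset.univ.sigma b2).card := by
      refine Finset.card_le_card_of_injOn (fun r => (⟨r.1 * r.2.1, r.2.2⟩ : (_ : G) × G)) ?_ ?_
      · intro r hr
        have hr := Finset.mem_filter.1 (Finset.mem_coe.1 hr)
        have hrT := (Finset.mem_product.1 hr.1).2
        exact Finset.mem_coe.2 (Finset.mem_sigma.2 ⟨Finset.mem_univ _,
          Finset.mem_filter.2 ⟨(hT _ hrT).2.1, hr.2⟩⟩)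
      · intro r hr r' hr' he
        have hr := Finset.mem_filter.1 (Finset.mem_coe.1 hr)
        have hr' := Finset.mem_filter.1 (Finset.mem_coe.1 hr')
        simp only [Sigma.mk.injEq, heq_eq_eq] at he
        have e1 := h2inj _ (Finset.mem_product.1 hr.1).2 _ (Finset.mem_product.1 hr'.1).2 he.2
        have e2 := he.1
        rw [e1] at e2
        exact Prod.ext (mul_right_cancel e2) e1
    have l3 : S3.card ≤ (Finset.univ.sigma b3).card := by
      refine Finset.card_le_card_of_injOn
        (fun r => (⟨r.1 * r.2.1 * r.2.2, (r.2.1 * r.2.2)⁻¹⟩ : (_ : G) × G)) ?_ ?_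
      · intro r hr
        have hr := Finset.mem_filter.1 (Finset.mem_coe.1 hr)
        have hrT := (Finset.mem_product.1 hr.1).2
        refine Finset.mem_coe.2 (Finset.mem_sigma.2 ⟨Finset.mem_univ _,
          Finset.mem_filter.2 ⟨(hT _ hrT).2.2.1, ?_⟩⟩)
        have e : r.1 * r.2.1 * r.2.2 * (r.2.1 * r.2.2)⁻¹ = r.1 := by group
        simp only
        rw [e]
        exact hr.2
      · intro r hr r' hr' he
        have hr := Finset.mem_filter.1 (Finset.mem_coe.1 hr)
        have hr' := Finset.mem_filter.1 (Finset.mem_coe.1 hr')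
        simp only [Sigma.mk.injEq, heq_eq_eq] at he
        have e1 := h3inj _ (Finset.mem_product.1 hr.1).2 _ (Finset.mem_product.1 hr'.1).2
          (inv_injective he.2)
        have e2 := he.1
        rw [e1] at e2
        exact Prod.ext (mul_right_cancel (mul_right_cancel e2)) e1
    calc ((Finset.univ : Finset G) ×ˢ T).card ≤ ((S1 ∪ S2) ∪ S3).card := Finset.card_le_card hsub
      _ ≤ (S1.card + S2.card) + S3.card :=
          (Finset.card_union_le _ _).trans (Nat.add_le_add_right (Finset.card_union_le _ _) _)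
      _ ≤ _ := by omega
  have hsum : ∀ b : G → Finset G, (∀ s, (b s).card * Fintype.card H ≤ Fintype.card G * c) →
      (Finset.univ.sigma b).card * Fintype.card H ≤ Fintype.card G * (Fintype.card G * c) := by
    intro b hb
    rw [Finset.card_sigma, Finset.sum_mul]
    calc ∑ s, (b s).card * Fintype.card H ≤ ∑ _s : G, Fintype.card G * c :=
          Finset.sum_le_sum fun s _ => hb s
      _ = _ := by rw [Finset.sum_const, Finset.card_univ, smul_eq_mul]
  rw [Finset.card_product, Finset.card_univ] at hcover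
  have g1 := hsum b1 hb1
  have g2 := hsum b2 hb2
  have g3 := hsum b3 hb3
  have hG : 0 < Fintype.card G := Fintype.card_pos
  refine Nat.le_of_mul_le_mul_left ?_ hG
  calc Fintype.card G * (T.card * Fintype.card H)
      = (Fintype.card G * T.card) * Fintype.card H := by ring
    _ ≤ ((Finset.univ.sigma b1).card + (Finset.univ.sigma b2).card +
          (Finset.univ.sigma b3).card) * Fintype.card H := Nat.mul_le_mul_right _ hcover
    _ ≤ Fintype.card G * (3 * Fintype.card G * c) := by
        have : Fintype.card G * (3 * Fintype.card G * c) =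
          Fintype.card G * (Fintype.card G * c) + Fintype.card G * (Fintype.card G * c) +
          Fintype.card G * (Fintype.card G * c) := by ring
        rw [this, Nat.add_mul, Nat.add_mul]
        omega

end Pool.Agent.N726.BG
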