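import Pool.Agent.N726.BG.Stm
import Pool.Agent.N580.Power

/-!
# Project SB: the bound by tensor powers (helper717)
-/

namespace Pool.Agent.N726.BG

open Finset Filter Topology

namespace Pow

open Pool.Agent.N580 (typ prod_of_typ prod_eq_of_typ fam fam_stpp)

/-- the homomorphism `φ` in all coordinates -/
def phi {G H κ : Type} [Group G] [Group H] (φ : H →* G) : (κ → H) →* (κ → G) where
  toFun h q := φ (h q)
  map_one' := funext fun _ => map_one φ
  map_mul' h h' := funext fun q => map_mul φ (h q) (h' q)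

theorem phi_inj {G H κ : Type} [Group G] [Group H] (φ : H →* G) (hφ : Function.Injective φ) :
    Function.Injective (phi (κ := κ) φ) := by
  intro h h' e
  funext q
  exact hφ (congrFun e q)

variable {G H I : Type} [Group G] [Fintype G] [Group H] [Fintype H]

/-- the bound from one good space -/
theorem of_good (hB : S_BLO) {κ : Type} [Fintype κ] [DecidableEq κ] (φ : H →* G)
    (hφ : Function.Injective φ) (t : ℝ) (hg : Good (κ → H) t) (ι : Type) [Fintype ι] (m : ℕ)
    (a b c : ι → Fin m → (κ → G))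
    (h : ∀ i j k α α' β β' γ γ', a i α * (a j α')⁻¹ * (b j β * (b k β')⁻¹) *
      (c k γ * (c i γ')⁻¹) = 1 → i = j ∧ j = k ∧ α = α' ∧ β = β' ∧ γ = γ') :
    (Fintype.card ι : ℝ) * (m : ℝ) ^ 2 ≤ 9 * (Fintype.card G : ℝ) ^ Fintype.card κ * t := by
  classical
  obtain ⟨F, _, J, hJ, hd⟩ := hg
  have h1 := hB (κ → G) (κ → H) F (phi φ) (phi_inj φ hφ) J hJ ι m a b c h
  have hle : Module.finrank F J ≤ Fintype.card (κ → H) := by
    have := Submodule.finrank_le J
    rwa [Module.finrank_fintype_fun_eq_card] at this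
  have h2 : (Fintype.card ι : ℝ) * (m : ℝ) ^ 2 * (Fintype.card (κ → H) : ℝ) ≤
      9 * (Fintype.card (κ → G) : ℝ) *
        ((Fintype.card (κ → H) : ℝ) - (Module.finrank F J : ℝ)) := by
    rw [← Nat.cast_sub hle]
    exact_mod_cast h1
  have hpos : (0 : ℝ) < Fintype.card (κ → H) := by
    exact_mod_cast Fintype.card_pos
  have h3 : (Fintype.card ι : ℝ) * (m : ℝ) ^ 2 * (Fintype.card (κ → H) : ℝ) ≤
      (9 * (Fintype.card G : ℝ) ^ Fintype.card κ * t) * (Fintype.card (κ → H) : ℝ) := by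
    refine h2.trans ?_
    have e : (Fintype.card (κ → G) : ℝ) = (Fintype.card G : ℝ) ^ Fintype.card κ := by
      rw [Fintype.card_fun]
      push_cast
      rfl
    rw [e, mul_assoc (9 * (Fintype.card G : ℝ) ^ Fintype.card κ) t]
    exact mul_le_mul_of_nonneg_left hd (by positivity)
  exact le_of_mul_le_mul_right h3 hpos

theorem class_bound (hB : S_BLO) [DecidableEq I] [Fintype I] {A B C : I → Finset G}
    (h : STPP A B C) (φ : H →* G) (hφ : Function.Injective φ) (N : ℕ) (t : ℝ)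
    (hg : Good (Fin 3 × Fin N → H) t) (ht : 0 ≤ t)
    (τ : I → Fin (N + 1)) (w₀ : Fin N → I) (hw₀ : typ w₀ = τ) :
    ((Finset.univ.filter fun w : Fin N → I => typ w = τ).card : ℝ) ^ 3 *
      (((∏ t, (A (w₀ t)).card) * (∏ t, (B (w₀ t)).card) * (∏ t, (C (w₀ t)).card) : ℕ) : ℝ) ^ 2 ≤
      9 * (Fintype.card G : ℝ) ^ (3 * N) * t := by
  classical
  set m := (∏ t, (A (w₀ t)).card) * (∏ t, (B (w₀ t)).card) * (∏ t, (C (w₀ t)).card) with hm
  let ι := Fin 3 → {w : Fin N → I // typ w = τ}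
  have hcardι : Fintype.card ι = (Finset.univ.filter fun w : Fin N → I => typ w = τ).card ^ 3 := by
    rw [Fintype.card_fun, Fintype.card_fin, Fintype.card_subtype]
  -- the sets
  let S : Fin 3 → ι → Finset (Fin 3 × Fin N → G) := fun u w =>
    Fintype.piFinset fun q => fam A B C (q.1 + u) ((w q.1).1 q.2)
  have hScard : ∀ u w, (S u w).card = m := by
    intro u w
    have h1 : ∀ r : Fin 3, ∏ t, (fam A B C r ((w (r - u)).1 t)).card =
        ∏ t, (fam A B C r (w₀ t)).card := by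
      intro r
      exact prod_eq_of_typ (fun i => (fam A B C r i).card) ((w (r - u)).2.trans hw₀.symm)
    have h2 : (S u w).card = ∏ r : Fin 3, ∏ t, (fam A B C (r + u) ((w r).1 t)).card := by
      rw [Fintype.card_piFinset, Fintype.prod_prod_type]
    have h3 : ∏ r : Fin 3, ∏ t, (fam A B C (r + u) ((w r).1 t)).card =
        ∏ r : Fin 3, ∏ t, (fam A B C r ((w (r - u)).1 t)).card := by
      refine Fintype.prod_equiv (Equiv.addRight u) _ _ ?_
      intro r
      simp
    rw [h2, h3, Finset.prod_congr rfl fun r _ => h1 r, Fin.prod_univ_three, hm]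
    rfl
  have henum : ∀ u w, ∃ f : Fin m → (Fin 3 × Fin N → G), Function.Injective f ∧
      ∀ x, f x ∈ S u w := by
    intro u w
    let e := (S u w).equivFinOfCardEq (hScard u w)
    exact ⟨fun x => (e.symm x : Fin 3 × Fin N → G),
      fun x y hxy => e.symm.injective (Subtype.ext hxy), fun x => (e.symm x).2⟩
  choose f hf hfS using henum
  have hst : ∀ i j k α α' β β' γ γ', f 0 i α * (f 0 j α')⁻¹ * (f 1 j β * (f 1 k β')⁻¹) *
      (f 2 k γ * (f 2 i γ')⁻¹) = 1 → i = j ∧ j = k ∧ α = α' ∧ β = β' ∧ γ = γ' := by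
    intro i j k α α' β β' γ γ' he
    have hcoord : ∀ q : Fin 3 × Fin N, (i q.1).1 q.2 = (j q.1).1 q.2 ∧
        (j q.1).1 q.2 = (k q.1).1 q.2 ∧ f 0 i α q = f 0 j α' q ∧ f 1 j β q = f 1 k β' q ∧
        f 2 k γ q = f 2 i γ' q := by
      intro q
      have hq := congrFun he q
      simp only [Pi.mul_apply, Pi.inv_apply, Pi.one_apply] at hq
      have m0 : ∀ (u : Fin 3) (w : ι) (x : Fin m), f u w x q ∈ fam A B C (q.1 + u)
          ((w q.1).1 q.2) := fun u w x => Fintype.mem_piFinset.1 (hfS u w x) q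
      have a1 := m0 0 i α
      have a2 := m0 0 j α'
      rw [add_zero] at a1 a2
      exact fam_stpp h q.1 _ _ _ _ a1 _ a2 _ (m0 1 j β) _ (m0 1 k β') _ (m0 2 k γ) _ (m0 2 i γ') hq
    have hij : i = j := by
      funext r
      apply Subtype.ext
      funext t
      exact (hcoord (r, t)).1
    have hjk : j = k := by
      funext r
      apply Subtype.ext
      funext t
      exact (hcoord (r, t)).2.1
    subst hij
    subst hjk
    refine ⟨rfl, rfl, ?_, ?_, ?_⟩
    · exact hf 0 i (funext fun q => (hcoord q).2.2.1)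
    · exact hf 1 i (funext fun q => (hcoord q).2.2.2.1)
    · exact hf 2 i (funext fun q => (hcoord q).2.2.2.2)
  have key := of_good hB φ hφ t hg ι m (f 0) (f 1) (f 2) hst
  rw [hcardι, Fintype.card_prod, Fintype.card_fin, Fintype.card_fin] at key
  push_cast at key ⊢
  exact key

theorem power_ineq (hB : S_BLO) [Fintype I] {A B C : I → Finset G} (h : STPP A B C)
    (φ : H →* G) (hφ : Function.Injective φ) (N : ℕ) (t : ℝ)
    (hg : Good (Fin 3 × Fin N → H) t) (ht : 0 ≤ t)
    (s : I → ℝ) (hs0 : ∀ i, 0 ≤ s i)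
    (hs : ∀ i, s i ^ 3 = (((A i).card : ℝ) * (B i).card * (C i).card) ^ 2) :
    (∑ i, s i) ^ (3 * N) ≤ ((N + 1 : ℕ) : ℝ) ^ (3 * Fintype.card I) *
      (9 * (Fintype.card G : ℝ) ^ (3 * N) * t) := by
  classical
  set X : (I → Fin (N + 1)) → ℝ := fun τ =>
    ∑ w ∈ Finset.univ.filter (fun w : Fin N → I => typ w = τ), ∏ t, s (w t) with hX
  have hX0 : ∀ τ, 0 ≤ X τ := fun τ =>
    Finset.sum_nonneg fun w _ => Finset.prod_nonneg fun t _ => hs0 _
  have hsum : (∑ i, s i) ^ N = ∑ τ, X τ := by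
    rw [Fintype.sum_pow, hX]
    exact (Finset.sum_fiberwise (s := (Finset.univ : Finset (Fin N → I)))
      (g := fun w => (typ w : I → Fin (N + 1))) (f := fun w => ∏ t, s (w t))).symm
  have hX3 : ∀ τ, X τ ^ 3 ≤ 9 * (Fintype.card G : ℝ) ^ (3 * N) * t := by
    intro τ
    by_cases hτ : ∃ w₀ : Fin N → I, typ w₀ = τ
    · obtain ⟨w₀, hw₀⟩ := hτ
      have h1 : X τ = (Finset.univ.filter (fun w : Fin N → I => typ w = τ)).card *
          ∏ t, s (w₀ t) := by
        simp only [hX]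
        rw [← nsmul_eq_mul, ← Finset.sum_const]
        refine Finset.sum_congr rfl fun w hw => ?_
        exact prod_eq_of_typ s ((Finset.mem_filter.1 hw).2.trans hw₀.symm)
      have h2 : (∏ t, s (w₀ t)) ^ 3 = (((∏ t, (A (w₀ t)).card) * (∏ t, (B (w₀ t)).card) *
          (∏ t, (C (w₀ t)).card) : ℕ) : ℝ) ^ 2 := by
        rw [← Finset.prod_pow, Finset.prod_congr rfl fun t _ => hs (w₀ t)]
        rw [Finset.prod_pow, Finset.prod_mul_distrib, Finset.prod_mul_distrib]
        push_cast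
        rfl
      rw [h1, mul_pow, h2]
      exact class_bound hB h φ hφ N t hg ht τ w₀ hw₀
    · have h1 : X τ = 0 := by
        simp only [hX]
        refine Finset.sum_eq_zero fun w hw => ?_
        exact absurd ⟨w, (Finset.mem_filter.1 hw).2⟩ hτ
      rw [h1, zero_pow three_ne_zero]
      positivity
  obtain ⟨τ₀, -, hτ₀⟩ := Finset.exists_max_image (Finset.univ : Finset (I → Fin (N + 1))) X
    ⟨fun _ => 0, Finset.mem_univ _⟩
  have h4 : (∑ i, s i) ^ N ≤ ((N + 1 : ℕ) : ℝ) ^ Fintype.card I * X τ₀ := by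
    rw [hsum]
    calc ∑ τ, X τ ≤ ∑ _τ : I → Fin (N + 1), X τ₀ :=
          Finset.sum_le_sum fun τ _ => hτ₀ τ (Finset.mem_univ _)
      _ = _ := by
        rw [Finset.sum_const, Finset.card_univ, Fintype.card_fun, Fintype.card_fin, nsmul_eq_mul]
        push_cast
        rfl
  have hs1 : 0 ≤ (∑ i, s i) ^ N := pow_nonneg (Finset.sum_nonneg fun i _ => hs0 i) _
  calc (∑ i, s i) ^ (3 * N) = ((∑ i, s i) ^ N) ^ 3 := by rw [← pow_mul, mul_comm]
    _ ≤ (((N + 1 : ℕ) : ℝ) ^ Fintype.card I * X τ₀) ^ 3 := pow_le_pow_left₀ hs1 h4 3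
    _ = ((N + 1 : ℕ) : ℝ) ^ (3 * Fintype.card I) * X τ₀ ^ 3 := by
        rw [mul_pow, ← pow_mul, mul_comm (Fintype.card I) 3]
    _ ≤ _ := mul_le_mul_of_nonneg_left (hX3 τ₀) (by positivity)

/-- the exponential beats the polynomials -/
theorem growth (a b : ℝ) (hb : 0 < b) (k : ℕ)
    (h : ∀ N : ℕ, 1 ≤ N → a ^ (3 * N) ≤ ((N + 1 : ℕ) : ℝ) ^ k * (9 * b ^ (3 * N))) : a ≤ b := by
  by_contra hab
  rw [not_le] at hab
  set r : ℝ := (a / b) ^ 3 with hr
  have hr1 : 1 < r := by
    have h1 : 1 < a / b := by rwa [lt_div_iff₀ hb, one_mul]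
    exact one_lt_pow₀ h1 three_ne_zero
  have hr0 : 0 < r := by linarith
  have h1 := tendsto_pow_const_div_const_pow_of_one_lt k hr1
  have h2 : ∀ᶠ n : ℕ in atTop, (n : ℝ) ^ k / r ^ n < 1 / (9 * r) :=
    h1.eventually (gt_mem_nhds (by positivity))
  obtain ⟨n, hn, hn2⟩ := (h2.and (eventually_ge_atTop 2)).exists
  obtain ⟨N, rfl⟩ : ∃ N, n = N + 1 := ⟨n - 1, by omega⟩
  have h3 := h N (by omega)
  have h4 : r ^ N ≤ 9 * ((N + 1 : ℕ) : ℝ) ^ k := by
    have h5 : r ^ N = a ^ (3 * N) / b ^ (3 * N) := by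
      rw [hr, ← pow_mul, div_pow]
    rw [h5, div_le_iff₀ (by positivity)]
    calc a ^ (3 * N) ≤ _ := h3
      _ = _ := by ring
  rw [div_lt_div_iff₀ (by positivity) (by positivity), one_mul, pow_succ] at hn
  nlinarith

end Pow

theorem pow_bound (h : S_BLO) : S_POW := by
  intro G H _ _ _ _ φ hφ ρ hρ hgood I _ A B C hst
  set s : I → ℝ := fun i =>
    (((A i).card * (B i).card * (C i).card : ℕ) : ℝ) ^ ((2 : ℝ) / 3) with hs
  have hG : (0 : ℝ) < Fintype.card G := by exact_mod_cast Fintype.card_pos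
  refine Pow.growth (∑ i, s i) (ρ * Fintype.card G) (by positivity) (3 * Fintype.card I) ?_
  intro N hN
  have h1 := Pow.power_ineq h hst φ hφ N (ρ ^ (3 * N)) (hgood N hN) (by positivity) s
    (fun i => by simp only [hs]; positivity) (fun i => by
      simp only [hs]
      rw [← Real.rpow_natCast, ← Real.rpow_mul (by positivity)]
      have e : (2 : ℝ) / 3 * ((3 : ℕ) : ℝ) = ((2 : ℕ) : ℝ) := by
        push_cast
        norm_num
      rw [e, Real.rpow_natCast]
      push_cast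
      rfl)
  refine h1.trans (le_of_eq ?_)
  rw [mul_pow]
  ring

end Pool.Agent.N726.BG
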