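import Pool.Agent.N726.BG.Stm

/-!
# Leaf BLO: blocks of equal size (written by helper755)
-/

set_option autoImplicit false

namespace Pool.Agent.N726.BG.Blo

open Finset

/-- some antidiagonal is large -/
lemma pigeon (m : ℕ) (hm : 1 ≤ m) : ∃ s : ℕ, m ^ 2 ≤
    3 * (univ.filter fun q : Fin m × Fin m × Fin m => (q.1 : ℕ) + q.2.1 + q.2.2 = s).card := by
  have h1 : ∀ q ∈ (univ : Finset (Fin m × Fin m × Fin m)),
      (q.1 : ℕ) + q.2.1 + q.2.2 ∈ range (3 * m) := by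
    intro q _
    rw [mem_range]
    have := q.1.2
    have := q.2.1.2
    have := q.2.2.2
    omega
  have hne : (range (3 * m)).Nonempty := ⟨0, by rw [mem_range]; omega⟩
  have hmq : (m : ℚ) ≠ 0 := by exact_mod_cast (by omega : m ≠ 0)
  obtain ⟨s, -, hs⟩ := exists_le_card_fiber_of_nsmul_le_card_of_maps_to (b := (m : ℚ) ^ 2 / 3)
    h1 hne (by
      rw [card_range, nsmul_eq_mul, card_univ]
      simp only [Fintype.card_prod, Fintype.card_fin]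
      push_cast
      apply le_of_eq
      ring)
  refine ⟨s, ?_⟩
  rw [div_le_iff₀ (by norm_num)] at hs
  have h2 : ((m ^ 2 : ℕ) : ℚ) ≤ ((3 * (univ.filter fun q : Fin m × Fin m × Fin m =>
      (q.1 : ℕ) + q.2.1 + q.2.2 = s).card : ℕ) : ℚ) := by
    push_cast
    linarith
  exact_mod_cast h2

variable {G : Type} [Group G] {ι : Type} {m : ℕ}

/-- the quotients -/
def fq (a b : ι → Fin m → G) (q : ι × Fin m × Fin m) : G := (a q.1 q.2.1)⁻¹ * b q.1 q.2.2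

lemma fq_mul (a b c : ι → Fin m → G) (i : ι) (α β γ : Fin m) :
    fq a b (i, α, β) * fq b c (i, β, γ) * fq c a (i, γ, α) = 1 := by
  unfold fq
  group

/-- the hypothesis -/
def Hyp (a b c : ι → Fin m → G) : Prop :=
  ∀ i j k α α' β β' γ γ', a i α * (a j α')⁻¹ * (b j β * (b k β')⁻¹) * (c k γ * (c i γ')⁻¹) = 1 →
    i = j ∧ j = k ∧ α = α' ∧ β = β' ∧ γ = γ'

lemma key {a b c : ι → Fin m → G} (h : Hyp a b c) {i j k : ι} {α α' β β' γ γ' : Fin m}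
    (h1 : fq a b (i, α, β) * fq b c (j, β', γ) * fq c a (k, γ', α') = 1) :
    j = i ∧ k = i ∧ α' = α ∧ β' = β ∧ γ' = γ := by
  have h2 : a k α' * (a i α)⁻¹ * (b i β * (b j β')⁻¹) * (c j γ * (c k γ')⁻¹) = 1 := by
    have h3 : a k α' * (a i α)⁻¹ * (b i β * (b j β')⁻¹) * (c j γ * (c k γ')⁻¹) =
        a k α' * (fq a b (i, α, β) * fq b c (j, β', γ) * fq c a (k, γ', α')) * (a k α')⁻¹ := by
      unfold fq
      group
    rw [h3, h1]
    group
  obtain ⟨e1, e2, e3, e4, e5⟩ := h k i j α' α β β' γ γ' h2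
  exact ⟨e2.symm, e1, e3, e4.symm, e5.symm⟩

lemma inj_x {a b c : ι → Fin m → G} (h : Hyp a b c) (hm : 1 ≤ m) :
    Function.Injective (fq a b) := by
  rintro ⟨i, α, β⟩ ⟨i', α', β'⟩ he
  have h1 : fq a b (i, α, β) * fq b c (i', β', ⟨0, hm⟩) * fq c a (i', ⟨0, hm⟩, α') = 1 := by
    rw [he]
    exact fq_mul a b c i' α' β' _
  obtain ⟨e1, e2, e3, e4, e5⟩ := key h h1
  rw [e1, e3, e4]

lemma inj_y {a b c : ι → Fin m → G} (h : Hyp a b c) (hm : 1 ≤ m) :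
    Function.Injective (fq b c) := by
  rintro ⟨i, β, γ⟩ ⟨i', β', γ'⟩ he
  have h1 : fq a b (i', ⟨0, hm⟩, β') * fq b c (i, β, γ) * fq c a (i', γ', ⟨0, hm⟩) = 1 := by
    rw [he]
    exact fq_mul a b c i' _ β' γ'
  obtain ⟨e1, e2, e3, e4, e5⟩ := key h h1
  rw [e1, e4, e5]

lemma inj_z {a b c : ι → Fin m → G} (h : Hyp a b c) (hm : 1 ≤ m) :
    Function.Injective (fq c a) := by
  rintro ⟨i, γ, α⟩ ⟨i', γ', α'⟩ he
  have h1 : fq a b (i', α', ⟨0, hm⟩) * fq b c (i', ⟨0, hm⟩, γ') * fq c a (i, γ, α) = 1 := by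
    rw [he]
    exact fq_mul a b c i' α' _ γ'
  obtain ⟨e1, e2, e3, e4, e5⟩ := key h h1
  rw [e2, e3, e5]

section keys

variable [Fintype ι]

/-- the number of labels -/
def LL (ι : Type) [Fintype ι] (m : ℕ) : ℕ := Fintype.card (ι × Fin m × Fin m)

/-- the labels -/
noncomputable def lab (q : ι × Fin m × Fin m) : ℕ := (Fintype.equivFin (ι × Fin m × Fin m) q : ℕ)

lemma lab_lt (q : ι × Fin m × Fin m) : lab q < LL ι m := (Fintype.equivFin _ q).2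

lemma lab_inj {q q' : ι × Fin m × Fin m} (h : lab q = lab q') : q = q' :=
  (Fintype.equivFin _).injective (Fin.ext h)

/-- the keys of the `x` -/
noncomputable def kx (s : ℕ) (q : ι × Fin m × Fin m) : ℤ :=
  (LL ι m : ℤ) * (-(((q.2.1 : ℕ) : ℤ) ^ 2 + 2 * ((q.2.1 : ℕ) : ℤ) * ((q.2.2 : ℕ) : ℤ) -
    2 * s * ((q.2.1 : ℕ) : ℤ) + (s : ℤ) ^ 2)) + lab q

open Classical in
/-- the correction -/
noncomputable def cor (s : ℕ) (q : ι × Fin m × Fin m) : ℕ :=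
  if h : ∃ α : Fin m, (α : ℕ) + q.2.1 + q.2.2 = s then lab (q.1, h.choose, q.2.1) else 0

lemma cor_eq {s : ℕ} {i : ι} {α β γ : Fin m} (h : (α : ℕ) + β + γ = s) :
    cor s (i, β, γ) = lab (i, α, β) := by
  have h1 : ∃ α : Fin m, (α : ℕ) + β + γ = s := ⟨α, h⟩
  unfold cor
  rw [dif_pos h1]
  have h2 := h1.choose_spec
  have h3 : h1.choose = α := Fin.ext (by omega)
  rw [h3]

/-- the keys of the `y` -/
noncomputable def ky (s : ℕ) (q : ι × Fin m × Fin m) : ℤ :=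
  (LL ι m : ℤ) * (-(((q.2.1 : ℕ) : ℤ) ^ 2 + 2 * ((q.2.1 : ℕ) : ℤ) * ((q.2.2 : ℕ) : ℤ) -
    2 * s * ((q.2.1 : ℕ) : ℤ))) - cor s q

/-- the keys of the `z` -/
noncomputable def kz (s : ℕ) (q : ι × Fin m × Fin m) : ℤ :=
  (LL ι m : ℤ) * (-(((q.2.1 : ℕ) : ℤ) ^ 2 + 2 * ((q.2.1 : ℕ) : ℤ) * ((q.2.2 : ℕ) : ℤ) -
    2 * s * ((q.2.1 : ℕ) : ℤ)))

lemma k_sum (s : ℕ) (i : ι) (α β γ : Fin m) :
    kx s (i, α, β) + ky s (i, β, γ) + kz s (i, γ, α) =
      -((LL ι m : ℤ) * (((α : ℕ) : ℤ) + ((β : ℕ) : ℤ) + ((γ : ℕ) : ℤ) - s) ^ 2) +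
        (lab (i, α, β) : ℤ) - cor s (i, β, γ) := by
  unfold kx ky kz
  simp only
  ring

lemma k_zero {s : ℕ} {i : ι} {α β γ : Fin m} (h : (α : ℕ) + β + γ = s) :
    kx s (i, α, β) + ky s (i, β, γ) + kz s (i, γ, α) = 0 := by
  rw [k_sum, cor_eq h]
  have h1 : ((α : ℕ) : ℤ) + ((β : ℕ) : ℤ) + ((γ : ℕ) : ℤ) - s = 0 := by
    rw [← h]; push_cast; ring
  rw [h1]
  ring

lemma k_neg {s : ℕ} {i : ι} {α β γ : Fin m} (h : (α : ℕ) + β + γ ≠ s) :
    kx s (i, α, β) + ky s (i, β, γ) + kz s (i, γ, α) < 0 := by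
  rw [k_sum]
  have h1 : (1 : ℤ) ≤ (((α : ℕ) : ℤ) + ((β : ℕ) : ℤ) + ((γ : ℕ) : ℤ) - s) ^ 2 := by
    have h2 : ((α : ℕ) : ℤ) + ((β : ℕ) : ℤ) + ((γ : ℕ) : ℤ) - s ≠ 0 := by
      intro h3
      apply h
      omega
    have h3 : 0 < (((α : ℕ) : ℤ) + ((β : ℕ) : ℤ) + ((γ : ℕ) : ℤ) - s) ^ 2 := by positivity
    omega
  have h2 : (lab (i, α, β) : ℤ) < LL ι m := by exact_mod_cast lab_lt _
  have h3 : (0 : ℤ) ≤ cor s (i, β, γ) := Int.natCast_nonneg _
  have h4 : (0 : ℤ) ≤ LL ι m := Int.natCast_nonneg _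
  nlinarith

lemma kx_inj (s : ℕ) : Function.Injective (kx (ι := ι) (m := m) s) := by
  intro q q' h
  apply lab_inj
  unfold kx at h
  have h1 : (LL ι m : ℤ) ∣ (lab q : ℤ) - lab q' := by
    refine ⟨(((q.2.1 : ℕ) : ℤ) ^ 2 + 2 * ((q.2.1 : ℕ) : ℤ) * ((q.2.2 : ℕ) : ℤ) -
      2 * s * ((q.2.1 : ℕ) : ℤ) + (s : ℤ) ^ 2) - (((q'.2.1 : ℕ) : ℤ) ^ 2 +
      2 * ((q'.2.1 : ℕ) : ℤ) * ((q'.2.2 : ℕ) : ℤ) -
      2 * s * ((q'.2.1 : ℕ) : ℤ) + (s : ℤ) ^ 2), ?_⟩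
    linear_combination h
  have h2 := lab_lt q
  have h3 := lab_lt q'
  have h4 := Int.eq_zero_of_abs_lt_dvd h1 (by rw [abs_lt]; omega)
  omega

end keys

end Pool.Agent.N726.BG.Blo

namespace Pool.Agent.N726.BG

open Finset Blo

theorem blo (h : S_PIV) : S_BLO := by
  classical
  intro G H F _ _ _ _ _ φ hφ J hJ ι _ m a b c habc
  rcases Nat.eq_zero_or_pos m with hm | hm
  · subst hm
    simp
  have hH : Hyp a b c := habc
  have hx := inj_x hH hm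
  have hy := inj_y hH hm
  have hz := inj_z hH hm
  obtain ⟨s, hs⟩ := pigeon m hm
  let X : Finset G := univ.image (fq a b)
  let Y : Finset G := univ.image (fq b c)
  let Z : Finset G := univ.image (fq c a)
  let Kx : G → ℤ := Function.extend (fq a b) (kx s) 0
  let Ky : G → ℤ := Function.extend (fq b c) (ky s) 0
  let Kz : G → ℤ := Function.extend (fq c a) (kz s) 0
  have eKx : ∀ q, Kx (fq a b q) = kx s q := fun q => hx.extend_apply _ _ q
  have eKy : ∀ q, Ky (fq b c q) = ky s q := fun q => hy.extend_apply _ _ q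
  have eKz : ∀ q, Kz (fq c a q) = kz s q := fun q => hz.extend_apply _ _ q
  let Q : Finset (ι × Fin m × Fin m × Fin m) :=
    univ ×ˢ (univ.filter fun q : Fin m × Fin m × Fin m => (q.1 : ℕ) + q.2.1 + q.2.2 = s)
  let tq : ι × Fin m × Fin m × Fin m → G × G := fun q =>
    (fq a b (q.1, q.2.1, q.2.2.1), fq b c (q.1, q.2.2.1, q.2.2.2))
  let T : Finset (G × G) := Q.image tq
  have hinv : ∀ (i : ι) (α β γ : Fin m),
      (fq a b (i, α, β) * fq b c (i, β, γ))⁻¹ = fq c a (i, γ, α) := fun i α β γ =>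
    inv_eq_of_mul_eq_one_right (fq_mul a b c i α β γ)
  have hT : ∀ q ∈ T, ∃ (i : ι) (α β γ : Fin m), (α : ℕ) + β + γ = s ∧
      q = (fq a b (i, α, β), fq b c (i, β, γ)) := by
    intro q hq
    obtain ⟨⟨i, α, β, γ⟩, hq', rfl⟩ := mem_image.1 hq
    rw [mem_product, mem_filter] at hq'
    exact ⟨i, α, β, γ, hq'.2.2, rfl⟩
  have hcard : T.card = Fintype.card ι *
      (univ.filter fun q : Fin m × Fin m × Fin m => (q.1 : ℕ) + q.2.1 + q.2.2 = s).card := by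
    rw [card_image_of_injOn, card_product, card_univ]
    rintro ⟨i, α, β, γ⟩ hq ⟨i', α', β', γ'⟩ hq' he
    have e1 := hx (Prod.mk.inj he).1
    have e2 := hy (Prod.mk.inj he).2
    simp only [Prod.mk.injEq] at e1 e2
    rw [e1.1, e1.2.1, e1.2.2, e2.2.2]
  have main := h G H F φ hφ J hJ X Y Z Kx Ky Kz ?_ ?_ T ?_ ?_ ?_ ?_
  · -- conclusion
    calc Fintype.card ι * m ^ 2 * Fintype.card H
        ≤ Fintype.card ι * (3 * (univ.filter fun q : Fin m × Fin m × Fin m =>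
            (q.1 : ℕ) + q.2.1 + q.2.2 = s).card) * Fintype.card H :=
          Nat.mul_le_mul_right _ (Nat.mul_le_mul_left _ hs)
      _ = 3 * (T.card * Fintype.card H) := by rw [hcard]; ring
      _ ≤ 3 * (3 * Fintype.card G * (Fintype.card H - Module.finrank F J)) :=
          Nat.mul_le_mul_left _ main
      _ = 9 * Fintype.card G * (Fintype.card H - Module.finrank F J) := by ring
  · intro x hxX y hyY z hzZ hxyz
    obtain ⟨⟨i, α, β⟩, -, rfl⟩ := mem_image.1 hxX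
    obtain ⟨⟨j, β', γ⟩, -, rfl⟩ := mem_image.1 hyY
    obtain ⟨⟨k, γ', α'⟩, -, rfl⟩ := mem_image.1 hzZ
    obtain ⟨rfl, rfl, rfl, rfl, rfl⟩ := key hH hxyz
    rw [eKx, eKy, eKz]
    by_cases hs' : (α' : ℕ) + β' + γ' = s
    · exact (k_zero hs').le
    · exact (k_neg hs').le
  · intro x hxX x' hxX' he
    obtain ⟨q, -, rfl⟩ := mem_image.1 (mem_coe.1 hxX)
    obtain ⟨q', -, rfl⟩ := mem_image.1 (mem_coe.1 hxX')
    rw [eKx, eKx] at he
    rw [kx_inj s he]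
  · intro q hq
    obtain ⟨i, α, β, γ, hsum, rfl⟩ := hT q hq
    refine ⟨mem_image_of_mem _ (mem_univ _), mem_image_of_mem _ (mem_univ _), ?_, ?_⟩
    · show (fq a b (i, α, β) * fq b c (i, β, γ))⁻¹ ∈ Z
      rw [hinv]
      exact mem_image_of_mem _ (mem_univ _)
    · show Kx (fq a b (i, α, β)) + Ky (fq b c (i, β, γ)) +
        Kz (fq a b (i, α, β) * fq b c (i, β, γ))⁻¹ = 0
      rw [hinv, eKx, eKy, eKz]
      exact k_zero hsum
  · intro q hq y hyY hzZ hsum0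
    obtain ⟨i, α, β, γ, hsum, rfl⟩ := hT q hq
    obtain ⟨⟨j, β', γ'⟩, -, rfl⟩ := mem_image.1 hyY
    obtain ⟨⟨k, γ'', α''⟩, -, hz'⟩ := mem_image.1 hzZ
    simp only at hz' hsum0 ⊢
    have h1 : fq a b (i, α, β) * fq b c (j, β', γ') * fq c a (k, γ'', α'') = 1 := by
      rw [hz']
      group
    obtain ⟨rfl, rfl, rfl, rfl, rfl⟩ := key hH h1
    rw [← hz', eKx, eKy, eKz] at hsum0
    by_cases hs' : (α'' : ℕ) + β' + γ'' = s
    · have : γ'' = γ := Fin.ext (by omega)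
      rw [this]
    · exact absurd hsum0 (k_neg hs').ne
  · intro q hq q' hq' he
    obtain ⟨i, α, β, γ, hsum, rfl⟩ := hT q hq
    obtain ⟨i', α', β', γ', hsum', rfl⟩ := hT q' hq'
    have e1 := hy he
    simp only [Prod.mk.injEq] at e1
    obtain ⟨rfl, rfl, rfl⟩ := e1
    have : α = α' := Fin.ext (by omega)
    rw [this]
  · intro q hq q' hq' he
    obtain ⟨i, α, β, γ, hsum, rfl⟩ := hT q hq
    obtain ⟨i', α', β', γ', hsum', rfl⟩ := hT q' hq'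
    have he' : fq a b (i, α, β) * fq b c (i, β, γ) = fq a b (i', α', β') * fq b c (i', β', γ') := he
    have he2 := congrArg (fun x => x⁻¹) he'
    simp only [hinv] at he2
    have e1 := hz he2
    simp only [Prod.mk.injEq] at e1
    obtain ⟨rfl, rfl, rfl⟩ := e1
    have : β = β' := Fin.ext (by omega)
    rw [this]

end Pool.Agent.N726.BG
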