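import Pool.Agent.N726.BG.Stm

/-!
# Project SB, leaf ALT: the number of the conjugacy classes of a subgroup (helper853)
-/

set_option autoImplicit false

namespace Pool.Agent.N726.BG

theorem alt : S_ALT := by
  intro G _ _ K
  have h1 := card_comm_eq_card_conjClasses_mul_card K
  have h2 := card_comm_eq_card_conjClasses_mul_card G
  have h3 : Nat.card {p : K × K // Commute p.1 p.2} ≤ Nat.card {p : G × G // Commute p.1 p.2} := by
    refine Nat.card_le_card_of_injective
      (fun p => ⟨((p.1.1 : G), (p.1.2 : G)), ?_⟩) ?_
    · have h := p.2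
      show (p.1.1 : G) * (p.1.2 : G) = (p.1.2 : G) * (p.1.1 : G)
      exact congrArg Subtype.val h
    · intro p q h
      have h' := congrArg Subtype.val h
      simp only [Prod.mk.injEq] at h'
      exact Subtype.ext (Prod.ext (Subtype.ext h'.1) (Subtype.ext h'.2))
  rw [h1, h2, ← K.card_mul_index] at h3
  have h4 : 0 < Nat.card K := Nat.card_pos
  refine Nat.le_of_mul_le_mul_right (c := Nat.card K) ?_ h4
  calc Nat.card (ConjClasses K) * Nat.card K ≤
      Nat.card (ConjClasses G) * (Nat.card K * K.index) := h3
    _ = _ := by ring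

end Pool.Agent.N726.BG
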