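import Mathlib
import Pool.Agent.N726.BG.Stm

/-!
# SB/ELA: the polynomial method space for elementary abelian groups
-/

set_option autoImplicit false

namespace Pool.Agent.N726.BG

namespace Ela

open Finset

variable {p : ℕ} [Fact p.Prime] {κ : Type} [Fintype κ] [DecidableEq κ]

/-- the monomial with exponents `e` -/
def mon (e : κ → ℕ) (h : Multiplicative (κ → ZMod p)) : ZMod p :=
  ∏ i, (Multiplicative.toAdd h i) ^ (e i)

/-- the functions orthogonal to all monomials of degree less than `m` -/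
def JJ (p : ℕ) [Fact p.Prime] (κ : Type) [Fintype κ] [DecidableEq κ] (m : ℕ) :
    Submodule (ZMod p) (Multiplicative (κ → ZMod p) → ZMod p) where
  carrier := {u | ∀ e : κ → ℕ, ∑ i, e i < m → ∑ h, u h * mon e h = 0}
  add_mem' := by
    intro u v hu hv e he
    simp only [Pi.add_apply, add_mul, sum_add_distrib, hu e he, hv e he, add_zero]
  zero_mem' := by
    intro e _
    simp
  smul_mem' := by
    intro c u hu e he
    simp only [Pi.smul_apply, smul_eq_mul, mul_assoc, ← mul_sum, hu e he, mul_zero]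

theorem red (n : ℕ) : ∃ n' ≤ n, n' < p ∧ ∀ x : ZMod p, x ^ n = x ^ n' := by
  induction n using Nat.strong_induction_on with
  | _ n ih =>
    by_cases h : n < p
    · exact ⟨n, le_rfl, h, fun _ => rfl⟩
    · obtain ⟨k, rfl⟩ := Nat.exists_eq_add_of_le (not_lt.1 h)
      have hp : 2 ≤ p := (Fact.out : p.Prime).two_le
      obtain ⟨n', h1, h2, h3⟩ := ih (k + 1) (by omega)
      refine ⟨n', by omega, h2, fun x => ?_⟩
      rw [← h3, pow_add, ZMod.pow_card, pow_succ, mul_comm]

omit [DecidableEq κ] in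
theorem mon_red (e : κ → ℕ) : ∃ e' : κ → Fin p, ∑ i, (e' i : ℕ) ≤ ∑ i, e i ∧
    ∀ h : Multiplicative (κ → ZMod p), mon e h = mon (fun i => (e' i : ℕ)) h := by
  choose f h1 h2 h3 using fun n : ℕ => red (p := p) n
  refine ⟨fun i => ⟨f (e i), h2 _⟩, sum_le_sum fun i _ => h1 _, fun h => ?_⟩
  exact prod_congr rfl fun i _ => h3 _ _

theorem inv {m : ℕ} (u : Multiplicative (κ → ZMod p) → ZMod p) (hu : u ∈ JJ p κ m)
    (g : Multiplicative (κ → ZMod p)) : (fun h => u (h * g)) ∈ JJ p κ m := by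
  intro e he
  have h1 : ∑ h, u (h * g) * mon e h = ∑ h, u h * mon e (h * g⁻¹) := by
    refine Fintype.sum_equiv (Equiv.mulRight g) _ _ fun h => ?_
    simp
  rw [h1]
  have h2 : ∀ h : Multiplicative (κ → ZMod p), mon e (h * g⁻¹) =
      ∑ e' ∈ Fintype.piFinset (fun i => range (e i + 1)),
        mon e' h * ∏ i, ((- Multiplicative.toAdd g i) ^ (e i - e' i) * ((e i).choose (e' i))) := by
    intro h
    unfold mon
    have h3 : ∀ i, (Multiplicative.toAdd (h * g⁻¹) i) ^ (e i) =
        ∑ j ∈ range (e i + 1), (Multiplicative.toAdd h i) ^ j *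
          ((- Multiplicative.toAdd g i) ^ (e i - j) * ((e i).choose j)) := by
      intro i
      rw [toAdd_mul, toAdd_inv, Pi.add_apply, Pi.neg_apply, add_pow]
      exact sum_congr rfl fun j _ => by rw [mul_assoc]
    rw [prod_congr rfl fun i _ => h3 i, prod_univ_sum]
    exact sum_congr rfl fun e' _ => prod_mul_distrib
  simp only [h2, mul_sum]
  rw [sum_comm]
  refine sum_eq_zero fun e' he' => ?_
  rw [Fintype.mem_piFinset] at he'
  have h4 : ∑ i, e' i < m := by
    refine lt_of_le_of_lt (sum_le_sum fun i _ => ?_) he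
    have := mem_range.1 (he' i)
    omega
  have h5 := hu e' h4
  simp only [← mul_assoc]
  rw [← sum_mul, h5, zero_mul]

/-- the polynomial `1 - (x + y + z) ^ (p - 1)` -/
noncomputable def PP (p : ℕ) : MvPolynomial (Fin 3) (ZMod p) :=
  1 - (MvPolynomial.X 0 + MvPolynomial.X 1 + MvPolynomial.X 2) ^ (p - 1)

theorem PP_deg (d : Fin 3 →₀ ℕ) (hd : d ∈ (PP p).support) : d 0 + d 1 + d 2 ≤ p - 1 := by
  have h1 := MvPolynomial.le_totalDegree hd
  rw [Finsupp.sum_fintype _ _ (fun _ => rfl), Fin.sum_univ_three] at h1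
  refine h1.trans ?_
  unfold PP
  refine (MvPolynomial.totalDegree_sub _ _).trans (max_le (by simp) ?_)
  refine (MvPolynomial.totalDegree_pow _ _).trans ?_
  have h2 : (MvPolynomial.X 0 + MvPolynomial.X 1 + MvPolynomial.X 2 :
      MvPolynomial (Fin 3) (ZMod p)).totalDegree ≤ 1 := by
    refine (MvPolynomial.totalDegree_add _ _).trans (max_le ?_ (by simp))
    exact (MvPolynomial.totalDegree_add _ _).trans (max_le (by simp) (by simp))
  calc (p - 1) * _ ≤ (p - 1) * 1 := Nat.mul_le_mul_left _ h2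
    _ = p - 1 := mul_one _

theorem PP_eval (x y z : ZMod p) : 1 - (x + y + z) ^ (p - 1) =
    ∑ d ∈ (PP p).support, (PP p).coeff d * (x ^ d 0 * y ^ d 1 * z ^ d 2) := by
  have h := MvPolynomial.eval_eq' ![x, y, z] (PP p)
  simp only [Fin.prod_univ_three] at h
  rw [show (![x, y, z] : Fin 3 → ZMod p) 0 = x from rfl,
    show (![x, y, z] : Fin 3 → ZMod p) 1 = y from rfl,
    show (![x, y, z] : Fin 3 → ZMod p) 2 = z from rfl] at h
  rw [← h]
  simp [PP]

omit [DecidableEq κ] in
theorem ind (s : κ → ZMod p) : ∏ i, (1 - (s i) ^ (p - 1)) = if s = 0 then 1 else 0 := by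
  have hp : 2 ≤ p := (Fact.out : p.Prime).two_le
  split_ifs with h
  · subst h
    refine prod_eq_one fun i _ => ?_
    rw [Pi.zero_apply, zero_pow (by omega), sub_zero]
  · obtain ⟨i, hi⟩ := Function.ne_iff.1 h
    refine prod_eq_zero (mem_univ i) ?_
    rw [ZMod.pow_card_sub_one_eq_one hi, sub_self]

theorem expand (x y z : Multiplicative (κ → ZMod p)) :
    (if z = (x * y)⁻¹ then (1 : ZMod p) else 0) =
    ∑ T ∈ Fintype.piFinset (fun _ : κ => (PP p).support), (∏ i, (PP p).coeff (T i)) *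
      (mon (fun i => T i 0) x * mon (fun i => T i 1) y * mon (fun i => T i 2) z) := by
  have h1 : (if z = (x * y)⁻¹ then (1 : ZMod p) else 0) =
      ∏ i, (1 - (Multiplicative.toAdd x i + Multiplicative.toAdd y i +
        Multiplicative.toAdd z i) ^ (p - 1)) := by
    rw [ind (fun i => Multiplicative.toAdd x i + Multiplicative.toAdd y i +
        Multiplicative.toAdd z i)]
    congr 1
    rw [eq_inv_iff_mul_eq_one, ← Multiplicative.toAdd.injective.eq_iff, toAdd_mul, toAdd_mul,
      toAdd_one]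
    refine propext ⟨fun h => ?_, fun h => ?_⟩
    · funext i
      have := congrFun h i
      simp only [Pi.add_apply, Pi.zero_apply] at this ⊢
      rw [← this]; ring
    · funext i
      have := congrFun h i
      simp only [Pi.add_apply, Pi.zero_apply] at this ⊢
      rw [← this]; ring
  rw [h1, prod_congr rfl fun i _ => PP_eval _ _ _, prod_univ_sum]
  refine sum_congr rfl fun T _ => ?_
  simp only [prod_mul_distrib, mon]

theorem tri {m : ℕ} (hm : (p - 1) * Fintype.card κ < 3 * m)
    (u : Multiplicative (κ → ZMod p) → ZMod p) (hu : u ∈ JJ p κ m)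
    (v : Multiplicative (κ → ZMod p) → ZMod p) (hv : v ∈ JJ p κ m)
    (w : Multiplicative (κ → ZMod p) → ZMod p) (hw : w ∈ JJ p κ m) :
    ∑ g, ∑ h, u g * v h * w (g * h)⁻¹ = 0 := by
  have h1 : ∀ g h, u g * v h * w (g * h)⁻¹ =
      ∑ k, u g * v h * (w k * (if k = (g * h)⁻¹ then (1 : ZMod p) else 0)) := by
    intro g h
    rw [← mul_sum]
    simp
  have h2 : ∑ g, ∑ h, u g * v h * w (g * h)⁻¹ =
      ∑ T ∈ Fintype.piFinset (fun _ : κ => (PP p).support), (∏ i, (PP p).coeff (T i)) *
        ((∑ g, u g * mon (fun i => T i 0) g) * (∑ h, v h * mon (fun i => T i 1) h) *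
          (∑ k, w k * mon (fun i => T i 2) k)) := by
    have h3 : ∀ T : κ → Fin 3 →₀ ℕ, (∏ i, (PP p).coeff (T i)) *
        ((∑ g, u g * mon (fun i => T i 0) g) * (∑ h, v h * mon (fun i => T i 1) h) *
          (∑ k, w k * mon (fun i => T i 2) k)) =
        ∑ g, ∑ h, ∑ k, u g * v h * (w k * ((∏ i, (PP p).coeff (T i)) *
          (mon (fun i => T i 0) g * mon (fun i => T i 1) h * mon (fun i => T i 2) k))) := by
      intro T
      rw [sum_mul_sum, sum_mul, mul_sum]
      refine sum_congr rfl fun g _ => ?_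
      rw [sum_mul, mul_sum]
      refine sum_congr rfl fun h _ => ?_
      rw [mul_sum, mul_sum]
      refine sum_congr rfl fun k _ => ?_
      ring
    symm
    simp only [h3]
    rw [sum_comm]
    refine sum_congr rfl fun g _ => ?_
    rw [sum_comm]
    refine sum_congr rfl fun h _ => ?_
    rw [sum_comm, h1]
    refine sum_congr rfl fun k _ => ?_
    rw [expand, mul_sum, mul_sum]
  rw [h2]
  refine sum_eq_zero fun T hT => ?_
  rw [Fintype.mem_piFinset] at hT
  have h4 : ∑ i, T i 0 + ∑ i, T i 1 + ∑ i, T i 2 ≤ (p - 1) * Fintype.card κ := by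
    rw [← sum_add_distrib, ← sum_add_distrib]
    refine (sum_le_sum fun i _ => PP_deg (T i) (hT i)).trans ?_
    rw [sum_const, card_univ, smul_eq_mul, mul_comm]
  have h5 : ∑ i, T i 0 < m ∨ ∑ i, T i 1 < m ∨ ∑ i, T i 2 < m := by omega
  rcases h5 with h | h | h
  · rw [hu _ h]; ring
  · rw [hv _ h]; ring
  · rw [hw _ h]; ring

/-- the linear map whose kernel is contained in `JJ` -/
def Φ (p : ℕ) [Fact p.Prime] (κ : Type) [Fintype κ] [DecidableEq κ] (m : ℕ) :
    (Multiplicative (κ → ZMod p) → ZMod p) →ₗ[ZMod p]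
      ({e : κ → Fin p // e ∈ univ.filter fun e : κ → Fin p => ∑ i, (e i : ℕ) < m} → ZMod p) where
  toFun u := fun e => ∑ h, u h * mon (fun i => (e.1 i : ℕ)) h
  map_add' := by
    intro u v
    funext e
    simp only [Pi.add_apply, add_mul, sum_add_distrib]
  map_smul' := by
    intro c u
    funext e
    simp only [Pi.smul_apply, smul_eq_mul, mul_assoc, ← mul_sum, RingHom.id_apply]

theorem ker_le (m : ℕ) : LinearMap.ker (Φ p κ m) ≤ JJ p κ m := by
  intro u hu e he
  rw [LinearMap.mem_ker] at hu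
  obtain ⟨e', h1, h2⟩ := mon_red (p := p) e
  have h3 := congrFun hu ⟨e', by simp; omega⟩
  simp only [h2]
  exact h3

end Ela

open Ela in
theorem ela : S_ELA := by
  intro p _ κ _ _ m hm
  refine ⟨JJ p κ m, ⟨fun u hu g => Ela.inv u hu g, fun u hu v hv w hw =>
    Ela.tri hm u hu v hv w hw⟩, ?_⟩
  have h1 := LinearMap.finrank_range_add_finrank_ker (Φ p κ m)
  rw [Module.finrank_fintype_fun_eq_card] at h1
  have h2 := Submodule.finrank_mono (ker_le (p := p) (κ := κ) m)
  have h3 := Submodule.finrank_le (LinearMap.range (Φ p κ m))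
  rw [Module.finrank_fintype_fun_eq_card, Fintype.card_coe] at h3
  omega

end Pool.Agent.N726.BG
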