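import Pool.Agent.N726.BG.Stm

/-!
# Leaf EMB: elementary abelian 2-subgroups of symmetric and alternating groups (helper559)
-/

namespace Pool.Agent.N726.BG.Emb

open Equiv Equiv.Perm

/-- the translations of the fibres of `Fin r × ZMod 2` -/
def act (r : ℕ) : Multiplicative (Fin r → ZMod 2) →* Perm (Fin r × ZMod 2) where
  toFun v := Equiv.prodCongrRight fun i => Equiv.addRight (v.toAdd i)
  map_one' := by
    ext x <;> simp
  map_mul' v w := by
    refine Equiv.ext fun x => ?_
    obtain ⟨i, z⟩ := x
    simp only [toAdd_mul, Pi.add_apply, prodCongrRight_apply, coe_addRight, Perm.coe_mul,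
        Function.comp_apply]
    ring_nf

theorem act_injective (r : ℕ) : Function.Injective (act r) := by
  intro v w h
  apply Multiplicative.toAdd.injective
  funext i
  have h1 := congrArg (fun σ : Perm (Fin r × ZMod 2) => (σ (i, 0)).2) h
  simpa [act] using h1

/-- the sign of a translation of `ZMod 2` -/
def sg : Multiplicative (ZMod 2) →* ℤˣ where
  toFun x := sign (Equiv.addRight x.toAdd : Perm (ZMod 2))
  map_one' := by
    have : (Equiv.addRight (0 : ZMod 2) : Perm (ZMod 2)) = 1 := by ext; simp
    rw [toAdd_one, this, Perm.sign_one]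
  map_mul' x y := by
    rw [← Perm.sign_mul]
    congr 1
    ext z
    simp only [toAdd_mul, coe_addRight, Perm.coe_mul, Function.comp_apply]
    ring_nf

theorem sign_act {r : ℕ} (v : Multiplicative (Fin r → ZMod 2)) :
    sign (act r v) = sg (Multiplicative.ofAdd (∑ i, v.toAdd i)) := by
  have h1 : sign (act r v) = ∏ i, sg (Multiplicative.ofAdd (v.toAdd i)) := by
    have h2 := sign_prodCongrRight (fun i => (Equiv.addRight (v.toAdd i) : Perm (ZMod 2)))
    exact h2
  rw [h1, ← map_prod, ofAdd_sum]

/-- add a coordinate -/
def ext (k : ℕ) : Multiplicative (Fin k → ZMod 2) →* Multiplicative (Fin (k + 1) → ZMod 2) where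
  toFun v := Multiplicative.ofAdd (Fin.cons (∑ i, v.toAdd i) v.toAdd : Fin (k + 1) → ZMod 2)
  map_one' := by
    apply Multiplicative.toAdd.injective
    funext i
    refine Fin.cases ?_ (fun i => ?_) i <;> simp
  map_mul' v w := by
    apply Multiplicative.toAdd.injective
    funext i
    refine Fin.cases ?_ (fun i => ?_) i <;> simp [Finset.sum_add_distrib]

theorem ext_injective (k : ℕ) : Function.Injective (ext k) := by
  intro v w h
  apply Multiplicative.toAdd.injective
  funext i
  have h1 := congrArg (fun σ : Multiplicative (Fin (k + 1) → ZMod 2) => σ.toAdd i.succ) h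
  simpa [ext] using h1

theorem ext_sum (k : ℕ) (v : Multiplicative (Fin k → ZMod 2)) :
    ∑ i, (ext k v).toAdd i = 0 := by
  rw [Fin.sum_univ_succ]
  simp only [ext, MonoidHom.coe_mk, OneHom.coe_mk, toAdd_ofAdd, Fin.cons_zero, Fin.cons_succ]
  exact CharTwo.add_self_eq_zero _

theorem embedding (n : ℕ) : Nonempty (Fin (n / 2) × ZMod 2 ↪ Fin n) := by
  apply Function.Embedding.nonempty_of_card_le
  rw [Fintype.card_prod, ZMod.card, Fintype.card_fin, Fintype.card_fin]
  exact Nat.div_mul_le_self n 2

end Pool.Agent.N726.BG.Emb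

namespace Pool.Agent.N726.BG

open Equiv Equiv.Perm Emb

theorem emb : S_EMB := by
  classical
  intro n
  obtain ⟨ι⟩ := embedding n
  constructor
  · refine ⟨(viaEmbeddingHom ι).comp (act _), ?_⟩
    exact (viaEmbeddingHom_injective ι).comp (act_injective _)
  · rcases Nat.eq_zero_or_pos (n / 2) with h | h
    · rw [h]
      refine ⟨1, fun v w _ => ?_⟩
      apply Multiplicative.toAdd.injective
      funext i
      exact i.elim0
    · obtain ⟨k, hk⟩ : ∃ k, n / 2 = k + 1 := ⟨n / 2 - 1, by omega⟩
      rw [hk] at ι ⊢
      rw [Nat.add_sub_cancel]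
      refine ⟨((viaEmbeddingHom ι).comp ((act _).comp (ext k))).codRestrict _ fun v => ?_, ?_⟩
      · rw [mem_alternatingGroup]
        have h1 : sign ((viaEmbeddingHom ι) (act (k + 1) (ext k v))) =
            sign (act (k + 1) (ext k v)) := by
          have h2 := @sign_extendDomain _ _ _ _ _ _ (act (k + 1) (ext k v))
            (fun x => x ∈ Set.range ι.1) (fun x => Classical.propDecidable _)
            (Equiv.ofInjective ι.1 ι.2)
          exact h2
        refine h1.trans ?_
        rw [sign_act, ext_sum, ofAdd_zero, map_one]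
      · intro v w hvw
        have h2 := congrArg Subtype.val hvw
        exact ext_injective k (act_injective _ (viaEmbeddingHom_injective ι h2))

end Pool.Agent.N726.BG
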