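import Pool.Agent.N726.BG.Stm

/-!
# Few conjugacy classes in symmetric groups
-/

namespace Pool.Agent.N726.BG

open Finset

namespace Part

/-- the multiplicities of the parts -/
def mu {n : ℕ} (P : n.Partition) (k : Fin n) : ℕ := P.parts.count ((k : ℕ) + 1)

theorem le_of_mem {n : ℕ} (P : n.Partition) {a : ℕ} (ha : a ∈ P.parts) : a ≤ n := by
  have h := Multiset.le_sum_of_mem ha
  rwa [P.parts_sum] at h

theorem sum_mu {n : ℕ} (P : n.Partition) : ∑ k : Fin n, ((k : ℕ) + 1) * mu P k = n := by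
  have h1 : P.parts.toFinset ⊆ (range n).image (fun k => k + 1) := by
    intro a ha
    rw [Multiset.mem_toFinset] at ha
    have h2 := le_of_mem P ha
    have h3 := P.parts_pos ha
    rw [mem_image]
    exact ⟨a - 1, mem_range.2 (by omega), by omega⟩
  have h4 := Finset.sum_multiset_count_of_subset P.parts _ h1
  rw [P.parts_sum, Finset.sum_image (fun a _ b _ h => by simpa using h)] at h4
  conv_rhs => rw [h4]
  unfold mu
  rw [Fin.sum_univ_eq_sum_range (fun k => (k + 1) * P.parts.count (k + 1)) n]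
  refine Finset.sum_congr rfl fun k _ => ?_
  rw [smul_eq_mul, mul_comm]

theorem mu_le {n : ℕ} (P : n.Partition) (k : Fin n) : mu P k ≤ n := by
  have h := Finset.single_le_sum (f := fun k : Fin n => ((k : ℕ) + 1) * mu P k)
    (fun _ _ => Nat.zero_le _) (Finset.mem_univ k)
  rw [sum_mu] at h
  have h2 : mu P k ≤ ((k : ℕ) + 1) * mu P k := Nat.le_mul_of_pos_left _ (Nat.succ_pos _)
  exact h2.trans h

/-- the multiplicities, bounded -/
def mf {n : ℕ} (P : n.Partition) (k : Fin n) : Fin (n + 1) := ⟨mu P k, Nat.lt_succ_of_le (mu_le P k)⟩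

theorem mf_inj {n : ℕ} : Function.Injective (mf (n := n)) := by
  intro P Q h
  ext1
  refine Multiset.ext.2 fun a => ?_
  by_cases ha : 1 ≤ a ∧ a ≤ n
  · have h1 := congrFun h ⟨a - 1, by omega⟩
    have h2 : mu P ⟨a - 1, by omega⟩ = mu Q ⟨a - 1, by omega⟩ := by
      have := congrArg Fin.val h1
      exact this
    unfold mu at h2
    have h3 : a - 1 + 1 = a := by omega
    simp only [h3] at h2
    exact h2
  · have h1 : a ∉ P.parts := fun hm => ha ⟨P.parts_pos hm, le_of_mem P hm⟩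
    have h2 : a ∉ Q.parts := fun hm => ha ⟨Q.parts_pos hm, le_of_mem Q hm⟩
    rw [Multiset.count_eq_zero_of_notMem h1, Multiset.count_eq_zero_of_notMem h2]

/-- the generating function bound -/
theorem card_bd (n : ℕ) (x : ℝ) (hx0 : 0 < x) (hx1 : x < 1) :
    (Fintype.card n.Partition : ℝ) * x ^ n ≤ Real.exp (1 / (1 - x) ^ 2) := by
  have h1x : 0 < 1 - x := by linarith
  have h1 : (Fintype.card n.Partition : ℝ) * x ^ n =
      ∑ P : n.Partition, ∏ k : Fin n, (x ^ ((k : ℕ) + 1)) ^ ((mf P k : Fin (n + 1)) : ℕ) := by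
    have h2 : ∀ P : n.Partition,
        ∏ k : Fin n, (x ^ ((k : ℕ) + 1)) ^ ((mf P k : Fin (n + 1)) : ℕ) = x ^ n := by
      intro P
      calc ∏ k : Fin n, (x ^ ((k : ℕ) + 1)) ^ ((mf P k : Fin (n + 1)) : ℕ)
          = ∏ k : Fin n, x ^ (((k : ℕ) + 1) * mu P k) :=
            Finset.prod_congr rfl fun k _ => (pow_mul _ _ _).symm
        _ = x ^ (∑ k : Fin n, ((k : ℕ) + 1) * mu P k) := Finset.prod_pow_eq_pow_sum _ _ _
        _ = x ^ n := by rw [sum_mu]
    rw [Finset.sum_congr rfl fun P _ => h2 P, Finset.sum_const, Finset.card_univ, nsmul_eq_mul]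
  rw [h1]
  have h3 : ∑ P : n.Partition, ∏ k : Fin n, (x ^ ((k : ℕ) + 1)) ^ ((mf P k : Fin (n + 1)) : ℕ) ≤
      ∑ f : Fin n → Fin (n + 1), ∏ k : Fin n, (x ^ ((k : ℕ) + 1)) ^ (f k : ℕ) := by
    have h4 : ∑ P : n.Partition, ∏ k : Fin n, (x ^ ((k : ℕ) + 1)) ^ ((mf P k : Fin (n + 1)) : ℕ) =
        ∑ f ∈ (Finset.univ : Finset n.Partition).map ⟨mf, mf_inj⟩,
          ∏ k : Fin n, (x ^ ((k : ℕ) + 1)) ^ (f k : ℕ) := by
      rw [Finset.sum_map]
      rfl
    rw [h4]
    exact Finset.sum_le_sum_of_subset_of_nonneg (Finset.subset_univ _) fun f _ _ =>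
      Finset.prod_nonneg fun k _ => by positivity
  refine h3.trans ?_
  have h5 := Finset.prod_univ_sum (fun _ : Fin n => (Finset.univ : Finset (Fin (n + 1))))
    (fun (k : Fin n) (j : Fin (n + 1)) => (x ^ ((k : ℕ) + 1)) ^ (j : ℕ))
  rw [Fintype.piFinset_univ] at h5
  rw [← h5]
  have h6 : ∀ k : Fin n, ∑ j : Fin (n + 1), (x ^ ((k : ℕ) + 1)) ^ (j : ℕ) ≤
      Real.exp (x ^ (k : ℕ) / (1 - x)) := by
    intro k
    set t : ℝ := x ^ ((k : ℕ) + 1) with ht
    have ht0 : 0 < t := by positivity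
    have htx : t ≤ x := by
      rw [ht, pow_succ]
      have : x ^ (k : ℕ) ≤ 1 := pow_le_one₀ hx0.le hx1.le
      nlinarith
    have ht1 : t < 1 := by linarith
    have h1t : 0 < 1 - t := by linarith
    rw [Fin.sum_univ_eq_sum_range (fun j => t ^ j) (n + 1)]
    have h7 : ∑ j ∈ range (n + 1), t ^ j ≤ 1 / (1 - t) := by
      rw [le_div_iff₀ h1t]
      have h8 := geom_sum_mul_neg t (n + 1)
      have h9 : 0 ≤ t ^ (n + 1) := by positivity
      linarith
    refine h7.trans ?_
    have h10 : 1 / (1 - t) = t / (1 - t) + 1 := by field_simp; ring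
    rw [h10]
    refine (Real.add_one_le_exp _).trans (Real.exp_le_exp.2 ?_)
    have h11 : t ≤ x ^ (k : ℕ) := by
      rw [ht, pow_succ]
      have : 0 < x ^ (k : ℕ) := by positivity
      nlinarith
    exact div_le_div₀ (by positivity) h11 h1x (by linarith)
  calc ∏ k : Fin n, ∑ j : Fin (n + 1), (x ^ ((k : ℕ) + 1)) ^ (j : ℕ)
      ≤ ∏ k : Fin n, Real.exp (x ^ (k : ℕ) / (1 - x)) :=
        Finset.prod_le_prod (fun k _ => Finset.sum_nonneg fun j _ => by positivity) fun k _ => h6 k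
    _ = Real.exp (∑ k : Fin n, x ^ (k : ℕ) / (1 - x)) := (Real.exp_sum _ _).symm
    _ ≤ Real.exp (1 / (1 - x) ^ 2) := by
        apply Real.exp_le_exp.2
        rw [← Finset.sum_div, Fin.sum_univ_eq_sum_range (fun j => x ^ j) n, div_le_div_iff₀ h1x
          (by positivity), one_mul]
        have h8 := geom_sum_mul_neg x n
        have h9 : 0 ≤ x ^ n := by positivity
        nlinarith

theorem conj_le (n : ℕ) : Nat.card (ConjClasses (Equiv.Perm (Fin n))) ≤
    Fintype.card (Fintype.card (Fin n)).Partition := by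
  rw [← Nat.card_eq_fintype_card]
  let F : ConjClasses (Equiv.Perm (Fin n)) → (Fintype.card (Fin n)).Partition :=
    Quotient.lift (fun σ => σ.partition) fun a b h => Equiv.Perm.partition_eq_of_isConj.1 h
  refine Nat.card_le_card_of_injective F ?_
  intro a b
  refine Quotient.inductionOn₂ a b fun σ τ h => ?_
  exact Quotient.sound (Equiv.Perm.partition_eq_of_isConj.2 h)

end Part

theorem part : S_PART := by
  intro c hc
  set x : ℝ := Real.exp (-(c / 2)) with hx
  have hx0 : 0 < x := Real.exp_pos _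
  have hx1 : x < 1 := by
    rw [hx, Real.exp_lt_one_iff]
    linarith
  obtain ⟨n0, hn0⟩ := exists_nat_ge (1 / (1 - x) ^ 2 / (c / 2))
  refine ⟨n0, fun n hn => ?_⟩
  have h1 : (Nat.card (ConjClasses (Equiv.Perm (Fin n))) : ℝ) ≤ Fintype.card n.Partition := by
    have := Part.conj_le n
    rw [Fintype.card_fin] at this
    exact_mod_cast this
  have h2 := Part.card_bd n x hx0 hx1
  have h3 : x ^ n = Real.exp (-(c / 2 * n)) := by
    rw [hx, ← Real.exp_nat_mul]
    congr 1
    ring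
  rw [h3, Real.exp_neg, ← div_eq_mul_inv, div_le_iff₀ (Real.exp_pos _), ← Real.exp_add] at h2
  refine h1.trans (h2.trans (Real.exp_le_exp.2 ?_))
  have h4 : 1 / (1 - x) ^ 2 ≤ n0 * (c / 2) := by
    rwa [div_le_iff₀ (by positivity)] at hn0
  have h5 : (n0 : ℝ) ≤ n := by exact_mod_cast hn
  nlinarith

end Pool.Agent.N726.BG
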