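import Pool.Agent.N726.BG.Stm

/-!
# Project SB, leaf PRD: conjugacy classes of products (helper853)
-/

set_option autoImplicit false

namespace Pool.Agent.N726.BG

theorem prd : S_PRD := by
  intro ι _ G _ _
  rw [← Nat.card_pi]
  refine Nat.card_le_card_of_injective
    (fun (c : ConjClasses (∀ i, G i)) (i : ι) => ConjClasses.map (Pi.evalMonoidHom G i) c) ?_
  intro c d h
  obtain ⟨a, rfl⟩ := ConjClasses.mk_surjective c
  obtain ⟨b, rfl⟩ := ConjClasses.mk_surjective d
  have h1 : ∀ i, ∃ x : G i, x * a i * x⁻¹ = b i := by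
    intro i
    have h2 : ConjClasses.mk (a i) = ConjClasses.mk (b i) := congrFun h i
    exact isConj_iff.1 (ConjClasses.mk_eq_mk_iff_isConj.1 h2)
  choose x hx using h1
  rw [ConjClasses.mk_eq_mk_iff_isConj, isConj_iff]
  exact ⟨x, funext hx⟩

end Pool.Agent.N726.BG
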