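import Mathlib
import Pool.Agent.N726.BG.Piv
import Pool.Agent.N726.BG.Blo
import Pool.Agent.N726.BG.Pow
import Pool.Agent.N726.BG.Ela
import Pool.Agent.N726.BG.Elb
import Pool.Agent.N726.BG.Chr
import Pool.Agent.N726.BG.Pwr
import Pool.Agent.N726.BG.Part
import Pool.Agent.N726.BG.Emb
import Pool.Agent.N726.BG.Alt
import Pool.Agent.N726.BG.Prd

/-!
# Elementary abelian subgroups, symmetric and alternating groups
-/

namespace Pool.Agent.N726.BG

open Finset

theorem Good.congr {H H' : Type} [Group H] [Fintype H] [Group H'] [Fintype H'] (e : H ≃* H')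
    {ρ : ℝ} (h : Good H ρ) : Good H' ρ := by
  obtain ⟨F, hF, J, hJ, hd⟩ := h
  let L : (H' → F) ≃ₗ[F] (H → F) := LinearEquiv.funCongrLeft F F e.toEquiv
  have hL : ∀ (u : H' → F) (x : H), L u x = u (e x) := fun u x => rfl
  refine ⟨F, hF, J.comap L.toLinearMap, ⟨?_, ?_⟩, ?_⟩
  · intro u hu g
    have h1 := hJ.inv _ hu (e.symm g)
    have h2 : L.toLinearMap (fun h' => u (h' * g)) = fun h => L u (h * e.symm g) := by
      funext x
      change u (e x * g) = u (e (x * e.symm g))
      rw [map_mul, e.apply_symm_apply]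
    change L.toLinearMap (fun h' => u (h' * g)) ∈ J
    rw [h2]
    exact h1
  · intro u hu v hv w hw
    have h1 := hJ.tri _ hu _ hv _ hw
    rw [← h1]
    symm
    refine Fintype.sum_equiv e.toEquiv _ _ fun g => ?_
    refine Fintype.sum_equiv e.toEquiv _ _ fun h => ?_
    change u (e g) * v (e h) * w (e (g * h)⁻¹) = u (e g) * v (e h) * w ((e g) * (e h))⁻¹
    rw [map_inv, map_mul]
  · have h1 : Module.finrank F (J.comap L.toLinearMap) = Module.finrank F J :=
      (LinearEquiv.ofSubmodule' L J).finrank_eq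
    rw [h1, ← Fintype.card_congr e.toEquiv]
    exact hd

theorem elem : S_ELEM := by
  intro p _ κ _ _
  have hp : p.Prime := Fact.out
  set m := (p - 1) * Fintype.card κ / 3 + 1 with hm
  obtain ⟨J, hJ, hd⟩ := ela p κ m (by omega)
  refine ⟨ZMod p, inferInstance, J, hJ, ?_⟩
  have h1 := elb p hp.two_le κ
  have h2 : (univ.filter fun e : κ → Fin p => ∑ i, (e i : ℕ) < m) =
      (univ.filter fun e : κ → Fin p => 3 * ∑ i, (e i : ℕ) ≤ (p - 1) * Fintype.card κ) := by
    ext e
    simp only [Finset.mem_filter, Finset.mem_univ, true_and]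
    omega
  rw [h2] at hd
  have h3 : (Fintype.card (Multiplicative (κ → ZMod p)) : ℝ) = (p : ℝ) ^ Fintype.card κ := by
    have : Fintype.card (Multiplicative (κ → ZMod p)) = p ^ Fintype.card κ := by
      rw [Fintype.card_multiplicative, Fintype.card_fun, ZMod.card]
    rw [this]
    push_cast
    rfl
  have h4 : (Fintype.card (Multiplicative (κ → ZMod p)) : ℝ) ≤ Module.finrank (ZMod p) J +
      ((univ.filter fun e : κ → Fin p => 3 * ∑ i, (e i : ℕ) ≤
        (p - 1) * Fintype.card κ).card : ℝ) := by exact_mod_cast hd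
  rw [h3] at h4 ⊢
  linarith

/-- The trivial reindexing. -/
def reidx (p : ℕ) (Q κ : Type) :
    Multiplicative (Q × κ → ZMod p) ≃* (Q → Multiplicative (κ → ZMod p)) where
  toFun f q := Multiplicative.ofAdd fun i => Multiplicative.toAdd f (q, i)
  invFun g := Multiplicative.ofAdd fun r => Multiplicative.toAdd (g r.1) r.2
  left_inv f := rfl
  right_inv g := rfl
  map_mul' f g := rfl

theorem elem_bound {G : Type} [Group G] [Fintype G] {p : ℕ} [Fact p.Prime] {κ : Type} [Fintype κ]
    (φ : Multiplicative (κ → ZMod p) →* G) (hφ : Function.Injective φ)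
    {I : Type} [Fintype I] {A B C : I → Finset G} (h : STPP A B C) :
    ∑ i, (((A i).card * (B i).card * (C i).card : ℕ) : ℝ) ^ ((2 : ℝ) / 3) ≤
      Real.exp (-(Fintype.card κ : ℝ) / 18) * Fintype.card G := by
  classical
  refine pow_bound (blo piv) G (Multiplicative (κ → ZMod p)) φ hφ _ (Real.exp_pos _) ?_ I A B C h
  intro N _
  have h1 := (elem p ((Fin 3 × Fin N) × κ)).congr (reidx p (Fin 3 × Fin N) κ)
  have h2 : Real.exp (-(Fintype.card ((Fin 3 × Fin N) × κ) : ℝ) / 18) =
      Real.exp (-(Fintype.card κ : ℝ) / 18) ^ (3 * N) := by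
    rw [← Real.exp_nat_mul]
    congr 1
    simp only [Fintype.card_prod, Fintype.card_fin]
    push_cast
    ring
  rw [h2] at h1
  convert h1

theorem card_eq_sum {G : Type} [Group G] [Finite G] {k : ℕ} {d : Fin k → ℕ}
    (h : Nonempty (MonoidAlgebra ℂ G ≃ₐ[ℂ] ∀ j, Matrix (Fin (d j)) (Fin (d j)) ℂ)) :
    ∑ j, d j * d j = Nat.card G := by
  classical
  have hfin : Fintype G := Fintype.ofFinite G
  obtain ⟨e⟩ := h
  have h1 := e.toLinearEquiv.finrank_eq
  rw [Module.finrank_pi_fintype] at h1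
  simp only [Module.finrank_matrix, Fintype.card_fin, Module.finrank_self, mul_one] at h1
  rw [← h1, (MonoidAlgebra.coeffLinearEquiv ℂ (S := ℂ) (M := G)).finrank_eq,
    Module.finrank_finsupp_self, Nat.card_eq_fintype_card]

/-- The consequence for the inequality of Cohn, Kleinberg, Szegedy and Umans. -/
theorem classes_bound {G : Type} [Group G] [Finite G] {Y : ℝ} (hY : 0 < Y)
    {I : Type} [Fintype I] {A B C : I → Finset G}
    (hS : (∑ i, (((A i).card * (B i).card * (C i).card : ℕ) : ℝ) ^ ((2 : ℝ) / 3)) * Y ≤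
      Nat.card G) {n : ℕ} {d : Fin n → ℕ}
    (hd : Nonempty (MonoidAlgebra ℂ G ≃ₐ[ℂ] ∀ j, Matrix (Fin (d j)) (Fin (d j)) ℂ))
    {ω : ℝ} (hω : 2 ≤ ω) (hk : (Nat.card (ConjClasses G) : ℝ) ^ ((ω - 2) / ω) ≤ Y) :
    ∑ i, (((A i).card * (B i).card * (C i).card : ℕ) : ℝ) ^ (ω / 3) ≤ ∑ j, (d j : ℝ) ^ ω :=
  pwr n (Nat.card (ConjClasses G)) (Nat.card G) d I _ Y ω (card_eq_sum hd) Nat.card_pos
    (chr G n d hd) hω hY hS hk

theorem exists_addEquiv (p r : ℕ) [Fact p.Prime] (V : Type) [AddCommGroup V] [Module (ZMod p) V]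
    [Finite V] (hcard : Nat.card V = p ^ r) : Nonempty (V ≃+ (Fin r → ZMod p)) := by
  have hp : p.Prime := Fact.out
  have h0 : Module.Finite (ZMod p) V := Module.Finite.of_finite
  have hr : Module.finrank (ZMod p) V = r := by
    have h1 := Module.natCard_eq_pow_finrank (K := ZMod p) (V := V)
    rw [hcard, Nat.card_zmod] at h1
    exact (Nat.pow_right_injective hp.two_le h1).symm
  exact ⟨((Module.finBasis (ZMod p) V).reindex (finCongr hr)).equivFun.toAddEquiv⟩

/-- An elementary abelian `p`-group of order `p ^ r` is the additive group of `(ZMod p) ^ r`. -/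
theorem exists_hom {p r : ℕ} (hp : p.Prime) (E : Type) [CommGroup E] [Finite E]
    (hexp : ∀ x : E, x ^ p = 1) (hcard : Nat.card E = p ^ r) :
    ∃ φ : Multiplicative (Fin r → ZMod p) →* E, Function.Injective φ := by
  have : Fact p.Prime := ⟨hp⟩
  have : Finite (Additive E) := inferInstanceAs (Finite E)
  obtain ⟨e⟩ := @exists_addEquiv p r _ (Additive E) _ (AddCommGroup.zmodModule (n := p) (by
    intro x
    have := hexp (Additive.toMul x)
    apply Additive.toMul.injective
    simpa using this)) _ hcard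
  refine ⟨AddMonoidHom.toMultiplicativeLeft e.symm.toAddMonoidHom, ?_⟩
  intro x y hxy
  exact e.symm.injective hxy

/-- Elementary abelian subgroups. -/
theorem elem_subgroup {G : Type} [Group G] [Finite G] {p r : ℕ} (hp : p.Prime) (E : Subgroup G)
    (hcomm : ∀ x ∈ E, ∀ y ∈ E, x * y = y * x) (hexp : ∀ x ∈ E, x ^ p = 1)
    (hcard : Nat.card E = p ^ r) {I : Type} [Fintype I] {A B C : I → Finset G}
    (h : STPP A B C) :
    (∑ i, (((A i).card * (B i).card * (C i).card : ℕ) : ℝ) ^ ((2 : ℝ) / 3)) *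
      Real.exp ((r : ℝ) / 18) ≤ Nat.card G := by
  classical
  have : Fact p.Prime := ⟨hp⟩
  have hfin : Fintype G := Fintype.ofFinite G
  let hE : CommGroup E := { (inferInstance : Group E) with
    mul_comm := fun a b => Subtype.ext (hcomm a a.2 b b.2) }
  obtain ⟨φ, hφ⟩ := exists_hom hp E (fun x => Subtype.ext (hexp x x.2)) hcard
  have h1 := elem_bound (E.subtype.comp φ) (E.subtype_injective.comp hφ) h
  rw [Nat.card_eq_fintype_card]
  rw [Fintype.card_fin] at h1
  calc _ ≤ (Real.exp (-(r : ℝ) / 18) * Fintype.card G) * Real.exp ((r : ℝ) / 18) :=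
        mul_le_mul_of_nonneg_right h1 (Real.exp_pos _).le
    _ = (Real.exp (-(r : ℝ) / 18) * Real.exp ((r : ℝ) / 18)) * Fintype.card G := by ring
    _ = Fintype.card G := by
        rw [← Real.exp_add]
        have : -(r : ℝ) / 18 + (r : ℝ) / 18 = 0 := by ring
        rw [this, Real.exp_zero, one_mul]

end Pool.Agent.N726.BG
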