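import Pool.Agent.N726.BG.Stm

/-!
# Leaf AVG: averaging over conjugates and the Loomis-Whitney inequality (helper99)
-/

set_option autoImplicit false

namespace Pool.Agent.N726.BG.Avg

open Finset

section

variable {G H : Type} [Group G] [DecidableEq G] [Group H] [Fintype H]

/-- the number of `h` with `s⁻¹ φ(h) t ∈ X` -/
def nn (φ : H →* G) (X : Finset G) (s t : G) : ℕ :=
  (univ.filter fun h : H => s⁻¹ * φ h * t ∈ X).card

theorem nn_mul (φ : H →* G) (X : Finset G) (s t : G) (k : H) :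
    nn φ X s (φ k * t) = nn φ X s t := by
  unfold nn
  refine Finset.card_equiv (Equiv.mulRight k) fun h => ?_
  simp only [mem_filter, mem_univ, true_and, Equiv.coe_mulRight, map_mul, mul_assoc]

theorem one_le_nn (φ : H →* G) (X : Finset G) (s t : G) (h : s⁻¹ * t ∈ X) : 1 ≤ nn φ X s t := by
  refine Finset.card_pos.2 ⟨1, ?_⟩
  rw [mem_filter, map_one, mul_one]
  exact ⟨mem_univ _, h⟩

theorem sum_inv [Fintype G] (φ : H →* G) (X : Finset G) (g : G) :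
    (Fintype.card H : ℝ) * ∑ x ∈ X, ((nn φ X g (g * x) : ℕ) : ℝ)⁻¹ ≤ Fintype.card G := by
  have h1 : ∀ k : H, ∑ x ∈ X, ((nn φ X g (g * x) : ℕ) : ℝ)⁻¹ =
      ∑ y : G, if g⁻¹ * φ k * (g * y) ∈ X then ((nn φ X g (g * y) : ℕ) : ℝ)⁻¹ else 0 := by
    intro k
    have h2 : ∑ x ∈ X, ((nn φ X g (g * x) : ℕ) : ℝ)⁻¹ =
        ∑ x : G, if x ∈ X then ((nn φ X g (g * x) : ℕ) : ℝ)⁻¹ else 0 := by
      rw [Finset.sum_ite_mem, Finset.univ_inter]
    rw [h2, ← Equiv.sum_comp (Equiv.mulLeft (g⁻¹ * φ k * g))]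
    refine sum_congr rfl fun y _ => ?_
    have h3 : g⁻¹ * φ k * g * y = g⁻¹ * φ k * (g * y) := by group
    have h4 : g * (g⁻¹ * φ k * (g * y)) = φ k * (g * y) := by group
    have h5 : (Equiv.mulLeft (g⁻¹ * φ k * g)) y = g⁻¹ * φ k * (g * y) := h3
    rw [h5, h4, nn_mul]
  calc (Fintype.card H : ℝ) * ∑ x ∈ X, ((nn φ X g (g * x) : ℕ) : ℝ)⁻¹
      = ∑ _k : H, ∑ x ∈ X, ((nn φ X g (g * x) : ℕ) : ℝ)⁻¹ := by
        rw [sum_const, card_univ, nsmul_eq_mul]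
    _ = ∑ k : H, ∑ y : G, if g⁻¹ * φ k * (g * y) ∈ X then
          ((nn φ X g (g * y) : ℕ) : ℝ)⁻¹ else 0 := sum_congr rfl fun k _ => h1 k
    _ = ∑ y : G, ∑ k : H, if g⁻¹ * φ k * (g * y) ∈ X then
          ((nn φ X g (g * y) : ℕ) : ℝ)⁻¹ else 0 := sum_comm
    _ = ∑ y : G, ((nn φ X g (g * y) : ℕ) : ℝ) * ((nn φ X g (g * y) : ℕ) : ℝ)⁻¹ := by
        refine sum_congr rfl fun y _ => ?_
        rw [← sum_filter, sum_const, nsmul_eq_mul]
        rfl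
    _ ≤ ∑ _y : G, (1 : ℝ) := sum_le_sum fun y _ => mul_inv_le_one
    _ = Fintype.card G := by rw [sum_const, card_univ, nsmul_eq_mul, mul_one]

end

/-- the discrete Loomis-Whitney inequality -/
theorem loomis {α β γ : Type*} (s : Finset α) (t : Finset β) (r : Finset γ)
    (u : α → β → ℝ) (v : β → γ → ℝ) (w : γ → α → ℝ) :
    (∑ a ∈ s, ∑ b ∈ t, ∑ c ∈ r, u a b * v b c * w c a) ^ 2 ≤
      (∑ a ∈ s, ∑ b ∈ t, u a b ^ 2) * ((∑ b ∈ t, ∑ c ∈ r, v b c ^ 2) *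
        (∑ c ∈ r, ∑ a ∈ s, w c a ^ 2)) := by
  have h1 : ∑ a ∈ s, ∑ b ∈ t, ∑ c ∈ r, u a b * v b c * w c a =
      ∑ q ∈ s ×ˢ t, u q.1 q.2 * ∑ c ∈ r, v q.2 c * w c q.1 := by
    rw [Finset.sum_product]
    refine sum_congr rfl fun a _ => sum_congr rfl fun b _ => ?_
    rw [Finset.mul_sum]
    refine sum_congr rfl fun c _ => ?_
    ring
  rw [h1]
  refine (Finset.sum_mul_sq_le_sq_mul_sq _ _ _).trans ?_
  have h2 : ∑ q ∈ s ×ˢ t, u q.1 q.2 ^ 2 = ∑ a ∈ s, ∑ b ∈ t, u a b ^ 2 :=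
    Finset.sum_product _ _ _
  have h3 : ∑ q ∈ s ×ˢ t, (∑ c ∈ r, v q.2 c * w c q.1) ^ 2 ≤
      (∑ b ∈ t, ∑ c ∈ r, v b c ^ 2) * (∑ c ∈ r, ∑ a ∈ s, w c a ^ 2) := by
    calc ∑ q ∈ s ×ˢ t, (∑ c ∈ r, v q.2 c * w c q.1) ^ 2
        ≤ ∑ q ∈ s ×ˢ t, (∑ c ∈ r, v q.2 c ^ 2) * (∑ c ∈ r, w c q.1 ^ 2) :=
          sum_le_sum fun q _ => Finset.sum_mul_sq_le_sq_mul_sq _ _ _
      _ = (∑ b ∈ t, ∑ c ∈ r, v b c ^ 2) * (∑ c ∈ r, ∑ a ∈ s, w c a ^ 2) := by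
          rw [Finset.sum_product, Finset.sum_comm (s := r) (t := s), Finset.mul_sum]
          refine sum_congr rfl fun a _ => ?_
          rw [Finset.sum_mul]
  rw [h2]
  exact mul_le_mul_of_nonneg_left h3
    (sum_nonneg fun a _ => sum_nonneg fun b _ => sq_nonneg _)

theorem rot {G : Type} [Group G] {I : Type} {A B C : I → Finset G} (h : STPP A B C) :
    STPP B C A := by
  intro i j k b hb b' hb' c hc c' hc' a ha a' ha' he
  have h1 : a * a'⁻¹ * (b * b'⁻¹) * (c * c'⁻¹) = 1 := by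
    have h2 : a * a'⁻¹ * (b * b'⁻¹) * (c * c'⁻¹) =
        (a * a'⁻¹) * (b * b'⁻¹ * (c * c'⁻¹) * (a * a'⁻¹)) * (a * a'⁻¹)⁻¹ := by group
    rw [h2, he]
    group
  obtain ⟨e1, e2, e3, e4, e5⟩ := h k i j a ha a' ha' b hb b' hb' c hc c' hc' h1
  exact ⟨e2, by rw [← e2, e1], e4, e5, e3⟩

theorem inj {G : Type} [Group G] {I : Type} {A B C : I → Finset G} (h : STPP A B C) {i j : I}
    {a b a' b' : G} (ha : a ∈ A i) (hb : b ∈ B i) (ha' : a' ∈ A j) (hb' : b' ∈ B j)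
    (hC : (C j).Nonempty) (he : a⁻¹ * b = a'⁻¹ * b') : i = j ∧ a = a' ∧ b = b' := by
  obtain ⟨c, hc⟩ := hC
  have h1 : a' * a⁻¹ * (b * b'⁻¹) * (c * c⁻¹) = 1 := by
    have h2 : a' * a⁻¹ * (b * b'⁻¹) * (c * c⁻¹) = a' * (a⁻¹ * b) * b'⁻¹ := by group
    rw [h2, he]
    group
  obtain ⟨e1, -, e3, e4, -⟩ := h j i j a' ha' a ha b hb b' hb' c hc c hc h1
  exact ⟨e1.symm, e3.symm, e4⟩

section

variable {G H : Type} [Group G] [Fintype G] [DecidableEq G] [Group H] [Fintype H]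

/-- the sum of the reciprocals -/
noncomputable def FF (φ : H →* G) {I : Type} [Fintype I] (A B : I → Finset G) (i : I) (g : G) : ℝ :=
  ∑ a ∈ A i, ∑ b ∈ B i, ((nn φ (XX A B) (g⁻¹ * a) (g⁻¹ * b) : ℕ) : ℝ)⁻¹

theorem ff_nonneg (φ : H →* G) {I : Type} [Fintype I] (A B : I → Finset G) (i : I) (g : G) :
    0 ≤ FF φ A B i g :=
  sum_nonneg fun a _ => sum_nonneg fun b _ => inv_nonneg.2 (Nat.cast_nonneg _)

theorem sum_ff (φ : H →* G) {I : Type} [Fintype I] {A B C : I → Finset G} (h : STPP A B C)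
    (I' : Finset I) (hI : ∀ i ∈ I', (C i).Nonempty) :
    (Fintype.card H : ℝ) * ∑ g : G, ∑ i ∈ I', FF φ A B i g ≤ (Fintype.card G : ℝ) ^ 2 := by
  classical
  have e1 : ∑ g : G, ∑ i ∈ I', FF φ A B i g =
      ∑ g : G, ∑ i ∈ I', ∑ a ∈ A i, ∑ b ∈ B i,
        ((nn φ (XX A B) g (g * (a⁻¹ * b)) : ℕ) : ℝ)⁻¹ := by
    rw [sum_comm, sum_comm (s := univ)]
    refine sum_congr rfl fun i _ => ?_
    unfold FF
    rw [sum_comm, sum_comm (s := univ)]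
    refine sum_congr rfl fun a _ => ?_
    rw [sum_comm, sum_comm (s := univ)]
    refine sum_congr rfl fun b _ => ?_
    rw [← Equiv.sum_comp ((Equiv.inv G).trans (Equiv.mulRight a)) (fun g =>
      ((nn φ (XX A B) g (g * (a⁻¹ * b)) : ℕ) : ℝ)⁻¹)]
    refine sum_congr rfl fun g _ => ?_
    have h1 : ((Equiv.inv G).trans (Equiv.mulRight a)) g = g⁻¹ * a := rfl
    rw [h1]
    have h2 : g⁻¹ * a * (a⁻¹ * b) = g⁻¹ * b := by group
    rw [h2]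
  have e2 : ∀ g : G, ∑ i ∈ I', ∑ a ∈ A i, ∑ b ∈ B i,
        ((nn φ (XX A B) g (g * (a⁻¹ * b)) : ℕ) : ℝ)⁻¹ ≤
      ∑ x ∈ XX A B, ((nn φ (XX A B) g (g * x) : ℕ) : ℝ)⁻¹ := by
    intro g
    have h1 : ∑ i ∈ I', ∑ a ∈ A i, ∑ b ∈ B i,
        ((nn φ (XX A B) g (g * (a⁻¹ * b)) : ℕ) : ℝ)⁻¹ =
        ∑ q ∈ I'.sigma (fun i => A i ×ˢ B i),
          ((nn φ (XX A B) g (g * (q.2.1⁻¹ * q.2.2)) : ℕ) : ℝ)⁻¹ := by
      rw [Finset.sum_sigma]
      refine sum_congr rfl fun i _ => ?_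
      rw [Finset.sum_product]
    rw [h1]
    have hinj : Set.InjOn (fun q : Σ _ : I, G × G => q.2.1⁻¹ * q.2.2)
        (I'.sigma (fun i => A i ×ˢ B i) : Finset (Σ _ : I, G × G)) := by
      rintro ⟨i, a, b⟩ hq ⟨j, a', b'⟩ hq' he
      rw [Finset.mem_coe, Finset.mem_sigma, Finset.mem_product] at hq hq'
      obtain ⟨rfl, rfl, rfl⟩ := inj h hq.2.1 hq.2.2 hq'.2.1 hq'.2.2 (hI _ hq'.1) he
      rfl
    rw [← Finset.sum_image (f := fun x => ((nn φ (XX A B) g (g * x) : ℕ) : ℝ)⁻¹) hinj]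
    refine Finset.sum_le_sum_of_subset_of_nonneg ?_ fun x _ _ => inv_nonneg.2 (Nat.cast_nonneg _)
    intro x hx
    obtain ⟨⟨i, a, b⟩, hq, rfl⟩ := Finset.mem_image.1 hx
    rw [Finset.mem_sigma] at hq
    exact Finset.mem_biUnion.2 ⟨i, mem_univ _, Finset.mem_image.2 ⟨(a, b), hq.2, rfl⟩⟩
  rw [e1, Finset.mul_sum, sq]
  calc ∑ g : G, (Fintype.card H : ℝ) * ∑ i ∈ I', ∑ a ∈ A i, ∑ b ∈ B i,
        ((nn φ (XX A B) g (g * (a⁻¹ * b)) : ℕ) : ℝ)⁻¹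
      ≤ ∑ _g : G, (Fintype.card G : ℝ) := sum_le_sum fun g _ =>
        (mul_le_mul_of_nonneg_left (e2 g) (Nat.cast_nonneg _)).trans (sum_inv φ (XX A B) g)
    _ = (Fintype.card G : ℝ) * Fintype.card G := by
        rw [sum_const, card_univ, nsmul_eq_mul]

theorem amgm {x y z : ℝ} (hx : 0 ≤ x) (hy : 0 ≤ y) (hz : 0 ≤ z) :
    x * (y * z) ≤ ((x + y + z) / 3) ^ 3 := by
  nlinarith [mul_nonneg hx (sq_nonneg (y - z)), mul_nonneg hy (sq_nonneg (z - x)),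
    mul_nonneg hz (sq_nonneg (x - y)), mul_nonneg hx (sq_nonneg (x - y)),
    mul_nonneg hx (sq_nonneg (x - z)), mul_nonneg hy (sq_nonneg (y - z)),
    mul_nonneg hy (sq_nonneg (x - y)), mul_nonneg hz (sq_nonneg (x - z)),
    mul_nonneg hz (sq_nonneg (y - z))]

theorem mem_XX {I : Type} [Fintype I] {A B : I → Finset G} {i : I} {a b : G} (ha : a ∈ A i)
    (hb : b ∈ B i) (g : G) : (g⁻¹ * a)⁻¹ * (g⁻¹ * b) ∈ XX A B := by
  have h1 : (g⁻¹ * a)⁻¹ * (g⁻¹ * b) = a⁻¹ * b := by group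
  rw [h1]
  exact Finset.mem_biUnion.2 ⟨i, mem_univ _, Finset.mem_image.2
    ⟨(a, b), Finset.mem_product.2 ⟨ha, hb⟩, rfl⟩⟩

theorem local_bound (φ : H →* G) {κ : ℝ} (hκ : 0 < κ) {I : Type} [Fintype I]
    {A B C : I → Finset G}
    (hyp : ∀ s t r : G, (nn φ (XX A B) s t : ℝ) * nn φ (XX B C) t r * nn φ (XX C A) r s ≤
      κ * (Fintype.card H : ℝ) ^ 3) (i : I) (g : G) :
    (((A i).card * (B i).card * (C i).card : ℕ) : ℝ) ^ ((2 : ℝ) / 3) ≤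
      κ ^ ((1 : ℝ) / 3) * ((Fintype.card H : ℝ) *
        ((FF φ A B i g + FF φ B C i g + FF φ C A i g) / 3)) := by
  have hn : (0 : ℝ) < Fintype.card H := by exact_mod_cast Fintype.card_pos
  set n : ℝ := (Fintype.card H : ℝ) with hnd
  set u : G → G → ℝ := fun a b => (Real.sqrt (nn φ (XX A B) (g⁻¹ * a) (g⁻¹ * b)))⁻¹ with hu
  set v : G → G → ℝ := fun a b => (Real.sqrt (nn φ (XX B C) (g⁻¹ * a) (g⁻¹ * b)))⁻¹ with hv
  set w : G → G → ℝ := fun a b => (Real.sqrt (nn φ (XX C A) (g⁻¹ * a) (g⁻¹ * b)))⁻¹ with hw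
  have hK : 0 ≤ κ * n ^ 3 := by positivity
  have hpt : ∀ a ∈ A i, ∀ b ∈ B i, ∀ c ∈ C i,
      (1 : ℝ) ≤ Real.sqrt (κ * n ^ 3) * (u a b * v b c * w c a) := by
    intro a ha b hb c hc
    have h1 : (1 : ℝ) ≤ nn φ (XX A B) (g⁻¹ * a) (g⁻¹ * b) := by
      exact_mod_cast one_le_nn φ _ _ _ (mem_XX ha hb g)
    have h2 : (1 : ℝ) ≤ nn φ (XX B C) (g⁻¹ * b) (g⁻¹ * c) := by
      exact_mod_cast one_le_nn φ _ _ _ (mem_XX hb hc g)
    have h3 : (1 : ℝ) ≤ nn φ (XX C A) (g⁻¹ * c) (g⁻¹ * a) := by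
      exact_mod_cast one_le_nn φ _ _ _ (mem_XX hc ha g)
    have h4 := Real.sqrt_le_sqrt (hyp (g⁻¹ * a) (g⁻¹ * b) (g⁻¹ * c))
    rw [Real.sqrt_mul (by positivity), Real.sqrt_mul (by positivity)] at h4
    have p1 : 0 < Real.sqrt (nn φ (XX A B) (g⁻¹ * a) (g⁻¹ * b)) := Real.sqrt_pos.2 (by linarith)
    have p2 : 0 < Real.sqrt (nn φ (XX B C) (g⁻¹ * b) (g⁻¹ * c)) := Real.sqrt_pos.2 (by linarith)
    have p3 : 0 < Real.sqrt (nn φ (XX C A) (g⁻¹ * c) (g⁻¹ * a)) := Real.sqrt_pos.2 (by linarith)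
    rw [hu, hv, hw]
    beta_reduce
    rw [← mul_inv, ← mul_inv, ← div_eq_mul_inv, le_div_iff₀ (by positivity), one_mul]
    exact h4
  have hsum : (((A i).card * (B i).card * (C i).card : ℕ) : ℝ) ≤
      Real.sqrt (κ * n ^ 3) * ∑ a ∈ A i, ∑ b ∈ B i, ∑ c ∈ C i, u a b * v b c * w c a := by
    calc (((A i).card * (B i).card * (C i).card : ℕ) : ℝ)
        = ∑ a ∈ A i, ∑ b ∈ B i, ∑ c ∈ C i, (1 : ℝ) := by
          simp only [sum_const, nsmul_eq_mul, mul_one]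
          push_cast
          ring
      _ ≤ ∑ a ∈ A i, ∑ b ∈ B i, ∑ c ∈ C i, Real.sqrt (κ * n ^ 3) * (u a b * v b c * w c a) :=
          sum_le_sum fun a ha => sum_le_sum fun b hb => sum_le_sum fun c hc => hpt a ha b hb c hc
      _ = _ := by
          rw [Finset.mul_sum]
          refine sum_congr rfl fun a _ => ?_
          rw [Finset.mul_sum]
          refine sum_congr rfl fun b _ => ?_
          rw [Finset.mul_sum]
  have hsq : ∀ (X : Finset G) (s t : G), (Real.sqrt (nn φ X s t : ℝ))⁻¹ ^ 2 =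
      ((nn φ X s t : ℕ) : ℝ)⁻¹ := by
    intro X s t
    rw [inv_pow, Real.sq_sqrt (Nat.cast_nonneg _)]
  have hlw := loomis (A i) (B i) (C i) u v w
  have f1 : ∑ a ∈ A i, ∑ b ∈ B i, u a b ^ 2 = FF φ A B i g :=
    sum_congr rfl fun a _ => sum_congr rfl fun b _ => hsq _ _ _
  have f2 : ∑ a ∈ B i, ∑ b ∈ C i, v a b ^ 2 = FF φ B C i g :=
    sum_congr rfl fun a _ => sum_congr rfl fun b _ => hsq _ _ _
  have f3 : ∑ a ∈ C i, ∑ b ∈ A i, w a b ^ 2 = FF φ C A i g :=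
    sum_congr rfl fun a _ => sum_congr rfl fun b _ => hsq _ _ _
  rw [f1, f2, f3] at hlw
  set M : ℝ := (((A i).card * (B i).card * (C i).card : ℕ) : ℝ) with hM
  have hM0 : 0 ≤ M := Nat.cast_nonneg _
  set S : ℝ := ∑ a ∈ A i, ∑ b ∈ B i, ∑ c ∈ C i, u a b * v b c * w c a with hS
  set V : ℝ := n * ((FF φ A B i g + FF φ B C i g + FF φ C A i g) / 3) with hV
  have hV0 : 0 ≤ V := by
    have h1 := ff_nonneg φ A B i g
    have h2 := ff_nonneg φ B C i g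
    have h3 := ff_nonneg φ C A i g
    positivity
  have hM2 : M ^ 2 ≤ κ * V ^ 3 := by
    calc M ^ 2 ≤ (Real.sqrt (κ * n ^ 3) * S) ^ 2 := by
          exact pow_le_pow_left₀ hM0 hsum 2
      _ = κ * n ^ 3 * S ^ 2 := by rw [mul_pow, Real.sq_sqrt hK]
      _ ≤ κ * n ^ 3 * ((FF φ A B i g + FF φ B C i g + FF φ C A i g) / 3) ^ 3 := by
          refine mul_le_mul_of_nonneg_left (hlw.trans ?_) hK
          exact amgm (ff_nonneg φ A B i g) (ff_nonneg φ B C i g) (ff_nonneg φ C A i g)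
      _ = κ * V ^ 3 := by rw [hV]; ring
  have h1 : M ^ ((2 : ℝ) / 3) = (M ^ 2) ^ ((1 : ℝ) / 3) := by
    rw [← Real.rpow_natCast M 2, ← Real.rpow_mul hM0]
    norm_num
  rw [h1]
  calc (M ^ 2) ^ ((1 : ℝ) / 3) ≤ (κ * V ^ 3) ^ ((1 : ℝ) / 3) :=
        Real.rpow_le_rpow (by positivity) hM2 (by norm_num)
    _ = κ ^ ((1 : ℝ) / 3) * V := by
        rw [Real.mul_rpow hκ.le (by positivity), ← Real.rpow_natCast V 3, ← Real.rpow_mul hV0]
        norm_num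

end

end Pool.Agent.N726.BG.Avg

namespace Pool.Agent.N726.BG

open Finset

/-- leaf AVG -/
theorem avg : S_AVG := by
  intro G H _ _ _ _ _ φ _ κ hκ I _ A B C hST hyp
  classical
  have hn : (0 : ℝ) < Fintype.card H := by exact_mod_cast Fintype.card_pos
  have hG : (0 : ℝ) < Fintype.card G := by exact_mod_cast Fintype.card_pos
  set I' : Finset I := univ.filter fun i => (A i).Nonempty ∧ (B i).Nonempty ∧ (C i).Nonempty
    with hI'
  have e0 : ∑ i, (((A i).card * (B i).card * (C i).card : ℕ) : ℝ) ^ ((2 : ℝ) / 3) =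
      ∑ i ∈ I', (((A i).card * (B i).card * (C i).card : ℕ) : ℝ) ^ ((2 : ℝ) / 3) := by
    symm
    refine Finset.sum_subset (Finset.subset_univ _) fun i _ hi => ?_
    have h1 : (A i).card * (B i).card * (C i).card = 0 := by
      by_contra hne
      apply hi
      rw [hI', mem_filter]
      have h2 : (A i).card ≠ 0 := fun h => hne (by rw [h]; simp)
      have h3 : (B i).card ≠ 0 := fun h => hne (by rw [h]; simp)
      have h4 : (C i).card ≠ 0 := fun h => hne (by rw [h]; simp)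
      exact ⟨mem_univ _, Finset.card_ne_zero.1 h2, Finset.card_ne_zero.1 h3,
        Finset.card_ne_zero.1 h4⟩
    rw [h1, Nat.cast_zero, Real.zero_rpow (by norm_num)]
  have k1 := Avg.sum_ff φ hST I' (fun i hi => (mem_filter.1 hi).2.2.2)
  have k2 := Avg.sum_ff φ (Avg.rot hST) I' (fun i hi => (mem_filter.1 hi).2.1)
  have k3 := Avg.sum_ff φ (Avg.rot (Avg.rot hST)) I' (fun i hi => (mem_filter.1 hi).2.2.1)
  have hkey : (Fintype.card G : ℝ) *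
      ∑ i ∈ I', (((A i).card * (B i).card * (C i).card : ℕ) : ℝ) ^ ((2 : ℝ) / 3) ≤
      κ ^ ((1 : ℝ) / 3) * (Fintype.card G : ℝ) ^ 2 := by
    calc (Fintype.card G : ℝ) *
        ∑ i ∈ I', (((A i).card * (B i).card * (C i).card : ℕ) : ℝ) ^ ((2 : ℝ) / 3)
        = ∑ _g : G, ∑ i ∈ I', (((A i).card * (B i).card * (C i).card : ℕ) : ℝ) ^ ((2 : ℝ) / 3) := by
          rw [sum_const, card_univ, nsmul_eq_mul]
      _ ≤ ∑ g : G, ∑ i ∈ I', κ ^ ((1 : ℝ) / 3) * ((Fintype.card H : ℝ) *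
        ((Avg.FF φ A B i g + Avg.FF φ B C i g + Avg.FF φ C A i g) / 3)) :=
          sum_le_sum fun g _ => sum_le_sum fun i _ => Avg.local_bound φ hκ hyp i g
      _ = κ ^ ((1 : ℝ) / 3) * (((Fintype.card H : ℝ) * ∑ g : G, ∑ i ∈ I', Avg.FF φ A B i g +
            (Fintype.card H : ℝ) * ∑ g : G, ∑ i ∈ I', Avg.FF φ B C i g +
            (Fintype.card H : ℝ) * ∑ g : G, ∑ i ∈ I', Avg.FF φ C A i g) / 3) := by
          simp only [← Finset.mul_sum, ← Finset.sum_div, Finset.sum_add_distrib]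
          ring
      _ ≤ κ ^ ((1 : ℝ) / 3) * (Fintype.card G : ℝ) ^ 2 := by
          refine mul_le_mul_of_nonneg_left ?_ (by positivity)
          linarith
  rw [e0]
  have h5 : κ ^ ((1 : ℝ) / 3) * (Fintype.card G : ℝ) ^ 2 =
      (Fintype.card G : ℝ) * (κ ^ ((1 : ℝ) / 3) * Fintype.card G) := by ring
  rw [h5] at hkey
  exact le_of_mul_le_mul_left hkey hG

end Pool.Agent.N726.BG
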