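import Mathlib
import Pool.Agent.N726.BG.Defs

/-!
# Groups given by bilinear cocycles
-/

namespace Pool.Agent.N726.BG

open Finset

/-- The group of the pairs `(a, b)` of functions with values in `ZMod p` with
`(a, b) (a', b') = (a + a', b + b' + β(a, a'))`, where `β` is the bilinear map with the
coefficients `c`. -/
@[ext]
structure Bil (p : ℕ) (ι ζ : Type) [Fintype ι] (c : ζ → ι → ι → ZMod p) where
  /-- the first component -/
  a : ι → ZMod p
  /-- the second component -/
  b : ζ → ZMod p

namespace Bil

variable {p : ℕ} {ι ζ : Type} [Fintype ι] {c : ζ → ι → ι → ZMod p}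

/-- the bilinear map -/
def beta (c : ζ → ι → ι → ZMod p) (x y : ι → ZMod p) (j : ζ) : ZMod p :=
  ∑ i, ∑ k, c j i k * x i * y k

theorem beta_add_left (x x' y : ι → ZMod p) :
    beta c (x + x') y = beta c x y + beta c x' y := by
  funext j
  simp only [beta, Pi.add_apply, ← Finset.sum_add_distrib]
  refine Finset.sum_congr rfl fun i _ => Finset.sum_congr rfl fun k _ => ?_
  ring

theorem beta_add_right (x y y' : ι → ZMod p) :
    beta c x (y + y') = beta c x y + beta c x y' := by
  funext j
  simp only [beta, Pi.add_apply, ← Finset.sum_add_distrib]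
  refine Finset.sum_congr rfl fun i _ => Finset.sum_congr rfl fun k _ => ?_
  ring

theorem beta_zero_left (y : ι → ZMod p) : beta c 0 y = 0 := by
  funext j
  simp [beta]

theorem beta_zero_right (x : ι → ZMod p) : beta c x 0 = 0 := by
  funext j
  simp [beta]

theorem beta_neg_left (x y : ι → ZMod p) : beta c (-x) y = -beta c x y := by
  funext j
  simp [beta, Finset.sum_neg_distrib]

instance : Mul (Bil p ι ζ c) := ⟨fun x y => ⟨x.a + y.a, x.b + y.b + beta c x.a y.a⟩⟩

instance : One (Bil p ι ζ c) := ⟨⟨0, 0⟩⟩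

instance : Inv (Bil p ι ζ c) := ⟨fun x => ⟨-x.a, -x.b + beta c x.a x.a⟩⟩

theorem mul_a (x y : Bil p ι ζ c) : (x * y).a = x.a + y.a := rfl

theorem mul_b (x y : Bil p ι ζ c) : (x * y).b = x.b + y.b + beta c x.a y.a := rfl

theorem one_a : (1 : Bil p ι ζ c).a = 0 := rfl

theorem one_b : (1 : Bil p ι ζ c).b = 0 := rfl

theorem inv_a (x : Bil p ι ζ c) : (x⁻¹).a = -x.a := rfl

theorem inv_b (x : Bil p ι ζ c) : (x⁻¹).b = -x.b + beta c x.a x.a := rfl

instance : Group (Bil p ι ζ c) :=
  Group.ofLeftAxioms
    (by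
      intro x y z
      ext1
      · simp only [mul_a]; abel
      · simp only [mul_a, mul_b, beta_add_left, beta_add_right]; abel)
    (by
      intro x
      ext1
      · simp only [mul_a, one_a, zero_add]
      · simp only [mul_b, one_a, one_b, beta_zero_left, zero_add, add_zero])
    (by
      intro x
      ext1
      · simp only [mul_a, inv_a, one_a]; abel
      · simp only [mul_b, inv_a, inv_b, one_b, beta_neg_left]; abel)

/-- the pair -/
def equivProd : Bil p ι ζ c ≃ (ι → ZMod p) × (ζ → ZMod p) where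
  toFun x := (x.a, x.b)
  invFun y := ⟨y.1, y.2⟩
  left_inv _ := rfl
  right_inv _ := rfl

instance [NeZero p] [Fintype ζ] [DecidableEq ι] [DecidableEq ζ] : Fintype (Bil p ι ζ c) :=
  Fintype.ofEquiv _ equivProd.symm

end Bil

end Pool.Agent.N726.BG
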