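import Pool.Agent.N726.BG.Stm

/-! # SB/BLK: blocks in a quasirandom group -/

set_option autoImplicit false

namespace Pool.Agent.N726.BG

open Finset

namespace Blk

/-! ## Real inequalities -/

lemma amgm (a b c s : ℝ) (ha : 0 ≤ a) (hb : 0 ≤ b) (hc : 0 ≤ c) (hs : 0 ≤ s)
    (h : s ^ 3 = a * b * c) : 3 * s ≤ a + b + c := by
  have h1 : (3 * s) ^ 3 ≤ (a + b + c) ^ 3 := by
    have h2 : (3 * s) ^ 3 = 27 * (a * b * c) := by rw [← h]; ring
    rw [h2]
    nlinarith [mul_nonneg ha (sq_nonneg (b - c)), mul_nonneg hb (sq_nonneg (c - a)),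
      mul_nonneg hc (sq_nonneg (a - b)), mul_nonneg ha (sq_nonneg (a - b)),
      mul_nonneg ha (sq_nonneg (a - c)), mul_nonneg hb (sq_nonneg (b - a)),
      mul_nonneg hb (sq_nonneg (b - c)), mul_nonneg hc (sq_nonneg (c - a)),
      mul_nonneg hc (sq_nonneg (c - b))]
  exact le_of_pow_le_pow_left₀ (by norm_num) (by positivity) h1

lemma root (n : ℕ) (hn : n ≠ 0) (x : ℝ) (hx : 0 ≤ x) : ∃ y : ℝ, 0 ≤ y ∧ y ^ n = x :=
  ⟨x ^ ((n : ℝ)⁻¹), by positivity, Real.rpow_inv_natCast_pow hx hn⟩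

lemma holder {L : Type} (s : Finset L) (p q r μ : L → ℝ) (X Y Z T : ℝ)
    (hp : ∀ l, 0 ≤ p l) (hq : ∀ l, 0 ≤ q l) (hr : ∀ l, 0 ≤ r l) (hμ : ∀ l, 0 ≤ μ l)
    (hX : 0 < X) (hY : 0 < Y) (hZ : 0 < Z) (hT : 0 ≤ T) (hT3 : T ^ 3 = X * Y * Z)
    (hpX : ∑ l ∈ s, p l ≤ X) (hqY : ∑ l ∈ s, q l ≤ Y) (hrZ : ∑ l ∈ s, r l ≤ Z)
    (h : ∀ l, μ l ^ 3 = p l * q l * r l) : ∑ l ∈ s, μ l ≤ T := by
  have hT0 : 0 < T := by
    rcases hT.lt_or_eq with h0 | h0
    · exact h0
    · exfalso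
      rw [← h0] at hT3
      have : 0 < X * Y * Z := by positivity
      rw [← hT3] at this
      norm_num at this
  have h1 : ∀ l ∈ s, 3 * (μ l / T) ≤ p l / X + q l / Y + r l / Z := by
    intro l _
    refine amgm _ _ _ _ (div_nonneg (hp l) hX.le) (div_nonneg (hq l) hY.le)
      (div_nonneg (hr l) hZ.le) (div_nonneg (hμ l) hT) ?_
    rw [div_pow, h l, hT3]
    field_simp
  have h2 := Finset.sum_le_sum h1
  rw [← Finset.mul_sum, ← Finset.sum_div, Finset.sum_add_distrib, Finset.sum_add_distrib,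
    ← Finset.sum_div, ← Finset.sum_div, ← Finset.sum_div] at h2
  have h3 : (∑ l ∈ s, p l) / X ≤ 1 := by rw [div_le_one hX]; exact hpX
  have h4 : (∑ l ∈ s, q l) / Y ≤ 1 := by rw [div_le_one hY]; exact hqY
  have h5 : (∑ l ∈ s, r l) / Z ≤ 1 := by rw [div_le_one hZ]; exact hrZ
  have h6 : (∑ l ∈ s, μ l) / T ≤ 1 := by linarith
  rwa [div_le_one hT0] at h6

lemma single_real (N m h D : ℝ) (hN : N ≤ m) (hm : 0 < m) (hD : 1 ≤ D) (hDh : D ≤ h)
    (hmix : (N - m ^ 2 / h) ^ 2 * D ≤ h * m ^ 2) : m ^ 2 * D ≤ 4 * h ^ 3 := by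
  have hh : 0 < h := by linarith
  rcases le_or_gt m h with h1 | h1
  · have h2 : m ^ 2 ≤ h ^ 2 := by nlinarith
    calc m ^ 2 * D ≤ h ^ 2 * h := mul_le_mul h2 hDh (by linarith) (by positivity)
      _ ≤ 4 * h ^ 3 := by nlinarith [pow_pos hh 3]
  · have h2 : 0 ≤ m * (m - h) / h := div_nonneg (mul_nonneg hm.le (by linarith)) hh.le
    have h3 : m * (m - h) / h ≤ m ^ 2 / h - N := by
      have : m * (m - h) / h = m ^ 2 / h - m := by field_simp
      rw [this]
      linarith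
    have h4 : (m * (m - h) / h) ^ 2 ≤ (N - m ^ 2 / h) ^ 2 := by nlinarith
    have h5 : (m * (m - h) / h) ^ 2 * D ≤ h * m ^ 2 :=
      (mul_le_mul_of_nonneg_right h4 (by linarith)).trans hmix
    have h6 : (m - h) ^ 2 * D ≤ h ^ 3 := by
      have e1 : (m * (m - h) / h) ^ 2 * D = ((m - h) ^ 2 * D) * (m ^ 2 / h ^ 2) := by
        field_simp
      have e2 : h * m ^ 2 = h ^ 3 * (m ^ 2 / h ^ 2) := by
        field_simp
      rw [e1, e2] at h5
      exact le_of_mul_le_mul_right h5 (by positivity)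
    have h7 : m ^ 2 ≤ 2 * (m - h) ^ 2 + 2 * h ^ 2 := by nlinarith [sq_nonneg (m - 2 * h)]
    have h8 : m ^ 2 * D ≤ (2 * (m - h) ^ 2 + 2 * h ^ 2) * D :=
      mul_le_mul_of_nonneg_right h7 (by linarith)
    have h9 : h ^ 2 * D ≤ h ^ 3 := by
      calc h ^ 2 * D ≤ h ^ 2 * h := mul_le_mul_of_nonneg_left hDh (by positivity)
        _ = h ^ 3 := by ring
    nlinarith

lemma final_real (N t h D K T : ℝ) (hD : 1 ≤ D) (hDh : D ≤ h) (ht : 0 ≤ t)
    (hK : 0 ≤ K) (hT : 0 ≤ T) (hK6 : K ^ 6 * D = 4 * h ^ 3) (hT3 : T ^ 3 = t) (hN : N ≤ K * T)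
    (hmix : (N - t / h) ^ 2 * D ≤ h * t) : t * D ≤ 4 * h ^ 3 := by
  by_contra hcon
  push Not at hcon
  have hh : 0 < h := by linarith
  have hD0 : 0 < D := by linarith
  have ht0 : 0 < t := by
    rcases ht.lt_or_eq with h0 | h0
    · exact h0
    · exfalso
      rw [← h0] at hcon
      have : 0 < h ^ 3 := by positivity
      linarith
  have h1 : t / (2 * h) ≤ N := by
    by_contra h2
    push Not at h2
    have h3 : t / (2 * h) < t / h - N := by
      have : t / h = t / (2 * h) + t / (2 * h) := by field_simp; ring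
      rw [this]
      linarith
    have h4 : (t / (2 * h)) ^ 2 < (N - t / h) ^ 2 := by
      have h5 : 0 < t / (2 * h) := by positivity
      nlinarith
    have h5 : (t / (2 * h)) ^ 2 * D < h * t :=
      (mul_lt_mul_of_pos_right h4 hD0).trans_le hmix
    have e1 : (t / (2 * h)) ^ 2 * D = (t * D) * (t / (4 * h ^ 2)) := by field_simp; ring
    have e2 : h * t = (4 * h ^ 3) * (t / (4 * h ^ 2)) := by field_simp
    rw [e1, e2] at h5
    have h6 := lt_of_mul_lt_mul_right h5 (by positivity)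
    linarith
  have h2 : t / (2 * h) ≤ K * T := h1.trans hN
  have h3 : (t / (2 * h)) ^ 6 ≤ (K * T) ^ 6 := pow_le_pow_left₀ (by positivity) h2 6
  have h4 : (K * T) ^ 6 * D = 4 * h ^ 3 * t ^ 2 := by
    rw [← hK6, ← hT3]; ring
  have h5 : (t / (2 * h)) ^ 6 * D ≤ 4 * h ^ 3 * t ^ 2 := by
    rw [← h4]
    exact mul_le_mul_of_nonneg_right h3 hD0.le
  have h6 : t ^ 4 * D ≤ 256 * h ^ 9 := by
    have e1 : (t / (2 * h)) ^ 6 * D = (t ^ 4 * D) * (t ^ 2 / (64 * h ^ 6)) := by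
      field_simp; ring
    have e2 : 4 * h ^ 3 * t ^ 2 = (256 * h ^ 9) * (t ^ 2 / (64 * h ^ 6)) := by
      field_simp; ring
    rw [e1, e2] at h5
    exact le_of_mul_le_mul_right h5 (by positivity)
  have h7 : (4 * h ^ 3) ^ 4 < (t * D) ^ 4 := pow_lt_pow_left₀ hcon (by positivity) (by norm_num)
  have h8 : D ^ 3 ≤ h ^ 3 := pow_le_pow_left₀ hD0.le hDh 3
  have h9 : (t * D) ^ 4 ≤ 256 * h ^ 12 := by
    calc (t * D) ^ 4 = (t ^ 4 * D) * D ^ 3 := by ring
      _ ≤ (256 * h ^ 9) * h ^ 3 := mul_le_mul h6 h8 (by positivity) (by positivity)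
      _ = 256 * h ^ 12 := by ring
  have h10 : (4 * h ^ 3) ^ 4 = 256 * h ^ 12 := by ring
  linarith

/-! ## Counting -/

section count

variable {H : Type} [Group H] [Fintype H] [DecidableEq H] {L : Type} [Fintype L]
  (A B C : L → Finset H)

lemma mem_XX (x : H) : x ∈ XX A B ↔ ∃ l, ∃ a ∈ A l, ∃ b ∈ B l, x = a⁻¹ * b := by
  unfold XX
  simp only [mem_biUnion, mem_univ, true_and, mem_image, mem_product, Prod.exists]
  constructor
  · rintro ⟨l, a, b, ⟨ha, hb⟩, h⟩
    exact ⟨l, a, ha, b, hb, h.symm⟩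
  · rintro ⟨l, a, ha, b, hb, h⟩
    exact ⟨l, a, b, ⟨ha, hb⟩, h.symm⟩

variable {A B C}

lemma rot (h : STPP A B C) : STPP B C A := by
  intro i j k b hb b' hb' c hc c' hc' a ha a' ha' e
  have e1 : a * a'⁻¹ * (b * b'⁻¹) * (c * c'⁻¹) = 1 := by
    have e2 : (b * b'⁻¹ * (c * c'⁻¹)) * (a * a'⁻¹) = 1 := e
    have e3 : (a * a'⁻¹) * (b * b'⁻¹ * (c * c'⁻¹)) = 1 := mul_eq_one_comm.1 e2
    rw [mul_assoc]
    exact e3
  obtain ⟨h1, h2, h3, h4, h5⟩ := h k i j a ha a' ha' b hb b' hb' c hc c' hc' e1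
  exact ⟨h2, by rw [← h2, h1], h4, h5, h3⟩

lemma count_le (h : STPP A B C) :
    ((XX A B ×ˢ XX B C).filter fun q => (q.1 * q.2)⁻¹ ∈ XX C A).card ≤
      ∑ l, (A l).card * (B l).card * (C l).card := by
  have h1 : ((XX A B ×ˢ XX B C).filter fun q => (q.1 * q.2)⁻¹ ∈ XX C A) ⊆
      univ.biUnion fun l => ((A l ×ˢ B l) ×ˢ C l).image
        fun q => (q.1.1⁻¹ * q.1.2, q.1.2⁻¹ * q.2) := by
    rintro ⟨x, y⟩ hq
    rw [mem_filter, mem_product] at hq
    obtain ⟨⟨hx, hy⟩, hz⟩ := hq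
    obtain ⟨i, a, ha, b, hb, hx⟩ := (mem_XX A B x).1 hx
    obtain ⟨j, b', hb', c, hc, hy⟩ := (mem_XX B C y).1 hy
    obtain ⟨k, c', hc', a', ha', hz⟩ := (mem_XX C A _).1 hz
    have hz : (x * y)⁻¹ = c'⁻¹ * a' := hz
    have e : a' * a⁻¹ * (b * b'⁻¹) * (c * c'⁻¹) = 1 := by
      have e1 : (x * y) * (c'⁻¹ * a') = 1 := by rw [← hz, mul_inv_cancel]
      rw [hx, hy] at e1
      have e2 : (a⁻¹ * b * (b'⁻¹ * c) * c'⁻¹) * a' = 1 := by
        rw [← e1]; group
      have e3 := mul_eq_one_comm.1 e2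
      rw [← e3]; group
    obtain ⟨h1, h2, h3, h4, h5⟩ := h k i j a' ha' a ha b hb b' hb' c hc c' hc' e
    subst h1
    subst h2
    subst h4
    rw [mem_biUnion]
    refine ⟨k, mem_univ _, ?_⟩
    rw [mem_image]
    exact ⟨((a, b), c), by simp [ha, hb, hc], by rw [hx, hy]⟩
  refine (card_le_card h1).trans (card_biUnion_le.trans (sum_le_sum fun l _ => ?_))
  refine card_image_le.trans (le_of_eq ?_)
  rw [card_product, card_product]

lemma card_XX (h : STPP A B C) (s : Finset L) (hs : ∀ l ∈ s, (C l).Nonempty) :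
    ∑ l ∈ s, (A l).card * (B l).card ≤ (XX A B).card := by
  have h1 : ∑ l ∈ s, (A l).card * (B l).card = (s.sigma fun l => A l ×ˢ B l).card := by
    rw [card_sigma]
    exact sum_congr rfl fun l _ => (card_product _ _).symm
  rw [h1]
  refine card_le_card_of_injOn (fun q => q.2.1⁻¹ * q.2.2) ?_ ?_
  · rintro ⟨l, a, b⟩ hq
    have hq' := mem_sigma.1 (mem_coe.1 hq)
    have hab := mem_product.1 hq'.2
    exact mem_coe.2 ((mem_XX A B _).2 ⟨l, a, hab.1, b, hab.2, rfl⟩)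
  · rintro ⟨l, a, b⟩ hq ⟨l', a', b'⟩ hq' e
    have e : a⁻¹ * b = a'⁻¹ * b' := e
    have h2 := mem_sigma.1 (mem_coe.1 hq)
    have h3 := mem_sigma.1 (mem_coe.1 hq')
    have hab := mem_product.1 h2.2
    have hab' := mem_product.1 h3.2
    obtain ⟨c, hc⟩ := hs l' h3.1
    have hl : l ∈ s := h2.1
    have ha : a ∈ A l := hab.1
    have hb : b ∈ B l := hab.2
    have ha' : a' ∈ A l' := hab'.1
    have hb' : b' ∈ B l' := hab'.2
    have hc : c ∈ C l' := hc
    -- a' a⁻¹ b b'⁻¹ c c⁻¹ = 1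
    have e1 : a' * a⁻¹ * (b * b'⁻¹) * (c * c⁻¹) = 1 := by
      have : a' * a⁻¹ * (b * b'⁻¹) * (c * c⁻¹) = a' * (a⁻¹ * b) * b'⁻¹ := by group
      rw [this, e]
      group
    obtain ⟨h4, -, h5, h6, -⟩ := h l' l l' a' ha' a ha b hb b' hb' c hc c hc e1
    subst h4
    subst h5
    subst h6
    rfl

end count

section single

variable {H : Type} [Group H] [Fintype H] [DecidableEq H]

lemma card_XX_unit (A B C : Finset H) (h : STPP (fun _ : Unit => A) (fun _ => B) (fun _ => C))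
    (hC : C.Nonempty) : (XX (fun _ : Unit => A) (fun _ => B)).card = A.card * B.card := by
  refine le_antisymm ?_ ?_
  · unfold XX
    refine card_biUnion_le.trans ?_
    rw [Fintype.sum_unique]
    refine card_image_le.trans (le_of_eq (card_product _ _))
  · have h1 := card_XX h (univ : Finset Unit) (fun _ _ => hC)
    rw [Fintype.sum_unique] at h1
    exact h1

end single

end Blk

open Blk in
theorem blk : S_BLK := by
  intro H _ _ _ D hD hDh hmix L _ A B C h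
  classical
  obtain ⟨hc, hhc⟩ : ∃ hc : ℝ, hc = (Fintype.card H : ℝ) := ⟨_, rfl⟩
  have hD1 : (1 : ℝ) ≤ D := by exact_mod_cast hD
  have hDh1 : (D : ℝ) ≤ hc := by rw [hhc]; exact_mod_cast hDh
  have hh0 : 0 < hc := by linarith
  -- the blocks
  have hblock : ∀ l, (((A l).card * (B l).card * (C l).card : ℕ) : ℝ) ^ 2 * D ≤ 4 * hc ^ 3 := by
    intro l
    rcases Nat.eq_zero_or_pos ((A l).card * (B l).card * (C l).card) with h0 | h0
    · rw [h0]
      have : 0 < hc ^ 3 := by positivity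
      norm_num
      linarith
    · have hA : (A l).Nonempty := by
        rw [← card_pos]
        exact Nat.pos_of_ne_zero fun h1 => by rw [h1] at h0; simp at h0
      have hB : (B l).Nonempty := by
        rw [← card_pos]
        exact Nat.pos_of_ne_zero fun h1 => by rw [h1] at h0; simp at h0
      have hC : (C l).Nonempty := by
        rw [← card_pos]
        exact Nat.pos_of_ne_zero fun h1 => by rw [h1] at h0; simp at h0
      have h1 : STPP (fun _ : Unit => A l) (fun _ => B l) (fun _ => C l) := by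
        intro i j k a ha a' ha' b hb b' hb' c hc c' hc' e
        obtain ⟨-, -, h2⟩ := h l l l a ha a' ha' b hb b' hb' c hc c' hc' e
        exact ⟨rfl, rfl, h2⟩
      have h2 := card_XX_unit _ _ _ h1 hC
      have h3 := card_XX_unit _ _ _ (rot h1) hA
      have h4 := card_XX_unit _ _ _ (rot (rot h1)) hB
      have h5 := count_le h1
      rw [Fintype.sum_unique] at h5
      have h6 := hmix (XX (fun _ : Unit => A l) (fun _ => B l))
        (XX (fun _ : Unit => B l) (fun _ => C l)) (XX (fun _ : Unit => C l) (fun _ => A l))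
      rw [h2, h3, h4, ← hhc] at h6
      have e1 : (((A l).card * (B l).card : ℕ) : ℝ) * (((B l).card * (C l).card : ℕ) : ℝ) *
          (((C l).card * (A l).card : ℕ) : ℝ) =
          (((A l).card * (B l).card * (C l).card : ℕ) : ℝ) ^ 2 := by
        push_cast; ring
      rw [e1] at h6
      refine single_real _ _ hc D ?_ (by exact_mod_cast h0) hD1 hDh1 h6
      exact_mod_cast h5
  -- Hölder
  rcases Nat.eq_zero_or_pos ((XX A B).card * (XX B C).card * (XX C A).card) with h0 | h0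
  · rw [h0, zero_mul]
    exact Nat.zero_le _
  have hX : 0 < (XX A B).card := Nat.pos_of_ne_zero fun h1 => by rw [h1] at h0; simp at h0
  have hY : 0 < (XX B C).card := Nat.pos_of_ne_zero fun h1 => by rw [h1] at h0; simp at h0
  have hZ : 0 < (XX C A).card := Nat.pos_of_ne_zero fun h1 => by rw [h1] at h0; simp at h0
  obtain ⟨t, ht⟩ : ∃ t : ℝ, t = ((XX A B).card : ℝ) * (XX B C).card * (XX C A).card := ⟨_, rfl⟩
  have ht0 : 0 ≤ t := by rw [ht]; positivity
  obtain ⟨T, hT0, hT3⟩ := root 3 (by norm_num) t ht0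
  obtain ⟨K, hK0, hK6⟩ := root 6 (by norm_num) (4 * hc ^ 3 / D) (by positivity)
  obtain ⟨μ, hμ⟩ : ∃ μ : L → ℝ, ∀ l, 0 ≤ μ l ∧
      μ l ^ 3 = (((A l).card * (B l).card * (C l).card : ℕ) : ℝ) :=
    ⟨fun l => (root 3 (by norm_num) _ (Nat.cast_nonneg
      ((A l).card * (B l).card * (C l).card))).choose,
      fun l => (root 3 (by norm_num) _ (Nat.cast_nonneg
      ((A l).card * (B l).card * (C l).card))).choose_spec⟩
  have hD0 : (0 : ℝ) < D := by linarith
  have hμK : ∀ l, μ l ≤ K := by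
    intro l
    refine le_of_pow_le_pow_left₀ (n := 6) (by norm_num) hK0 ?_
    rw [hK6, le_div_iff₀ hD0]
    have := hblock l
    rw [← (hμ l).2] at this
    calc μ l ^ 6 * D = (μ l ^ 3) ^ 2 * D := by ring
      _ ≤ _ := this
  obtain ⟨s, hs⟩ : ∃ s : Finset L, s = univ.filter fun l =>
    (A l).card * (B l).card * (C l).card ≠ 0 := ⟨_, rfl⟩
  have hsne : ∀ l ∈ s, (A l).Nonempty ∧ (B l).Nonempty ∧ (C l).Nonempty := by
    intro l hl
    rw [hs, mem_filter] at hl
    refine ⟨?_, ?_, ?_⟩ <;>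
    · rw [← card_pos]
      exact Nat.pos_of_ne_zero fun h1 => hl.2 (by rw [h1]; simp)
  have hp : ∑ l ∈ s, (((A l).card * (B l).card : ℕ) : ℝ) ≤ ((XX A B).card : ℝ) := by
    exact_mod_cast card_XX h s fun l hl => (hsne l hl).2.2
  have hq : ∑ l ∈ s, (((B l).card * (C l).card : ℕ) : ℝ) ≤ ((XX B C).card : ℝ) := by
    exact_mod_cast card_XX (rot h) s fun l hl => (hsne l hl).1
  have hr : ∑ l ∈ s, (((C l).card * (A l).card : ℕ) : ℝ) ≤ ((XX C A).card : ℝ) := by
    exact_mod_cast card_XX (rot (rot h)) s fun l hl => (hsne l hl).2.1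
  have hhol := holder s (fun l => (((A l).card * (B l).card : ℕ) : ℝ))
    (fun l => (((B l).card * (C l).card : ℕ) : ℝ)) (fun l => (((C l).card * (A l).card : ℕ) : ℝ))
    (fun l => μ l ^ 2) _ _ _ T (fun l => Nat.cast_nonneg _) (fun l => Nat.cast_nonneg _)
    (fun l => Nat.cast_nonneg _) (fun l => by positivity) (by exact_mod_cast hX)
    (by exact_mod_cast hY) (by exact_mod_cast hZ) hT0 (by rw [hT3, ht]) hp hq hr (by
      intro l
      have : (μ l ^ 2) ^ 3 = (μ l ^ 3) ^ 2 := by ring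
      rw [this, (hμ l).2]
      push_cast; ring)
  have hN : ((((XX A B ×ˢ XX B C).filter fun q => (q.1 * q.2)⁻¹ ∈ XX C A).card : ℕ) : ℝ) ≤
      K * T := by
    have h1 : ((((XX A B ×ˢ XX B C).filter fun q => (q.1 * q.2)⁻¹ ∈ XX C A).card : ℕ) : ℝ) ≤
        ((∑ l, (A l).card * (B l).card * (C l).card : ℕ) : ℝ) := by
      exact_mod_cast count_le h
    refine h1.trans ?_
    have h2 : ((∑ l, (A l).card * (B l).card * (C l).card : ℕ) : ℝ) = ∑ l ∈ s, μ l * μ l ^ 2 := by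
      rw [Nat.cast_sum]
      have e1 : ∀ l, (((A l).card * (B l).card * (C l).card : ℕ) : ℝ) = μ l * μ l ^ 2 := by
        intro l
        rw [← (hμ l).2]; ring
      simp only [e1]
      symm
      refine sum_subset (subset_univ _) ?_
      intro l _ hl
      rw [← e1]
      rw [hs, mem_filter] at hl
      push Not at hl
      rw [hl (mem_univ _)]
      simp
    rw [h2]
    calc ∑ l ∈ s, μ l * μ l ^ 2 ≤ ∑ l ∈ s, K * μ l ^ 2 :=
          sum_le_sum fun l _ => mul_le_mul_of_nonneg_right (hμK l) (by positivity)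
      _ = K * ∑ l ∈ s, μ l ^ 2 := by rw [mul_sum]
      _ ≤ K * T := mul_le_mul_of_nonneg_left hhol hK0
  have hm := hmix (XX A B) (XX B C) (XX C A)
  rw [← hhc, ← ht] at hm
  have hfin := final_real _ t hc D K T hD1 hDh1 ht0 hK0 hT0 (by
    rw [hK6]; field_simp) hT3 hN hm
  rw [ht, hhc] at hfin
  exact_mod_cast hfin

end Pool.Agent.N726.BG
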