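import Mathlib
import Pool.Agent.N726.BG.Bil

/-!
# Statements of the leaves of project SB, second part: elementary abelian sections
-/

namespace Pool.Agent.N726.BG

open Finset
open scoped commutatorElement

/-- `P` is a central extension of an elementary abelian group of order `p ^ v` by the elementary
abelian group `Z` of order `p ^ z`, and of exponent `p` if `p` is odd. -/
structure Ext (p : ℕ) (P : Type) [Group P] (Z : Subgroup P) (v z : ℕ) : Prop where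
  central : ∀ x ∈ Z, ∀ y : P, x * y = y * x
  zpow : ∀ x ∈ Z, x ^ p = 1
  comm : ∀ x y : P, x * y * x⁻¹ * y⁻¹ ∈ Z
  pow : ∀ x : P, x ^ p ∈ Z
  odd : p = 2 ∨ ∀ x : P, x ^ p = 1
  cardZ : Nat.card Z = p ^ z
  cardP : Nat.card P = p ^ (v + z)

/-- leaf ELA2 -/
def S_ELA2 : Prop := ∀ (p : ℕ) [Fact p.Prime] (ι ζ : Type) [Fintype ι] [Fintype ζ] [DecidableEq ι]
  [DecidableEq ζ] (c : ζ → ι → ι → ZMod p) (m : ℕ),
  (p - 1) * (Fintype.card ι + 2 * Fintype.card ζ) < 3 * m →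
  ∃ J : Submodule (ZMod p) (Bil p ι ζ c → ZMod p), Iso J ∧
    Fintype.card (Bil p ι ζ c) ≤ Module.finrank (ZMod p) J +
      (univ.filter fun e : (ι → Fin p) × (ζ → Fin p) =>
        ∑ i, (e.1 i : ℕ) + 2 * ∑ j, (e.2 j : ℕ) < m).card

/-- leaf ELB2 -/
def S_ELB2 : Prop := ∀ (p : ℕ), 2 ≤ p → ∀ (ι ζ : Type) [Fintype ι] [Fintype ζ] [DecidableEq ι]
  [DecidableEq ζ],
  ((univ.filter fun e : (ι → Fin p) × (ζ → Fin p) =>
    3 * (∑ i, (e.1 i : ℕ) + 2 * ∑ j, (e.2 j : ℕ)) ≤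
      (p - 1) * (Fintype.card ι + 2 * Fintype.card ζ)).card : ℝ) ≤
    Real.exp (-(Fintype.card ι : ℝ) / 18) * (p : ℝ) ^ (Fintype.card ι + Fintype.card ζ)

/-- leaf EXT -/
def S_EXT : Prop := ∀ (p : ℕ) [Fact p.Prime] (P : Type) [Group P] [Finite P] (Z : Subgroup P)
  (v z : ℕ), Ext p P Z v z →
  ∃ c : Fin z → Fin v → Fin v → ZMod p, Nonempty (P ≃* Bil p (Fin v) (Fin z) c)

/-- leaf LRG -/
def S_LRG : Prop := ∀ (p : ℕ) [Fact p.Prime] (Ω : Type) [Group Ω] [Finite Ω],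
  (∀ x y w : Ω, ⁅⁅x, y⁆, w⁆ = 1) → (∀ x : Ω, x ^ p ^ 4 = 1) → ∀ r : ℕ, p ^ r ≤ Nat.card Ω →
  ∃ (P : Subgroup Ω) (Z : Subgroup P) (v z : ℕ), Ext p P Z v z ∧ (r ≤ 20 * v ∨ r ≤ 20 * z)

/-- leaf SEC -/
def S_SEC : Prop := ∀ (H : Type) [Group H] [Finite H] (p r : ℕ) [Fact p.Prime] (K : Subgroup H),
  K.Normal → (∀ x y : H, x * y * x⁻¹ * y⁻¹ ∈ K) → (∀ x : H, x ^ p ∈ K) → p ^ r ≤ K.index →
  ∃ Ω : Subgroup H, (∀ x y w : Ω, ⁅⁅x, y⁆, w⁆ = 1) ∧ (∀ x : Ω, x ^ p ^ 4 = 1) ∧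
    p ^ r ≤ Nat.card Ω

end Pool.Agent.N726.BG
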