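import Mathlib
import Pool.Agent.N726.BG.Stm2
import Pool.Agent.N726.BG.Ela

/-!
# SB2/ELA2: the polynomial method space for groups with a bilinear cocycle (helper835)
-/

set_option autoImplicit false
set_option linter.unusedSectionVars false

namespace Pool.Agent.N726.BG

namespace Ela2

open Finset

section general

variable {F : Type} [Field F] {X Y κ κ' : Type} [Fintype κ] [Fintype κ']

/-- the monomial with exponents `e` -/
def mon (φ : κ → X → F) (e : κ → ℕ) : X → F := fun x => ∏ k, (φ k x) ^ e k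

/-- the functions of weight at most `K` -/
def W (φ : κ → X → F) (wt : κ → ℕ) (K : ℕ) : Submodule F (X → F) :=
  Submodule.span F {P | ∃ e : κ → ℕ, ∑ k, wt k * e k ≤ K ∧ P = mon φ e}

variable {φ : κ → X → F} {wt : κ → ℕ}

theorem W_mul {K L : ℕ} {P Q : X → F} (hP : P ∈ W φ wt K) (hQ : Q ∈ W φ wt L) :
    P * Q ∈ W φ wt (K + L) := by
  have h := Submodule.mul_mem_mul hP hQ
  unfold W at h
  rw [Submodule.span_mul_span] at h
  refine Submodule.span_mono ?_ h
  rintro _ ⟨_, ⟨e, he, rfl⟩, _, ⟨e', he', rfl⟩, rfl⟩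
  refine ⟨e + e', ?_, ?_⟩
  · simp only [Pi.add_apply, mul_add, sum_add_distrib]
    omega
  · funext x
    simp only [mon, Pi.mul_apply, Pi.add_apply, pow_add, prod_mul_distrib]

theorem W_mono {K L : ℕ} (h : K ≤ L) : W φ wt K ≤ W φ wt L := by
  refine Submodule.span_mono ?_
  rintro P ⟨e, he, rfl⟩
  exact ⟨e, he.trans h, rfl⟩

theorem W_one : (1 : X → F) ∈ W φ wt 0 :=
  Submodule.subset_span ⟨0, by simp, by funext x; simp [mon]⟩

theorem W_const (c : F) (K : ℕ) : (fun _ : X => c) ∈ W φ wt K := by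
  have h := (W φ wt K).smul_mem c (W_mono (Nat.zero_le K) (W_one (φ := φ) (wt := wt)))
  have e : (fun _ : X => c) = c • (1 : X → F) := by
    funext x
    simp
  rw [e]
  exact h

theorem W_pow {K : ℕ} {P : X → F} (hP : P ∈ W φ wt K) (n : ℕ) : P ^ n ∈ W φ wt (n * K) := by
  induction n with
  | zero =>
    rw [pow_zero, Nat.zero_mul]
    exact W_one
  | succ n ih =>
    rw [pow_succ, Nat.succ_mul]
    exact W_mul ih hP

theorem W_prod {α : Type} (s : Finset α) (P : α → X → F) (K : α → ℕ)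
    (h : ∀ i ∈ s, P i ∈ W φ wt (K i)) : ∏ i ∈ s, P i ∈ W φ wt (∑ i ∈ s, K i) := by
  classical
  induction s using Finset.induction_on with
  | empty =>
    rw [prod_empty, sum_empty]
    exact W_one
  | insert a s ha ih =>
    rw [prod_insert ha, sum_insert ha]
    exact W_mul (h a (mem_insert_self a s)) (ih fun i hi => h i (mem_insert_of_mem hi))

theorem W_coord (k : κ) : φ k ∈ W φ wt (wt k) := by
  classical
  refine Submodule.subset_span ⟨Pi.single k 1, ?_, ?_⟩
  · rw [Finset.sum_eq_single k]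
    · simp
    · intro k' _ hk'
      simp [hk']
    · intro h
      exact absurd (mem_univ k) h
  · funext x
    unfold mon
    rw [Finset.prod_eq_single k]
    · simp
    · intro k' _ hk'
      simp [hk']
    · intro h
      exact absurd (mem_univ k) h

theorem W_comp (σ : Y → X) {ψ : κ' → Y → F} {wt' : κ' → ℕ}
    (h : ∀ k, (fun y => φ k (σ y)) ∈ W ψ wt' (wt k)) {K : ℕ} {P : X → F} (hP : P ∈ W φ wt K) :
    (fun y => P (σ y)) ∈ W ψ wt' K := by
  unfold W at hP
  induction hP using Submodule.span_induction with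
  | mem P hP =>
    obtain ⟨e, he, rfl⟩ := hP
    have e1 : (fun y => mon φ e (σ y)) = ∏ k, (fun y => φ k (σ y)) ^ e k := by
      funext y
      simp [mon, Finset.prod_apply]
    rw [e1]
    refine W_mono ?_ (W_prod univ _ (fun k => e k * wt k) fun k _ => W_pow (h k) (e k))
    refine le_trans (le_of_eq ?_) he
    exact sum_congr rfl fun k _ => mul_comm _ _
  | zero => exact Submodule.zero_mem _
  | add P Q _ _ hP hQ => exact Submodule.add_mem _ hP hQ
  | smul c P _ hP => exact Submodule.smul_mem _ c hP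

theorem W_sum {α : Type} (s : Finset α) (P : α → X → F) {K : ℕ}
    (h : ∀ i ∈ s, P i ∈ W φ wt K) : (fun x => ∑ i ∈ s, P i x) ∈ W φ wt K := by
  have e : (fun x => ∑ i ∈ s, P i x) = ∑ i ∈ s, P i := by
    funext x
    rw [Finset.sum_apply]
  rw [e]
  exact Submodule.sum_mem _ h

end general

variable {p : ℕ} [Fact p.Prime] {ι ζ : Type} [Fintype ι] [Fintype ζ] [DecidableEq ι]
  [DecidableEq ζ] {c : ζ → ι → ι → ZMod p}

/-- the coordinates -/
def ph (c : ζ → ι → ι → ZMod p) : ι ⊕ ζ → Bil p ι ζ c → ZMod p :=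
  Sum.elim (fun i x => x.a i) (fun j x => x.b j)

/-- the weights -/
def wt (ι ζ : Type) : ι ⊕ ζ → ℕ := Sum.elim (fun _ => 1) (fun _ => 2)

/-- the coordinates on triples -/
def ph3 (c : ζ → ι → ι → ZMod p) : (ι ⊕ ζ) × Fin 3 → (Fin 3 → Bil p ι ζ c) → ZMod p :=
  fun q x => ph c q.1 (x q.2)

/-- the weights -/
def wt3 (ι ζ : Type) : (ι ⊕ ζ) × Fin 3 → ℕ := fun q => wt ι ζ q.1

/-- the functions orthogonal to all functions of weight at most `m` -/
def JJ (c : ζ → ι → ι → ZMod p) (m : ℕ) : Submodule (ZMod p) (Bil p ι ζ c → ZMod p) where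
  carrier := {u | ∀ P ∈ W (ph c) (wt ι ζ) m, ∑ x, u x * P x = 0}
  add_mem' := by
    intro u v hu hv P hP
    simp only [Pi.add_apply, add_mul, sum_add_distrib, hu P hP, hv P hP, add_zero]
  zero_mem' := by
    intro P _
    simp
  smul_mem' := by
    intro c u hu P hP
    simp only [Pi.smul_apply, smul_eq_mul, mul_assoc, ← mul_sum, hu P hP, mul_zero]

/-- The `b`-coordinate of a product, on any system of functions. -/
theorem mul_mem {Y κ' : Type} [Fintype κ'] {ψ : κ' → Y → ZMod p} {wt' : κ' → ℕ}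
    (s t : Y → Bil p ι ζ c) (hs : ∀ k, (fun y => ph c k (s y)) ∈ W ψ wt' (wt ι ζ k))
    (ht : ∀ k, (fun y => ph c k (t y)) ∈ W ψ wt' (wt ι ζ k)) (k : ι ⊕ ζ) :
    (fun y => ph c k (s y * t y)) ∈ W ψ wt' (wt ι ζ k) := by
  rcases k with i | j
  · exact Submodule.add_mem _ (hs (Sum.inl i)) (ht (Sum.inl i))
  · obtain ⟨S, hS⟩ : ∃ S : ι → Y → ZMod p, ∀ i y, S i y = ph c (Sum.inl i) (s y) :=
      ⟨_, fun _ _ => rfl⟩
    obtain ⟨T, hT⟩ : ∃ T : ι → Y → ZMod p, ∀ i y, T i y = ph c (Sum.inl i) (t y) :=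
      ⟨_, fun _ _ => rfl⟩
    have hS' : ∀ i, S i ∈ W ψ wt' 1 := fun i => by
      have h := hs (Sum.inl i)
      simp only [← hS] at h
      exact h
    have hT' : ∀ i, T i ∈ W ψ wt' 1 := fun i => by
      have h := ht (Sum.inl i)
      simp only [← hT] at h
      exact h
    have e : (fun y => ph c (Sum.inr j) (s y * t y)) =
        ((fun y => ph c (Sum.inr j) (s y)) + (fun y => ph c (Sum.inr j) (t y))) +
        ∑ i, ∑ l, c j i l • (S i * T l) := by
      funext y
      rw [Pi.add_apply, Pi.add_apply, Finset.sum_apply]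
      have e1 : ∀ i, (∑ l, c j i l • (S i * T l)) y = ∑ l, c j i l * (s y).a i * (t y).a l := by
        intro i
        rw [Finset.sum_apply]
        refine sum_congr rfl fun l _ => ?_
        rw [Pi.smul_apply, Pi.mul_apply, hS, hT, smul_eq_mul, ← mul_assoc]
        rfl
      rw [sum_congr rfl fun i _ => e1 i]
      rfl
    rw [e]
    refine Submodule.add_mem _ (Submodule.add_mem _ (hs (Sum.inr j)) (ht (Sum.inr j))) ?_
    refine Submodule.sum_mem _ fun i _ => Submodule.sum_mem _ fun l _ => ?_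
    have h2 : S i * T l ∈ W ψ wt' 2 := W_mul (K := 1) (L := 1) (hS' i) (hT' l)
    show c j i l • (S i * T l) ∈ W ψ wt' 2
    exact Submodule.smul_mem (W ψ wt' 2) (c j i l) h2

theorem inv {m : ℕ} (u : Bil p ι ζ c → ZMod p) (hu : u ∈ JJ c m) (g : Bil p ι ζ c) :
    (fun h => u (h * g)) ∈ JJ c m := by
  intro P hP
  have h1 : ∑ h, u (h * g) * P h = ∑ h, u h * P (h * g⁻¹) := by
    refine Fintype.sum_equiv (Equiv.mulRight g) _ _ fun h => ?_
    simp
  rw [h1]
  refine hu (fun h => P (h * g⁻¹)) ?_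
  refine W_comp (fun h => h * g⁻¹) (fun k => ?_) hP
  exact mul_mem (fun h => h) (fun _ => g⁻¹) (fun k => W_coord k) (fun k => W_const _ _) k

/-- the indicator function of `x y z = 1` -/
def Ind (c : ζ → ι → ι → ZMod p) : (Fin 3 → Bil p ι ζ c) → ZMod p :=
  (∏ i, (1 - (fun x => ph c (Sum.inl i) (x 0 * x 1 * x 2)) ^ (p - 1))) *
    ∏ j, (1 - (fun x => ph c (Sum.inr j) (x 0 * x 1 * x 2)) ^ (p - 1))

theorem Ind_mem : Ind c ∈ W (ph3 c) (wt3 ι ζ) ((p - 1) * (Fintype.card ι + 2 * Fintype.card ζ)) := by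
  have h0 : ∀ (t : Fin 3) (k : ι ⊕ ζ),
      (fun x : Fin 3 → Bil p ι ζ c => ph c k (x t)) ∈ W (ph3 c) (wt3 ι ζ) (wt ι ζ k) :=
    fun t k => W_coord (φ := ph3 c) (wt := wt3 ι ζ) (k, t)
  have h1 : ∀ k : ι ⊕ ζ, (fun x : Fin 3 → Bil p ι ζ c => ph c k (x 0 * x 1 * x 2)) ∈
      W (ph3 c) (wt3 ι ζ) (wt ι ζ k) := fun k =>
    mul_mem (fun x : Fin 3 → Bil p ι ζ c => x 0 * x 1) (fun x => x 2)
      (fun k => mul_mem (fun x : Fin 3 → Bil p ι ζ c => x 0) (fun x => x 1) (h0 0) (h0 1) k)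
      (h0 2) k
  have h2 : ∀ k : ι ⊕ ζ, (1 - (fun x : Fin 3 → Bil p ι ζ c => ph c k (x 0 * x 1 * x 2)) ^ (p - 1)) ∈
      W (ph3 c) (wt3 ι ζ) ((p - 1) * wt ι ζ k) := fun k =>
    Submodule.sub_mem _ (W_mono (Nat.zero_le _) W_one) (W_pow (h1 k) (p - 1))
  have h3 := W_mul (W_prod univ _ _ fun i (_ : i ∈ univ) => h2 (Sum.inl i))
    (W_prod univ _ _ fun j (_ : j ∈ univ) => h2 (Sum.inr j))
  refine W_mono (le_of_eq ?_) h3
  simp only [wt, Sum.elim_inl, Sum.elim_inr, sum_const, card_univ, smul_eq_mul]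
  ring

open Classical in
theorem Ind_eq (x y z : Bil p ι ζ c) :
    (if z = (x * y)⁻¹ then (1 : ZMod p) else 0) = Ind c ![x, y, z] := by
  have h1 : Ind c ![x, y, z] = (if (x * y * z).a = 0 then (1 : ZMod p) else 0) *
      (if (x * y * z).b = 0 then (1 : ZMod p) else 0) := by
    rw [← Ela.ind, ← Ela.ind]
    unfold Ind
    rw [Pi.mul_apply, Finset.prod_apply, Finset.prod_apply]
    rfl
  rw [h1]
  by_cases h : z = (x * y)⁻¹
  · rw [if_pos h]
    have h2 : x * y * z = 1 := by rw [h, mul_inv_cancel]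
    rw [h2, if_pos Bil.one_a, if_pos Bil.one_b, mul_one]
  · rw [if_neg h]
    by_cases ha : (x * y * z).a = 0
    · by_cases hb : (x * y * z).b = 0
      · exfalso
        apply h
        rw [eq_inv_iff_mul_eq_one]
        have h2 : x * y * z = 1 := Bil.ext ha hb
        exact mul_eq_one_comm.1 h2
      · rw [if_neg hb, mul_zero]
    · rw [if_neg ha, zero_mul]

theorem mon3 (e : (ι ⊕ ζ) × Fin 3 → ℕ) (x y z : Bil p ι ζ c) : mon (ph3 c) e ![x, y, z] =
    mon (ph c) (fun k => e (k, 0)) x * mon (ph c) (fun k => e (k, 1)) y *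
      mon (ph c) (fun k => e (k, 2)) z := by
  unfold mon
  rw [Fintype.prod_prod_type]
  simp only [Fin.prod_univ_three, prod_mul_distrib]
  rfl

theorem orth {m K : ℕ} (hK : K < 3 * (m + 1)) {u v w : Bil p ι ζ c → ZMod p} (hu : u ∈ JJ c m)
    (hv : v ∈ JJ c m) (hw : w ∈ JJ c m) {T : (Fin 3 → Bil p ι ζ c) → ZMod p}
    (hT : T ∈ W (ph3 c) (wt3 ι ζ) K) : ∑ x, ∑ y, ∑ z, u x * v y * (w z * T ![x, y, z]) = 0 := by
  unfold W at hT
  induction hT using Submodule.span_induction with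
  | mem T hT =>
    obtain ⟨e, he, rfl⟩ := hT
    have h1 : ∑ x, ∑ y, ∑ z, u x * v y * (w z * mon (ph3 c) e ![x, y, z]) =
        (∑ x, u x * mon (ph c) (fun k => e (k, 0)) x) *
          (∑ y, v y * mon (ph c) (fun k => e (k, 1)) y) *
          ∑ z, w z * mon (ph c) (fun k => e (k, 2)) z := by
      rw [sum_mul_sum, sum_mul]
      refine sum_congr rfl fun x _ => ?_
      rw [sum_mul]
      refine sum_congr rfl fun y _ => ?_
      rw [mul_sum]
      refine sum_congr rfl fun z _ => ?_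
      rw [mon3]
      ring
    rw [h1]
    have h2 : ∀ t : Fin 3, ∑ k, wt ι ζ k * e (k, t) ≤ m →
        mon (ph c) (fun k => e (k, t)) ∈ W (ph c) (wt ι ζ) m := fun t ht =>
      Submodule.subset_span ⟨_, ht, rfl⟩
    rw [Fintype.sum_prod_type] at he
    simp only [Fin.sum_univ_three, sum_add_distrib, wt3] at he
    have h3 : ∑ k, wt ι ζ k * e (k, 0) ≤ m ∨ ∑ k, wt ι ζ k * e (k, 1) ≤ m ∨
        ∑ k, wt ι ζ k * e (k, 2) ≤ m := by omega
    rcases h3 with h | h | h
    · rw [hu _ (h2 0 h)]; ring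
    · rw [hv _ (h2 1 h)]; ring
    · rw [hw _ (h2 2 h)]; ring
  | zero => simp
  | add P Q _ _ hP hQ =>
    simp only [Pi.add_apply, mul_add, sum_add_distrib]
    rw [hP, hQ, add_zero]
  | smul a P _ hP =>
    have e1 : ∑ x, ∑ y, ∑ z, u x * v y * (w z * (a • P) ![x, y, z]) =
        a * ∑ x, ∑ y, ∑ z, u x * v y * (w z * P ![x, y, z]) := by
      rw [mul_sum]
      refine sum_congr rfl fun x _ => ?_
      rw [mul_sum]
      refine sum_congr rfl fun y _ => ?_
      rw [mul_sum]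
      refine sum_congr rfl fun z _ => ?_
      rw [Pi.smul_apply, smul_eq_mul]
      ring
    rw [e1, hP, mul_zero]

theorem tri {m : ℕ} (hm : (p - 1) * (Fintype.card ι + 2 * Fintype.card ζ) < 3 * (m + 1))
    (u : Bil p ι ζ c → ZMod p) (hu : u ∈ JJ c m) (v : Bil p ι ζ c → ZMod p) (hv : v ∈ JJ c m)
    (w : Bil p ι ζ c → ZMod p) (hw : w ∈ JJ c m) :
    ∑ g, ∑ h, u g * v h * w (g * h)⁻¹ = 0 := by
  rw [← orth hm hu hv hw Ind_mem]
  refine sum_congr rfl fun g _ => sum_congr rfl fun h _ => ?_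
  rw [← mul_sum]
  congr 1
  symm
  rw [Finset.sum_eq_single ((g * h)⁻¹)]
  · rw [← Ind_eq, if_pos rfl, mul_one]
  · intro z _ hz
    rw [← Ind_eq, if_neg hz, mul_zero]
  · intro h5
    exact absurd (mem_univ _) h5

/-- the reduced monomial -/
def rmon (c : ζ → ι → ι → ZMod p) (e : (ι → Fin p) × (ζ → Fin p)) : Bil p ι ζ c → ZMod p :=
  mon (ph c) (Sum.elim (fun i => (e.1 i : ℕ)) fun j => (e.2 j : ℕ))

/-- the linear map whose kernel is contained in `JJ` -/
def Φ (c : ζ → ι → ι → ZMod p) (m : ℕ) : (Bil p ι ζ c → ZMod p) →ₗ[ZMod p]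
      ({e : (ι → Fin p) × (ζ → Fin p) // e ∈ univ.filter fun e : (ι → Fin p) × (ζ → Fin p) =>
        ∑ i, (e.1 i : ℕ) + 2 * ∑ j, (e.2 j : ℕ) < m} → ZMod p) where
  toFun u := fun e => ∑ h, u h * rmon c e.1 h
  map_add' := by
    intro u v
    funext e
    simp only [Pi.add_apply, add_mul, sum_add_distrib]
  map_smul' := by
    intro c u
    funext e
    simp only [Pi.smul_apply, smul_eq_mul, mul_assoc, ← mul_sum, RingHom.id_apply]

theorem mon_red (e : ι ⊕ ζ → ℕ) : ∃ e' : (ι → Fin p) × (ζ → Fin p),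
    ∑ i, (e'.1 i : ℕ) + 2 * ∑ j, (e'.2 j : ℕ) ≤ ∑ k, wt ι ζ k * e k ∧
    mon (ph c) e = rmon c e' := by
  choose f h1 h2 h3 using fun n : ℕ => Ela.red (p := p) n
  refine ⟨(fun i => ⟨f (e (Sum.inl i)), h2 _⟩, fun j => ⟨f (e (Sum.inr j)), h2 _⟩), ?_, ?_⟩
  · rw [Fintype.sum_sum_type, mul_sum]
    refine Nat.add_le_add (sum_le_sum fun i _ => ?_) (sum_le_sum fun j _ => ?_)
    · show f (e (Sum.inl i)) ≤ 1 * e (Sum.inl i)
      rw [one_mul]
      exact h1 _
    · show 2 * f (e (Sum.inr j)) ≤ 2 * e (Sum.inr j)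
      exact Nat.mul_le_mul_left 2 (h1 _)
  · funext x
    unfold rmon mon
    refine prod_congr rfl fun k _ => ?_
    rw [h3]
    rcases k with i | j <;> rfl

theorem ker_le (m : ℕ) : LinearMap.ker (Φ c (m + 1)) ≤ JJ c m := by
  intro u hu P hP
  rw [LinearMap.mem_ker] at hu
  unfold W at hP
  induction hP using Submodule.span_induction with
  | mem P hP =>
    obtain ⟨e, he, rfl⟩ := hP
    obtain ⟨e', h1, h2⟩ := mon_red (c := c) e
    have h3 := congrFun hu ⟨e', by simp only [mem_filter, mem_univ, true_and]; omega⟩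
    rw [h2]
    exact h3
  | zero => simp
  | add P Q _ _ hP hQ =>
    simp only [Pi.add_apply, mul_add, sum_add_distrib]
    rw [hP, hQ, add_zero]
  | smul a P _ hP =>
    have e1 : ∀ x, u x * (a • P) x = a * (u x * P x) := by
      intro x
      rw [Pi.smul_apply, smul_eq_mul]
      ring
    simp only [e1, ← mul_sum]
    rw [hP, mul_zero]

end Ela2

open Ela2 in
theorem ela2 : S_ELA2 := by
  intro p _ ι ζ _ _ _ _ c m hm
  obtain ⟨m, rfl⟩ : ∃ k, m = k + 1 := ⟨m - 1, by omega⟩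
  refine ⟨JJ c m, ⟨fun u hu g => Ela2.inv u hu g, fun u hu v hv w hw =>
    Ela2.tri hm u hu v hv w hw⟩, ?_⟩
  have h1 := LinearMap.finrank_range_add_finrank_ker (Φ c (m + 1))
  rw [Module.finrank_fintype_fun_eq_card] at h1
  have h2 := Submodule.finrank_mono (ker_le (c := c) m)
  have h3 := Submodule.finrank_le (LinearMap.range (Φ c (m + 1)))
  rw [Module.finrank_fintype_fun_eq_card, Fintype.card_coe] at h3
  omega

end Pool.Agent.N726.BG
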