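import Pool.Agent.N726.BG.Stm2

/-!
# Project SB, leaf ELB2 (helper755, after helper134): weighted count (Chernoff)
-/

namespace Pool.Agent.N726.BG.Elb2

open Finset

/-- the moment generating function of a coordinate -/
theorem mgf (p : ℕ) (hp : 2 ≤ p) (t a : ℝ) (ht0 : 0 < t) (ht : t * ((p : ℝ) - 1) = a) :
    ∑ j : Fin p, Real.exp (-(t * (j : ℕ))) ≤ p * Real.exp (-(a / 2) + a ^ 2 / 8) := by
  have hp1 : (1 : ℝ) ≤ (p : ℝ) - 1 := by
    have : (2 : ℝ) ≤ p := by exact_mod_cast hp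
    linarith
  have hrev : ∑ j : Fin p, Real.exp (-(t * ((p : ℝ) - 1 - (j : ℕ)))) =
      ∑ j : Fin p, Real.exp (-(t * (j : ℕ))) := by
    rw [← Equiv.sum_comp Fin.revPerm (fun j : Fin p => Real.exp (-(t * (j : ℕ))))]
    refine Finset.sum_congr rfl fun j _ => ?_
    rw [Fin.revPerm_apply, Fin.val_rev, Nat.cast_sub (by have := j.2; omega)]
    push_cast
    congr 1
    ring
  have hterm : ∀ j : Fin p, Real.exp (-(t * (j : ℕ))) + Real.exp (-(t * ((p : ℝ) - 1 - (j : ℕ)))) ≤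
      2 * Real.exp (-(a / 2) + a ^ 2 / 8) := by
    intro j
    have hj0 : (0 : ℝ) ≤ (j : ℕ) := Nat.cast_nonneg _
    have hj1 : ((j : ℕ) : ℝ) ≤ (p : ℝ) - 1 := by
      have h1 := j.2
      have h2 : (j : ℕ) + 1 ≤ p := h1
      have : (((j : ℕ) + 1 : ℕ) : ℝ) ≤ p := by exact_mod_cast h2
      push_cast at this
      linarith
    have hcosh := Real.cosh_le_exp_half_sq (t * ((j : ℕ) - ((p : ℝ) - 1) / 2))
    have e1 : Real.exp (-(t * (j : ℕ))) + Real.exp (-(t * ((p : ℝ) - 1 - (j : ℕ)))) =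
        Real.exp (-(a / 2)) * (2 * Real.cosh (t * ((j : ℕ) - ((p : ℝ) - 1) / 2))) := by
      rw [Real.cosh_eq]
      have e2 : -(t * (j : ℕ)) = -(a / 2) + -(t * ((j : ℕ) - ((p : ℝ) - 1) / 2)) := by
        linear_combination (-(1 : ℝ) / 2) * ht
      have e3 : -(t * ((p : ℝ) - 1 - (j : ℕ))) = -(a / 2) + (t * ((j : ℕ) - ((p : ℝ) - 1) / 2)) := by
        linear_combination (-(1 : ℝ) / 2) * ht
      rw [e2, e3, Real.exp_add, Real.exp_add]
      ring
    rw [e1]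
    have h3 : (t * ((j : ℕ) - ((p : ℝ) - 1) / 2)) ^ 2 / 2 ≤ a ^ 2 / 8 := by
      have h4 : |t * ((j : ℕ) - ((p : ℝ) - 1) / 2)| ≤ a / 2 := by
        rw [abs_le]
        constructor <;> nlinarith
      have h5 := sq_le_sq' (abs_le.1 h4).1 (abs_le.1 h4).2
      linarith
    have h6 : Real.cosh (t * ((j : ℕ) - ((p : ℝ) - 1) / 2)) ≤ Real.exp (a ^ 2 / 8) :=
      hcosh.trans (Real.exp_le_exp.2 h3)
    rw [Real.exp_add]
    have h8 := mul_le_mul_of_nonneg_left h6 (Real.exp_pos (-(a / 2))).le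
    linarith
  have hsum := Finset.sum_le_sum fun (j : Fin p) (_ : j ∈ Finset.univ) => hterm j
  rw [Finset.sum_add_distrib, hrev, Finset.sum_const, Finset.card_univ, Fintype.card_fin,
    nsmul_eq_mul] at hsum
  linarith

/-- the sum over the functions -/
theorem sum_fun (p : ℕ) (ι : Type) [Fintype ι] [DecidableEq ι] (t : ℝ) :
    ∑ e : ι → Fin p, ∏ i, Real.exp (-(t * (e i : ℕ))) =
      (∑ j : Fin p, Real.exp (-(t * (j : ℕ)))) ^ Fintype.card ι := by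
  have h3 := Finset.prod_univ_sum (fun _ : ι => (Finset.univ : Finset (Fin p)))
    (fun _ j => Real.exp (-(t * (j : ℕ))))
  rw [Finset.prod_const, Finset.card_univ, Fintype.piFinset_univ] at h3
  exact h3.symm

end Pool.Agent.N726.BG.Elb2

namespace Pool.Agent.N726.BG

open Finset

/-- **SB2/ELB2** -/
theorem elb2 : S_ELB2 := by
  intro p hp ι ζ _ _ _ _
  have hp1 : (0 : ℝ) < (p : ℝ) - 1 := by
    have : (2 : ℝ) ≤ p := by exact_mod_cast hp
    linarith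
  obtain ⟨t, ht⟩ : ∃ t : ℝ, t = 2 / 3 / ((p : ℝ) - 1) := ⟨_, rfl⟩
  have ht1 : t * ((p : ℝ) - 1) = 2 / 3 := by
    rw [ht]
    field_simp
  have ht0 : 0 < t := by
    rw [ht]
    positivity
  obtain ⟨v, hv⟩ : ∃ v : ℕ, v = Fintype.card ι := ⟨_, rfl⟩
  obtain ⟨z, hz⟩ : ∃ z : ℕ, z = Fintype.card ζ := ⟨_, rfl⟩
  rw [← hv, ← hz]
  have h1 : ((univ.filter fun e : (ι → Fin p) × (ζ → Fin p) =>
      3 * (∑ i, (e.1 i : ℕ) + 2 * ∑ j, (e.2 j : ℕ)) ≤ (p - 1) * (v + 2 * z)).card : ℝ) ≤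
      ∑ e : (ι → Fin p) × (ζ → Fin p), Real.exp (2 / 9 * (v + 2 * z)) *
        ((∏ i, Real.exp (-(t * (e.1 i : ℕ)))) * ∏ j, Real.exp (-(2 * t * (e.2 j : ℕ)))) := by
    rw [Finset.card_eq_sum_ones, Nat.cast_sum]
    refine (Finset.sum_le_sum (fun e he => ?_)).trans
      (Finset.sum_le_sum_of_subset_of_nonneg (Finset.filter_subset _ _) fun e _ _ => by positivity)
    rw [← Real.exp_sum, ← Real.exp_sum, ← Real.exp_add, ← Real.exp_add, Nat.cast_one]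
    apply Real.one_le_exp
    have h2 := (Finset.mem_filter.1 he).2
    have h3 : ((3 * (∑ i, (e.1 i : ℕ) + 2 * ∑ j, (e.2 j : ℕ)) : ℕ) : ℝ) ≤
        (((p - 1) * (v + 2 * z) : ℕ) : ℝ) := by exact_mod_cast h2
    rw [Nat.cast_mul, Nat.cast_mul, Nat.cast_sub (by omega)] at h3
    push_cast at h3
    rw [Finset.sum_neg_distrib, Finset.sum_neg_distrib, ← Finset.mul_sum, ← Finset.mul_sum]
    have h4 := mul_le_mul_of_nonneg_left h3 ht0.le
    have h5 : t * (((p : ℝ) - 1) * (v + 2 * z)) = 2 / 3 * (v + 2 * z) := by rw [← mul_assoc, ht1]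
    linarith
  refine h1.trans ?_
  rw [← Finset.mul_sum, Fintype.sum_prod_type]
  have h2 : ∑ x : ι → Fin p, ∑ y : ζ → Fin p,
      ((∏ i, Real.exp (-(t * (x i : ℕ)))) * ∏ j, Real.exp (-(2 * t * (y j : ℕ)))) =
      (∑ j : Fin p, Real.exp (-(t * (j : ℕ)))) ^ v *
        (∑ j : Fin p, Real.exp (-(2 * t * (j : ℕ)))) ^ z := by
    rw [hv, hz, ← Elb2.sum_fun, ← Elb2.sum_fun, Finset.sum_mul_sum]
  rw [h2]
  have h3 := pow_le_pow_left₀ (Finset.sum_nonneg fun j _ => (Real.exp_pos _).le)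
    (Elb2.mgf p hp t (2 / 3) ht0 ht1) v
  have h4 := pow_le_pow_left₀ (Finset.sum_nonneg fun j _ => (Real.exp_pos _).le)
    (Elb2.mgf p hp (2 * t) (4 / 3) (by positivity) (by linarith)) z
  have h5 := mul_le_mul h3 h4 (pow_nonneg (Finset.sum_nonneg fun j _ => (Real.exp_pos _).le) _)
    (by positivity)
  refine (mul_le_mul_of_nonneg_left h5 (Real.exp_pos _).le).trans (le_of_eq ?_)
  rw [mul_pow, mul_pow, ← Real.exp_nat_mul, ← Real.exp_nat_mul, pow_add]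
  have e : Real.exp (-(v : ℝ) / 18) = Real.exp (2 / 9 * (v + 2 * z)) *
      (Real.exp (v * (-(2 / 3 / 2) + (2 / 3) ^ 2 / 8)) *
        Real.exp (z * (-(4 / 3 / 2) + (4 / 3) ^ 2 / 8))) := by
    rw [← Real.exp_add, ← Real.exp_add]
    congr 1
    ring
  rw [e]
  ring

end Pool.Agent.N726.BG
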