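import Mathlib
import Pool.Agent.N726.BG.Stm2

/-!
# Central extensions are given by bilinear cocycles
-/

namespace Pool.Agent.N726.BG

namespace ExtAux

/-- A central extension of an elementary abelian group by an elementary abelian group,
in coordinates. -/
structure Dat (p : ℕ) (P : Type) [Group P] (v z : ℕ) where
  /-- the projection -/
  pr : P → (Fin v → ZMod p)
  /-- the inclusion -/
  i : (Fin z → ZMod p) → P
  hpr : ∀ x y, pr (x * y) = pr x + pr y
  hi : ∀ u w, i (u + w) = i u * i w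
  hker : ∀ x, pr x = 0 → ∃ w, i w = x
  hpri : ∀ w, pr (i w) = 0
  hinj : Function.Injective i
  hsurj : Function.Surjective pr
  hcent : ∀ w x, i w * x = x * i w

variable {p : ℕ} [Fact p.Prime] {P : Type} [Group P] {v z : ℕ}

theorem Dat.pr_one (D : Dat p P v z) : D.pr 1 = 0 := by
  have := D.hpr 1 1
  rw [one_mul] at this
  exact left_eq_add.mp this

theorem Dat.pr_inv (D : Dat p P v z) (x : P) : D.pr x⁻¹ = -D.pr x := by
  have := D.hpr x⁻¹ x
  rw [inv_mul_cancel, D.pr_one] at this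
  exact (neg_eq_of_add_eq_zero_left this.symm).symm

theorem Dat.i_zero (D : Dat p P v z) : D.i 0 = 1 := by
  have := D.hi 0 0
  rw [add_zero] at this
  exact left_eq_mul.mp this

theorem Dat.i_neg (D : Dat p P v z) (w : Fin z → ZMod p) : D.i (-w) = (D.i w)⁻¹ := by
  have := D.hi (-w) w
  rw [neg_add_cancel, D.i_zero] at this
  exact (inv_eq_of_mul_eq_one_left this.symm).symm

theorem Dat.pr_pow (D : Dat p P v z) (x : P) (n : ℕ) : D.pr (x ^ n) = n • D.pr x := by
  induction n with
  | zero => simp [D.pr_one]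
  | succ n ih => rw [pow_succ, D.hpr, ih, succ_nsmul]

/-- the commutator -/
noncomputable def Dat.ka (D : Dat p P v z) (x y : P) : Fin z → ZMod p :=
  Classical.choose (D.hker (x * y * x⁻¹ * y⁻¹) (by
    rw [D.hpr, D.hpr, D.hpr, D.pr_inv, D.pr_inv]; abel))

theorem Dat.ka_spec (D : Dat p P v z) (x y : P) : D.i (D.ka x y) = x * y * x⁻¹ * y⁻¹ :=
  Classical.choose_spec (D.hker (x * y * x⁻¹ * y⁻¹) (by
    rw [D.hpr, D.hpr, D.hpr, D.pr_inv, D.pr_inv]; abel))

theorem Dat.ka_mul_left (D : Dat p P v z) (x x' y : P) :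
    D.ka (x * x') y = D.ka x y + D.ka x' y := by
  apply D.hinj
  rw [D.hi, D.ka_spec, D.ka_spec]
  have h := D.hcent (D.ka x' y) x
  have h2 := D.hcent (D.ka x' y) (x * y * x⁻¹ * y⁻¹)
  rw [← h2, ← mul_assoc, ← mul_assoc, ← mul_assoc, h, D.ka_spec]
  group

theorem Dat.ka_swap (D : Dat p P v z) (x y : P) : D.ka y x = - D.ka x y := by
  apply D.hinj
  rw [D.i_neg, D.ka_spec, D.ka_spec]
  group

theorem Dat.ka_mul_right (D : Dat p P v z) (x y y' : P) :
    D.ka x (y * y') = D.ka x y + D.ka x y' := by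
  rw [D.ka_swap, D.ka_mul_left, D.ka_swap y x, D.ka_swap y' x, D.ka_swap x y, D.ka_swap x y']
  abel

theorem Dat.ka_i (D : Dat p P v z) (w : Fin z → ZMod p) (y : P) : D.ka (D.i w) y = 0 := by
  apply D.hinj
  rw [D.ka_spec, D.i_zero, D.hcent]
  group

theorem Dat.ka_congr_left (D : Dat p P v z) {x x' : P} (h : D.pr x = D.pr x') (y : P) :
    D.ka x y = D.ka x' y := by
  obtain ⟨w, hw⟩ := D.hker (x * x'⁻¹) (by rw [D.hpr, D.pr_inv, h]; abel)
  have h1 : x = D.i w * x' := by rw [hw]; group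
  rw [h1, D.ka_mul_left, D.ka_i, zero_add]

theorem Dat.ka_congr (D : Dat p P v z) {x x' y y' : P} (h : D.pr x = D.pr x')
    (h' : D.pr y = D.pr y') : D.ka x y = D.ka x' y' := by
  rw [D.ka_congr_left h, D.ka_swap, D.ka_congr_left h', ← D.ka_swap]

theorem Dat.hs (D : Dat p P v z) (x : Fin v → ZMod p) :
    D.pr (Function.surjInv D.hsurj x) = x := Function.surjInv_eq D.hsurj x

/-- The commutator form. -/
noncomputable def Dat.K (D : Dat p P v z) :
    (Fin v → ZMod p) →ₗ[ZMod p] (Fin v → ZMod p) →ₗ[ZMod p] (Fin z → ZMod p) :=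
  AddMonoidHom.toZModLinearMap p (AddMonoidHom.mk'
    (fun x => AddMonoidHom.toZModLinearMap p (AddMonoidHom.mk'
      (fun y => D.ka (Function.surjInv D.hsurj x) (Function.surjInv D.hsurj y))
      (fun y y' => by
        rw [← D.ka_mul_right]
        refine D.ka_congr rfl ?_
        rw [D.hpr, D.hs, D.hs, D.hs])))
    (fun x x' => by
      refine LinearMap.ext fun y => ?_
      change D.ka _ _ = D.ka _ _ + D.ka _ _
      rw [← D.ka_mul_left]
      refine D.ka_congr ?_ rfl
      rw [D.hpr, D.hs, D.hs, D.hs]))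

theorem Dat.K_spec (D : Dat p P v z) (x y : P) : D.K (D.pr x) (D.pr y) = D.ka x y := by
  change D.ka _ _ = D.ka _ _
  exact D.ka_congr (D.hs _) (D.hs _)

/-- A bilinear map whose alternation is the commutator form. -/
structure Dat.Good (D : Dat p P v z)
    (B : (Fin v → ZMod p) →ₗ[ZMod p] (Fin v → ZMod p) →ₗ[ZMod p] (Fin z → ZMod p)) : Prop where
  alt : ∀ x y : P, B (D.pr x) (D.pr y) - B (D.pr y) (D.pr x) = D.ka x y
  pw : ∀ x : P, x ^ p = D.i ((p.choose 2) • B (D.pr x) (D.pr x))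

theorem exists_good_two {P : Type} [Group P] (D : Dat 2 P v z)
    (hpow : ∀ x : P, D.pr (x ^ 2) = 0) : ∃ B, D.Good B := by
  have hch : ∀ x : P, ∃ w, D.i w = x ^ 2 := fun x => D.hker _ (hpow x)
  choose q hq using hch
  have hneg : ∀ w : Fin z → ZMod 2, -w = w := fun w => by
    funext j; exact ZMod.neg_eq_self_mod_two _
  have hadd : ∀ w : Fin z → ZMod 2, w + w = 0 := fun w => by
    nth_rewrite 1 [← hneg w]
    exact neg_add_cancel w
  have hqi : ∀ w, q (D.i w) = 0 := fun w => by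
    apply D.hinj
    rw [hq, pow_two, ← D.hi, hadd, D.i_zero]
  have hmul : ∀ x y, q (x * y) = q x + q y + D.ka x y := fun x y => by
    apply D.hinj
    rw [← hneg (D.ka x y), ← D.ka_swap x y, D.hi, D.hi, hq, hq, hq,
      ← D.hcent (D.ka y x) (x ^ 2 * y ^ 2)]
    have h1 : (x * y) ^ 2 = x * (y * x * y⁻¹ * x⁻¹) * (x * y ^ 2) := by
      simp only [pow_two]
      group
    rw [h1, ← D.ka_spec, ← D.hcent]
    simp only [pow_two, mul_assoc]
  have hcong : ∀ x y, D.pr x = D.pr y → q x = q y := fun x y hxy => by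
    obtain ⟨w, hw⟩ := D.hker (x * y⁻¹) (by rw [D.hpr, D.pr_inv, hxy]; abel)
    have h1 : x = D.i w * y := by rw [hw]; group
    rw [h1, hmul, hqi, D.ka_i, zero_add, add_zero]
  have hs : ∀ x, D.pr (Function.surjInv D.hsurj x) = x := Function.surjInv_eq D.hsurj
  let Q : QuadraticMap (ZMod 2) (Fin v → ZMod 2) (Fin z → ZMod 2) :=
    { toFun := fun x => q (Function.surjInv D.hsurj x)
      toFun_smul := by
        intro a x
        fin_cases a
        · change q (Function.surjInv D.hsurj ((0 : ZMod 2) • x)) =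
            ((0 : ZMod 2) * 0) • q (Function.surjInv D.hsurj x)
          rw [zero_smul, zero_mul, zero_smul, ← hqi 0]
          apply hcong
          rw [hs, D.hpri]
        · change q (Function.surjInv D.hsurj ((1 : ZMod 2) • x)) =
            ((1 : ZMod 2) * 1) • q (Function.surjInv D.hsurj x)
          rw [one_smul, one_mul, one_smul]
      exists_companion' := by
        refine ⟨D.K, fun x y => ?_⟩
        rw [← hs x, ← hs y, D.K_spec, ← D.hpr, hcong _ (Function.surjInv D.hsurj x *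
          Function.surjInv D.hsurj y) (by rw [hs]), hmul]
        simp only [hs] }
  have hQ : ∀ x, Q (D.pr x) = q x := fun x => hcong _ _ (hs _)
  let B := Q.toBilin (Pi.basisFun (ZMod 2) (Fin v))
  have hB : ∀ x, B x x = Q x := fun x => by
    have := congrArg (fun R => R x) (Q.toQuadraticMap_toBilin (Pi.basisFun (ZMod 2) (Fin v)))
    simpa using this
  refine ⟨B, ?_, ?_⟩
  · intro x y
    have h1 : Q (D.pr (x * y)) = Q (D.pr x) + Q (D.pr y) + D.ka x y := by
      rw [hQ, hQ, hQ, hmul]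
    rw [D.hpr, ← hB, ← hB, ← hB, map_add, map_add, LinearMap.add_apply, LinearMap.add_apply] at h1
    have h2 : B (D.pr x) (D.pr y) + B (D.pr y) (D.pr x) = D.ka x y := by
      have h3 : B (D.pr x) (D.pr x) + B (D.pr y) (D.pr x) +
          (B (D.pr x) (D.pr y) + B (D.pr y) (D.pr y)) -
          (B (D.pr x) (D.pr x) + B (D.pr y) (D.pr y)) = D.ka x y := by
        rw [h1]; abel
      rw [← h3]
      abel
    rw [← h2, sub_eq_add_neg, hneg]
  · intro x
    rw [hB, hQ, ← hq]
    simp

theorem Dat.exists_good (D : Dat p P v z) (h : p = 2 ∨ ∀ x : P, x ^ p = 1)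
    (hpow : ∀ x : P, D.pr (x ^ p) = 0) :
    ∃ B, D.Good B := by
  have hp : p.Prime := Fact.out
  rcases eq_or_ne p 2 with h2 | h2
  · subst h2
    exact exists_good_two D hpow
  · have hx := h.resolve_left h2
    have h20 : (2 : ZMod p) ≠ 0 := by
      intro h0
      have h3 : ((2 : ℕ) : ZMod p) = 0 := by exact_mod_cast h0
      rw [ZMod.natCast_eq_zero_iff] at h3
      exact h2 ((Nat.prime_dvd_prime_iff_eq hp Nat.prime_two).mp h3)
    refine ⟨(2 : ZMod p)⁻¹ • D.K, ?_, ?_⟩
    · intro x y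
      simp only [LinearMap.smul_apply]
      rw [D.K_spec, D.K_spec, D.ka_swap x y, ← smul_sub, sub_neg_eq_add, ← two_smul (ZMod p),
        smul_smul, inv_mul_cancel₀ h20, one_smul]
    · intro x
      rw [hx x]
      have h3 : p ∣ p.choose 2 := hp.dvd_choose_self (by norm_num)
        (lt_of_le_of_ne hp.two_le (Ne.symm h2))
      obtain ⟨k, hk⟩ := h3
      have h4 : (p.choose 2) • ((2 : ZMod p)⁻¹ • D.K) (D.pr x) (D.pr x) = 0 := by
        rw [hk, ← Nat.cast_smul_eq_nsmul (ZMod p), Nat.cast_mul, ZMod.natCast_self, zero_mul,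
          zero_smul]
      rw [h4, D.i_zero]

/-! ## The abelian group structure -/

/-- The underlying set of `P` with the twisted multiplication. -/
structure Tw (D : Dat p P v z) (B : (Fin v → ZMod p) →ₗ[ZMod p] (Fin v → ZMod p) →ₗ[ZMod p]
    (Fin z → ZMod p)) (hB : D.Good B) where
  /-- the element -/
  val : P

variable {D : Dat p P v z} {B : (Fin v → ZMod p) →ₗ[ZMod p] (Fin v → ZMod p) →ₗ[ZMod p]
    (Fin z → ZMod p)} {hB : D.Good B}

theorem Tw.ext {x y : Tw D B hB} (h : x.val = y.val) : x = y := by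
  cases x; cases y; cases h; rfl

instance : Add (Tw D B hB) := ⟨fun x y => ⟨x.val * y.val * D.i (-(B (D.pr x.val) (D.pr y.val)))⟩⟩

instance : Zero (Tw D B hB) := ⟨⟨1⟩⟩

instance : Neg (Tw D B hB) := ⟨fun x => ⟨x.val⁻¹ * D.i (-(B (D.pr x.val) (D.pr x.val)))⟩⟩

theorem Tw.add_val (x y : Tw D B hB) :
    (x + y).val = x.val * y.val * D.i (-(B (D.pr x.val) (D.pr y.val))) := rfl

theorem Tw.zero_val : (0 : Tw D B hB).val = 1 := rfl

theorem Tw.neg_val (x : Tw D B hB) :
    (-x).val = x.val⁻¹ * D.i (-(B (D.pr x.val) (D.pr x.val))) := rfl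

theorem Tw.pr_add (x y : Tw D B hB) : D.pr (x + y).val = D.pr x.val + D.pr y.val := by
  rw [Tw.add_val, D.hpr, D.hpr, D.hpri, add_zero]

theorem Tw.pr_neg (x : Tw D B hB) : D.pr (-x).val = -D.pr x.val := by
  rw [Tw.neg_val, D.hpr, D.hpri, add_zero, D.pr_inv]

instance : AddCommGroup (Tw D B hB) where
  add_assoc x y w := by
    apply Tw.ext
    rw [Tw.add_val, Tw.pr_add, Tw.add_val x (y + w), Tw.pr_add, Tw.add_val, Tw.add_val, map_add,
      map_add, LinearMap.add_apply]
    have h1 : D.i (-(B (D.pr x.val) (D.pr y.val))) * w.val =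
      w.val * D.i (-(B (D.pr x.val) (D.pr y.val))) := D.hcent _ _
    calc x.val * y.val * D.i (-(B (D.pr x.val) (D.pr y.val))) * w.val *
          D.i (-(B (D.pr x.val) (D.pr w.val) + B (D.pr y.val) (D.pr w.val)))
        = x.val * y.val * (D.i (-(B (D.pr x.val) (D.pr y.val))) * w.val) *
          D.i (-(B (D.pr x.val) (D.pr w.val) + B (D.pr y.val) (D.pr w.val))) := by
          simp only [mul_assoc]
      _ = x.val * y.val * w.val * (D.i (-(B (D.pr x.val) (D.pr y.val))) *
          D.i (-(B (D.pr x.val) (D.pr w.val) + B (D.pr y.val) (D.pr w.val)))) := by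
          rw [h1]; simp only [mul_assoc]
      _ = x.val * y.val * w.val * (D.i (-(B (D.pr y.val) (D.pr w.val))) *
          D.i (-(B (D.pr x.val) (D.pr y.val) + B (D.pr x.val) (D.pr w.val)))) := by
          rw [← D.hi, ← D.hi]
          congr 2
          abel
      _ = _ := by simp only [mul_assoc]
  zero_add x := by
    apply Tw.ext
    rw [Tw.add_val, Tw.zero_val, D.pr_one, map_zero, LinearMap.zero_apply, neg_zero, D.i_zero,
      one_mul, mul_one]
  add_zero x := by
    apply Tw.ext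
    rw [Tw.add_val, Tw.zero_val, D.pr_one, map_zero, neg_zero, D.i_zero, mul_one, mul_one]
  neg_add_cancel x := by
    apply Tw.ext
    rw [Tw.add_val, Tw.pr_neg, Tw.neg_val, Tw.zero_val, map_neg, LinearMap.neg_apply, neg_neg]
    have h1 := D.hcent (-(B (D.pr x.val) (D.pr x.val))) x.val
    calc x.val⁻¹ * D.i (-(B (D.pr x.val) (D.pr x.val))) * x.val *
          D.i (B (D.pr x.val) (D.pr x.val))
        = x.val⁻¹ * (D.i (-(B (D.pr x.val) (D.pr x.val))) * x.val) *
          D.i (B (D.pr x.val) (D.pr x.val)) := by simp only [mul_assoc]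
      _ = x.val⁻¹ * x.val * (D.i (-(B (D.pr x.val) (D.pr x.val))) *
          D.i (B (D.pr x.val) (D.pr x.val))) := by rw [h1]; simp only [mul_assoc]
      _ = 1 := by rw [← D.hi, neg_add_cancel, D.i_zero, inv_mul_cancel, mul_one]
  add_comm x y := by
    apply Tw.ext
    rw [Tw.add_val, Tw.add_val]
    have h1 := hB.alt x.val y.val
    have h2 := D.ka_spec x.val y.val
    rw [← h1, sub_eq_add_neg, D.hi] at h2
    have h3 : x.val * y.val = D.i (B (D.pr x.val) (D.pr y.val)) *
        (D.i (-(B (D.pr y.val) (D.pr x.val))) * (y.val * x.val)) := by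
      rw [← mul_assoc, h2]; group
    rw [h3, D.hcent, mul_assoc, ← D.hi, add_neg_cancel, D.i_zero, mul_one, D.hcent]
  nsmul := nsmulRec
  zsmul := zsmulRec

theorem Tw.nsmul_val (x : Tw D B hB) (n : ℕ) :
    (n • x).val = x.val ^ n * D.i (-((n.choose 2) • B (D.pr x.val) (D.pr x.val))) ∧
      D.pr (n • x).val = n • D.pr x.val := by
  induction n with
  | zero =>
    rw [zero_smul, zero_smul]
    simp [Tw.zero_val, D.i_zero, D.pr_one]
  | succ n ih =>
    refine ⟨?_, ?_⟩
    · rw [succ_nsmul, Tw.add_val, ih.2, ih.1, map_nsmul, LinearMap.smul_apply, mul_assoc (x.val ^ n),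
        D.hcent, ← mul_assoc, ← pow_succ, mul_assoc, ← D.hi]
      congr 2
      rw [← neg_add, ← add_smul]
      congr 2
      rw [Nat.choose_succ_succ' n 1, Nat.choose_one_right]
      ring
    · rw [succ_nsmul, Tw.pr_add, ih.2, succ_nsmul]

theorem Tw.p_smul (x : Tw D B hB) : p • x = 0 := by
  apply Tw.ext
  rw [(Tw.nsmul_val x p).1, hB.pw, ← D.hi, add_neg_cancel, D.i_zero, Tw.zero_val]

noncomputable instance : Module (ZMod p) (Tw D B hB) :=
  AddCommGroup.zmodModule (n := p) Tw.p_smul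

/-- the inclusion -/
def Tw.inc (D : Dat p P v z) (B : (Fin v → ZMod p) →ₗ[ZMod p] (Fin v → ZMod p) →ₗ[ZMod p]
    (Fin z → ZMod p)) (hB : D.Good B) : (Fin z → ZMod p) →+ Tw D B hB :=
  AddMonoidHom.mk' (fun w => ⟨D.i w⟩) (fun u w => by
    apply Tw.ext
    rw [Tw.add_val]
    change D.i (u + w) = D.i u * D.i w * _
    rw [D.hpri, D.hpri, map_zero, neg_zero, D.i_zero, mul_one, D.hi])

theorem Tw.inc_val (w : Fin z → ZMod p) : (Tw.inc D B hB w).val = D.i w := rfl

theorem exists_mu (D : Dat p P v z) {B : (Fin v → ZMod p) →ₗ[ZMod p] (Fin v → ZMod p) →ₗ[ZMod p]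
    (Fin z → ZMod p)} (hB : D.Good B) :
    ∃ μ : P → (Fin z → ZMod p), (∀ x y, μ (x * y) = μ x + μ y + B (D.pr x) (D.pr y)) ∧
      ∀ w, μ (D.i w) = w := by
  obtain ⟨g, hg⟩ := LinearMap.exists_leftInverse_of_injective
    ((Tw.inc D B hB).toZModLinearMap p) (by
      rw [LinearMap.ker_eq_bot]
      intro u w huw
      exact D.hinj (congrArg Tw.val huw))
  have hg' : ∀ w, g ⟨D.i w⟩ = w := fun w => LinearMap.congr_fun hg w
  refine ⟨fun x => g ⟨x⟩, ?_, hg'⟩
  intro x y
  have h1 : (⟨x * y⟩ : Tw D B hB) = ⟨x⟩ + ⟨y⟩ + ⟨D.i (B (D.pr x) (D.pr y))⟩ := by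
    apply Tw.ext
    rw [Tw.add_val, Tw.add_val]
    change x * y = x * y * D.i (-(B (D.pr x) (D.pr y))) * D.i (B (D.pr x) (D.pr y)) * _
    rw [D.hpri, map_zero, neg_zero, D.i_zero, mul_one, mul_assoc, ← D.hi, neg_add_cancel,
      D.i_zero, mul_one]
  change g ⟨x * y⟩ = g ⟨x⟩ + g ⟨y⟩ + _
  rw [h1, map_add, map_add, hg']

theorem beta_eq (B : (Fin v → ZMod p) →ₗ[ZMod p] (Fin v → ZMod p) →ₗ[ZMod p]
    (Fin z → ZMod p)) (x y : Fin v → ZMod p) :
    Bil.beta (fun k i j => B (Pi.single i 1) (Pi.single j 1) k) x y = B x y := by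
  have hx : x = ∑ i, x i • (Pi.single i 1 : Fin v → ZMod p) := by
    simpa using pi_eq_sum_univ' x
  have hy : y = ∑ i, y i • (Pi.single i 1 : Fin v → ZMod p) := by
    simpa using pi_eq_sum_univ' y
  funext k
  conv_rhs => rw [hx, hy]
  simp only [map_sum, LinearMap.sum_apply, map_smul, LinearMap.smul_apply, Finset.sum_apply,
    Pi.smul_apply, smul_eq_mul, Bil.beta]
  rw [Finset.sum_comm]
  refine Finset.sum_congr rfl fun j _ => ?_
  rw [Finset.mul_sum]
  refine Finset.sum_congr rfl fun i _ => ?_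
  ring

theorem exists_equiv (D : Dat p P v z) (h : p = 2 ∨ ∀ x : P, x ^ p = 1)
    (hpow : ∀ x : P, D.pr (x ^ p) = 0) :
    ∃ c : Fin z → Fin v → Fin v → ZMod p, Nonempty (P ≃* Bil p (Fin v) (Fin z) c) := by
  obtain ⟨B, hB⟩ := D.exists_good h hpow
  obtain ⟨μ, hμ, hμi⟩ := exists_mu D hB
  refine ⟨fun k i j => B (Pi.single i 1) (Pi.single j 1) k, ⟨MulEquiv.ofBijective
    (MonoidHom.mk' (fun x => ⟨D.pr x, μ x⟩) ?_) ⟨?_, ?_⟩⟩⟩
  · intro x y
    ext1
    · rw [Bil.mul_a, D.hpr]
    · rw [Bil.mul_b, hμ, beta_eq]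
  · rw [injective_iff_map_eq_one]
    intro x hx
    have h1 : D.pr x = 0 := congrArg Bil.a hx
    have h2 : μ x = 0 := congrArg Bil.b hx
    obtain ⟨w, rfl⟩ := D.hker x h1
    rw [hμi] at h2
    rw [h2, D.i_zero]
  · rintro ⟨a, b⟩
    obtain ⟨x, rfl⟩ := D.hsurj a
    refine ⟨x * D.i (b - μ x), ?_⟩
    ext1
    · change D.pr (x * D.i (b - μ x)) = D.pr x
      rw [D.hpr, D.hpri, add_zero]
    · change μ (x * D.i (b - μ x)) = b
      rw [hμ, hμi, D.hpri, map_zero]
      abel

theorem exists_addEquiv' (p r : ℕ) [Fact p.Prime] (V : Type) [AddCommGroup V] [Module (ZMod p) V]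
    [Finite V] (hcard : Nat.card V = p ^ r) : Nonempty (V ≃+ (Fin r → ZMod p)) := by
  have hp : p.Prime := Fact.out
  have h0 : Module.Finite (ZMod p) V := Module.Finite.of_finite
  have hr : Module.finrank (ZMod p) V = r := by
    have h1 := Module.natCard_eq_pow_finrank (K := ZMod p) (V := V)
    rw [hcard, Nat.card_zmod] at h1
    exact (Nat.pow_right_injective hp.two_le h1).symm
  exact ⟨((Module.finBasis (ZMod p) V).reindex (finCongr hr)).equivFun.toAddEquiv⟩

theorem elem_equiv' {p r : ℕ} [Fact p.Prime] (E : Type) [CommGroup E] [Finite E]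
    (hexp : ∀ x : E, x ^ p = 1) (hcard : Nat.card E = p ^ r) :
    ∃ e : E ≃ (Fin r → ZMod p), ∀ x y, e (x * y) = e x + e y := by
  have : Finite (Additive E) := inferInstanceAs (Finite E)
  obtain ⟨e⟩ := @exists_addEquiv' p r _ (Additive E) _ (AddCommGroup.zmodModule (n := p) (by
    intro x
    have := hexp (Additive.toMul x)
    apply Additive.toMul.injective
    simpa using this)) _ hcard
  exact ⟨Additive.ofMul.trans e.toEquiv, fun x y => e.map_add (Additive.ofMul x) (Additive.ofMul y)⟩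

theorem elem_equiv {p r : ℕ} [Fact p.Prime] (E : Type) [Group E] [Finite E]
    (hc : ∀ x y : E, x * y = y * x) (hexp : ∀ x : E, x ^ p = 1) (hcard : Nat.card E = p ^ r) :
    ∃ e : E ≃ (Fin r → ZMod p), ∀ x y, e (x * y) = e x + e y :=
  @elem_equiv' p r _ E { ‹Group E› with mul_comm := hc } _ hexp hcard

end ExtAux

open ExtAux in
/-- leaf EXT -/
theorem ext_bil : S_EXT := by
  intro p _ P _ _ Z v z h
  have hp : p.Prime := Fact.out
  have hN : Z.Normal := ⟨fun n hn g => by
    rw [← h.central n hn g, mul_inv_cancel_right]; exact hn⟩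
  obtain ⟨e, he⟩ := elem_equiv (p := p) (r := z) Z (fun x y => Subtype.ext (h.central x x.2 y))
    (fun x => Subtype.ext (by simpa using h.zpow x x.2)) h.cardZ
  have hq : Nat.card (P ⧸ Z) = p ^ v := by
    have h1 := Subgroup.card_eq_card_quotient_mul_card_subgroup Z
    rw [h.cardP, h.cardZ, pow_add] at h1
    exact (Nat.eq_of_mul_eq_mul_right (pow_pos hp.pos z) h1).symm
  obtain ⟨d, hd⟩ := elem_equiv (p := p) (r := v) (P ⧸ Z) (by
      intro x y
      obtain ⟨x, rfl⟩ := QuotientGroup.mk_surjective x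
      obtain ⟨y, rfl⟩ := QuotientGroup.mk_surjective y
      rw [← QuotientGroup.mk_mul, ← QuotientGroup.mk_mul, QuotientGroup.eq]
      have := h.comm y⁻¹ x⁻¹
      rw [inv_inv, inv_inv] at this
      simpa [mul_assoc] using this) (by
      intro x
      obtain ⟨x, rfl⟩ := QuotientGroup.mk_surjective x
      rw [← QuotientGroup.mk_pow, QuotientGroup.eq_one_iff]
      exact h.pow x) hq
  have hd1 : d 1 = 0 := by
    have := hd 1 1
    rw [one_mul] at this
    exact left_eq_add.mp this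
  let D : Dat p P v z :=
    { pr := fun x => d x
      i := fun w => (e.symm w : Z)
      hpr := fun x y => by rw [QuotientGroup.mk_mul, hd]
      hi := fun u w => by
        rw [← Subgroup.coe_mul]
        congr 1
        apply e.injective
        rw [he, e.apply_symm_apply, e.apply_symm_apply, e.apply_symm_apply]
      hker := fun x hx => by
        have h1 : (x : P ⧸ Z) = 1 := d.injective (by rw [hd1]; exact hx)
        rw [QuotientGroup.eq_one_iff] at h1
        exact ⟨e ⟨x, h1⟩, by rw [e.symm_apply_apply]⟩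
      hpri := fun w => by
        have h1 : (((e.symm w : Z) : P) : P ⧸ Z) = 1 := by
          rw [QuotientGroup.eq_one_iff]; exact (e.symm w).2
        rw [h1, hd1]
      hinj := fun u w huw => e.symm.injective (Subtype.ext huw)
      hsurj := fun a => by
        obtain ⟨x, hx⟩ := QuotientGroup.mk_surjective (d.symm a)
        exact ⟨x, by change d (x : P ⧸ Z) = a; rw [hx, d.apply_symm_apply]⟩
      hcent := fun w x => h.central _ (e.symm w).2 x }
  refine exists_equiv D h.odd ?_
  intro x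
  have h1 : ((x ^ p : P) : P ⧸ Z) = 1 := by
    rw [QuotientGroup.eq_one_iff]; exact h.pow x
  change d ((x ^ p : P) : P ⧸ Z) = 0
  rw [h1, hd1]

end Pool.Agent.N726.BG
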