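import Mathlib
import Pool.Agent.N726.BG.Stm2

set_option autoImplicit false

/-!
# Large subgroups of class two of the required kind
-/

namespace Pool.Agent.N726.BG

namespace Lrg

open scoped commutatorElement IsMulCommutative

section CT

variable {G : Type} [Group G]

theorem shift {x b z : G} (hz : ∀ y, Commute z y) (h : x * b = z * b * x) (n : ℕ) :
    x ^ n * b = z ^ n * b * x ^ n := by
  induction n with
  | zero => simp
  | succ n ih =>
    calc x ^ (n + 1) * b = x * (x ^ n * b) := by rw [pow_succ']; simp only [mul_assoc]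
      _ = x * (z ^ n * b * x ^ n) := by rw [ih]
      _ = z ^ n * (x * b) * x ^ n := by
          rw [← mul_assoc, ← mul_assoc, ← ((hz x).pow_left n).eq]
          simp only [mul_assoc]
      _ = z ^ n * (z * b * x) * x ^ n := by rw [h]
      _ = _ := by
          rw [pow_succ z n, pow_succ' x n]
          simp only [mul_assoc]

theorem twist_pow {x b z : G} (hz : ∀ y, Commute z y) (h : x * b = z * b * x) (n : ℕ) :
    (b * x) ^ n = z ^ (n.choose 2) * b ^ n * x ^ n := by
  induction n with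
  | zero => simp
  | succ n ih =>
    have e : (n + 1).choose 2 = n.choose 2 + n := by
      rw [Nat.choose_succ_succ' n 1, Nat.choose_one_right, add_comm]
    calc (b * x) ^ (n + 1) = (b * x) ^ n * (b * x) := pow_succ _ _
      _ = z ^ (n.choose 2) * b ^ n * (x ^ n * b) * x := by rw [ih]; simp only [mul_assoc]
      _ = z ^ (n.choose 2) * b ^ n * (z ^ n * b * x ^ n) * x := by rw [shift hz h]
      _ = z ^ (n.choose 2) * z ^ n * (b ^ n * b) * (x ^ n * x) := by
          have := ((hz (b ^ n)).pow_left n).eq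
          calc _ = z ^ (n.choose 2) * (b ^ n * z ^ n) * b * x ^ n * x := by simp only [mul_assoc]
            _ = z ^ (n.choose 2) * (z ^ n * b ^ n) * b * x ^ n * x := by rw [this]
            _ = _ := by simp only [mul_assoc]
      _ = _ := by rw [e, pow_add, pow_succ b n, pow_succ x n]

/-- finite abelian groups -/
theorem card_le_ker_pow {A : Type} [CommGroup A] [Finite A] (r : ℕ) (k : ℕ) :
    ∀ B : Subgroup A, (∀ a ∈ B, a ^ r ^ k = 1) →
      Nat.card B ≤ Nat.card (powMonoidHom r : A →* A).ker ^ k := by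
  induction k with
  | zero =>
    intro B h
    have h1 : B = ⊥ := by
      rw [eq_bot_iff]
      intro a ha
      have := h a ha
      rw [pow_zero, pow_one] at this
      exact Subgroup.mem_bot.2 this
    rw [h1]
    simp
  | succ k ih =>
    intro B h
    let g : B →* A := (powMonoidHom r : A →* A).comp B.subtype
    have h1 : Nat.card B = Nat.card g.ker * Nat.card g.range := by
      rw [← g.ker.card_mul_index, Subgroup.index_ker]
    have h2 : Nat.card g.range ≤ Nat.card (powMonoidHom r : A →* A).ker ^ k := by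
      apply ih
      rintro _ ⟨b, rfl⟩
      change ((b : A) ^ r) ^ r ^ k = 1
      rw [← pow_mul, ← pow_succ']
      exact h b b.2
    have h3 : Nat.card g.ker ≤ Nat.card (powMonoidHom r : A →* A).ker := by
      refine Nat.card_le_card_of_injective
        (fun x : g.ker => (⟨((x : B) : A), x.2⟩ : (powMonoidHom r : A →* A).ker)) ?_
      intro x y hxy
      exact Subtype.ext (Subtype.ext (congrArg (fun z : (powMonoidHom r : A →* A).ker =>
        (z : A)) hxy))
    rw [h1, pow_succ']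
    exact Nat.mul_le_mul h3 h2

/-- commutators are central -/
theorem cen (h : ∀ x y w : G, ⁅⁅x, y⁆, w⁆ = 1) (x y : G) : ⁅x, y⁆ ∈ Subgroup.center G := by
  rw [Subgroup.mem_center_iff]
  intro g
  have := h x y g
  rw [commutatorElement_eq_one_iff_commute] at this
  exact this.eq.symm

theorem cen' (h : ∀ x y w : G, ⁅⁅x, y⁆, w⁆ = 1) (x y w : G) : Commute ⁅x, y⁆ w := by
  have := h x y w
  rwa [commutatorElement_eq_one_iff_commute] at this

theorem rel (x y : G) : x * y = ⁅x, y⁆ * y * x := by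
  rw [commutatorElement_def]
  group

theorem mul_pow2 (h : ∀ x y w : G, ⁅⁅x, y⁆, w⁆ = 1) (x y : G) (n : ℕ) :
    (x * y) ^ n = ⁅y, x⁆ ^ (n.choose 2) * x ^ n * y ^ n :=
  twist_pow (cen' h y x) (rel y x) n

theorem comm_pow (h : ∀ x y w : G, ⁅⁅x, y⁆, w⁆ = 1) (x y : G) (n : ℕ) :
    ⁅x, y⁆ ^ n = ⁅x ^ n, y⁆ := by
  have h1 := shift (cen' h x y) (rel x y) n
  rw [commutatorElement_def (x ^ n) y, h1]
  group

/-- commutators with the elements whose `p`-th power is central -/
theorem comm_pow_one (h : ∀ x y w : G, ⁅⁅x, y⁆, w⁆ = 1) {p : ℕ} {x : G}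
    (hx : x ^ p ∈ Subgroup.center G) (y : G) : ⁅x, y⁆ ^ p = 1 := by
  rw [comm_pow h, commutatorElement_eq_one_iff_commute]
  exact (Subgroup.mem_center_iff.1 hx y).symm

/-- the elements whose `p`-th power is central -/
def MM (h : ∀ x y w : G, ⁅⁅x, y⁆, w⁆ = 1) (p : ℕ) : Subgroup G where
  carrier := {x | x ^ p ∈ Subgroup.center G}
  one_mem' := by
    show (1 : G) ^ p ∈ Subgroup.center G
    rw [one_pow]
    exact one_mem _
  mul_mem' := by
    intro x y hx hy
    show (x * y) ^ p ∈ Subgroup.center G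
    rw [mul_pow2 h]
    exact mul_mem (mul_mem (pow_mem (cen h y x) _) hx) hy
  inv_mem' := by
    intro x hx
    show (x⁻¹) ^ p ∈ Subgroup.center G
    rw [inv_pow]
    exact inv_mem hx

theorem mem_MM (h : ∀ x y w : G, ⁅⁅x, y⁆, w⁆ = 1) (p : ℕ) (x : G) :
    x ∈ MM h p ↔ x ^ p ∈ Subgroup.center G := Iff.rfl

theorem card_le_MM [Finite G] (h : ∀ x y w : G, ⁅⁅x, y⁆, w⁆ = 1) (p : ℕ)
    (he : ∀ x : G, x ^ p ^ 4 = 1) : Nat.card G ≤ Nat.card (MM h p) ^ 4 := by
  set C : Subgroup G := Subgroup.center G with hC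
  let cg : CommGroup (G ⧸ C) :=
    { (inferInstance : Group (G ⧸ C)) with
      mul_comm := by
        intro a b
        induction a using QuotientGroup.induction_on with
        | H a =>
          induction b using QuotientGroup.induction_on with
          | H b =>
            rw [← QuotientGroup.mk_mul, ← QuotientGroup.mk_mul, QuotientGroup.eq]
            have h1 : ⁅(b : G)⁻¹, (a : G)⁻¹⁆ ∈ C := cen h _ _
            rw [commutatorElement_def] at h1
            convert h1 using 1
            group }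
  have hfin : Finite (G ⧸ C) := inferInstance
  set κ : Subgroup (G ⧸ C) := (powMonoidHom p : (G ⧸ C) →* (G ⧸ C)).ker with hκ
  have h1 : Nat.card (G ⧸ C) ≤ Nat.card κ ^ 4 := by
    have := card_le_ker_pow (A := G ⧸ C) p 4 ⊤ (fun a _ => by
      induction a using QuotientGroup.induction_on with
      | H a =>
        rw [← QuotientGroup.mk_pow, he a]
        rfl)
    rwa [Subgroup.card_top] at this
  have h2 : MM h p = κ.comap (QuotientGroup.mk' C) := by
    ext x
    rw [mem_MM, Subgroup.mem_comap, hκ, MonoidHom.mem_ker]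
    show x ^ p ∈ C ↔ (QuotientGroup.mk x : G ⧸ C) ^ p = 1
    rw [← QuotientGroup.mk_pow, QuotientGroup.eq_one_iff]
  have h3 : (MM h p).index = κ.index := by
    rw [h2]
    exact Subgroup.index_comap_of_surjective _ (QuotientGroup.mk'_surjective C)
  have h4 := (MM h p).card_mul_index
  have h5 := κ.card_mul_index
  have h6 := C.card_mul_index
  have h7 : C.index = Nat.card (G ⧸ C) := rfl
  have h8 : Nat.card (MM h p) = Nat.card C * Nat.card κ := by
    have hpos : 0 < κ.index := Nat.pos_of_ne_zero Subgroup.index_ne_zero_of_finite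
    refine Nat.eq_of_mul_eq_mul_right hpos ?_
    rw [← h3, h4, h3, mul_assoc, h5, ← h7, h6]
  have hc : 1 ≤ Nat.card C := Nat.card_pos
  calc Nat.card G = Nat.card C * Nat.card (G ⧸ C) := by rw [← h6, h7]
    _ ≤ Nat.card C * Nat.card κ ^ 4 := Nat.mul_le_mul_left _ h1
    _ ≤ Nat.card C ^ 4 * Nat.card κ ^ 4 := Nat.mul_le_mul_right _ (Nat.le_self_pow (by norm_num) _)
    _ = _ := by rw [h8, mul_pow]

/-- the subgroup -/
def PP (h : ∀ x y w : G, ⁅⁅x, y⁆, w⁆ = 1) (p q : ℕ) (hq : p ∣ q.choose 2) : Subgroup G where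
  carrier := {x | x ^ p ∈ Subgroup.center G ∧ x ^ q = 1}
  one_mem' := by
    show (1 : G) ^ p ∈ Subgroup.center G ∧ (1 : G) ^ q = 1
    rw [one_pow, one_pow]
    exact ⟨one_mem _, rfl⟩
  mul_mem' := by
    rintro x y ⟨hx, hx'⟩ ⟨hy, hy'⟩
    refine ⟨(MM h p).mul_mem hx hy, ?_⟩
    rw [mul_pow2 h, hx', hy', mul_one, mul_one]
    obtain ⟨m, hm⟩ := hq
    rw [hm, pow_mul, comm_pow_one h hy, one_pow]
  inv_mem' := by
    rintro x ⟨hx, hx'⟩
    refine ⟨(MM h p).inv_mem hx, ?_⟩
    rw [inv_pow, hx', inv_one]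

theorem mem_PP (h : ∀ x y w : G, ⁅⁅x, y⁆, w⁆ = 1) (p q : ℕ) (hq : p ∣ q.choose 2) (x : G) :
    x ∈ PP h p q hq ↔ x ^ p ∈ Subgroup.center G ∧ x ^ q = 1 := Iff.rfl

/-- the central subgroup -/
def ZZ (h : ∀ x y w : G, ⁅⁅x, y⁆, w⁆ = 1) (p q : ℕ) (hq : p ∣ q.choose 2) : Subgroup (PP h p q hq) where
  carrier := {x | (x : G) ∈ Subgroup.center G ∧ (x : G) ^ p = 1}
  one_mem' := ⟨one_mem _, one_pow _⟩
  mul_mem' := by
    rintro x y ⟨hx, hx'⟩ ⟨hy, hy'⟩
    refine ⟨mul_mem hx hy, ?_⟩
    have hc : Commute (x : G) (y : G) := (Subgroup.mem_center_iff.1 hx y).symm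
    show ((x : G) * (y : G)) ^ p = 1
    rw [hc.mul_pow, hx', hy', mul_one]
  inv_mem' := by
    rintro x ⟨hx, hx'⟩
    refine ⟨inv_mem hx, ?_⟩
    show ((x : G)⁻¹) ^ p = 1
    rw [inv_pow, hx', inv_one]

theorem mem_ZZ (h : ∀ x y w : G, ⁅⁅x, y⁆, w⁆ = 1) (p q : ℕ) (hq : p ∣ q.choose 2) (x : PP h p q hq) :
    x ∈ ZZ h p q hq ↔ (x : G) ∈ Subgroup.center G ∧ (x : G) ^ p = 1 := Iff.rfl

/-- the power map -/
def pw (h : ∀ x y w : G, ⁅⁅x, y⁆, w⁆ = 1) (p q : ℕ) (hq : p ∣ q.choose 2) (hpq : p ∣ q) :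
    MM h p →* Subgroup.center G where
  toFun x := ⟨(x : G) ^ q, by
    obtain ⟨m, rfl⟩ := hpq
    rw [pow_mul]
    exact (Subgroup.center G).pow_mem ((mem_MM h p _).1 x.2) m⟩
  map_one' := by
    apply Subtype.ext
    show (1 : G) ^ q = 1
    exact one_pow _
  map_mul' x y := by
    apply Subtype.ext
    show ((x : G) * (y : G)) ^ q = (x : G) ^ q * (y : G) ^ q
    obtain ⟨m, hm⟩ := hq
    rw [mul_pow2 h, hm, pow_mul, comm_pow_one h y.2, one_pow, one_mul]

theorem card_MM_le [Finite G] (h : ∀ x y w : G, ⁅⁅x, y⁆, w⁆ = 1) (p q : ℕ) (hq : p ∣ q.choose 2)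
    (hpq : p ∣ q) (he : ∀ x : G, x ^ p ^ 4 = 1) :
    Nat.card (MM h p) ≤ Nat.card (PP h p q hq) * Nat.card (ZZ h p q hq) ^ 3 := by
  have h1 : Nat.card (MM h p) = Nat.card (pw h p q hq hpq).ker * Nat.card (pw h p q hq hpq).range := by
    rw [← (pw h p q hq hpq).ker.card_mul_index, Subgroup.index_ker]
  have h2 : Nat.card (pw h p q hq hpq).ker ≤ Nat.card (PP h p q hq) := by
    refine Nat.card_le_card_of_injective
      (fun x : (pw h p q hq hpq).ker => (⟨((x : MM h p) : G), ?_⟩ : PP h p q hq)) ?_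
    · refine ⟨x.1.2, ?_⟩
      have := x.2
      rw [MonoidHom.mem_ker] at this
      exact congrArg Subtype.val this
    · intro x y hxy
      exact Subtype.ext (Subtype.ext (congrArg (fun z : PP h p q hq => (z : G)) hxy))
  have h3 : Nat.card (pw h p q hq hpq).range ≤
      Nat.card (powMonoidHom p : Subgroup.center G →* Subgroup.center G).ker ^ 3 := by
    apply card_le_ker_pow
    rintro _ ⟨x, rfl⟩
    apply Subtype.ext
    show (((x : G) ^ q) ^ p ^ 3 : G) = 1
    obtain ⟨m, rfl⟩ := hpq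
    rw [← pow_mul]
    have e : p * m * p ^ 3 = p ^ 4 * m := by ring
    rw [e, pow_mul, he, one_pow]
  have h4 : Nat.card (powMonoidHom p : Subgroup.center G →* Subgroup.center G).ker ≤
      Nat.card (ZZ h p q hq) := by
    have hm : ∀ x : (powMonoidHom p : Subgroup.center G →* Subgroup.center G).ker,
        ((x : Subgroup.center G) : G) ^ p = 1 := by
      intro x
      have := x.2
      rw [MonoidHom.mem_ker] at this
      exact congrArg Subtype.val this
    refine Nat.card_le_card_of_injective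
      (fun x : (powMonoidHom p : Subgroup.center G →* Subgroup.center G).ker =>
        (⟨⟨((x : Subgroup.center G) : G), ?_⟩, ?_⟩ : ZZ h p q hq)) ?_
    · refine ⟨?_, ?_⟩
      · show ((x : Subgroup.center G) : G) ^ p ∈ _
        rw [hm]
        exact one_mem _
      · show ((x : Subgroup.center G) : G) ^ q = 1
        obtain ⟨m, rfl⟩ := hpq
        rw [pow_mul, hm, one_pow]
    · exact ⟨x.1.2, hm x⟩
    · intro x y hxy
      have h5 := congrArg (fun z : ZZ h p q hq => ((z : PP h p q hq) : G)) hxy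
      exact Subtype.ext (Subtype.ext h5)
  rw [h1]
  exact Nat.mul_le_mul h2 (h3.trans (Nat.pow_le_pow_left h4 3))

end CT

end Lrg

open Lrg in
open scoped commutatorElement in
theorem lrg : S_LRG := by
  intro p hp Ω _ _ h he r hr
  have hp2 := hp.out.two_le
  obtain ⟨q, hq, hpq, hq2, hodd⟩ : ∃ q : ℕ, p ∣ q.choose 2 ∧ p ∣ q ∧ q ∣ p ^ 2 ∧ (p = 2 ∨ q = p) := by
    rcases hp.out.eq_two_or_odd' with h2 | h2
    · subst h2
      exact ⟨4, by decide, by decide, by decide, Or.inl rfl⟩
    · refine ⟨p, ?_, dvd_rfl, dvd_pow_self p two_ne_zero, Or.inr rfl⟩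
      obtain ⟨m, hm⟩ := h2
      rw [Nat.choose_two_right]
      refine ⟨m, ?_⟩
      have e : p - 1 = 2 * m := by omega
      rw [e]
      have e2 : p * (2 * m) = 2 * (p * m) := by ring
      rw [e2, Nat.mul_div_cancel_left _ (by norm_num)]
  have hG : IsPGroup p Ω := fun x => ⟨4, he x⟩
  have hP : IsPGroup p (PP h p q hq) := hG.to_subgroup _
  have hZ : IsPGroup p (ZZ h p q hq) := hP.to_subgroup _
  obtain ⟨a, ha⟩ := IsPGroup.iff_card.1 hP
  obtain ⟨z, hz⟩ := IsPGroup.iff_card.1 hZ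
  have hza : z ≤ a := by
    have h1 : Nat.card (ZZ h p q hq) ∣ Nat.card (PP h p q hq) := Subgroup.card_subgroup_dvd_card _
    rw [hz, ha] at h1
    exact (Nat.pow_dvd_pow_iff_le_right hp.out.one_lt).1 h1
  obtain ⟨v, rfl⟩ := Nat.exists_eq_add_of_le' hza
  refine ⟨PP h p q hq, ZZ h p q hq, v, z, ?_, ?_⟩
  · constructor
    · rintro x ⟨hx, _⟩ y
      apply Subtype.ext
      exact (Subgroup.mem_center_iff.1 hx y).symm
    · rintro x ⟨_, hx⟩
      apply Subtype.ext
      exact hx
    · intro x y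
      have h1 : ((x * y * x⁻¹ * y⁻¹ : PP h p q hq) : Ω) = ⁅(x : Ω), (y : Ω)⁆ := rfl
      rw [mem_ZZ, h1]
      exact ⟨cen h _ _, comm_pow_one h x.2.1 _⟩
    · intro x
      rw [mem_ZZ]
      refine ⟨x.2.1, ?_⟩
      obtain ⟨m, hm⟩ := hq2
      have h1 : (((x ^ p : PP h p q hq) : Ω)) ^ p = (x : Ω) ^ p ^ 2 := by
        rw [sq, pow_mul]
        rfl
      rw [h1, hm, pow_mul, x.2.2, one_pow]
    · rcases hodd with h1 | h1
      · exact Or.inl h1
      · right
        intro x
        apply Subtype.ext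
        have h5 : (x : Ω) ^ q = 1 := x.2.2
        have h6 : ∀ (y : Ω), y ^ q = 1 → y ^ p = 1 := by
          intro y hy
          rw [← h1]
          exact hy
        exact h6 _ h5
    · exact hz
    · exact ha
  · have h1 := card_le_MM h p he
    have h2 := card_MM_le h p q hq hpq he
    rw [ha, hz] at h2
    have h3 : p ^ r ≤ p ^ (4 * v + 16 * z) := by
      calc p ^ r ≤ Nat.card Ω := hr
        _ ≤ Nat.card (MM h p) ^ 4 := h1
        _ ≤ (p ^ (v + z) * (p ^ z) ^ 3) ^ 4 := Nat.pow_le_pow_left h2 4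
        _ = p ^ (4 * v + 16 * z) := by
            rw [← pow_mul, ← pow_add, ← pow_mul]
            congr 1
            ring
    have h4 := (Nat.pow_le_pow_iff_right hp.out.one_lt).1 h3
    omega

end Pool.Agent.N726.BG
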