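import Pool.Agent.N726.BG.Stm2
import Pool.Agent.N580.ClassTwo

/-!
# Project SB, leaf SEC: elementary abelian sections and Sylow subgroups
-/

namespace Pool.Agent.N726.BG

open scoped commutatorElement
open Pool.Agent.N580

/-- leaf SEC -/
theorem sec : S_SEC := by
  classical
  intro H _ _ p r _ K hK hcomm hpow hidx
  -- the quotient is a `p`-group
  have hq : IsPGroup p (H ⧸ K) := by
    intro x
    obtain ⟨y, rfl⟩ := QuotientGroup.mk_surjective x
    exact ⟨1, by rw [pow_one, ← QuotientGroup.mk_pow]; exact (QuotientGroup.eq_one_iff _).2 (hpow y)⟩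
  let Q : Sylow p H := default
  -- a Sylow subgroup is mapped onto it
  have hsurj : (Q : Subgroup H).map (QuotientGroup.mk' K) = ⊤ := by
    rw [← Sylow.coe_mapSurjective (QuotientGroup.mk'_surjective K)]
    exact ((Q.mapSurjective (QuotientGroup.mk'_surjective K)).is_maximal' (hq.to_subgroup ⊤) le_top).symm
  let f : (Q : Subgroup H) →* H ⧸ K := (QuotientGroup.mk' K).comp (Q : Subgroup H).subtype
  have hf : f.range = ⊤ := by
    rw [MonoidHom.range_comp, Subgroup.range_subtype, hsurj]
  have hker : Nat.card f.ker * K.index = Nat.card (Q : Subgroup H) := by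
    rw [← f.ker.card_mul_index, Subgroup.index_ker, hf, Subgroup.card_top]
    rfl
  have hdd : dd (p ^ 2) (⊤ : Subgroup (Q : Subgroup H)) ≤ f.ker := by
    refine dd_le ?_ ?_
    · rw [Subgroup.commutator_le]
      intro x _ y _
      rw [MonoidHom.mem_ker]
      refine (QuotientGroup.eq_one_iff _).2 ?_
      exact hcomm x y
    · intro x _
      rw [MonoidHom.mem_ker]
      refine (QuotientGroup.eq_one_iff _).2 ?_
      have h1 : ((x ^ p ^ 2 : (Q : Subgroup H)) : H) = ((x : H) ^ p) ^ p := by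
        rw [← pow_mul, ← pow_two]
        rfl
      change ((x ^ p ^ 2 : (Q : Subgroup H)) : H) ∈ K
      rw [h1]
      exact hpow _
  have hddc : Nat.card (dd (p ^ 2) (⊤ : Subgroup (Q : Subgroup H))) ≤ Nat.card f.ker :=
    Nat.card_le_card_of_injective _ (Subgroup.inclusion_injective hdd)
  obtain ⟨Ω, hΩ1, hΩ2, hΩ3⟩ := exists_omega (p := p) (Q : Subgroup H) Q.isPGroup'
  refine ⟨Ω.map (Q : Subgroup H).subtype, ?_, ?_, ?_⟩
  · rintro ⟨_, x, hx, rfl⟩ ⟨_, y, hy, rfl⟩ ⟨_, w, hw, rfl⟩
    have h1 : ⁅⁅x, y⁆, w⁆ = 1 := by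
      rw [← Subgroup.mem_bot, ← hΩ1]
      exact Subgroup.commutator_mem_commutator (Subgroup.commutator_mem_commutator hx hy) hw
    apply Subtype.ext
    have h2 := congrArg (Q : Subgroup H).subtype h1
    simpa [commutatorElement_def] using h2
  · rintro ⟨_, x, hx, rfl⟩
    apply Subtype.ext
    have h2 := congrArg (Q : Subgroup H).subtype (hΩ2 x hx)
    simpa using h2
  · rw [Subgroup.card_map_of_injective (Subgroup.subtype_injective _)]
    have h0 : 0 < Nat.card f.ker := Nat.card_pos
    refine hidx.trans (Nat.le_of_mul_le_mul_left ?_ h0)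
    rw [hker]
    calc Nat.card (Q : Subgroup H) ≤ _ := hΩ3
      _ ≤ Nat.card Ω * Nat.card f.ker := Nat.mul_le_mul_left _ hddc
      _ = _ := mul_comm _ _

end Pool.Agent.N726.BG
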