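import Mathlib
import Pool.Agent.N726.BG.Main
import Pool.Agent.N726.BG.Stm2

/-!
# Elementary abelian sections
-/

namespace Pool.Agent.N726.BG

open Finset
open scoped commutatorElement

theorem Ext.pi {p : ℕ} {P : Type} [Group P] {Z : Subgroup P} {v z : ℕ} (h : Ext p P Z v z)
    (κ : Type) [Fintype κ] :
    Ext p (κ → P) (Subgroup.pi Set.univ fun _ : κ => Z) (Fintype.card κ * v)
      (Fintype.card κ * z) where
  central := fun x hx y => funext fun i => h.central _ (hx i (Set.mem_univ _)) _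
  zpow := fun x hx => funext fun i => h.zpow _ (hx i (Set.mem_univ _))
  comm := fun x y i _ => h.comm _ _
  pow := fun x i _ => h.pow _
  odd := by
    rcases h.odd with h1 | h1
    · exact Or.inl h1
    · exact Or.inr fun x => funext fun i => h1 _
  cardZ := by
    have e : (Subgroup.pi Set.univ fun _ : κ => Z) ≃ (κ → Z) :=
      { toFun := fun f j => ⟨f.1 j, f.2 j (Set.mem_univ _)⟩
        invFun := fun f => ⟨fun j => (f j : P), fun j _ => (f j).2⟩
        left_inv := fun _ => rfl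
        right_inv := fun _ => rfl }
    rw [Nat.card_congr e, Nat.card_fun, h.cardZ, Nat.card_eq_fintype_card (α := κ), ← pow_mul,
      mul_comm]
  cardP := by
    rw [Nat.card_fun, h.cardP, Nat.card_eq_fintype_card (α := κ), ← pow_mul]
    congr 1
    ring

/-- the bound for groups given by bilinear cocycles -/
theorem good_bil (h1 : S_ELA2) (h2 : S_ELB2) (p : ℕ) [Fact p.Prime] (ι ζ : Type) [Fintype ι]
    [Fintype ζ] [DecidableEq ι] [DecidableEq ζ] (c : ζ → ι → ι → ZMod p) :
    Good (Bil p ι ζ c) (Real.exp (-(Fintype.card ι : ℝ) / 18)) := by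
  have hp : p.Prime := Fact.out
  set m := (p - 1) * (Fintype.card ι + 2 * Fintype.card ζ) / 3 + 1 with hm
  obtain ⟨J, hJ, hd⟩ := h1 p ι ζ c m (by omega)
  refine ⟨ZMod p, inferInstance, J, hJ, ?_⟩
  have h3 := h2 p hp.two_le ι ζ
  have h4 : (univ.filter fun e : (ι → Fin p) × (ζ → Fin p) =>
        ∑ i, (e.1 i : ℕ) + 2 * ∑ j, (e.2 j : ℕ) < m) =
      (univ.filter fun e : (ι → Fin p) × (ζ → Fin p) =>
        3 * (∑ i, (e.1 i : ℕ) + 2 * ∑ j, (e.2 j : ℕ)) ≤
          (p - 1) * (Fintype.card ι + 2 * Fintype.card ζ)) := by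
    ext e
    simp only [Finset.mem_filter, Finset.mem_univ, true_and]
    omega
  rw [h4] at hd
  have h5 : (Fintype.card (Bil p ι ζ c) : ℝ) = (p : ℝ) ^ (Fintype.card ι + Fintype.card ζ) := by
    have : Fintype.card (Bil p ι ζ c) = p ^ (Fintype.card ι + Fintype.card ζ) := by
      rw [Fintype.card_congr Bil.equivProd, Fintype.card_prod, Fintype.card_fun, Fintype.card_fun,
        ZMod.card, pow_add]
    rw [this]
    push_cast
    rfl
  have h6 : (Fintype.card (Bil p ι ζ c) : ℝ) ≤ Module.finrank (ZMod p) J +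
      ((univ.filter fun e : (ι → Fin p) × (ζ → Fin p) =>
        3 * (∑ i, (e.1 i : ℕ) + 2 * ∑ j, (e.2 j : ℕ)) ≤
          (p - 1) * (Fintype.card ι + 2 * Fintype.card ζ)).card : ℝ) := by exact_mod_cast hd
  rw [h5] at h6 ⊢
  linarith

theorem ext_bound (h1 : S_ELA2) (h2 : S_ELB2) (h3 : S_EXT) {G : Type} [Group G] [Fintype G]
    {p : ℕ} [Fact p.Prime] {P : Type} [Group P] [Fintype P] {Z : Subgroup P} {v z : ℕ}
    (hP : Ext p P Z v z) (φ : P →* G) (hφ : Function.Injective φ)
    {I : Type} [Fintype I] {A B C : I → Finset G} (h : STPP A B C) :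
    ∑ i, (((A i).card * (B i).card * (C i).card : ℕ) : ℝ) ^ ((2 : ℝ) / 3) ≤
      Real.exp (-(v : ℝ) / 18) * Fintype.card G := by
  classical
  refine pow_bound (blo piv) G P φ hφ _ (Real.exp_pos _) ?_ I A B C h
  intro N _
  obtain ⟨c, ⟨e⟩⟩ := h3 p (Fin 3 × Fin N → P) _ _ _ (hP.pi (Fin 3 × Fin N))
  have h4 := (good_bil h1 h2 p (Fin (Fintype.card (Fin 3 × Fin N) * v))
    (Fin (Fintype.card (Fin 3 × Fin N) * z)) c).congr e.symm
  have h5 : Real.exp (-(Fintype.card (Fin (Fintype.card (Fin 3 × Fin N) * v)) : ℝ) / 18) =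
      Real.exp (-(v : ℝ) / 18) ^ (3 * N) := by
    rw [← Real.exp_nat_mul]
    congr 1
    simp only [Fintype.card_prod, Fintype.card_fin]
    push_cast
    ring
  rw [h5] at h4
  convert h4

/-- Elementary abelian sections. -/
theorem section_bound (h1 : S_ELA2) (h2 : S_ELB2) (h3 : S_EXT) (h4 : S_LRG) (h5 : S_SEC)
    {G : Type} [Group G] [Finite G] (H : Subgroup G) (K : Subgroup H) (hK : K.Normal) {p r : ℕ}
    (hp : p.Prime) (hcomm : ∀ x y : H, x * y * x⁻¹ * y⁻¹ ∈ K) (hpow : ∀ x : H, x ^ p ∈ K)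
    (hr : p ^ r ≤ K.index) {I : Type} [Fintype I] {A B C : I → Finset G} (h : STPP A B C) :
    (∑ i, (((A i).card * (B i).card * (C i).card : ℕ) : ℝ) ^ ((2 : ℝ) / 3)) *
      Real.exp ((r : ℝ) / 360) ≤ Nat.card G := by
  classical
  have : Fact p.Prime := ⟨hp⟩
  have hfin : Fintype G := Fintype.ofFinite G
  obtain ⟨Ω, hΩ1, hΩ2, hΩ3⟩ := h5 H p r K hK hcomm hpow hr
  obtain ⟨P, Z, v, z, hE, hvz⟩ := h4 p Ω hΩ1 hΩ2 r hΩ3
  have hfin' : Fintype P := Fintype.ofFinite P
  let φ : P →* G := H.subtype.comp (Ω.subtype.comp P.subtype)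
  have hφ : Function.Injective φ :=
    H.subtype_injective.comp (Ω.subtype_injective.comp P.subtype_injective)
  have key : ∑ i, (((A i).card * (B i).card * (C i).card : ℕ) : ℝ) ^ ((2 : ℝ) / 3) ≤
      Real.exp (-(r : ℝ) / 360) * Fintype.card G := by
    rcases hvz with h6 | h6
    · refine (ext_bound h1 h2 h3 hE φ hφ h).trans ?_
      refine mul_le_mul_of_nonneg_right (Real.exp_le_exp.2 ?_) (Nat.cast_nonneg _)
      have h7 : (r : ℝ) ≤ 20 * v := by exact_mod_cast h6
      linarith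
    · let hZ : CommGroup Z := { (inferInstance : Group Z) with
        mul_comm := fun a b => Subtype.ext (hE.central a a.2 b) }
      obtain ⟨ψ, hψ⟩ := exists_hom hp Z (fun x => Subtype.ext (hE.zpow x x.2)) hE.cardZ
      have h7 := elem_bound (φ.comp (Z.subtype.comp ψ))
        (hφ.comp (Z.subtype_injective.comp hψ)) h
      rw [Fintype.card_fin] at h7
      refine h7.trans ?_
      refine mul_le_mul_of_nonneg_right (Real.exp_le_exp.2 ?_) (Nat.cast_nonneg _)
      have h8 : (r : ℝ) ≤ 20 * z := by exact_mod_cast h6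
      linarith
  rw [Nat.card_eq_fintype_card]
  calc _ ≤ (Real.exp (-(r : ℝ) / 360) * Fintype.card G) * Real.exp ((r : ℝ) / 360) :=
        mul_le_mul_of_nonneg_right key (Real.exp_pos _).le
    _ = (Real.exp (-(r : ℝ) / 360) * Real.exp ((r : ℝ) / 360)) * Fintype.card G := by ring
    _ = Fintype.card G := by
        rw [← Real.exp_add]
        have : -(r : ℝ) / 360 + (r : ℝ) / 360 = 0 := by ring
        rw [this, Real.exp_zero, one_mul]

end Pool.Agent.N726.BG
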