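import Mathlib
import Pool.Agent.N726.BG.Main

/-!
# Quantitative consequences, symmetric and alternating groups
-/

namespace Pool.Agent.N726.BG

open Finset

/-- power means -/
theorem pwr2 (n k X : ℕ) (d : Fin n → ℕ) (I : Type) [Fintype I] (m : I → ℕ) (Y ω : ℝ)
    (hX : ∑ j, d j * d j = X) (hk : (Finset.univ.filter fun j => d j ≠ 0).card ≤ k)
    (hω : 2 ≤ ω) (hY : 0 < Y) (hm : (∑ i, (m i : ℝ) ^ ((2 : ℝ) / 3)) * Y ≤ X) :
    (∑ i, (m i : ℝ) ^ (ω / 3)) * Y ^ (ω / 2) ≤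
      (k : ℝ) ^ (ω / 2 - 1) * ∑ j, (d j : ℝ) ^ ω := by
  set q : ℝ := ω / 2 with hq
  have hq1 : 1 ≤ q := by rw [hq]; linarith
  set T := ∑ i, (m i : ℝ) ^ ((2 : ℝ) / 3) with hT
  have hT0 : 0 ≤ T := Finset.sum_nonneg fun i _ => Real.rpow_nonneg (Nat.cast_nonneg _) _
  have s1 : ∑ i, (m i : ℝ) ^ (ω / 3) ≤ T ^ q := by
    have h := Pwr.sum_rpow_le (fun i => (m i : ℝ) ^ ((2 : ℝ) / 3))
      (fun i => Real.rpow_nonneg (Nat.cast_nonneg _) _) hq1
    refine le_trans (le_of_eq ?_) h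
    refine Finset.sum_congr rfl fun i _ => ?_
    rw [← Real.rpow_mul (Nat.cast_nonneg _)]
    congr 1
    rw [hq]
    ring
  set S := Finset.univ.filter fun j => d j ≠ 0 with hS
  have e1 : (X : ℝ) = ∑ j ∈ S, (d j : ℝ) ^ (2 : ℝ) := by
    rw [← hX]
    push_cast
    rw [hS, Finset.sum_filter]
    refine Finset.sum_congr rfl fun j _ => ?_
    by_cases h : d j = 0
    · simp [h]
    · rw [if_pos h, Real.rpow_two, sq]
  have s2 : (X : ℝ) ^ q ≤ (k : ℝ) ^ (q - 1) * ∑ j, (d j : ℝ) ^ ω := by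
    have h := Real.rpow_sum_le_const_mul_sum_rpow_of_nonneg S (f := fun j => (d j : ℝ) ^ (2 : ℝ))
      (p := q) hq1 (fun j _ => Real.rpow_nonneg (Nat.cast_nonneg _) _)
    rw [e1]
    refine h.trans ?_
    refine mul_le_mul ?_ ?_ (Finset.sum_nonneg fun j _ => Real.rpow_nonneg
      (Real.rpow_nonneg (Nat.cast_nonneg _) _) _) (Real.rpow_nonneg (Nat.cast_nonneg _) _)
    · exact Real.rpow_le_rpow (Nat.cast_nonneg _) (by exact_mod_cast hk) (by linarith)
    · have e2 : ∀ j, ((d j : ℝ) ^ (2 : ℝ)) ^ q = (d j : ℝ) ^ ω := by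
        intro j
        rw [← Real.rpow_mul (Nat.cast_nonneg _)]
        congr 1
        rw [hq]
        ring
      simp only [e2]
      exact Finset.sum_le_sum_of_subset_of_nonneg (Finset.subset_univ _)
        fun j _ _ => Real.rpow_nonneg (Nat.cast_nonneg _) _
  have hYq : 0 < Y ^ q := Real.rpow_pos_of_pos hY _
  calc (∑ i, (m i : ℝ) ^ (ω / 3)) * Y ^ q ≤ T ^ q * Y ^ q :=
        mul_le_mul_of_nonneg_right s1 hYq.le
    _ = (T * Y) ^ q := by rw [← Real.mul_rpow hT0 hY.le]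
    _ ≤ (X : ℝ) ^ q := Real.rpow_le_rpow (mul_nonneg hT0 hY.le) hm (by linarith)
    _ ≤ _ := s2

theorem classes_bound2 {G : Type} [Group G] [Finite G] {Y : ℝ} (hY : 0 < Y)
    {I : Type} [Fintype I] {A B C : I → Finset G}
    (hS : (∑ i, (((A i).card * (B i).card * (C i).card : ℕ) : ℝ) ^ ((2 : ℝ) / 3)) * Y ≤
      Nat.card G) {n : ℕ} {d : Fin n → ℕ}
    (hd : Nonempty (MonoidAlgebra ℂ G ≃ₐ[ℂ] ∀ j, Matrix (Fin (d j)) (Fin (d j)) ℂ))
    {ω : ℝ} (hω : 2 ≤ ω) :
    (∑ i, (((A i).card * (B i).card * (C i).card : ℕ) : ℝ) ^ (ω / 3)) * Y ^ (ω / 2) ≤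
      (Nat.card (ConjClasses G) : ℝ) ^ (ω / 2 - 1) * ∑ j, (d j : ℝ) ^ ω :=
  pwr2 n (Nat.card (ConjClasses G)) (Nat.card G) d I _ Y ω (card_eq_sum hd)
    (chr G n d hd) hω hY hS

/-- Groups with an elementary abelian subgroup of rank `r` and at most `exp (C r)` classes. -/
theorem group_bound {G : Type} [Group G] [Finite G] {p : ℕ} [Fact p.Prime] {κ : Type} [Fintype κ]
    (φ : Multiplicative (κ → ZMod p) →* G) (hφ : Function.Injective φ) {c : ℝ}
    (hc : (Nat.card (ConjClasses G) : ℝ) ≤ Real.exp c)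
    {I : Type} [Fintype I] {A B C : I → Finset G} (h : STPP A B C) {n : ℕ} {d : Fin n → ℕ}
    (hd : Nonempty (MonoidAlgebra ℂ G ≃ₐ[ℂ] ∀ j, Matrix (Fin (d j)) (Fin (d j)) ℂ))
    {ω : ℝ} (hω : 2 ≤ ω) :
    (∑ i, (((A i).card * (B i).card * (C i).card : ℕ) : ℝ) ^ (ω / 3)) *
      Real.exp ((Fintype.card κ : ℝ) * ω / 36 - c * (ω / 2 - 1)) ≤ ∑ j, (d j : ℝ) ^ ω := by
  classical
  have hfin : Fintype G := Fintype.ofFinite G
  set r : ℝ := (Fintype.card κ : ℝ) with hr
  have h1 := elem_bound φ hφ h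
  rw [← hr] at h1
  have h2 : (∑ i, (((A i).card * (B i).card * (C i).card : ℕ) : ℝ) ^ ((2 : ℝ) / 3)) *
      Real.exp (r / 18) ≤ Nat.card G := by
    rw [Nat.card_eq_fintype_card]
    calc _ ≤ (Real.exp (-r / 18) * Fintype.card G) * Real.exp (r / 18) :=
          mul_le_mul_of_nonneg_right h1 (Real.exp_pos _).le
      _ = (Real.exp (-r / 18) * Real.exp (r / 18)) * Fintype.card G := by ring
      _ = Fintype.card G := by
          rw [← Real.exp_add]
          have : -r / 18 + r / 18 = 0 := by ring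
          rw [this, Real.exp_zero, one_mul]
  have h3 := classes_bound2 (Real.exp_pos _) h2 hd hω
  set M := ∑ i, (((A i).card * (B i).card * (C i).card : ℕ) : ℝ) ^ (ω / 3) with hM
  set Dω := ∑ j, (d j : ℝ) ^ ω with hD
  have hD0 : 0 ≤ Dω := Finset.sum_nonneg fun j _ => Real.rpow_nonneg (Nat.cast_nonneg _) _
  have e1 : Real.exp (r / 18) ^ (ω / 2) = Real.exp (r * ω / 36) := by
    rw [← Real.exp_mul]
    congr 1
    ring
  have e2 : (Nat.card (ConjClasses G) : ℝ) ^ (ω / 2 - 1) ≤ Real.exp (c * (ω / 2 - 1)) := by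
    rw [Real.exp_mul]
    exact Real.rpow_le_rpow (Nat.cast_nonneg _) hc (by linarith)
  rw [e1] at h3
  have h4 : M * Real.exp (r * ω / 36) ≤ Real.exp (c * (ω / 2 - 1)) * Dω :=
    h3.trans (mul_le_mul_of_nonneg_right e2 hD0)
  rw [Real.exp_sub]
  rw [mul_div_assoc', div_le_iff₀ (Real.exp_pos _)]
  linarith [h4, mul_comm (Real.exp (c * (ω / 2 - 1))) Dω]

/-- few conjugacy classes -/
theorem few_classes {c : ℝ} (hc : 0 < c) : ∃ n₀ : ℕ, ∀ n ≥ n₀, ∀ K : Subgroup (Equiv.Perm (Fin n)),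
    alternatingGroup (Fin n) ≤ K → (Nat.card (ConjClasses K) : ℝ) ≤ Real.exp (c * n) := by
  obtain ⟨n₁, h1⟩ := part (c / 2) (by positivity)
  obtain ⟨n₂, h2⟩ := exists_nat_ge (2 / c)
  refine ⟨max n₁ (max n₂ 2), fun n hn K hK => ?_⟩
  have hn1 : n₁ ≤ n := le_trans (le_max_left _ _) hn
  have hn2 : n₂ ≤ n := le_trans (le_trans (le_max_left _ _) (le_max_right _ _)) hn
  have hn3 : 2 ≤ n := le_trans (le_trans (le_max_right _ _) (le_max_right _ _)) hn
  have h3 := h1 n hn1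
  have h4 := alt (Equiv.Perm (Fin n)) K
  have hidx : K.index ≤ 2 := by
    have h4 : K.index ∣ (alternatingGroup (Fin n)).index := Subgroup.index_dvd_of_le hK
    have h5 : (alternatingGroup (Fin n)).index ≤ 2 := by
      haveI : Nontrivial (Fin n) := Fin.nontrivial_iff_two_le.2 hn3
      exact (alternatingGroup.index_eq_two (α := Fin n)).le
    have h6 : 0 < (alternatingGroup (Fin n)).index :=
      Nat.pos_of_ne_zero Subgroup.index_ne_zero_of_finite
    exact (Nat.le_of_dvd h6 h4).trans h5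
  have h5 : (Nat.card (ConjClasses K) : ℝ) ≤
      2 * (Nat.card (ConjClasses (Equiv.Perm (Fin n))) : ℝ) := by
    exact_mod_cast h4.trans (Nat.mul_le_mul_right _ hidx)
  have h6 : (2 : ℝ) ≤ Real.exp 1 := by
    have := Real.add_one_le_exp (1 : ℝ)
    linarith
  have h7 : 1 ≤ c / 2 * n := by
    have h8 : 2 / c ≤ n := h2.trans (by exact_mod_cast hn2)
    rw [div_le_iff₀ hc] at h8
    linarith
  calc (Nat.card (ConjClasses K) : ℝ)
      ≤ 2 * (Nat.card (ConjClasses (Equiv.Perm (Fin n))) : ℝ) := h5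
    _ ≤ Real.exp 1 * Real.exp (c / 2 * n) :=
        mul_le_mul h6 h3 (Nat.cast_nonneg _) (Real.exp_pos _).le
    _ = Real.exp (1 + c / 2 * n) := by rw [← Real.exp_add]
    _ ≤ _ := by
        apply Real.exp_le_exp.2
        linarith

/-- the homomorphism of a product of elementary abelian groups -/
theorem exists_hom_pi (p : ℕ) (ι : Type) (κ : ι → Type) (G : ι → Type) [∀ i, Group (G i)]
    (φ : ∀ i, Multiplicative (κ i → ZMod p) →* G i) (hφ : ∀ i, Function.Injective (φ i)) :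
    ∃ Φ : Multiplicative ((Σ i, κ i) → ZMod p) →* (∀ i, G i), Function.Injective Φ := by
  refine ⟨{ toFun := fun f i => φ i (Multiplicative.ofAdd fun j => Multiplicative.toAdd f ⟨i, j⟩)
            map_one' := ?_
            map_mul' := ?_ }, ?_⟩
  · funext i
    exact map_one (φ i)
  · intro f g
    funext i
    exact map_mul (φ i) (Multiplicative.ofAdd fun j => Multiplicative.toAdd f ⟨i, j⟩)
      (Multiplicative.ofAdd fun j => Multiplicative.toAdd g ⟨i, j⟩)
  · intro f g hfg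
    apply Multiplicative.toAdd.injective
    funext q
    obtain ⟨i, j⟩ := q
    have h1 := hφ i (congrFun hfg i)
    exact congrFun (Multiplicative.ofAdd.injective h1) j

/-- the rank of the elementary abelian subgroup used -/
def rk (n : ℕ) : ℕ := n / 2 - 1

theorem exists_emb (n : ℕ) (K : Subgroup (Equiv.Perm (Fin n))) (hK : alternatingGroup (Fin n) ≤ K) :
    ∃ φ : Multiplicative (Fin (rk n) → ZMod 2) →* K, Function.Injective φ := by
  obtain ⟨φ, hφ⟩ := (emb n).2
  exact ⟨(Subgroup.inclusion hK).comp φ, (Subgroup.inclusion_injective hK).comp hφ⟩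

/-- constants for all degrees at least five -/
theorem all_classes : ∃ c : ℝ, 0 < c ∧ ∀ n ≥ 5, ∀ K : Subgroup (Equiv.Perm (Fin n)),
    alternatingGroup (Fin n) ≤ K → (Nat.card (ConjClasses K) : ℝ) ≤ Real.exp (c * rk n) := by
  obtain ⟨n₀, h0⟩ := few_classes one_pos
  refine ⟨max 5 (n₀.factorial : ℝ), by positivity, fun n hn K hK => ?_⟩
  have hrk : n ≤ 5 * rk n := by
    simp only [rk]
    omega
  have hrk1 : 1 ≤ rk n := by omega
  rcases le_or_gt n₀ n with h | h
  · refine (h0 n h K hK).trans (Real.exp_le_exp.2 ?_)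
    rw [one_mul]
    calc (n : ℝ) ≤ 5 * rk n := by exact_mod_cast hrk
      _ ≤ _ := mul_le_mul_of_nonneg_right (le_max_left _ _) (Nat.cast_nonneg _)
  · have h1 : Nat.card (ConjClasses K) ≤ n₀.factorial := by
      calc Nat.card (ConjClasses K) ≤ Nat.card K :=
            Nat.card_le_card_of_surjective _ ConjClasses.mk_surjective
        _ ≤ Nat.card (Equiv.Perm (Fin n)) := Subgroup.card_le_card_group K
        _ = n.factorial := by rw [Nat.card_eq_fintype_card, Fintype.card_perm, Fintype.card_fin]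
        _ ≤ n₀.factorial := Nat.factorial_le h.le
    calc (Nat.card (ConjClasses K) : ℝ) ≤ (n₀.factorial : ℝ) := by exact_mod_cast h1
      _ ≤ (n₀.factorial : ℝ) + 1 := by linarith
      _ ≤ Real.exp (n₀.factorial : ℝ) := Real.add_one_le_exp _
      _ ≤ _ := by
          apply Real.exp_le_exp.2
          calc (n₀.factorial : ℝ) ≤ max 5 (n₀.factorial : ℝ) * 1 := by
                rw [mul_one]; exact le_max_right _ _
            _ ≤ _ := by
              refine mul_le_mul_of_nonneg_left ?_ (by positivity)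
              exact_mod_cast hrk1

end Pool.Agent.N726.BG
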