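import Mathlib
import Pool.Agent.N726.BG.Sect
import Pool.Agent.N726.BG.Strong
import Pool.Agent.N726.BG.Ela2
import Pool.Agent.N726.BG.Elb2
import Pool.Agent.N726.BG.Ext
import Pool.Agent.N726.BG.Lrg
import Pool.Agent.N726.BG.Sec

/-!
# Elementary abelian sections, final form
-/

namespace Pool.Agent.N726.BG

open Finset

theorem section_bound_two {G : Type} [Group G] [Finite G] (H : Subgroup G) (K : Subgroup H)
    (hK : K.Normal) {p r : ℕ} (hp : p.Prime) (hcomm : ∀ x y : H, x * y * x⁻¹ * y⁻¹ ∈ K)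
    (hpow : ∀ x : H, x ^ p ∈ K) (hr : p ^ r ≤ K.index) {I : Type} [Fintype I]
    {A B C : I → Finset G} (h : STPP A B C) :
    (∑ i, (((A i).card * (B i).card * (C i).card : ℕ) : ℝ) ^ ((2 : ℝ) / 3)) *
      Real.exp ((r : ℝ) / 360) ≤ Nat.card G :=
  section_bound ela2 elb2 ext_bil lrg sec H K hK hp hcomm hpow hr h

theorem section_classes {G : Type} [Group G] [Finite G] (H : Subgroup G) (K : Subgroup H)
    (hK : K.Normal) {p r : ℕ} (hp : p.Prime) (hcomm : ∀ x y : H, x * y * x⁻¹ * y⁻¹ ∈ K)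
    (hpow : ∀ x : H, x ^ p ∈ K) (hr : p ^ r ≤ K.index) {I : Type} [Fintype I]
    {A B C : I → Finset G} (h : STPP A B C) {n : ℕ} {d : Fin n → ℕ}
    (hd : Nonempty (MonoidAlgebra ℂ G ≃ₐ[ℂ] ∀ j, Matrix (Fin (d j)) (Fin (d j)) ℂ))
    {ω : ℝ} (hω : 2 ≤ ω) :
    (∑ i, (((A i).card * (B i).card * (C i).card : ℕ) : ℝ) ^ (ω / 3)) *
      Real.exp ((r : ℝ) * ω / 720) ≤
        (Nat.card (ConjClasses G) : ℝ) ^ (ω / 2 - 1) * ∑ j, (d j : ℝ) ^ ω := by
  have h1 := classes_bound2 (Real.exp_pos _) (section_bound_two H K hK hp hcomm hpow hr h) hd hω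
  have e1 : Real.exp ((r : ℝ) / 360) ^ (ω / 2) = Real.exp ((r : ℝ) * ω / 720) := by
    rw [← Real.exp_mul]
    congr 1
    ring
  rwa [e1] at h1

end Pool.Agent.N726.BG
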