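import Mathlib
import Pool.Agent.N726.BG.Fin2
import Pool.Agent.N580.Power

/-!
# Combinatorial degenerations

The bounds for families with the simultaneous triple product property hold for monomial
degenerations of the structure tensor of the group to direct sums of matrix multiplication tensors.
-/

namespace Pool.Agent.N726.BG

open Finset

/-- With the integral weights `u, v, w` the solutions of `x y z = 1` in the products
`a⁻¹ b, b⁻¹ c, c⁻¹ a` have weight zero if they are the obvious ones, and positive weight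
otherwise. -/
structure DSTPP {G : Type*} [Group G] {I : Type*} (A B C : I → Finset G) (u v w : G → ℤ) :
    Prop where
  zero : ∀ i, ∀ a ∈ A i, ∀ b ∈ B i, ∀ c ∈ C i, u (a⁻¹ * b) + v (b⁻¹ * c) + w (c⁻¹ * a) = 0
  pos : ∀ i j k, ∀ a ∈ A i, ∀ a' ∈ A j, ∀ b ∈ B j, ∀ b' ∈ B k, ∀ c ∈ C k, ∀ c' ∈ C i,
    a * a'⁻¹ * (b * b'⁻¹) * (c * c'⁻¹) = 1 → ¬ (i = j ∧ j = k ∧ a = a' ∧ b = b' ∧ c = c') →
    0 < u (a'⁻¹ * b) + v (b'⁻¹ * c) + w (c'⁻¹ * a)

theorem STPP.degenerate {G : Type*} [Group G] {I : Type*} {A B C : I → Finset G}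
    (h : STPP A B C) : DSTPP A B C 0 0 0 where
  zero := fun i a _ b _ c _ => by simp
  pos := fun i j k a ha a' ha' b hb b' hb' c hc c' hc' he hn =>
    absurd (h i j k a ha a' ha' b hb b' hb' c hc c' hc' he) hn

theorem DSTPP.rotate {G : Type*} [Group G] {I : Type*} {A B C : I → Finset G} {u v w : G → ℤ}
    (h : DSTPP A B C u v w) : DSTPP B C A v w u where
  zero := fun i b hb c hc a ha => by
    have := h.zero i a ha b hb c hc
    linarith
  pos := fun i j k b hb b' hb' c hc c' hc' a ha a' ha' he hn => by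
    have h1 : a * a'⁻¹ * (b * b'⁻¹) * (c * c'⁻¹) = 1 := by
      have h2 : a * a'⁻¹ * (b * b'⁻¹) * (c * c'⁻¹) =
          (a * a'⁻¹) * (b * b'⁻¹ * (c * c'⁻¹) * (a * a'⁻¹)) * (a * a'⁻¹)⁻¹ := by group
      rw [h2, he]
      group
    have h3 := h.pos k i j a ha a' ha' b hb b' hb' c hc c' hc' h1 (by
      rintro ⟨e1, e2, e3, e4, e5⟩
      exact hn ⟨e2, (e1.trans e2).symm, e4, e5, e3⟩)
    linarith

namespace Deg

open Blo (fq fq_mul kx ky kz k_zero k_neg LL lab lab_lt lab_inj pigeon)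

/-- the three weights, cyclically -/
def wt {G : Type*} (u v w : G → ℤ) (r : Fin 3) : G → ℤ :=
  if r = 0 then u else if r = 1 then v else w

theorem fam_dstpp {G : Type*} [Group G] {I : Type*} {A B C : I → Finset G} {u v w : G → ℤ}
    (h : DSTPP A B C u v w) (r : Fin 3) :
    DSTPP (N580.fam A B C r) (N580.fam A B C (r + 1)) (N580.fam A B C (r + 2))
      (wt u v w r) (wt u v w (r + 1)) (wt u v w (r + 2)) := by
  fin_cases r
  · exact h
  · exact h.rotate
  · exact h.rotate.rotate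

section blocks

variable {G : Type} [Group G] {ι : Type} {m : ℕ}

/-- the hypothesis for blocks of equal size -/
structure HypD (a b c : ι → Fin m → G) (u v w : G → ℤ) : Prop where
  zero : ∀ i α β γ, u (fq a b (i, α, β)) + v (fq b c (i, β, γ)) + w (fq c a (i, γ, α)) = 0
  pos : ∀ i j k α α' β β' γ γ',
    a i α * (a j α')⁻¹ * (b j β * (b k β')⁻¹) * (c k γ * (c i γ')⁻¹) = 1 →
    ¬ (i = j ∧ j = k ∧ α = α' ∧ β = β' ∧ γ = γ') →
    0 < u (fq a b (j, α', β)) + v (fq b c (k, β', γ)) + w (fq c a (i, γ', α))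

variable {a b c : ι → Fin m → G} {u v w : G → ℤ}

lemma keyD (h : HypD a b c u v w) {i j k : ι} {α α' β β' γ γ' : Fin m}
    (h1 : fq a b (i, α, β) * fq b c (j, β', γ) * fq c a (k, γ', α') = 1) :
    (j = i ∧ k = i ∧ α' = α ∧ β' = β ∧ γ' = γ) ∨
    0 < u (fq a b (i, α, β)) + v (fq b c (j, β', γ)) + w (fq c a (k, γ', α')) := by
  have h2 : a k α' * (a i α)⁻¹ * (b i β * (b j β')⁻¹) * (c j γ * (c k γ')⁻¹) = 1 := by
    have h3 : a k α' * (a i α)⁻¹ * (b i β * (b j β')⁻¹) * (c j γ * (c k γ')⁻¹) =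
        a k α' * (fq a b (i, α, β) * fq b c (j, β', γ) * fq c a (k, γ', α')) * (a k α')⁻¹ := by
      unfold fq
      group
    rw [h3, h1]
    group
  by_cases hc : k = i ∧ i = j ∧ α' = α ∧ β = β' ∧ γ = γ'
  · exact Or.inl ⟨hc.2.1.symm, hc.1, hc.2.2.1, hc.2.2.2.1.symm, hc.2.2.2.2.symm⟩
  · exact Or.inr (h.pos k i j α' α β β' γ γ' h2 hc)

lemma injD_x (h : HypD a b c u v w) (hm : 1 ≤ m) : Function.Injective (fq a b) := by
  rintro ⟨i, α, β⟩ ⟨i', α', β'⟩ he
  have h1 : fq a b (i, α, β) * fq b c (i', β', ⟨0, hm⟩) * fq c a (i', ⟨0, hm⟩, α') = 1 := by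
    rw [he]
    exact fq_mul a b c i' α' β' _
  rcases keyD h h1 with ⟨e1, e2, e3, e4, e5⟩ | h2
  · rw [e1, e3, e4]
  · rw [he, h.zero] at h2
    exact absurd h2 (lt_irrefl _)

lemma injD_y (h : HypD a b c u v w) (hm : 1 ≤ m) : Function.Injective (fq b c) := by
  rintro ⟨i, β, γ⟩ ⟨i', β', γ'⟩ he
  have h1 : fq a b (i', ⟨0, hm⟩, β') * fq b c (i, β, γ) * fq c a (i', γ', ⟨0, hm⟩) = 1 := by
    rw [he]
    exact fq_mul a b c i' _ β' γ'
  rcases keyD h h1 with ⟨e1, e2, e3, e4, e5⟩ | h2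
  · rw [e1, e4, e5]
  · rw [he, h.zero] at h2
    exact absurd h2 (lt_irrefl _)

lemma injD_z (h : HypD a b c u v w) (hm : 1 ≤ m) : Function.Injective (fq c a) := by
  rintro ⟨i, γ, α⟩ ⟨i', γ', α'⟩ he
  have h1 : fq a b (i', α', ⟨0, hm⟩) * fq b c (i', ⟨0, hm⟩, γ') * fq c a (i, γ, α) = 1 := by
    rw [he]
    exact fq_mul a b c i' α' _ γ'
  rcases keyD h h1 with ⟨e1, e2, e3, e4, e5⟩ | h2
  · rw [e2, e3, e5]
  · rw [he, h.zero] at h2
    exact absurd h2 (lt_irrefl _)

lemma kx_mod [Fintype ι] (s : ℕ) (q : ι × Fin m × Fin m) :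
    (LL ι m : ℤ) ∣ kx s q - lab q := by
  refine ⟨-(((q.2.1 : ℕ) : ℤ) ^ 2 + 2 * ((q.2.1 : ℕ) : ℤ) * ((q.2.2 : ℕ) : ℤ) -
    2 * s * ((q.2.1 : ℕ) : ℤ) + (s : ℤ) ^ 2), ?_⟩
  unfold kx
  ring

end blocks

theorem blod (h : S_PIV) (G H F : Type) [Group G] [Fintype G] [Group H] [Fintype H]
    [Field F] (φ : H →* G) (hφ : Function.Injective φ)
    (J : Submodule F (H → F)) (hJ : Iso J) (ι : Type) [Fintype ι] (m : ℕ)
    (a b c : ι → Fin m → G) (u v w : G → ℤ) (hH : HypD a b c u v w) :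
    Fintype.card ι * m ^ 2 * Fintype.card H ≤
      9 * Fintype.card G * (Fintype.card H - Module.finrank F J) := by
  classical
  rcases Nat.eq_zero_or_pos m with hm | hm
  · subst hm
    simp
  have hx := injD_x hH hm
  have hy := injD_y hH hm
  have hz := injD_z hH hm
  obtain ⟨s, hs⟩ := pigeon m hm
  let X : Finset G := univ.image (fq a b)
  let Y : Finset G := univ.image (fq b c)
  let Z : Finset G := univ.image (fq c a)
  let R : ℤ := 1 + ∑ q : ι × Fin m × Fin m, (|kx s q| + |ky s q| + |kz s q|)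
  have hsum0 : ∀ q : ι × Fin m × Fin m, |kx s q| + |ky s q| + |kz s q| ≤
      ∑ q : ι × Fin m × Fin m, (|kx s q| + |ky s q| + |kz s q|) := fun q =>
    Finset.single_le_sum (f := fun q : ι × Fin m × Fin m => |kx s q| + |ky s q| + |kz s q|)
      (fun q _ => by positivity) (Finset.mem_univ q)
  have hR1 : 1 ≤ R := by
    have : 0 ≤ ∑ q : ι × Fin m × Fin m, (|kx s q| + |ky s q| + |kz s q|) :=
      Finset.sum_nonneg fun q _ => by positivity
    simp only [R]
    linarith
  have hbx : ∀ q : ι × Fin m × Fin m, kx s q < R := by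
    intro q
    have h1 := hsum0 q
    have h2 := le_abs_self (kx s q)
    have h3 := abs_nonneg (ky s q)
    have h4 := abs_nonneg (kz s q)
    simp only [R]
    linarith
  have hby : ∀ q : ι × Fin m × Fin m, ky s q < R := by
    intro q
    have h1 := hsum0 q
    have h2 := le_abs_self (ky s q)
    have h3 := abs_nonneg (kx s q)
    have h4 := abs_nonneg (kz s q)
    simp only [R]
    linarith
  have hbz : ∀ q : ι × Fin m × Fin m, kz s q < R := by
    intro q
    have h1 := hsum0 q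
    have h2 := le_abs_self (kz s q)
    have h3 := abs_nonneg (kx s q)
    have h4 := abs_nonneg (ky s q)
    simp only [R]
    linarith
  let Kx : G → ℤ := fun g => -(3 * LL ι m * R) * u g + Function.extend (fq a b) (kx s) 0 g
  let Ky : G → ℤ := fun g => -(3 * LL ι m * R) * v g + Function.extend (fq b c) (ky s) 0 g
  let Kz : G → ℤ := fun g => -(3 * LL ι m * R) * w g + Function.extend (fq c a) (kz s) 0 g
  have eKx : ∀ q, Kx (fq a b q) = -(3 * LL ι m * R) * u (fq a b q) + kx s q := fun q => by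
    simp only [Kx]
    rw [hx.extend_apply]
  have eKy : ∀ q, Ky (fq b c q) = -(3 * LL ι m * R) * v (fq b c q) + ky s q := fun q => by
    simp only [Ky]
    rw [hy.extend_apply]
  have eKz : ∀ q, Kz (fq c a q) = -(3 * LL ι m * R) * w (fq c a q) + kz s q := fun q => by
    simp only [Kz]
    rw [hz.extend_apply]
  have hLL : ∀ _ : ι × Fin m × Fin m, (1 : ℤ) ≤ LL ι m := by
    intro q
    have := lab_lt q
    have h2 : 1 ≤ LL ι m := by omega
    exact_mod_cast h2
  have hneg : ∀ (q q' q'' : ι × Fin m × Fin m),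
      0 < u (fq a b q) + v (fq b c q') + w (fq c a q'') →
      Kx (fq a b q) + Ky (fq b c q') + Kz (fq c a q'') < 0 := by
    intro q q' q'' hpos
    rw [eKx, eKy, eKz]
    have h1 := hbx q
    have h2 := hby q'
    have h3 := hbz q''
    have h4 := hLL q
    have h5 : (3 * (LL ι m : ℤ) * R) * 1 ≤ (3 * LL ι m * R) *
        (u (fq a b q) + v (fq b c q') + w (fq c a q'')) :=
      mul_le_mul_of_nonneg_left hpos (by positivity)
    have h6 : 3 * R ≤ 3 * (LL ι m : ℤ) * R := by nlinarith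
    nlinarith
  have hcons : ∀ (i : ι) (α β γ : Fin m),
      Kx (fq a b (i, α, β)) + Ky (fq b c (i, β, γ)) + Kz (fq c a (i, γ, α)) =
        kx s (i, α, β) + ky s (i, β, γ) + kz s (i, γ, α) := by
    intro i α β γ
    rw [eKx, eKy, eKz]
    have h1 := hH.zero i α β γ
    linear_combination (-(3 * LL ι m * R)) * h1
  let Q : Finset (ι × Fin m × Fin m × Fin m) :=
    univ ×ˢ (univ.filter fun q : Fin m × Fin m × Fin m => (q.1 : ℕ) + q.2.1 + q.2.2 = s)
  let tq : ι × Fin m × Fin m × Fin m → G × G := fun q =>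
    (fq a b (q.1, q.2.1, q.2.2.1), fq b c (q.1, q.2.2.1, q.2.2.2))
  let T : Finset (G × G) := Q.image tq
  have hinv : ∀ (i : ι) (α β γ : Fin m),
      (fq a b (i, α, β) * fq b c (i, β, γ))⁻¹ = fq c a (i, γ, α) := fun i α β γ =>
    inv_eq_of_mul_eq_one_right (fq_mul a b c i α β γ)
  have hT : ∀ q ∈ T, ∃ (i : ι) (α β γ : Fin m), (α : ℕ) + β + γ = s ∧
      q = (fq a b (i, α, β), fq b c (i, β, γ)) := by
    intro q hq
    obtain ⟨⟨i, α, β, γ⟩, hq', rfl⟩ := mem_image.1 hq
    rw [mem_product, mem_filter] at hq'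
    exact ⟨i, α, β, γ, hq'.2.2, rfl⟩
  have hcard : T.card = Fintype.card ι *
      (univ.filter fun q : Fin m × Fin m × Fin m => (q.1 : ℕ) + q.2.1 + q.2.2 = s).card := by
    rw [card_image_of_injOn, card_product, card_univ]
    rintro ⟨i, α, β, γ⟩ hq ⟨i', α', β', γ'⟩ hq' he
    have e1 := hx (Prod.mk.inj he).1
    have e2 := hy (Prod.mk.inj he).2
    simp only [Prod.mk.injEq] at e1 e2
    rw [e1.1, e1.2.1, e1.2.2, e2.2.2]
  have main := h G H F φ hφ J hJ X Y Z Kx Ky Kz ?_ ?_ T ?_ ?_ ?_ ?_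
  · -- conclusion
    calc Fintype.card ι * m ^ 2 * Fintype.card H
        ≤ Fintype.card ι * (3 * (univ.filter fun q : Fin m × Fin m × Fin m =>
            (q.1 : ℕ) + q.2.1 + q.2.2 = s).card) * Fintype.card H :=
          Nat.mul_le_mul_right _ (Nat.mul_le_mul_left _ hs)
      _ = 3 * (T.card * Fintype.card H) := by rw [hcard]; ring
      _ ≤ 3 * (3 * Fintype.card G * (Fintype.card H - Module.finrank F J)) :=
          Nat.mul_le_mul_left _ main
      _ = 9 * Fintype.card G * (Fintype.card H - Module.finrank F J) := by ring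
  · intro x hxX y hyY z hzZ hxyz
    obtain ⟨⟨i, α, β⟩, -, rfl⟩ := mem_image.1 hxX
    obtain ⟨⟨j, β', γ⟩, -, rfl⟩ := mem_image.1 hyY
    obtain ⟨⟨k, γ', α'⟩, -, rfl⟩ := mem_image.1 hzZ
    rcases keyD hH hxyz with ⟨rfl, rfl, rfl, rfl, rfl⟩ | hpos
    · rw [hcons]
      by_cases hs' : (α' : ℕ) + β' + γ' = s
      · exact (k_zero hs').le
      · exact (k_neg hs').le
    · exact (hneg _ _ _ hpos).le
  · intro x hxX x' hxX' he
    obtain ⟨q, -, rfl⟩ := mem_image.1 (mem_coe.1 hxX)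
    obtain ⟨q', -, rfl⟩ := mem_image.1 (mem_coe.1 hxX')
    rw [eKx, eKx] at he
    have h1 := kx_mod s q
    have h2 := kx_mod s q'
    have h3 : (LL ι m : ℤ) ∣ (lab q : ℤ) - lab q' := by
      have h4 : (LL ι m : ℤ) ∣ (kx s q' - lab q') - (kx s q - lab q) +
          (LL ι m : ℤ) * (3 * R * (u (fq a b q) - u (fq a b q'))) :=
        dvd_add (dvd_sub h2 h1) (Dvd.intro _ rfl)
      have h5 : (kx s q' - lab q') - (kx s q - lab q) +
          (LL ι m : ℤ) * (3 * R * (u (fq a b q) - u (fq a b q'))) = (lab q : ℤ) - lab q' := by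
        linear_combination -he
      rwa [h5] at h4
    have h4 := lab_lt q
    have h5 := lab_lt q'
    have h6 := Int.eq_zero_of_abs_lt_dvd h3 (by rw [abs_lt]; omega)
    have h7 : q = q' := lab_inj (by omega)
    rw [h7]
  · intro q hq
    obtain ⟨i, α, β, γ, hsum, rfl⟩ := hT q hq
    refine ⟨mem_image_of_mem _ (mem_univ _), mem_image_of_mem _ (mem_univ _), ?_, ?_⟩
    · show (fq a b (i, α, β) * fq b c (i, β, γ))⁻¹ ∈ Z
      rw [hinv]
      exact mem_image_of_mem _ (mem_univ _)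
    · show Kx (fq a b (i, α, β)) + Ky (fq b c (i, β, γ)) +
        Kz (fq a b (i, α, β) * fq b c (i, β, γ))⁻¹ = 0
      rw [hinv, hcons]
      exact k_zero hsum
  · intro q hq y hyY hzZ hsum0
    obtain ⟨i, α, β, γ, hsum, rfl⟩ := hT q hq
    obtain ⟨⟨j, β', γ'⟩, -, rfl⟩ := mem_image.1 hyY
    obtain ⟨⟨k, γ'', α''⟩, -, hz'⟩ := mem_image.1 hzZ
    simp only at hz' hsum0 ⊢
    have h1 : fq a b (i, α, β) * fq b c (j, β', γ') * fq c a (k, γ'', α'') = 1 := by
      rw [hz']
      group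
    rw [← hz'] at hsum0
    rcases keyD hH h1 with ⟨rfl, rfl, rfl, rfl, rfl⟩ | hpos
    · rw [hcons] at hsum0
      by_cases hs' : (α'' : ℕ) + β' + γ'' = s
      · have : γ'' = γ := Fin.ext (by omega)
        rw [this]
      · exact absurd hsum0 (k_neg hs').ne
    · exact absurd hsum0 (hneg _ _ _ hpos).ne
  · intro q hq q' hq' he
    obtain ⟨i, α, β, γ, hsum, rfl⟩ := hT q hq
    obtain ⟨i', α', β', γ', hsum', rfl⟩ := hT q' hq'
    have e1 := hy he
    simp only [Prod.mk.injEq] at e1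
    obtain ⟨rfl, rfl, rfl⟩ := e1
    have : α = α' := Fin.ext (by omega)
    rw [this]
  · intro q hq q' hq' he
    obtain ⟨i, α, β, γ, hsum, rfl⟩ := hT q hq
    obtain ⟨i', α', β', γ', hsum', rfl⟩ := hT q' hq'
    have he' : fq a b (i, α, β) * fq b c (i, β, γ) = fq a b (i', α', β') * fq b c (i', β', γ') := he
    have he2 := congrArg (fun x => x⁻¹) he'
    simp only [hinv] at he2
    have e1 := hz he2
    simp only [Prod.mk.injEq] at e1
    obtain ⟨rfl, rfl, rfl⟩ := e1
    have : β = β' := Fin.ext (by omega)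
    rw [this]

section pow

open _root_.Pool.Agent.N726.BG.Pow (phi phi_inj growth)
open Pool.Agent.N580 (typ prod_of_typ prod_eq_of_typ fam)

variable {G H I : Type} [Group G] [Fintype G] [Group H] [Fintype H]

/-- the bound from one good space -/
theorem of_goodD (hB : S_PIV) {κ : Type} [Fintype κ] [DecidableEq κ] (φ : H →* G)
    (hφ : Function.Injective φ) (t : ℝ) (hg : Good (κ → H) t) (ι : Type) [Fintype ι] (m : ℕ)
    (a b c : ι → Fin m → (κ → G)) (u v w : (κ → G) → ℤ) (h : HypD a b c u v w) :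
    (Fintype.card ι : ℝ) * (m : ℝ) ^ 2 ≤ 9 * (Fintype.card G : ℝ) ^ Fintype.card κ * t := by
  classical
  obtain ⟨F, _, J, hJ, hd⟩ := hg
  have h1 := blod hB (κ → G) (κ → H) F (phi φ) (phi_inj φ hφ) J hJ ι m a b c u v w h
  have hle : Module.finrank F J ≤ Fintype.card (κ → H) := by
    have := Submodule.finrank_le J
    rwa [Module.finrank_fintype_fun_eq_card] at this
  have h2 : (Fintype.card ι : ℝ) * (m : ℝ) ^ 2 * (Fintype.card (κ → H) : ℝ) ≤
      9 * (Fintype.card (κ → G) : ℝ) *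
        ((Fintype.card (κ → H) : ℝ) - (Module.finrank F J : ℝ)) := by
    rw [← Nat.cast_sub hle]
    exact_mod_cast h1
  have hpos : (0 : ℝ) < Fintype.card (κ → H) := by
    exact_mod_cast Fintype.card_pos
  have h3 : (Fintype.card ι : ℝ) * (m : ℝ) ^ 2 * (Fintype.card (κ → H) : ℝ) ≤
      (9 * (Fintype.card G : ℝ) ^ Fintype.card κ * t) * (Fintype.card (κ → H) : ℝ) := by
    refine h2.trans ?_
    have e : (Fintype.card (κ → G) : ℝ) = (Fintype.card G : ℝ) ^ Fintype.card κ := by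
      rw [Fintype.card_fun]
      push_cast
      rfl
    rw [e, mul_assoc (9 * (Fintype.card G : ℝ) ^ Fintype.card κ) t]
    exact mul_le_mul_of_nonneg_left hd (by positivity)
  exact le_of_mul_le_mul_right h3 hpos

theorem class_boundD (hB : S_PIV) [DecidableEq I] [Fintype I] {A B C : I → Finset G}
    {u v w : G → ℤ} (h : DSTPP A B C u v w) (φ : H →* G) (hφ : Function.Injective φ) (N : ℕ)
    (t : ℝ) (hg : Good (Fin 3 × Fin N → H) t) (ht : 0 ≤ t)
    (τ : I → Fin (N + 1)) (w₀ : Fin N → I) (hw₀ : typ w₀ = τ) :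
    ((Finset.univ.filter fun w : Fin N → I => typ w = τ).card : ℝ) ^ 3 *
      (((∏ t, (A (w₀ t)).card) * (∏ t, (B (w₀ t)).card) * (∏ t, (C (w₀ t)).card) : ℕ) : ℝ) ^ 2 ≤
      9 * (Fintype.card G : ℝ) ^ (3 * N) * t := by
  classical
  set m := (∏ t, (A (w₀ t)).card) * (∏ t, (B (w₀ t)).card) * (∏ t, (C (w₀ t)).card) with hm
  let ι := Fin 3 → {w : Fin N → I // typ w = τ}
  have hcardι : Fintype.card ι = (Finset.univ.filter fun w : Fin N → I => typ w = τ).card ^ 3 := by
    rw [Fintype.card_fun, Fintype.card_fin, Fintype.card_subtype]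
  -- the sets
  let S : Fin 3 → ι → Finset (Fin 3 × Fin N → G) := fun u w =>
    Fintype.piFinset fun q => fam A B C (q.1 + u) ((w q.1).1 q.2)
  have hScard : ∀ u w, (S u w).card = m := by
    intro u w
    have h1 : ∀ r : Fin 3, ∏ t, (fam A B C r ((w (r - u)).1 t)).card =
        ∏ t, (fam A B C r (w₀ t)).card := by
      intro r
      exact prod_eq_of_typ (fun i => (fam A B C r i).card) ((w (r - u)).2.trans hw₀.symm)
    have h2 : (S u w).card = ∏ r : Fin 3, ∏ t, (fam A B C (r + u) ((w r).1 t)).card := by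
      rw [Fintype.card_piFinset, Fintype.prod_prod_type]
    have h3 : ∏ r : Fin 3, ∏ t, (fam A B C (r + u) ((w r).1 t)).card =
        ∏ r : Fin 3, ∏ t, (fam A B C r ((w (r - u)).1 t)).card := by
      refine Fintype.prod_equiv (Equiv.addRight u) _ _ ?_
      intro r
      simp
    rw [h2, h3, Finset.prod_congr rfl fun r _ => h1 r, Fin.prod_univ_three, hm]
    rfl
  have henum : ∀ u w, ∃ f : Fin m → (Fin 3 × Fin N → G), Function.Injective f ∧
      ∀ x, f x ∈ S u w := by
    intro u w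
    let e := (S u w).equivFinOfCardEq (hScard u w)
    exact ⟨fun x => (e.symm x : Fin 3 × Fin N → G),
      fun x y hxy => e.symm.injective (Subtype.ext hxy), fun x => (e.symm x).2⟩
  choose f hf hfS using henum
  -- the weights
  let W : Fin 3 → (Fin 3 × Fin N → G) → ℤ := fun r g => ∑ q, wt u v w (q.1 + r) (g q)
  have m0 : ∀ (r : Fin 3) (k : ι) (x : Fin m) (q : Fin 3 × Fin N),
      f r k x q ∈ fam A B C (q.1 + r) ((k q.1).1 q.2) :=
    fun r k x q => Fintype.mem_piFinset.1 (hfS r k x) q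
  have m00 : ∀ (k : ι) (x : Fin m) (q : Fin 3 × Fin N),
      f 0 k x q ∈ fam A B C q.1 ((k q.1).1 q.2) := fun k x q => by
    have := m0 0 k x q
    rwa [add_zero] at this
  have hst : HypD (f 0) (f 1) (f 2) (W 0) (W 1) (W 2) := by
    constructor
    · intro i α β γ
      simp only [W]
      rw [← Finset.sum_add_distrib, ← Finset.sum_add_distrib]
      refine Finset.sum_eq_zero fun q _ => ?_
      have := (fam_dstpp h q.1).zero _ _ (m00 i α q) _ (m0 1 i β q) _ (m0 2 i γ q)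
      rw [add_zero]
      exact this
    · intro i j k α α' β β' γ γ' he hn
      simp only [W]
      rw [← Finset.sum_add_distrib, ← Finset.sum_add_distrib]
      have hq : ∀ q : Fin 3 × Fin N, f 0 i α q * (f 0 j α' q)⁻¹ * (f 1 j β q * (f 1 k β' q)⁻¹) *
          (f 2 k γ q * (f 2 i γ' q)⁻¹) = 1 := by
        intro q
        have hq := congrFun he q
        simpa only [Pi.mul_apply, Pi.inv_apply, Pi.one_apply] using hq
      have hterm : ∀ q : Fin 3 × Fin N,
          ¬ ((i q.1).1 q.2 = (j q.1).1 q.2 ∧ (j q.1).1 q.2 = (k q.1).1 q.2 ∧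
            f 0 i α q = f 0 j α' q ∧ f 1 j β q = f 1 k β' q ∧ f 2 k γ q = f 2 i γ' q) →
          0 < wt u v w (q.1 + 0) ((fq (f 0) (f 1) (j, α', β)) q) +
            wt u v w (q.1 + 1) ((fq (f 1) (f 2) (k, β', γ)) q) +
            wt u v w (q.1 + 2) ((fq (f 2) (f 0) (i, γ', α)) q) := by
        intro q hnq
        have h1 := (fam_dstpp h q.1).pos _ _ _ _ (m00 i α q) _ (m00 j α' q) _ (m0 1 j β q)
          _ (m0 1 k β' q) _ (m0 2 k γ q) _ (m0 2 i γ' q) (hq q) hnq
        rw [add_zero]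
        exact h1
      have hnn : ∀ q : Fin 3 × Fin N,
          0 ≤ wt u v w (q.1 + 0) ((fq (f 0) (f 1) (j, α', β)) q) +
            wt u v w (q.1 + 1) ((fq (f 1) (f 2) (k, β', γ)) q) +
            wt u v w (q.1 + 2) ((fq (f 2) (f 0) (i, γ', α)) q) := by
        intro q
        by_cases hc : (i q.1).1 q.2 = (j q.1).1 q.2 ∧ (j q.1).1 q.2 = (k q.1).1 q.2 ∧
            f 0 i α q = f 0 j α' q ∧ f 1 j β q = f 1 k β' q ∧ f 2 k γ q = f 2 i γ' q
        · obtain ⟨e1, e2, e3, e4, e5⟩ := hc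
          have h1 := (fam_dstpp h q.1).zero _ _ (m00 i α q) (f 1 j β q)
            (by rw [e1]; exact m0 1 j β q) (f 2 k γ q) (by rw [e1, e2]; exact m0 2 k γ q)
          rw [add_zero]
          have h2 : (fq (f 0) (f 1) (j, α', β)) q = (f 0 i α q)⁻¹ * f 1 j β q := by
            rw [e3]
            rfl
          have h3 : (fq (f 1) (f 2) (k, β', γ)) q = (f 1 j β q)⁻¹ * f 2 k γ q := by
            rw [e4]
            rfl
          have h4 : (fq (f 2) (f 0) (i, γ', α)) q = (f 2 k γ q)⁻¹ * f 0 i α q := by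
            rw [e5]
            rfl
          rw [h2, h3, h4]
          exact h1.ge
        · exact (hterm q hc).le
      by_contra hcon
      have hzero : ∑ q : Fin 3 × Fin N, (wt u v w (q.1 + 0) ((fq (f 0) (f 1) (j, α', β)) q) +
            wt u v w (q.1 + 1) ((fq (f 1) (f 2) (k, β', γ)) q) +
            wt u v w (q.1 + 2) ((fq (f 2) (f 0) (i, γ', α)) q)) = 0 :=
        le_antisymm (not_lt.1 hcon) (Finset.sum_nonneg fun q _ => hnn q)
      have hall := (Finset.sum_eq_zero_iff_of_nonneg fun q _ => hnn q).1 hzero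
      have hcoord : ∀ q : Fin 3 × Fin N, (i q.1).1 q.2 = (j q.1).1 q.2 ∧
          (j q.1).1 q.2 = (k q.1).1 q.2 ∧ f 0 i α q = f 0 j α' q ∧ f 1 j β q = f 1 k β' q ∧
          f 2 k γ q = f 2 i γ' q := by
        intro q
        by_contra hc
        exact absurd (hall q (Finset.mem_univ q)) (hterm q hc).ne'
      apply hn
      have hij : i = j := by
        funext r
        apply Subtype.ext
        funext t
        exact (hcoord (r, t)).1
      have hjk : j = k := by
        funext r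
        apply Subtype.ext
        funext t
        exact (hcoord (r, t)).2.1
      subst hij
      subst hjk
      refine ⟨rfl, rfl, ?_, ?_, ?_⟩
      · exact hf 0 i (funext fun q => (hcoord q).2.2.1)
      · exact hf 1 i (funext fun q => (hcoord q).2.2.2.1)
      · exact hf 2 i (funext fun q => (hcoord q).2.2.2.2)
  have key := of_goodD hB φ hφ t hg ι m (f 0) (f 1) (f 2) _ _ _ hst
  rw [hcardι, Fintype.card_prod, Fintype.card_fin, Fintype.card_fin] at key
  push_cast at key ⊢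
  exact key

theorem power_ineqD (hB : S_PIV) [Fintype I] {A B C : I → Finset G} {u v w : G → ℤ}
    (h : DSTPP A B C u v w) (φ : H →* G) (hφ : Function.Injective φ) (N : ℕ) (t : ℝ)
    (hg : Good (Fin 3 × Fin N → H) t) (ht : 0 ≤ t)
    (s : I → ℝ) (hs0 : ∀ i, 0 ≤ s i)
    (hs : ∀ i, s i ^ 3 = (((A i).card : ℝ) * (B i).card * (C i).card) ^ 2) :
    (∑ i, s i) ^ (3 * N) ≤ ((N + 1 : ℕ) : ℝ) ^ (3 * Fintype.card I) *
      (9 * (Fintype.card G : ℝ) ^ (3 * N) * t) := by
  classical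
  set X : (I → Fin (N + 1)) → ℝ := fun τ =>
    ∑ w ∈ Finset.univ.filter (fun w : Fin N → I => typ w = τ), ∏ t, s (w t) with hX
  have hX0 : ∀ τ, 0 ≤ X τ := fun τ =>
    Finset.sum_nonneg fun w _ => Finset.prod_nonneg fun t _ => hs0 _
  have hsum : (∑ i, s i) ^ N = ∑ τ, X τ := by
    rw [Fintype.sum_pow, hX]
    exact (Finset.sum_fiberwise (s := (Finset.univ : Finset (Fin N → I)))
      (g := fun w => (typ w : I → Fin (N + 1))) (f := fun w => ∏ t, s (w t))).symm
  have hX3 : ∀ τ, X τ ^ 3 ≤ 9 * (Fintype.card G : ℝ) ^ (3 * N) * t := by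
    intro τ
    by_cases hτ : ∃ w₀ : Fin N → I, typ w₀ = τ
    · obtain ⟨w₀, hw₀⟩ := hτ
      have h1 : X τ = (Finset.univ.filter (fun w : Fin N → I => typ w = τ)).card *
          ∏ t, s (w₀ t) := by
        simp only [hX]
        rw [← nsmul_eq_mul, ← Finset.sum_const]
        refine Finset.sum_congr rfl fun w hw => ?_
        exact prod_eq_of_typ s ((Finset.mem_filter.1 hw).2.trans hw₀.symm)
      have h2 : (∏ t, s (w₀ t)) ^ 3 = (((∏ t, (A (w₀ t)).card) * (∏ t, (B (w₀ t)).card) *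
          (∏ t, (C (w₀ t)).card) : ℕ) : ℝ) ^ 2 := by
        rw [← Finset.prod_pow, Finset.prod_congr rfl fun t _ => hs (w₀ t)]
        rw [Finset.prod_pow, Finset.prod_mul_distrib, Finset.prod_mul_distrib]
        push_cast
        rfl
      rw [h1, mul_pow, h2]
      exact class_boundD hB h φ hφ N t hg ht τ w₀ hw₀
    · have h1 : X τ = 0 := by
        simp only [hX]
        refine Finset.sum_eq_zero fun w hw => ?_
        exact absurd ⟨w, (Finset.mem_filter.1 hw).2⟩ hτ
      rw [h1, zero_pow three_ne_zero]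
      positivity
  obtain ⟨τ₀, -, hτ₀⟩ := Finset.exists_max_image (Finset.univ : Finset (I → Fin (N + 1))) X
    ⟨fun _ => 0, Finset.mem_univ _⟩
  have h4 : (∑ i, s i) ^ N ≤ ((N + 1 : ℕ) : ℝ) ^ Fintype.card I * X τ₀ := by
    rw [hsum]
    calc ∑ τ, X τ ≤ ∑ _τ : I → Fin (N + 1), X τ₀ :=
          Finset.sum_le_sum fun τ _ => hτ₀ τ (Finset.mem_univ _)
      _ = _ := by
        rw [Finset.sum_const, Finset.card_univ, Fintype.card_fun, Fintype.card_fin, nsmul_eq_mul]
        push_cast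
        rfl
  have hs1 : 0 ≤ (∑ i, s i) ^ N := pow_nonneg (Finset.sum_nonneg fun i _ => hs0 i) _
  calc (∑ i, s i) ^ (3 * N) = ((∑ i, s i) ^ N) ^ 3 := by rw [← pow_mul, mul_comm]
    _ ≤ (((N + 1 : ℕ) : ℝ) ^ Fintype.card I * X τ₀) ^ 3 := pow_le_pow_left₀ hs1 h4 3
    _ = ((N + 1 : ℕ) : ℝ) ^ (3 * Fintype.card I) * X τ₀ ^ 3 := by
        rw [mul_pow, ← pow_mul, mul_comm (Fintype.card I) 3]
    _ ≤ _ := mul_le_mul_of_nonneg_left (hX3 τ₀) (by positivity)

end pow

end Deg

theorem powD_bound (h : S_PIV) (G H : Type) [Group G] [Fintype G] [Group H] [Fintype H]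
    (φ : H →* G) (hφ : Function.Injective φ) (ρ : ℝ) (hρ : 0 < ρ)
    (hgood : ∀ N : ℕ, 1 ≤ N → Good (Fin 3 × Fin N → H) (ρ ^ (3 * N)))
    (I : Type) [Fintype I] (A B C : I → Finset G) (u v w : G → ℤ) (hst : DSTPP A B C u v w) :
    ∑ i, (((A i).card * (B i).card * (C i).card : ℕ) : ℝ) ^ ((2 : ℝ) / 3) ≤
      ρ * Fintype.card G := by
  set s : I → ℝ := fun i =>
    (((A i).card * (B i).card * (C i).card : ℕ) : ℝ) ^ ((2 : ℝ) / 3) with hs
  have hG : (0 : ℝ) < Fintype.card G := by exact_mod_cast Fintype.card_pos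
  refine Pow.growth (∑ i, s i) (ρ * Fintype.card G) (by positivity) (3 * Fintype.card I) ?_
  intro N hN
  have h1 := Deg.power_ineqD h hst φ hφ N (ρ ^ (3 * N)) (hgood N hN) (by positivity) s
    (fun i => by simp only [hs]; positivity) (fun i => by
      simp only [hs]
      rw [← Real.rpow_natCast, ← Real.rpow_mul (by positivity)]
      have e : (2 : ℝ) / 3 * ((3 : ℕ) : ℝ) = ((2 : ℕ) : ℝ) := by
        push_cast
        norm_num
      rw [e, Real.rpow_natCast]
      push_cast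
      rfl)
  refine h1.trans (le_of_eq ?_)
  rw [mul_pow]
  ring

theorem elemD_bound {G : Type} [Group G] [Fintype G] {p : ℕ} [Fact p.Prime] {κ : Type} [Fintype κ]
    (φ : Multiplicative (κ → ZMod p) →* G) (hφ : Function.Injective φ)
    {I : Type} [Fintype I] {A B C : I → Finset G} {u v w : G → ℤ} (h : DSTPP A B C u v w) :
    ∑ i, (((A i).card * (B i).card * (C i).card : ℕ) : ℝ) ^ ((2 : ℝ) / 3) ≤
      Real.exp (-(Fintype.card κ : ℝ) / 18) * Fintype.card G := by
  classical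
  refine powD_bound piv G (Multiplicative (κ → ZMod p)) φ hφ _ (Real.exp_pos _) ?_ I A B C
    u v w h
  intro N _
  have h1 := (elem p ((Fin 3 × Fin N) × κ)).congr (reidx p (Fin 3 × Fin N) κ)
  have h2 : Real.exp (-(Fintype.card ((Fin 3 × Fin N) × κ) : ℝ) / 18) =
      Real.exp (-(Fintype.card κ : ℝ) / 18) ^ (3 * N) := by
    rw [← Real.exp_nat_mul]
    congr 1
    simp only [Fintype.card_prod, Fintype.card_fin]
    push_cast
    ring
  rw [h2] at h1
  convert h1

theorem extD_bound {G : Type} [Group G] [Fintype G]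
    {p : ℕ} [Fact p.Prime] {P : Type} [Group P] [Fintype P] {Z : Subgroup P} {r z : ℕ}
    (hP : Ext p P Z r z) (φ : P →* G) (hφ : Function.Injective φ)
    {I : Type} [Fintype I] {A B C : I → Finset G} {u v w : G → ℤ} (h : DSTPP A B C u v w) :
    ∑ i, (((A i).card * (B i).card * (C i).card : ℕ) : ℝ) ^ ((2 : ℝ) / 3) ≤
      Real.exp (-(r : ℝ) / 18) * Fintype.card G := by
  classical
  refine powD_bound piv G P φ hφ _ (Real.exp_pos _) ?_ I A B C u v w h
  intro N _
  obtain ⟨c, ⟨e⟩⟩ := ext_bil p (Fin 3 × Fin N → P) _ _ _ (hP.pi (Fin 3 × Fin N))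
  have h4 := (good_bil ela2 elb2 p (Fin (Fintype.card (Fin 3 × Fin N) * r))
    (Fin (Fintype.card (Fin 3 × Fin N) * z)) c).congr e.symm
  have h5 : Real.exp (-(Fintype.card (Fin (Fintype.card (Fin 3 × Fin N) * r)) : ℝ) / 18) =
      Real.exp (-(r : ℝ) / 18) ^ (3 * N) := by
    rw [← Real.exp_nat_mul]
    congr 1
    simp only [Fintype.card_prod, Fintype.card_fin]
    push_cast
    ring
  rw [h5] at h4
  convert h4

/-- Elementary abelian sections. -/
theorem sectionD_bound {G : Type} [Group G] [Finite G] (H : Subgroup G) (K : Subgroup H)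
    (hK : K.Normal) {p r : ℕ} (hp : p.Prime) (hcomm : ∀ x y : H, x * y * x⁻¹ * y⁻¹ ∈ K)
    (hpow : ∀ x : H, x ^ p ∈ K) (hr : p ^ r ≤ K.index) {I : Type} [Fintype I]
    {A B C : I → Finset G} {u v w : G → ℤ} (h : DSTPP A B C u v w) :
    (∑ i, (((A i).card * (B i).card * (C i).card : ℕ) : ℝ) ^ ((2 : ℝ) / 3)) *
      Real.exp ((r : ℝ) / 360) ≤ Nat.card G := by
  classical
  have : Fact p.Prime := ⟨hp⟩
  have hfin : Fintype G := Fintype.ofFinite G
  obtain ⟨Ω, hΩ1, hΩ2, hΩ3⟩ := sec H p r K hK hcomm hpow hr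
  obtain ⟨P, Z, d, z, hE, hvz⟩ := lrg p Ω hΩ1 hΩ2 r hΩ3
  have hfin' : Fintype P := Fintype.ofFinite P
  let φ : P →* G := H.subtype.comp (Ω.subtype.comp P.subtype)
  have hφ : Function.Injective φ :=
    H.subtype_injective.comp (Ω.subtype_injective.comp P.subtype_injective)
  have key : ∑ i, (((A i).card * (B i).card * (C i).card : ℕ) : ℝ) ^ ((2 : ℝ) / 3) ≤
      Real.exp (-(r : ℝ) / 360) * Fintype.card G := by
    rcases hvz with h6 | h6
    · refine (extD_bound hE φ hφ h).trans ?_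
      refine mul_le_mul_of_nonneg_right (Real.exp_le_exp.2 ?_) (Nat.cast_nonneg _)
      have h7 : (r : ℝ) ≤ 20 * d := by exact_mod_cast h6
      linarith
    · let hZ : CommGroup Z := { (inferInstance : Group Z) with
        mul_comm := fun a b => Subtype.ext (hE.central a a.2 b) }
      obtain ⟨ψ, hψ⟩ := exists_hom hp Z (fun x => Subtype.ext (hE.zpow x x.2)) hE.cardZ
      have h7 := elemD_bound (φ.comp (Z.subtype.comp ψ))
        (hφ.comp (Z.subtype_injective.comp hψ)) h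
      rw [Fintype.card_fin] at h7
      refine h7.trans ?_
      refine mul_le_mul_of_nonneg_right (Real.exp_le_exp.2 ?_) (Nat.cast_nonneg _)
      have h8 : (r : ℝ) ≤ 20 * z := by exact_mod_cast h6
      linarith
  rw [Nat.card_eq_fintype_card]
  calc _ ≤ (Real.exp (-(r : ℝ) / 360) * Fintype.card G) * Real.exp ((r : ℝ) / 360) :=
        mul_le_mul_of_nonneg_right key (Real.exp_pos _).le
    _ = (Real.exp (-(r : ℝ) / 360) * Real.exp ((r : ℝ) / 360)) * Fintype.card G := by ring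
    _ = Fintype.card G := by
        rw [← Real.exp_add]
        have : -(r : ℝ) / 360 + (r : ℝ) / 360 = 0 := by ring
        rw [this, Real.exp_zero, one_mul]

theorem sectionD_classes {G : Type} [Group G] [Finite G] (H : Subgroup G) (K : Subgroup H)
    (hK : K.Normal) {p r : ℕ} (hp : p.Prime) (hcomm : ∀ x y : H, x * y * x⁻¹ * y⁻¹ ∈ K)
    (hpow : ∀ x : H, x ^ p ∈ K) (hr : p ^ r ≤ K.index) {I : Type} [Fintype I]
    {A B C : I → Finset G} {u v w : G → ℤ} (h : DSTPP A B C u v w) {n : ℕ} {d : Fin n → ℕ}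
    (hd : Nonempty (MonoidAlgebra ℂ G ≃ₐ[ℂ] ∀ j, Matrix (Fin (d j)) (Fin (d j)) ℂ))
    {ω : ℝ} (hω : 2 ≤ ω) :
    (∑ i, (((A i).card * (B i).card * (C i).card : ℕ) : ℝ) ^ (ω / 3)) *
      Real.exp ((r : ℝ) * ω / 720) ≤
        (Nat.card (ConjClasses G) : ℝ) ^ (ω / 2 - 1) * ∑ j, (d j : ℝ) ^ ω := by
  have h1 := pwr2 n (Nat.card (ConjClasses G)) (Nat.card G) d I _ _ ω (card_eq_sum hd)
    (chr G n d hd) hω (Real.exp_pos _) (sectionD_bound H K hK hp hcomm hpow hr h)
  have e1 : Real.exp ((r : ℝ) / 360) ^ (ω / 2) = Real.exp ((r : ℝ) * ω / 720) := by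
    rw [← Real.exp_mul]
    congr 1
    ring
  rwa [e1] at h1

end Pool.Agent.N726.BG
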