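import Pool.Agent.N726.BG.Stm

/-!
# Project SB (helper726), leaf MIX (helper157): mixing in quasirandom groups
-/

set_option linter.unusedSectionVars false

namespace Pool.Agent.N726.BG

open Finset

namespace Mix

open scoped InnerProductSpace

variable {H : Type} [Group H] [Fintype H]

/-- right translation -/
noncomputable def R (g : H) : EuclideanSpace ℂ H →ₗ[ℂ] EuclideanSpace ℂ H where
  toFun f := WithLp.toLp 2 (fun x => f (x * g))
  map_add' _ _ := rfl
  map_smul' _ _ := rfl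

theorem R_apply (g : H) (f : EuclideanSpace ℂ H) (x : H) : R g f x = f (x * g) := rfl

theorem R_mul (g h : H) (f : EuclideanSpace ℂ H) : R (g * h) f = R g (R h f) := by
  ext x
  rw [R_apply, R_apply, R_apply, mul_assoc]

theorem R_one (f : EuclideanSpace ℂ H) : R 1 f = f := by
  ext x
  rw [R_apply, mul_one]

theorem const_of_small {D : ℕ} (hQ : Quasirandom H D) (W : Submodule ℂ (EuclideanSpace ℂ H))
    (hW : ∀ g, ∀ w ∈ W, R g w ∈ W) (hD : Module.finrank ℂ W < D) (w : EuclideanSpace ℂ H)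
    (hw : w ∈ W) (x y : H) : w x = w y := by
  classical
  let b := Module.finBasis ℂ W
  let φ : H →* Module.End ℂ W :=
    { toFun := fun g => (R g).restrict (hW g)
      map_one' := by
        apply LinearMap.ext
        intro v
        apply Subtype.ext
        exact R_one _
      map_mul' := by
        intro g h
        apply LinearMap.ext
        intro v
        apply Subtype.ext
        exact R_mul g h _ }
  let ρ : H →* Matrix (Fin (Module.finrank ℂ W)) (Fin (Module.finrank ℂ W)) ℂ :=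
    (LinearMap.toMatrixAlgEquiv b).toMulEquiv.toMonoidHom.comp φ
  have h1 : ρ = 1 := hQ _ hD ρ
  have h2 : φ (x⁻¹ * y) = 1 := by
    apply (LinearMap.toMatrixAlgEquiv b).injective
    have h3 : ρ (x⁻¹ * y) = 1 := by rw [h1]; rfl
    rw [map_one]
    exact h3
  have h4 : R (x⁻¹ * y) w = w := by
    have h5 := congrArg (fun L : Module.End ℂ W => ((L ⟨w, hw⟩ : W) : EuclideanSpace ℂ H)) h2
    exact h5
  have h6 := congrArg (fun v : EuclideanSpace ℂ H => v x) h4
  simp only [R_apply] at h6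
  rw [← h6, mul_inv_cancel_left]

theorem inner_R (g : H) (u v : EuclideanSpace ℂ H) : ⟪R g u, R g v⟫_ℂ = ⟪u, v⟫_ℂ := by
  rw [PiLp.inner_apply, PiLp.inner_apply]
  exact Fintype.sum_equiv (Equiv.mulRight g) _ _ (fun x => rfl)

theorem inner_R' (g : H) (u v : EuclideanSpace ℂ H) : ⟪R g u, v⟫_ℂ = ⟪u, R g⁻¹ v⟫_ℂ := by
  rw [← inner_R g u (R g⁻¹ v), ← R_mul, mul_inv_cancel, R_one]

/-- convolution with `f` -/
noncomputable def T (f : H → ℝ) : EuclideanSpace ℂ H →ₗ[ℂ] EuclideanSpace ℂ H where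
  toFun g := WithLp.toLp 2 (fun z => ∑ y, (f (z * y⁻¹) : ℂ) * g y)
  map_add' u v := by
    ext z
    simp [mul_add, sum_add_distrib]
  map_smul' c u := by
    ext z
    simp only [PiLp.smul_apply, smul_eq_mul, RingHom.id_apply, mul_sum]
    apply sum_congr rfl
    intro y _
    ring

theorem T_apply (f : H → ℝ) (g : EuclideanSpace ℂ H) (z : H) :
    T f g z = ∑ y, (f (z * y⁻¹) : ℂ) * g y := rfl

theorem T_comm (f : H → ℝ) (g : H) (u : EuclideanSpace ℂ H) : T f (R g u) = R g (T f u) := by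
  ext z
  rw [T_apply, R_apply, T_apply]
  refine Fintype.sum_equiv (Equiv.mulRight g) _ _ (fun y => ?_)
  rw [R_apply, Equiv.coe_mulRight, mul_inv_rev, mul_assoc, mul_inv_cancel_left]

/-- the positive operator -/
noncomputable def M (f : H → ℝ) : EuclideanSpace ℂ H →ₗ[ℂ] EuclideanSpace ℂ H :=
  LinearMap.adjoint (T f) ∘ₗ T f

theorem inner_M (f : H → ℝ) (u v : EuclideanSpace ℂ H) : ⟪M f u, v⟫_ℂ = ⟪T f u, T f v⟫_ℂ := by
  unfold M
  rw [LinearMap.comp_apply, LinearMap.adjoint_inner_left]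

theorem M_symm (f : H → ℝ) : (M f).IsSymmetric := by
  intro u v
  rw [inner_M, ← inner_conj_symm u (M f v), inner_M, inner_conj_symm]

theorem M_comm (f : H → ℝ) (g : H) (u : EuclideanSpace ℂ H) : M f (R g u) = R g (M f u) := by
  apply ext_inner_right ℂ
  intro v
  rw [inner_M, T_comm, inner_R', ← T_comm, ← inner_M, ← inner_R']

/-- the row of the matrix of `T f` -/
noncomputable def tz (f : H → ℝ) (z : H) : EuclideanSpace ℂ H :=
  WithLp.toLp 2 (fun y => (f (z * y⁻¹) : ℂ))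

theorem T_inner (f : H → ℝ) (g : EuclideanSpace ℂ H) (z : H) : T f g z = ⟪tz f z, g⟫_ℂ := by
  rw [T_apply, PiLp.inner_apply]
  apply sum_congr rfl
  intro y _
  have : (tz f z) y = (f (z * y⁻¹) : ℂ) := rfl
  rw [this, RCLike.inner_apply, Complex.conj_ofReal]
  ring

theorem norm_tz (f : H → ℝ) (z : H) : ‖tz f z‖ ^ 2 = ∑ x, f x ^ 2 := by
  rw [EuclideanSpace.norm_sq_eq]
  have h1 : ∀ y : H, ‖(tz f z) y‖ ^ 2 = f (z * y⁻¹) ^ 2 := by
    intro y
    have : (tz f z) y = (f (z * y⁻¹) : ℂ) := rfl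
    rw [this, Complex.norm_real, Real.norm_eq_abs, sq_abs]
  rw [sum_congr rfl fun y _ => h1 y]
  exact Fintype.sum_equiv ((Equiv.inv H).trans (Equiv.mulLeft z)) _ _ (fun y => rfl)

theorem M_const (f : H → ℝ) (hf : ∑ x, f x = 0) (u : EuclideanSpace ℂ H) (hu : ∀ x y, u x = u y) :
    M f u = 0 := by
  have h1 : T f u = 0 := by
    ext z
    rw [T_apply]
    have h2 : ∀ y, (f (z * y⁻¹) : ℂ) * u y = (f (z * y⁻¹) : ℂ) * u 1 := fun y => by rw [hu y 1]
    rw [sum_congr rfl fun y _ => h2 y, ← sum_mul]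
    have h3 : ∑ y : H, (f (z * y⁻¹) : ℂ) = 0 := by
      have h4 : ∑ y : H, f (z * y⁻¹) = ∑ x, f x :=
        Fintype.sum_equiv ((Equiv.inv H).trans (Equiv.mulLeft z)) _ _ (fun y => rfl)
      rw [hf] at h4
      rw [← Complex.ofReal_sum, h4, Complex.ofReal_zero]
    rw [h3, zero_mul]
    rfl
  unfold M
  rw [LinearMap.comp_apply, h1, map_zero]

/-- the bound for the eigenvalues -/
theorem eig_bound {D : ℕ} (hQ : Quasirandom H D) (f : H → ℝ) (hf : ∑ x, f x = 0) (μ : ℝ) (hμ : 0 < μ)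
    (b : EuclideanSpace ℂ H) (hb : b ≠ 0) (hb2 : M f b = (μ : ℂ) • b) :
    μ * D ≤ Fintype.card H * ∑ x, f x ^ 2 := by
  classical
  set E : Submodule ℂ (EuclideanSpace ℂ H) := Module.End.eigenspace (M f) (μ : ℂ) with hE
  have hmem : ∀ u, u ∈ E ↔ M f u = (μ : ℂ) • u := fun u => Module.End.mem_eigenspace_iff
  have hinv : ∀ g, ∀ w ∈ E, R g w ∈ E := by
    intro g w hw
    rw [hmem] at hw ⊢
    rw [M_comm, hw, map_smul]
  have hfin : D ≤ Module.finrank ℂ E := by
    by_contra hlt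
    rw [not_le] at hlt
    have h1 := const_of_small hQ E hinv hlt b ((hmem b).2 hb2)
    have h2 := M_const f hf b h1
    rw [hb2] at h2
    rcases smul_eq_zero.1 h2 with h3 | h3
    · exact hμ.ne' (by exact_mod_cast h3)
    · exact hb h3
  set e := stdOrthonormalBasis ℂ E with he
  have horth : Orthonormal ℂ (fun j => ((e j : E) : EuclideanSpace ℂ H)) := by
    have := e.orthonormal
    exact this.comp_linearIsometry E.subtypeₗᵢ
  have h1 : ∀ j, ‖T f (e j : EuclideanSpace ℂ H)‖ ^ 2 = μ := by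
    intro j
    have h2 : (⟪T f (e j : EuclideanSpace ℂ H), T f (e j : EuclideanSpace ℂ H)⟫_ℂ) = (μ : ℂ) := by
      rw [← inner_M, (hmem _).1 (e j).2, inner_smul_left, Complex.conj_ofReal]
      have h3 : (⟪(e j : EuclideanSpace ℂ H), (e j : EuclideanSpace ℂ H)⟫_ℂ) = 1 := by
        rw [inner_self_eq_norm_sq_to_K, horth.1 j]
        norm_num
      rw [h3, mul_one]
    rw [inner_self_eq_norm_sq_to_K] at h2
    apply Complex.ofReal_injective
    rw [← h2]
    push_cast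
    rfl
  have h2 : ∑ j, ‖T f (e j : EuclideanSpace ℂ H)‖ ^ 2 ≤ Fintype.card H * ∑ x, f x ^ 2 := by
    have h3 : ∀ j, ‖T f (e j : EuclideanSpace ℂ H)‖ ^ 2 =
        ∑ z, ‖⟪(e j : EuclideanSpace ℂ H), tz f z⟫_ℂ‖ ^ 2 := by
      intro j
      rw [EuclideanSpace.norm_sq_eq]
      apply sum_congr rfl
      intro z _
      rw [T_inner, ← inner_conj_symm, RCLike.norm_conj]
    rw [sum_congr rfl fun j _ => h3 j, sum_comm]
    have h4 : ∀ z, ∑ j, ‖⟪(e j : EuclideanSpace ℂ H), tz f z⟫_ℂ‖ ^ 2 ≤ ∑ x, f x ^ 2 := by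
      intro z
      rw [← norm_tz f z]
      exact horth.sum_inner_products_le (tz f z)
    refine (sum_le_sum fun z _ => h4 z).trans (le_of_eq ?_)
    rw [sum_const, card_univ, nsmul_eq_mul]
  rw [sum_congr rfl fun j _ => h1 j, sum_const, card_univ, Fintype.card_fin, nsmul_eq_mul] at h2
  have h5 : (D : ℝ) ≤ Module.finrank ℂ E := by exact_mod_cast hfin
  nlinarith

theorem op_bound {D : ℕ} (hQ : Quasirandom H D) (f : H → ℝ) (hf : ∑ x, f x = 0)
    (g : EuclideanSpace ℂ H) :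
    D * ‖T f g‖ ^ 2 ≤ (Fintype.card H * ∑ x, f x ^ 2) * ‖g‖ ^ 2 := by
  have hn : Module.finrank ℂ (EuclideanSpace ℂ H) = Fintype.card H := finrank_euclideanSpace
  set b := (M_symm f).eigenvectorBasis hn with hb
  set ev := (M_symm f).eigenvalues hn with hev
  have hap : ∀ j, M f (b j) = ((ev j : ℝ) : ℂ) • b j := fun j => (M_symm f).apply_eigenvectorBasis hn j
  set F := (Fintype.card H : ℝ) * ∑ x, f x ^ 2 with hF
  have hF0 : 0 ≤ F := by
    rw [hF]
    have : 0 ≤ ∑ x, f x ^ 2 := sum_nonneg fun x _ => sq_nonneg _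
    positivity
  have hbd : ∀ j, D * ev j ≤ F := by
    intro j
    rcases le_or_gt (ev j) 0 with h | h
    · have : (D : ℝ) * ev j ≤ 0 := mul_nonpos_of_nonneg_of_nonpos (Nat.cast_nonneg D) h
      linarith
    · have h1 := eig_bound hQ f hf (ev j) h (b j) (b.orthonormal.ne_zero j) (hap j)
      linarith
  -- expand `g`
  have h1 : (‖T f g‖ ^ 2 : ℝ) = ∑ j, ev j * ‖⟪b j, g⟫_ℂ‖ ^ 2 := by
    have h2 : ((‖T f g‖ ^ 2 : ℝ) : ℂ) = ⟪M f g, g⟫_ℂ := by
      rw [inner_M, inner_self_eq_norm_sq_to_K]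
      push_cast
      rfl
    have h3 : (⟪M f g, g⟫_ℂ) = ∑ j, ((ev j * ‖⟪b j, g⟫_ℂ‖ ^ 2 : ℝ) : ℂ) := by
      rw [← b.sum_inner_mul_inner (M f g) g]
      apply sum_congr rfl
      intro j _
      have h4 : (⟪M f g, b j⟫_ℂ) = (ev j : ℂ) * ⟪g, b j⟫_ℂ := by
        rw [(M_symm f) g (b j), hap j, inner_smul_right]
      rw [h4, mul_assoc, ← inner_conj_symm g (b j), mul_comm ((starRingEnd ℂ) _), Complex.mul_conj,
        Complex.normSq_eq_norm_sq]
      push_cast
      ring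
    rw [h3] at h2
    exact_mod_cast h2
  have h2 : ‖g‖ ^ 2 = ∑ j, ‖⟪b j, g⟫_ℂ‖ ^ 2 := (b.sum_sq_norm_inner_right g).symm
  rw [h1, h2, mul_sum, mul_sum]
  apply sum_le_sum
  intro j _
  have := hbd j
  have h5 : 0 ≤ ‖⟪b j, g⟫_ℂ‖ ^ 2 := sq_nonneg _
  nlinarith

theorem D_le [Nontrivial H] {D : ℕ} (hQ : Quasirandom H D) : D ≤ Fintype.card H := by
  classical
  by_contra hlt
  rw [not_le] at hlt
  have h1 := const_of_small hQ ⊤ (fun _ _ _ => Submodule.mem_top) (by
    rw [finrank_top, finrank_euclideanSpace]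
    exact hlt) (EuclideanSpace.single (1 : H) (1 : ℂ)) Submodule.mem_top
  obtain ⟨x, hx⟩ := exists_ne (1 : H)
  have h2 := h1 x 1
  rw [PiLp.single_apply, PiLp.single_apply, if_neg hx, if_pos rfl] at h2
  exact zero_ne_one h2

section
variable [DecidableEq H]

/-- the balanced indicator function -/
noncomputable def ff (X : Finset H) (x : H) : ℝ := (if x ∈ X then 1 else 0) - (X.card : ℝ) / Fintype.card H

omit [Group H] in
theorem card_pos' [Nonempty H] : (0 : ℝ) < Fintype.card H := by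
  exact_mod_cast Fintype.card_pos

omit [Group H] in
theorem sum_ff [Nonempty H] (X : Finset H) : ∑ x, ff X x = 0 := by
  unfold ff
  rw [sum_sub_distrib, sum_boole, sum_const, card_univ, nsmul_eq_mul, filter_mem_eq_inter, univ_inter]
  have := card_pos' (H := H)
  field_simp
  ring

omit [Group H] in
theorem sum_ff_sq [Nonempty H] (X : Finset H) : ∑ x, ff X x ^ 2 ≤ X.card := by
  have h1 : ∀ x, ff X x ^ 2 = (if x ∈ X then 1 else 0) - 2 * ((X.card : ℝ) / Fintype.card H) *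
      (if x ∈ X then 1 else 0) + ((X.card : ℝ) / Fintype.card H) ^ 2 := by
    intro x
    unfold ff
    split_ifs <;> ring
  rw [sum_congr rfl fun x _ => h1 x, sum_add_distrib, sum_sub_distrib, ← mul_sum, sum_boole,
    sum_const, card_univ, nsmul_eq_mul, filter_mem_eq_inter, univ_inter]
  have h2 := card_pos' (H := H)
  have h3 : (Fintype.card H : ℝ) * ((X.card : ℝ) / Fintype.card H) ^ 2 =
      (X.card : ℝ) ^ 2 / Fintype.card H := by
    field_simp
  have h4 : 2 * ((X.card : ℝ) / Fintype.card H) * X.card = 2 * ((X.card : ℝ) ^ 2 / Fintype.card H) := by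
    ring
  rw [h3, h4]
  have h5 : 0 ≤ (X.card : ℝ) ^ 2 / Fintype.card H := by positivity
  linarith

/-- the indicator function -/
noncomputable def ind (Y : Finset H) : EuclideanSpace ℂ H :=
  WithLp.toLp 2 (fun y => if y ∈ Y then 1 else 0)

omit [Group H] in
theorem norm_ind (Y : Finset H) : ‖ind Y‖ ^ 2 = Y.card := by
  rw [EuclideanSpace.norm_sq_eq]
  have h1 : ∀ y : H, ‖(ind Y) y‖ ^ 2 = if y ∈ Y then (1 : ℝ) else 0 := by
    intro y
    have : (ind Y) y = if y ∈ Y then (1 : ℂ) else 0 := rfl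
    rw [this]
    split_ifs <;> simp
  rw [sum_congr rfl fun y _ => h1 y, sum_boole, filter_mem_eq_inter, univ_inter]

/-- the values -/
noncomputable def tY (X Y : Finset H) (w : H) : ℝ :=
  ((Y.filter fun y => w * y⁻¹ ∈ X).card : ℝ) - (X.card : ℝ) * Y.card / Fintype.card H

theorem T_ind (X Y : Finset H) (w : H) : T (ff X) (ind Y) w = ((tY X Y w : ℝ) : ℂ) := by
  rw [T_apply]
  have h1 : ∀ y : H, ((ff X (w * y⁻¹) : ℝ) : ℂ) * (ind Y) y =
      (((if y ∈ Y then ff X (w * y⁻¹) else 0 : ℝ)) : ℂ) := by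
    intro y
    have : (ind Y) y = if y ∈ Y then (1 : ℂ) else 0 := rfl
    rw [this]
    split_ifs <;> simp
  rw [sum_congr rfl fun y _ => h1 y, ← Complex.ofReal_sum]
  congr 1
  rw [← sum_filter, filter_mem_eq_inter, univ_inter]
  unfold ff tY
  rw [sum_sub_distrib, sum_boole, sum_const, nsmul_eq_mul]
  ring

theorem norm_T_ind (X Y : Finset H) : ‖T (ff X) (ind Y)‖ ^ 2 = ∑ w, tY X Y w ^ 2 := by
  rw [EuclideanSpace.norm_sq_eq]
  apply sum_congr rfl
  intro w _
  rw [T_ind, Complex.norm_real, Real.norm_eq_abs, sq_abs]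

theorem count (X Y Z : Finset H) :
    ((((X ×ˢ Y).filter fun q => (q.1 * q.2)⁻¹ ∈ Z).card : ℝ) -
      (X.card * Y.card * Z.card : ℝ) / Fintype.card H) = ∑ z ∈ Z, tY X Y z⁻¹ := by
  unfold tY
  rw [sum_sub_distrib, sum_const, nsmul_eq_mul]
  have h1 : (((X ×ˢ Y).filter fun q => (q.1 * q.2)⁻¹ ∈ Z).card : ℝ) =
      ∑ z ∈ Z, ((Y.filter fun y => z⁻¹ * y⁻¹ ∈ X).card : ℝ) := by
    rw [← Nat.cast_sum, ← card_sigma]
    congr 1
    refine card_bij' (fun q _ => ⟨(q.1 * q.2)⁻¹, q.2⟩) (fun s _ => (s.1⁻¹ * s.2⁻¹, s.2)) ?_ ?_ ?_ ?_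
    · intro q hq
      rw [mem_filter, mem_product] at hq
      rw [mem_sigma, mem_filter]
      refine ⟨hq.2, hq.1.2, ?_⟩
      simp only [inv_inv, mul_inv_cancel_right]
      exact hq.1.1
    · intro s hs
      rw [mem_sigma, mem_filter] at hs
      rw [mem_filter, mem_product]
      refine ⟨⟨hs.2.2, hs.2.1⟩, ?_⟩
      simp only [inv_mul_cancel_right, inv_inv]
      exact hs.1
    · intro q _
      simp
    · intro s _
      simp
  rw [h1]
  ring

theorem mixing {D : ℕ} (hQ : Quasirandom H D) : Mixing H D := by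
  intro X Y Z
  rw [count]
  have h1 := op_bound hQ (ff X) (sum_ff X) (ind Y)
  rw [norm_T_ind, norm_ind] at h1
  have h2 : (∑ z ∈ Z, tY X Y z⁻¹) ^ 2 ≤ Z.card * ∑ z ∈ Z, tY X Y z⁻¹ ^ 2 := by
    have := sq_sum_le_card_mul_sum_sq (s := Z) (f := fun z => tY X Y z⁻¹)
    exact this
  have h3 : ∑ z ∈ Z, tY X Y z⁻¹ ^ 2 ≤ ∑ w, tY X Y w ^ 2 := by
    have h4 : ∑ z ∈ Z, tY X Y z⁻¹ ^ 2 ≤ ∑ z : H, tY X Y z⁻¹ ^ 2 :=
      sum_le_sum_of_subset_of_nonneg (subset_univ _) (fun _ _ _ => sq_nonneg _)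
    refine h4.trans (le_of_eq ?_)
    exact Fintype.sum_equiv (Equiv.inv H) _ _ (fun z => rfl)
  have h5 := sum_ff_sq X
  have hZ : (0 : ℝ) ≤ Z.card := Nat.cast_nonneg _
  have hY : (0 : ℝ) ≤ Y.card := Nat.cast_nonneg _
  have hD : (0 : ℝ) ≤ D := Nat.cast_nonneg _
  have hH : (0 : ℝ) ≤ Fintype.card H := Nat.cast_nonneg _
  calc (∑ z ∈ Z, tY X Y z⁻¹) ^ 2 * D ≤ (Z.card * ∑ w, tY X Y w ^ 2) * D := by
        gcongr
        exact h2.trans (mul_le_mul_of_nonneg_left h3 hZ)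
    _ = Z.card * (D * ∑ w, tY X Y w ^ 2) := by ring
    _ ≤ Z.card * (Fintype.card H * (∑ x, ff X x ^ 2) * Y.card) := by gcongr
    _ ≤ Z.card * (Fintype.card H * X.card * Y.card) := by gcongr
    _ = _ := by ring

end

end Mix

theorem mix : S_MIX := fun _ _ _ _ _ _ hQ => ⟨Mix.D_le hQ, Mix.mixing hQ⟩

end Pool.Agent.N726.BG
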