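import Pool.Agent.N726.BG.Stm

/-!
# Representations of `SL_2(q)` of small dimension are trivial (Frobenius)
-/

namespace Pool.Agent.N726.BG.Sl2

open Finset Matrix

variable {K : Type} [Field K]

/-- upper unipotent -/
def up (b : K) : SpecialLinearGroup (Fin 2) K := ⟨!![1, b; 0, 1], by simp [Matrix.det_fin_two_of]⟩

/-- lower unipotent -/
def lo (b : K) : SpecialLinearGroup (Fin 2) K := ⟨!![1, 0; b, 1], by simp [Matrix.det_fin_two_of]⟩

/-- diagonal -/
def dg (a : K) (ha : a ≠ 0) : SpecialLinearGroup (Fin 2) K :=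
  ⟨!![a, 0; 0, a⁻¹], by simp [Matrix.det_fin_two_of, ha]⟩

/-- Weyl element -/
def we : SpecialLinearGroup (Fin 2) K := ⟨!![0, 1; -1, 0], by simp [Matrix.det_fin_two_of]⟩

lemma up_zero : up (0 : K) = 1 := by
  ext i j; fin_cases i <;> fin_cases j <;> simp [up]

lemma up_mul (b c : K) : up b * up c = up (b + c) := by
  ext i j; fin_cases i <;> fin_cases j <;> simp [up, Matrix.mul_apply, Fin.sum_univ_two, add_comm]

lemma dg_up (a : K) (ha : a ≠ 0) (b : K) : dg a ha * up b = up (a ^ 2 * b) * dg a ha := by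
  ext i j
  fin_cases i <;> fin_cases j <;> simp [up, dg, Matrix.mul_apply, Fin.sum_univ_two]
  field_simp

lemma we_up (b : K) : we * up b = lo (-b) * we := by
  ext i j
  fin_cases i <;> fin_cases j <;> simp [up, lo, we, Matrix.mul_apply, Fin.sum_univ_two]

lemma bruhat (g : SpecialLinearGroup (Fin 2) K) (hc : g.1 1 0 ≠ 0) :
    g = up ((g.1 0 0 - 1) / g.1 1 0) * lo (g.1 1 0) * up ((g.1 1 1 - 1) / g.1 1 0) := by
  have hd := g.2
  rw [Matrix.det_fin_two] at hd
  have hb : g.1 0 1 = (g.1 0 0 * g.1 1 1 - 1) / g.1 1 0 := by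
    rw [eq_div_iff hc]; linear_combination -hd
  ext i j
  fin_cases i <;> fin_cases j
  · simp [up, lo, Matrix.mul_apply, Fin.sum_univ_two, hc]
  · simp [up, lo, Matrix.mul_apply, Fin.sum_univ_two]
    change g.1 0 1 = _
    rw [hb]
    change _ = ((1 : K) + (g.1 0 0 - 1) / g.1 1 0 * g.1 1 0) * ((g.1 1 1 - 1) / g.1 1 0) +
      (g.1 0 0 - 1) / g.1 1 0
    field_simp
    ring
  · simp [up, lo, Matrix.mul_apply, Fin.sum_univ_two]
  · simp only [up, lo]
    simp [Matrix.mul_apply, Fin.sum_univ_two]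
    change g.1 1 1 = g.1 1 0 * ((g.1 1 1 - 1) / g.1 1 0) + 1
    field_simp
    ring

lemma gen {H : Type*} [Monoid H] (ρ : SpecialLinearGroup (Fin 2) K →* H)
    (h : ∀ b, ρ (up b) = 1) : ρ = 1 := by
  have hl : ∀ b, ρ (lo b) = 1 := by
    intro b
    have h1 : lo b = we * up (-b) * we⁻¹ := by
      rw [we_up, neg_neg]; group
    rw [h1, map_mul, map_mul, h, mul_one, ← map_mul, mul_inv_cancel, map_one]
  have h2 : ∀ g : SpecialLinearGroup (Fin 2) K, g.1 1 0 ≠ 0 → ρ g = 1 := by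
    intro g hg
    rw [bruhat g hg, map_mul, map_mul, h, h, hl]; simp
  ext1 g
  rw [MonoidHom.one_apply]
  by_cases hg : g.1 1 0 = 0
  · have hd := g.2
    rw [Matrix.det_fin_two, hg] at hd
    have ha : g.1 0 0 ≠ 0 := by
      rintro h0; rw [h0] at hd; simp at hd
    have h4 : (lo 1 * g : SpecialLinearGroup (Fin 2) K).1 1 0 = g.1 0 0 + g.1 1 0 := by
      refine (congrFun (congrFun (Matrix.SpecialLinearGroup.coe_mul (lo (1 : K)) g) 1) 0).trans ?_
      simp [lo, Matrix.mul_apply, Fin.sum_univ_two]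
    have h3 := h2 (lo 1 * g) (by
      intro h5
      apply ha
      rw [hg, add_zero] at h4
      exact h4.symm.trans h5)
    rwa [map_mul, hl, one_mul] at h3
  · exact h2 g hg

variable [Fintype K] [DecidableEq K] {n : ℕ}
  (ρ : SpecialLinearGroup (Fin 2) K →* Matrix (Fin n) (Fin n) ℂ)

/-- unnormalised projector -/
noncomputable def pr (ψ : AddChar K ℂ) : Matrix (Fin n) (Fin n) ℂ := ∑ b, ψ (-b) • ρ (up b)

lemma up_pr (ψ : AddChar K ℂ) (c : K) : ρ (up c) * pr ρ ψ = ψ c • pr ρ ψ := by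
  unfold pr
  rw [Finset.mul_sum, Finset.smul_sum]
  refine Fintype.sum_equiv (Equiv.addLeft c) _ _ fun b => ?_
  rw [Matrix.mul_smul, ← map_mul, up_mul, Equiv.coe_addLeft, smul_smul, ← AddChar.map_add_eq_mul]
  congr 2
  ring

lemma pr_pr (χ ψ : AddChar K ℂ) : pr ρ χ * pr ρ ψ =
    (if χ = ψ then (Fintype.card K : ℂ) else 0) • pr ρ ψ := by
  have h1 : pr ρ χ * pr ρ ψ = (∑ b, (ψ - χ) b) • pr ρ ψ := by
    conv_lhs => rw [pr, Finset.sum_mul]
    rw [Finset.sum_smul]
    refine Finset.sum_congr rfl fun b _ => ?_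
    rw [Matrix.smul_mul, up_pr, smul_smul, AddChar.sub_apply, mul_comm]
  rw [h1, AddChar.sum_eq_ite]
  congr 1
  by_cases h : χ = ψ
  · simp [h]
  · rw [if_neg h, if_neg]
    rw [sub_eq_zero]
    exact fun h2 => h h2.symm

lemma sum_pr : ∑ ψ, pr ρ ψ = (Fintype.card K : ℂ) • (1 : Matrix (Fin n) (Fin n) ℂ) := by
  unfold pr
  rw [Finset.sum_comm]
  rw [Finset.sum_eq_single (0 : K)]
  · rw [← Finset.sum_smul, up_zero, map_one]
    congr 1
    simp [AddChar.sum_apply_eq_ite]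
  · intro b _ hb
    rw [← Finset.sum_smul, AddChar.sum_apply_eq_ite, if_neg (by simpa using hb), zero_smul]
  · intro h; exact absurd (Finset.mem_univ _) h

lemma dg_pr (ψ : AddChar K ℂ) (a : K) (ha : a ≠ 0) :
    ρ (dg a ha) * pr ρ (ψ.mulShift (a ^ 2)) = pr ρ ψ * ρ (dg a ha) := by
  unfold pr
  rw [Finset.mul_sum, Finset.sum_mul]
  refine Fintype.sum_equiv (Equiv.mulLeft₀ (a ^ 2) (pow_ne_zero 2 ha)) _ _ fun b => ?_
  rw [Matrix.mul_smul, Matrix.smul_mul, ← map_mul, ← map_mul, dg_up, AddChar.mulShift_apply]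
  simp

lemma pr_ne (ψ : AddChar K ℂ) (h : pr ρ ψ ≠ 0) (a : K) (ha : a ≠ 0) :
    pr ρ (ψ.mulShift (a ^ 2)) ≠ 0 := by
  intro h0
  have h1 := dg_pr ρ ψ a ha
  rw [h0, mul_zero] at h1
  apply h
  have h2 : pr ρ ψ * ρ (dg a ha) * ρ (dg a ha)⁻¹ = 0 := by rw [← h1, zero_mul]
  rwa [mul_assoc, ← map_mul, mul_inv_cancel, map_one, mul_one] at h2

/-- Distinct characters which occur number at most `n`. -/
lemma card_le (S : Finset (AddChar K ℂ)) (h : ∀ ψ ∈ S, pr ρ ψ ≠ 0) : S.card ≤ n := by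
  have h1 : ∀ ψ : S, ∃ v : Fin n → ℂ, pr ρ ψ.1 *ᵥ v ≠ 0 := by
    intro ψ
    by_contra hc
    push Not at hc
    apply h ψ.1 ψ.2
    ext i j
    have := congrFun (hc (Pi.single j 1)) i
    simpa using this
  choose v hv using h1
  have hli : LinearIndependent ℂ (fun ψ : S => pr ρ ψ.1 *ᵥ v ψ) := by
    rw [Fintype.linearIndependent_iff]
    intro c hc χ
    have h2 : pr ρ χ.1 *ᵥ (∑ ψ : S, c ψ • (pr ρ ψ.1 *ᵥ v ψ)) = 0 := by rw [hc, Matrix.mulVec_zero]
    rw [Matrix.mulVec_sum] at h2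
    rw [Finset.sum_eq_single χ] at h2
    · rw [Matrix.mulVec_smul, Matrix.mulVec_mulVec, pr_pr, if_pos rfl, Matrix.smul_mulVec,
        smul_smul] at h2
      have h3 := (smul_eq_zero.1 h2).resolve_right (hv χ)
      refine (mul_eq_zero.1 h3).resolve_right ?_
      exact_mod_cast Fintype.card_ne_zero
    · intro ψ _ hne
      rw [Matrix.mulVec_smul, Matrix.mulVec_mulVec, pr_pr, if_neg, zero_smul, Matrix.zero_mulVec,
        smul_zero]
      exact fun h3 => hne (Subtype.ext h3.symm)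
    · intro h3; exact absurd (Finset.mem_univ _) h3
  have := hli.fintype_card_le_finrank
  simpa using this

end Pool.Agent.N726.BG.Sl2

namespace Pool.Agent.N726.BG

open Finset Matrix Sl2

theorem sl2 : S_SL2 := by
  intro K _ _ _ n hn ρ
  apply Sl2.gen
  by_contra hcon
  -- some nontrivial character occurs
  have h1 : ∃ ψ : AddChar K ℂ, ψ ≠ 1 ∧ pr ρ ψ ≠ 0 := by
    by_contra hc
    push Not at hc
    apply hcon
    intro b
    have hq : (Fintype.card K : ℂ) ≠ 0 := by exact_mod_cast Fintype.card_ne_zero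
    have h2 := sum_pr ρ
    rw [Finset.sum_eq_single (1 : AddChar K ℂ) (fun ψ _ hψ => hc ψ hψ)
      (fun h => absurd (Finset.mem_univ _) h)] at h2
    have h3 := up_pr ρ 1 b
    rw [h2, AddChar.one_apply, one_smul, Matrix.mul_smul, mul_one] at h3
    exact smul_right_injective _ hq h3
  obtain ⟨ψ, hψ, hne⟩ := h1
  -- the squares
  set N : Finset K := univ.erase 0 with hN
  set T : Finset K := N.image (fun a => a ^ 2) with hT
  have hc1 : N.card ≤ 2 * T.card := by
    rw [mul_comm]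
    refine (Finset.card_le_mul_card_image N 2 ?_).trans (by rw [mul_comm])
    intro s hs
    obtain ⟨a, ha, rfl⟩ := Finset.mem_image.1 hs
    have : (N.filter fun x => x ^ 2 = a ^ 2) ⊆ {a, -a} := by
      intro x hx
      rw [Finset.mem_filter] at hx
      rw [Finset.mem_insert, Finset.mem_singleton]
      exact sq_eq_sq_iff_eq_or_eq_neg.1 hx.2
    exact (Finset.card_le_card this).trans Finset.card_le_two
  have hc2 : N.card = Fintype.card K - 1 := by
    rw [hN, Finset.card_erase_of_mem (Finset.mem_univ _), Finset.card_univ]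
  have hinj := AddChar.to_mulShift_inj_of_isPrimitive (AddChar.IsPrimitive.of_ne_one hψ)
  have hc3 := card_le ρ (T.image ψ.mulShift) (by
    intro χ hχ
    obtain ⟨s, hs, rfl⟩ := Finset.mem_image.1 hχ
    obtain ⟨a, ha, rfl⟩ := Finset.mem_image.1 hs
    exact pr_ne ρ ψ hne a (Finset.ne_of_mem_erase ha))
  rw [Finset.card_image_of_injective _ hinj] at hc3
  omega

end Pool.Agent.N726.BG
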