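import Pool.Agent.N726.BG.Stm

/-!
# Project SB (helper726), leaf TRA (helper364): transfer to cosets
-/

set_option autoImplicit false
set_option linter.unusedSectionVars false

namespace Pool.Agent.N726.BG.Tra

open Finset

section

variable {G H : Type} [Group G] [Group H] [Fintype H] [DecidableEq G] [DecidableEq H] (φ : H →* G)

/-- the family on the subgroup -/
noncomputable def fam {I : Type} (A : I → Finset G) (s : G) (p : I × (G ⧸ φ.range)) : Finset H :=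
  univ.filter fun k => p.2.out * φ k * s ∈ A p.1

variable {φ}

lemma mem_fam {I : Type} {A : I → Finset G} {s : G} {p : I × (G ⧸ φ.range)} {k : H} :
    k ∈ fam φ A s p ↔ p.2.out * φ k * s ∈ A p.1 := by
  unfold fam
  rw [mem_filter]
  exact ⟨fun h => h.2, fun h => ⟨mem_univ _, h⟩⟩

lemma mem_XX {K : Type} [Group K] [DecidableEq K] {L : Type} [Fintype L] {A B : L → Finset K}
    {x : K} : x ∈ XX A B ↔ ∃ l, ∃ a ∈ A l, ∃ b ∈ B l, a⁻¹ * b = x := by
  unfold XX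
  rw [mem_biUnion]
  constructor
  · rintro ⟨l, -, h⟩
    obtain ⟨⟨a, b⟩, hab, hx⟩ := mem_image.1 h
    obtain ⟨ha, hb⟩ := mem_product.1 hab
    exact ⟨l, a, ha, b, hb, hx⟩
  · rintro ⟨l, a, ha, b, hb, hx⟩
    exact ⟨l, mem_univ _, mem_image.2 ⟨(a, b), mem_product.2 ⟨ha, hb⟩, hx⟩⟩

omit [Fintype H] [DecidableEq G] [DecidableEq H] in
lemma ex_out (x : G) : ∃ k : H, x = (QuotientGroup.mk x : G ⧸ φ.range).out * φ k := by
  obtain ⟨⟨_, k, rfl⟩, h⟩ := QuotientGroup.mk_out_eq_mul φ.range x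
  refine ⟨k⁻¹, ?_⟩
  rw [h, map_inv]
  change x = x * φ k * (φ k)⁻¹
  rw [mul_inv_cancel_right]

omit [Fintype H] [DecidableEq G] [DecidableEq H] in
lemma out_inj (hφ : Function.Injective φ) {q q' : G ⧸ φ.range} {k k' : H} {s : G}
    (h : q.out * φ k * s = q'.out * φ k' * s) : q = q' ∧ k = k' := by
  have h1 : q.out * φ k = q'.out * φ k' := mul_right_cancel h
  have h2 : q = q' := by
    have h3 : (QuotientGroup.mk (q.out * φ k) : G ⧸ φ.range) = q := by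
      rw [QuotientGroup.mk_mul_of_mem _ (MonoidHom.mem_range.2 ⟨k, rfl⟩)]
      exact Quotient.out_eq' q
    have h4 : (QuotientGroup.mk (q'.out * φ k') : G ⧸ φ.range) = q' := by
      rw [QuotientGroup.mk_mul_of_mem _ (MonoidHom.mem_range.2 ⟨k', rfl⟩)]
      exact Quotient.out_eq' q'
    rw [← h3, ← h4, h1]
  subst h2
  exact ⟨rfl, hφ (mul_left_cancel h1)⟩

lemma stpp_fam (hφ : Function.Injective φ) {I : Type} {A B C : I → Finset G} (h : STPP A B C)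
    (s t r : G) : STPP (fam φ A s) (fam φ B t) (fam φ C r) := by
  rintro ⟨i, κ⟩ ⟨j, l⟩ ⟨m, μ⟩ k₁ h1 k₁' h1' k₂ h2 k₂' h2' k₃ h3 k₃' h3' he
  rw [mem_fam] at h1 h1' h2 h2' h3 h3'
  have key : κ.out * φ k₁ * s * (l.out * φ k₁' * s)⁻¹ *
      (l.out * φ k₂ * t * (μ.out * φ k₂' * t)⁻¹) *
      (μ.out * φ k₃ * r * (κ.out * φ k₃' * r)⁻¹) = 1 := by
    have h4 : κ.out * φ k₁ * s * (l.out * φ k₁' * s)⁻¹ *
        (l.out * φ k₂ * t * (μ.out * φ k₂' * t)⁻¹) *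
        (μ.out * φ k₃ * r * (κ.out * φ k₃' * r)⁻¹) =
        κ.out * (φ k₁ * (φ k₁')⁻¹ * (φ k₂ * (φ k₂')⁻¹) * (φ k₃ * (φ k₃')⁻¹)) * κ.out⁻¹ := by
      group
    rw [h4]
    have h5 : φ k₁ * (φ k₁')⁻¹ * (φ k₂ * (φ k₂')⁻¹) * (φ k₃ * (φ k₃')⁻¹) = 1 := by
      rw [← map_inv, ← map_inv, ← map_inv, ← map_mul, ← map_mul, ← map_mul, ← map_mul, ← map_mul,
        he, map_one]
    rw [h5, mul_one, mul_inv_cancel]
  obtain ⟨hij, hjm, ha, hb, hc⟩ := h i j m _ h1 _ h1' _ h2 _ h2' _ h3 _ h3' key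
  obtain ⟨q1, e1⟩ := out_inj hφ ha
  obtain ⟨q2, e2⟩ := out_inj hφ hb
  obtain ⟨q3, e3⟩ := out_inj hφ hc
  exact ⟨Prod.ext hij q1, Prod.ext hjm q2, e1, e2, e3⟩

lemma card_le {I : Type} [Fintype I] [Fintype (G ⧸ φ.range)] (A B : I → Finset G) (s t : G) :
    (univ.filter fun h : H => s⁻¹ * φ h * t ∈ XX A B).card ≤ (XX (fam φ A s) (fam φ B t)).card := by
  refine Finset.card_le_card fun h hh => ?_
  obtain ⟨i, a, ha, b, hb, hab⟩ := mem_XX.1 (mem_filter.1 hh).2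
  obtain ⟨k, hk⟩ := ex_out (φ := φ) (a * s⁻¹)
  refine mem_XX.2 ⟨(i, QuotientGroup.mk (a * s⁻¹)), k, ?_, k * h, ?_, ?_⟩
  · rw [mem_fam]
    change (QuotientGroup.mk (a * s⁻¹) : G ⧸ φ.range).out * φ k * s ∈ A i
    rw [← hk, inv_mul_cancel_right]
    exact ha
  · rw [mem_fam]
    change (QuotientGroup.mk (a * s⁻¹) : G ⧸ φ.range).out * φ (k * h) * t ∈ B i
    rw [map_mul, ← mul_assoc, ← hk]
    have h1 : a * s⁻¹ * φ h * t = b := by
      have h2 : a * (a⁻¹ * b) = a * (s⁻¹ * φ h * t) := by rw [hab]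
      rw [mul_inv_cancel_left] at h2
      rw [h2]
      group
    rw [h1]
    exact hb
  · rw [inv_mul_cancel_left]

end

end Pool.Agent.N726.BG.Tra

namespace Pool.Agent.N726.BG

open Finset

theorem tra : S_TRA := by
  intro G H _ _ _ _ _ _ φ hφ D hD hyp I _ A B C hS s t r
  have : Fintype (G ⧸ φ.range) := Fintype.ofFinite _
  have h1 := hyp (I × (G ⧸ φ.range)) (Tra.fam φ A s) (Tra.fam φ B t) (Tra.fam φ C r)
    (Tra.stpp_fam hφ hS s t r)
  refine le_trans ?_ h1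
  refine Nat.mul_le_mul_right D ?_
  exact Nat.mul_le_mul (Nat.mul_le_mul (Tra.card_le A B s t) (Tra.card_le B C t r))
    (Tra.card_le C A r s)

end Pool.Agent.N726.BG
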