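import Mathlib
import Pool.Agent.N726.BG.Mix
import Pool.Agent.N726.BG.Blk
import Pool.Agent.N726.BG.Tra
import Pool.Agent.N726.BG.Avg
import Pool.Agent.N726.BG.Sl2

/-!
# Quasirandom subgroups
-/

namespace Pool.Agent.N726.BG

open Finset

theorem qr_bound {G : Type} [Group G] [Finite G] (H : Subgroup G) (hH : H ≠ ⊥) {D : ℕ}
    (hD : 1 ≤ D) (hq : Quasirandom H D) {I : Type} [Fintype I] {A B C : I → Finset G}
    (h : STPP A B C) :
    (∑ i, (((A i).card * (B i).card * (C i).card : ℕ) : ℝ) ^ ((2 : ℝ) / 3)) *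
      ((D : ℝ) / 4) ^ ((1 : ℝ) / 3) ≤ Nat.card G := by
  classical
  have hfin : Fintype G := Fintype.ofFinite G
  have hfinH : Fintype H := Fintype.ofFinite H
  have hnt : Nontrivial H := (Subgroup.nontrivial_iff_ne_bot H).2 hH
  obtain ⟨hDH, hmix⟩ := mix H D hnt hq
  have h1 := blk H D hD hDH hmix
  have h2 := tra G H H.subtype H.subtype_injective D hD h1 I A B C h
  have hD0 : (0 : ℝ) < D := by exact_mod_cast hD
  have h3 := avg G H H.subtype H.subtype_injective (4 / (D : ℝ)) (by positivity) I A B C h (by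
    intro s t r
    have h4 := h2 s t r
    have h5 : (((univ.filter fun k : H => s⁻¹ * H.subtype k * t ∈ XX A B).card : ℝ) *
        (univ.filter fun k : H => t⁻¹ * H.subtype k * r ∈ XX B C).card *
        (univ.filter fun k : H => r⁻¹ * H.subtype k * s ∈ XX C A).card) * D ≤
          4 * (Fintype.card H : ℝ) ^ 3 := by exact_mod_cast h4
    rw [div_mul_eq_mul_div, le_div_iff₀ hD0]
    exact h5)
  have h6 : (4 / (D : ℝ)) ^ ((1 : ℝ) / 3) * ((D : ℝ) / 4) ^ ((1 : ℝ) / 3) = 1 := by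
    rw [← Real.mul_rpow (by positivity) (by positivity)]
    have : 4 / (D : ℝ) * ((D : ℝ) / 4) = 1 := by field_simp
    rw [this, Real.one_rpow]
  rw [Nat.card_eq_fintype_card]
  calc _ ≤ ((4 / (D : ℝ)) ^ ((1 : ℝ) / 3) * Fintype.card G) * ((D : ℝ) / 4) ^ ((1 : ℝ) / 3) :=
        mul_le_mul_of_nonneg_right h3 (by positivity)
    _ = ((4 / (D : ℝ)) ^ ((1 : ℝ) / 3) * ((D : ℝ) / 4) ^ ((1 : ℝ) / 3)) * Fintype.card G := by ring
    _ = Fintype.card G := by rw [h6, one_mul]

/-- images of quasirandom groups -/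
theorem Quasirandom.range {S G : Type} [Group S] [Group G] (f : S →* G) {D : ℕ}
    (h : Quasirandom S D) : Quasirandom f.range D := by
  intro n hn ρ
  have h1 := h n hn (ρ.comp f.rangeRestrict)
  ext1 y
  obtain ⟨x, hx⟩ := f.rangeRestrict_surjective y
  rw [← hx]
  have h2 := DFunLike.congr_fun h1 x
  simpa using h2

end Pool.Agent.N726.BG
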