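import Pool.Agent.N726.BG.Stm
import Pool.Agent.H185.ZM.SLN

/-!
# SB/SLN: representations of `SL_d(q)`, `d ≥ 3` (helper427)

All elements `row v`, `v ≠ 0`, of the abelian unipotent subgroup are conjugate, so the trace of the
representation is constant on them; the traces of two idempotents are natural numbers.
-/

set_option autoImplicit false

namespace Pool.Agent.N726.BG.Sln

open Matrix Finset
open Pool.Agent.H185.ZM

/-- a function invariant under elementary steps is constant on the nonzero vectors -/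
lemma const_of_step {ι K β : Type*} [Fintype ι] [DecidableEq ι] [Field K] (f : (ι → K) → β)
    (hf : ∀ (v : ι → K) (i j : ι), i ≠ j → ∀ c, f (v + Pi.single j (c * v i)) = f v)
    (h2 : ∀ k : ι, ∃ j, j ≠ k) (v w : ι → K) (hv : v ≠ 0) (hw : w ≠ 0) : f v = f w := by
  classical
  have upd : ∀ (v : ι → K) (i j : ι) (y : K), i ≠ j → v i ≠ 0 →
      f (Function.update v j y) = f v := by
    intro v i j y hij hi
    rw [← hf v i j hij ((y - v j) / v i)]
    congr 1
    ext l
    by_cases hl : l = j
    · subst hl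
      rw [Function.update_self, Pi.add_apply, Pi.single_eq_same, div_mul_cancel₀ _ hi]
      ring
    · rw [Function.update_of_ne hl, Pi.add_apply, Pi.single_eq_of_ne hl, add_zero]
  obtain ⟨k, hk⟩ := Function.ne_iff.1 hw
  rw [Pi.zero_apply] at hk
  have stepb : ∀ v : ι → K, v k = w k → f v = f w := by
    intro v hvk
    have key : ∀ s : Finset ι, f (fun l => if l ∈ s then w l else v l) = f v := by
      intro s
      induction s using Finset.induction_on with
      | empty => simp
      | insert a s ha ih =>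
        rw [← ih]
        by_cases hak : a = k
        · congr 1
          ext l
          by_cases hl : l = a
          · subst hl
            rw [if_pos (Finset.mem_insert_self _ _), if_neg ha, hak, hvk]
          · simp [Finset.mem_insert, hl]
        · rw [← upd (fun l => if l ∈ s then w l else v l) k a (w a) (Ne.symm hak)
            (by split_ifs
                · exact hk
                · rw [hvk]; exact hk)]
          congr 1
          ext l
          by_cases hl : l = a
          · subst hl
            rw [if_pos (Finset.mem_insert_self _ _), Function.update_self]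
          · rw [Function.update_of_ne hl]
            simp [Finset.mem_insert, hl]
    have h := key Finset.univ
    simp only [Finset.mem_univ, if_true] at h
    exact h.symm
  obtain ⟨i, hi⟩ := Function.ne_iff.1 hv
  rw [Pi.zero_apply] at hi
  by_cases hik : i = k
  · obtain ⟨j, hj⟩ := h2 k
    rw [← upd v i j 1 (by rw [hik]; exact hj.symm) hi,
      ← upd (Function.update v j 1) j k (w k) hj (by rw [Function.update_self]; exact one_ne_zero)]
    apply stepb
    rw [Function.update_self]
  · rw [← upd v i k (w k) hik hi]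
    apply stepb
    rw [Function.update_self]

section
variable {K : Type} [Field K] {k : ℕ}

/-- conjugation of `row v` by an elementary matrix -/
lemma row_conj (v : Fin k → K) {l j : Fin k} (h : l.succ ≠ j.succ) (c : K) :
    row v * el h c = el h c * row (v + Pi.single j (c * v l)) := by
  have h0 : (0 : Fin (k + 1)) ≠ j.succ := (Fin.succ_ne_zero j).symm
  have main : row v * el h c = el h0 (c * v l) * (el h c * row v) := by
    apply Subtype.ext
    simp only [Matrix.SpecialLinearGroup.coe_mul, el_coe]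
    show rowM v * _ = _ * (_ * rowM v)
    unfold rowM
    have e1 : (vecMulVec (Pi.single (0 : Fin (k + 1)) (1 : K)) (Fin.cons 0 v)) *
        single l.succ j.succ c = single 0 j.succ (c * v l) := by
      ext a b
      rw [Matrix.mul_apply, Finset.sum_eq_single l.succ]
      · rw [vecMulVec_apply, single_apply, single_apply]
        by_cases ha : a = 0
        · subst ha
          by_cases hb : j.succ = b
          · rw [if_pos ⟨rfl, hb⟩, if_pos ⟨rfl, hb⟩]; simp [mul_comm]
          · rw [if_neg (fun h => hb h.2), if_neg (fun h => hb h.2)]; simp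
        · rw [Pi.single_eq_of_ne ha, if_neg (c := (0 : Fin (k + 1)) = a ∧ j.succ = b)
            (fun h => ha h.1.symm)]; simp
      · intro c _ hc
        rw [single_apply, if_neg (fun h => hc h.1.symm), mul_zero]
      · intro h; exact absurd (Finset.mem_univ _) h
    have e2 : single l.succ j.succ c *
        (vecMulVec (Pi.single (0 : Fin (k + 1)) (1 : K)) (Fin.cons 0 v)) = 0 := by
      ext a b
      rw [Matrix.mul_apply, Finset.sum_eq_zero]
      · rfl
      intro c _
      rw [single_apply, vecMulVec_apply]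
      by_cases hc : j.succ = c
      · rw [← hc, Pi.single_eq_of_ne h0.symm]; simp
      · rw [if_neg (fun h => hc h.2)]; simp
    have e3 : single (0 : Fin (k + 1)) j.succ (c * v l) *
        (vecMulVec (Pi.single (0 : Fin (k + 1)) (1 : K)) (Fin.cons 0 v)) = 0 := by
      ext a b
      rw [Matrix.mul_apply, Finset.sum_eq_zero]
      · rfl
      intro c _
      rw [single_apply, vecMulVec_apply]
      by_cases hc : j.succ = c
      · rw [← hc, Pi.single_eq_of_ne h0.symm]; simp
      · rw [if_neg (fun h => hc h.2)]; simp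
    have e4 : single (0 : Fin (k + 1)) j.succ (c * v l) * single l.succ j.succ c = 0 := by
      rw [single_mul_single_of_ne _ _ _ _ h.symm]
    simp only [mul_add, add_mul, mul_one, one_mul, e1, e2, e3, e4]
    simp
    abel
  rw [main, add_comm v, row_add, row_single, ← mul_assoc, ← mul_assoc]
  congr 1
  exact (el_commute h h0 (Fin.succ_ne_zero j) h c (c * v l)).symm

end

/-- the trace of an idempotent complex matrix is a natural number -/
theorem idem_trace {n : ℕ} (P : Matrix (Fin n) (Fin n) ℂ) (h : P * P = P) :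
    ∃ s : ℕ, P.trace = s := by
  have h2 : IsIdempotentElem (Matrix.toLin' P) := by
    unfold IsIdempotentElem
    rw [Module.End.mul_eq_comp, ← Matrix.toLin'_mul, h]
  refine ⟨Module.finrank ℂ (LinearMap.range (Matrix.toLin' P)), ?_⟩
  rw [← Matrix.trace_toLin'_eq]
  exact (LinearMap.IsIdempotentElem.isProj_range _ h2).trace

theorem idem_zero {n : ℕ} (P : Matrix (Fin n) (Fin n) ℂ) (h : P * P = P) (h0 : P.trace = 0) :
    P = 0 := by
  have h2 : IsIdempotentElem (Matrix.toLin' P) := by
    unfold IsIdempotentElem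
    rw [Module.End.mul_eq_comp, ← Matrix.toLin'_mul, h]
  have h3 := LinearMap.IsIdempotentElem.eq_zero_of_trace_eq_zero h2
    (by rw [Matrix.trace_toLin'_eq]; exact h0)
  exact (LinearEquiv.map_eq_zero_iff Matrix.toLin').1 h3

section
variable {A : Type} [AddCommGroup A] [Fintype A] {n : ℕ}

/-- the projection to the eigenspace -/
noncomputable def Q (τ : A → Matrix (Fin n) (Fin n) ℂ) (ψ : AddChar A ℂ) :
    Matrix (Fin n) (Fin n) ℂ := (Fintype.card A : ℂ)⁻¹ • ∑ v : A, ψ v • τ v

lemma Q_idem (τ : A → Matrix (Fin n) (Fin n) ℂ) (hτ : ∀ v w, τ (v + w) = τ v * τ w)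
    (ψ : AddChar A ℂ) : Q τ ψ * Q τ ψ = Q τ ψ := by
  have hN : (Fintype.card A : ℂ) ≠ 0 := by
    exact_mod_cast Fintype.card_ne_zero
  have h1 : (∑ v : A, ψ v • τ v) * (∑ v : A, ψ v • τ v) =
      (Fintype.card A : ℂ) • ∑ v : A, ψ v • τ v := by
    rw [Finset.sum_mul]
    have h2 : ∀ v : A, (ψ v • τ v) * (∑ w : A, ψ w • τ w) = ∑ w : A, ψ w • τ w := by
      intro v
      rw [Finset.mul_sum, ← Equiv.sum_comp (Equiv.addLeft v) (fun w => ψ w • τ w)]
      refine Finset.sum_congr rfl fun w _ => ?_
      rw [Equiv.coe_addLeft, AddChar.map_add_eq_mul, hτ, Matrix.smul_mul, Matrix.mul_smul,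
        smul_smul]
    rw [Finset.sum_congr rfl fun v _ => h2 v, Finset.sum_const, Finset.card_univ,
      ← Nat.cast_smul_eq_nsmul ℂ]
  unfold Q
  rw [Matrix.smul_mul, Matrix.mul_smul, h1, smul_smul, smul_smul]
  congr 1
  field_simp

lemma Q_trace (τ : A → Matrix (Fin n) (Fin n) ℂ) (h0 : τ 0 = 1) (t : ℂ)
    (ht : ∀ v : A, v ≠ 0 → (τ v).trace = t) (ψ : AddChar A ℂ) :
    (Q τ ψ).trace = (Fintype.card A : ℂ)⁻¹ * (n + t * (∑ v, ψ v - 1)) := by
  classical
  unfold Q
  rw [Matrix.trace_smul, Matrix.trace_sum, smul_eq_mul]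
  congr 1
  have h1 : ∀ v : A, (ψ v • τ v).trace = ψ v * t + if v = 0 then (n : ℂ) - t else 0 := by
    intro v
    rw [Matrix.trace_smul, smul_eq_mul]
    by_cases hv : v = 0
    · subst hv
      rw [h0, if_pos rfl, Matrix.trace_one, Fintype.card_fin, AddChar.map_zero_eq_one]
      ring
    · rw [ht v hv, if_neg hv, add_zero]
  rw [Finset.sum_congr rfl fun v _ => h1 v, Finset.sum_add_distrib, Finset.sum_ite_eq',
    if_pos (Finset.mem_univ _), ← Finset.sum_mul]
  ring

/-- a representation of a finite abelian group with constant trace on the nonzero elements and of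
small dimension is trivial -/
theorem triv (τ : A → Matrix (Fin n) (Fin n) ℂ) (hτ : ∀ v w, τ (v + w) = τ v * τ w) (h0 : τ 0 = 1)
    (t : ℂ) (ht : ∀ v : A, v ≠ 0 → (τ v).trace = t) (hn : n + 1 < Fintype.card A) (w : A) :
    τ w = 1 := by
  classical
  have hN : (Fintype.card A : ℂ) ≠ 0 := by
    exact_mod_cast Fintype.card_ne_zero
  obtain ⟨a, ha⟩ : ∃ a : A, a ≠ 0 := by
    have : 1 < Fintype.card A := by omega
    have := Fintype.one_lt_card_iff_nontrivial.1 this
    exact exists_ne 0
  obtain ⟨ψ, hψ⟩ := AddChar.exists_apply_ne_zero.2 ha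
  have hψ0 : ∑ v, ψ v = 0 := by
    rw [AddChar.sum_eq_zero_iff_ne_zero]
    rintro rfl
    exact hψ (AddChar.zero_apply a)
  have htriv : ∑ v : A, (0 : AddChar A ℂ) v = Fintype.card A := by
    simp
  obtain ⟨k, hk⟩ := idem_trace _ (Q_idem τ hτ 0)
  obtain ⟨m, hm⟩ := idem_trace _ (Q_idem τ hτ ψ)
  rw [Q_trace τ h0 t ht, htriv] at hk
  rw [Q_trace τ h0 t ht, hψ0] at hm
  have h1 : (k : ℂ) + (Fintype.card A - 1) * m = n := by
    rw [← hk, ← hm]
    field_simp
    ring
  have h2 : k + (Fintype.card A - 1) * m = n := by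
    have h3 : ((k + (Fintype.card A - 1) * m : ℕ) : ℂ) = (n : ℕ) := by
      rw [← h1, Nat.cast_add, Nat.cast_mul, Nat.cast_sub (by omega), Nat.cast_one]
    exact_mod_cast h3
  have hm0 : m = 0 := by
    by_contra h
    have h4 : 1 ≤ m := Nat.one_le_iff_ne_zero.2 h
    have h5 : (Fintype.card A - 1) * 1 ≤ (Fintype.card A - 1) * m := Nat.mul_le_mul_left _ h4
    omega
  rw [hm0, mul_zero, add_zero] at h2
  have hP : Q τ 0 = 1 := by
    have h3 : (1 - Q τ 0) * (1 - Q τ 0) = 1 - Q τ 0 := by
      rw [sub_mul, mul_sub, mul_sub, Q_idem τ hτ 0]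
      simp
    have h4 : (1 - Q τ 0).trace = 0 := by
      rw [Matrix.trace_sub, Matrix.trace_one, Fintype.card_fin, Q_trace τ h0 t ht, htriv, hk, h2,
        sub_self]
    exact (sub_eq_zero.1 (idem_zero _ h3 h4)).symm
  have h5 : τ w * Q τ 0 = Q τ 0 := by
    unfold Q
    rw [Matrix.mul_smul, Finset.mul_sum]
    congr 1
    rw [← Equiv.sum_comp (Equiv.addLeft w) (fun v => (0 : AddChar A ℂ) v • τ v)]
    refine Finset.sum_congr rfl fun v _ => ?_
    rw [Equiv.coe_addLeft, Matrix.mul_smul, hτ]
    simp
  rw [hP, mul_one] at h5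
  exact h5

end

section
variable {K : Type} [Field K] {d : ℕ}

open Matrix.SpecialLinearGroup in
/-- diagonal matrices are products of elementary ones -/
lemma diag_eq {i j : Fin d} (hij : i ≠ j) (a : K) (ha : a ≠ 0) :
    diag2n hij a ha = el hij a * el hij.symm (-a⁻¹) * el hij a *
      (el hij (-1) * el hij.symm 1 * el hij (-1)) := by
  obtain ⟨E, hE⟩ : ∃ E : Matrix (Fin d) (Fin d) K, E = single i j 1 := ⟨_, rfl⟩
  obtain ⟨F, hF⟩ : ∃ F : Matrix (Fin d) (Fin d) K, F = single j i 1 := ⟨_, rfl⟩
  obtain ⟨P, hP⟩ : ∃ P : Matrix (Fin d) (Fin d) K, P = single i i 1 := ⟨_, rfl⟩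
  obtain ⟨R, hR⟩ : ∃ R : Matrix (Fin d) (Fin d) K, R = single j j 1 := ⟨_, rfl⟩
  have EF : E * F = P := by rw [hE, hF, hP, single_mul_single_same, one_mul]
  have FE : F * E = R := by rw [hE, hF, hR, single_mul_single_same, one_mul]
  have PE : P * E = E := by rw [hE, hP, single_mul_single_same, one_mul]
  have ER : E * R = E := by rw [hE, hR, single_mul_single_same, one_mul]
  have RF : R * F = F := by rw [hF, hR, single_mul_single_same, one_mul]
  have FP : F * P = F := by rw [hF, hP, single_mul_single_same, one_mul]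
  have PP : P * P = P := by rw [hP, single_mul_single_same, one_mul]
  have RR : R * R = R := by rw [hR, single_mul_single_same, one_mul]
  have EE : E * E = 0 := by rw [hE]; exact single_mul_single_of_ne _ _ _ _ hij.symm _
  have FF : F * F = 0 := by rw [hF]; exact single_mul_single_of_ne _ _ _ _ hij _
  have PF : P * F = 0 := by rw [hP, hF]; exact single_mul_single_of_ne _ _ _ _ hij _
  have FR : F * R = 0 := by rw [hF, hR]; exact single_mul_single_of_ne _ _ _ _ hij _
  have RE : R * E = 0 := by rw [hR, hE]; exact single_mul_single_of_ne _ _ _ _ hij.symm _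
  have EP : E * P = 0 := by rw [hE, hP]; exact single_mul_single_of_ne _ _ _ _ hij.symm _
  have PR : P * R = 0 := by rw [hP, hR]; exact single_mul_single_of_ne _ _ _ _ hij _
  have RP : R * P = 0 := by rw [hR, hP]; exact single_mul_single_of_ne _ _ _ _ hij.symm _
  have key : ∀ b : K, b ≠ 0 → (1 + b • E) * (1 + (-b⁻¹) • F) * (1 + b • E) =
      1 + b • E - b⁻¹ • F - P - R := by
    intro b hb
    have h1 : (1 + b • E) * (1 + (-b⁻¹) • F) = 1 + b • E - b⁻¹ • F - P := by
      rw [add_mul, mul_add, mul_add, smul_mul_smul_comm, EF, mul_neg, mul_inv_cancel₀ hb]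
      simp only [one_mul, mul_one]
      module
    rw [h1, mul_add, mul_one, mul_smul_comm, sub_mul, sub_mul, add_mul, smul_mul_assoc,
      smul_mul_assoc, EE, FE, PE, one_mul, smul_zero, add_zero, smul_sub, smul_sub, smul_smul,
      mul_inv_cancel₀ hb]
    module
  have hs : ∀ (r s : Fin d) (b : K), single r s b = b • single r s (1 : K) := by
    intro r s b
    rw [smul_single, smul_eq_mul, mul_one]
  have k1 := key a ha
  have k2 := key (-1) (neg_ne_zero.2 one_ne_zero)
  have e1 : (-(-1 : K)⁻¹) = 1 := by rw [inv_neg, inv_one, neg_neg]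
  apply Subtype.ext
  simp only [Matrix.SpecialLinearGroup.coe_mul, el_coe]
  rw [hs i j a, hs j i (-a⁻¹), hs i j (-1), ← hE, ← hF]
  rw [e1] at k2
  rw [k1]
  have hF1 : F = (1 : K) • F := (one_smul _ _).symm
  have k3 : (1 + (-1 : K) • E) * (1 + F) * (1 + (-1 : K) • E) = 1 - E + F - P - R := by
    have := k2
    rw [one_smul] at this
    rw [this, inv_neg, inv_one]
    module
  rw [k3]
  have k4 : (1 + a • E - a⁻¹ • F - P - R) * (1 - E + F - P - R) =
      1 + (a - 1) • P + (a⁻¹ - 1) • R := by
    simp only [mul_add, add_mul, mul_sub, sub_mul, smul_mul_assoc, one_mul, mul_one, EF, FE, PE, ER,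
      RF, FP, PP, RR, EE, FF, PF, FR, RE, EP, PR, RP, smul_zero]
    module
  rw [k4, diag2n_coe, hP, hR]
  ext r s
  rw [diagonal_apply, Matrix.add_apply, Matrix.add_apply, Matrix.smul_apply, Matrix.smul_apply,
    single_apply, single_apply, Matrix.one_apply]
  by_cases hrs : r = s
  · subst hrs
    rw [if_pos rfl, if_pos rfl]
    by_cases hri : r = i
    · subst hri
      rw [if_pos rfl, if_pos ⟨rfl, rfl⟩, if_neg (fun h => hij h.1.symm)]
      simp
    · by_cases hrj : r = j
      · subst hrj
        rw [if_neg hri, if_pos rfl, if_neg (fun h => hri h.1.symm), if_pos ⟨rfl, rfl⟩]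
        simp
      · rw [if_neg hri, if_neg hrj, if_neg (fun h => hri h.1.symm), if_neg (fun h => hrj h.1.symm)]
        simp
  · rw [if_neg hrs, if_neg hrs, if_neg (fun h => hrs (h.1.symm.trans h.2)),
      if_neg (fun h => hrs (h.1.symm.trans h.2))]
    simp

/-- a normal subgroup which contains an elementary matrix is everything -/
theorem all_of_el (hd : 3 ≤ d) (N : Subgroup (Matrix.SpecialLinearGroup (Fin d) K)) [N.Normal]
    {i j : Fin d} (hij : i ≠ j) (h : el hij (1 : K) ∈ N)
    (M : Matrix.SpecialLinearGroup (Fin d) K) : M ∈ N := by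
  have hall : ∀ (k l : Fin d) (hkl : k ≠ l) (b : K), el hkl b ∈ N := by
    intro k l hkl b
    have := all_mem N hd hij h k l hkl b
    rwa [one_mul] at this
  have : Nontrivial (Fin d) := ⟨i, j, hij⟩
  refine Matrix.SpecialLinearGroup.diagonal_transvection_induction' (fun M => M ∈ N) M ?_ ?_ ?_
  · intro i j hij c hc
    rw [diag_eq hij c hc]
    exact N.mul_mem (N.mul_mem (N.mul_mem (hall _ _ _ _) (hall _ _ _ _)) (hall _ _ _ _))
      (N.mul_mem (N.mul_mem (hall _ _ _ _) (hall _ _ _ _)) (hall _ _ _ _))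
  · intro i j hij a
    exact hall i j hij a
  · intro A B hA hB
    exact N.mul_mem hA hB

end

end Pool.Agent.N726.BG.Sln

namespace Pool.Agent.N726.BG

open Matrix Finset
open Pool.Agent.H185.ZM Sln

theorem sln : S_SLN := by
  intro K _ _ _ d n hd hn ρ
  obtain ⟨k, rfl⟩ : ∃ k, d = k + 1 := ⟨d - 1, by omega⟩
  have hk : 2 ≤ k := by omega
  have hexj : ∀ l : Fin k, ∃ j, j ≠ l := by
    intro l
    by_cases hl : l = ⟨0, by omega⟩
    · exact ⟨⟨1, by omega⟩, by rw [hl]; simp⟩
    · exact ⟨⟨0, by omega⟩, fun h => hl h.symm⟩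
  obtain ⟨τ, hτd⟩ : ∃ τ : (Fin k → K) → Matrix (Fin n) (Fin n) ℂ, ∀ v, τ v = ρ (row v) :=
    ⟨fun v => ρ (row v), fun v => rfl⟩
  have hτ : ∀ v w, τ (v + w) = τ v * τ w := by
    intro v w
    rw [hτd, hτd, hτd, row_add, map_mul]
  have hτ0 : τ 0 = 1 := by
    rw [hτd, row_zero, map_one]
  have hstep : ∀ (v : Fin k → K) (i j : Fin k), i ≠ j → ∀ c,
      (τ (v + Pi.single j (c * v i))).trace = (τ v).trace := by
    intro v i j hij c
    have h : i.succ ≠ j.succ := fun h => hij (Fin.succ_injective _ h)
    have h1 := row_conj v h c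
    have h2 : row (v + Pi.single j (c * v i)) = (el h c)⁻¹ * row v * el h c := by
      rw [mul_assoc, h1, inv_mul_cancel_left]
    rw [hτd, hτd, h2, map_mul, Matrix.trace_mul_comm, ← map_mul]
    congr 2
    group
  obtain ⟨w0, hw0⟩ : ∃ w0 : Fin k → K, w0 ≠ 0 := by
    have : Nonempty (Fin k) := ⟨⟨0, by omega⟩⟩
    exact exists_ne 0
  have ht : ∀ v : Fin k → K, v ≠ 0 → (τ v).trace = (τ w0).trace := by
    intro v hv
    have := const_of_step (f := fun v : Fin k → K => (τ v).trace)
    exact this hstep hexj v w0 hv hw0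
  have hcard : Fintype.card (Fin k → K) = Fintype.card K ^ (k + 1 - 1) := by
    rw [Fintype.card_pi, Finset.prod_const, Finset.card_univ, Fintype.card_fin, Nat.add_sub_cancel]
  have htriv := triv τ hτ hτ0 (τ w0).trace ht (by rw [hcard]; exact hn)
  have h0 : (⟨0, by omega⟩ : Fin k).succ ≠ 0 := Fin.succ_ne_zero _
  have hel : el (Fin.succ_ne_zero (⟨0, by omega⟩ : Fin k)).symm (1 : K) ∈ ρ.ker := by
    rw [← row_single, MonoidHom.mem_ker, ← hτd]
    exact htriv _
  refine MonoidHom.ext fun M => ?_
  have := all_of_el hd ρ.ker _ hel M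
  rw [MonoidHom.mem_ker] at this
  rw [this, MonoidHom.one_apply]

end Pool.Agent.N726.BG
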