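import Mathlib
import Pool.Agent.N726.BG.Qr
import Pool.Agent.N726.BG.Strong
import Pool.Agent.N726.BG.Sln

/-!
# Quasirandom subgroups and the group-theoretic approach to matrix multiplication
-/

namespace Pool.Agent.N726.BG

open Finset

theorem qr_classes {G : Type} [Group G] [Finite G] (H : Subgroup G) (hH : H ≠ ⊥) {D : ℕ}
    (hq : Quasirandom H D) {I : Type} [Fintype I] {A B C : I → Finset G}
    (h : STPP A B C) {n : ℕ} {d : Fin n → ℕ}
    (hd : Nonempty (MonoidAlgebra ℂ G ≃ₐ[ℂ] ∀ j, Matrix (Fin (d j)) (Fin (d j)) ℂ))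
    {ω : ℝ} (hω : 2 ≤ ω) :
    (∑ i, (((A i).card * (B i).card * (C i).card : ℕ) : ℝ) ^ (ω / 3)) *
      ((D : ℝ) / 4) ^ (ω / 6) ≤
        (Nat.card (ConjClasses G) : ℝ) ^ (ω / 2 - 1) * ∑ j, (d j : ℝ) ^ ω := by
  rcases Nat.eq_zero_or_pos D with h0 | hD
  · subst h0
    have : ((0 : ℕ) : ℝ) / 4 = 0 := by norm_num
    rw [this, Real.zero_rpow (by positivity), mul_zero]
    exact mul_nonneg (Real.rpow_nonneg (Nat.cast_nonneg _) _)
      (Finset.sum_nonneg fun j _ => Real.rpow_nonneg (Nat.cast_nonneg _) _)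
  have hD0 : (0 : ℝ) < D := by exact_mod_cast hD
  have h1 := classes_bound2 (Real.rpow_pos_of_pos (by positivity) _) (qr_bound H hH hD hq h) hd hω
  have e1 : (((D : ℝ) / 4) ^ ((1 : ℝ) / 3)) ^ (ω / 2) = ((D : ℝ) / 4) ^ (ω / 6) := by
    rw [← Real.rpow_mul (by positivity)]
    congr 1
    ring
  rwa [e1] at h1

end Pool.Agent.N726.BG
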